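import Pool.Agent.Lib.MP_6adaea_nt.G.Goursat

/-!
Assembly when the small primes are treated as one block.
-/

set_option linter.unusedSectionVars false

namespace Pool.Agent.Lib.MP_6adaea_nt.G
open Matrix Polynomial

variable {n : Type} [Fintype n] [DecidableEq n] {k : Type} [Field k]

/-- the polynomials whose multiples give root elements of `H` -/
def rootIdeal {a : k[X]} (H : Subgroup (GL n (AdjoinRoot a))) : Ideal k[X] where
  carrier := {u | Roots H {x | AdjoinRoot.mk a u ∣ x}}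
  zero_mem' := fun i j hij x hx => by
    rw [Set.mem_ofPred_eq, map_zero, zero_dvd_iff] at hx
    rw [hx, rt_zero]; exact H.one_mem
  add_mem' := by
    rintro u v hu hv i j hij _ ⟨y, rfl⟩
    rw [map_add, add_mul, rt_add]
    exact H.mul_mem (hu hij _ (dvd_mul_right _ _)) (hv hij _ (dvd_mul_right _ _))
  smul_mem' := fun w u hu => hu.mono fun x hx => (_root_.map_dvd _ (dvd_mul_left u w)).trans hx

lemma self_mem_rootIdeal {a : k[X]} (H : Subgroup (GL n (AdjoinRoot a))) : a ∈ rootIdeal H :=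
  fun i j hij x hx => by
    rw [Set.mem_ofPred_eq, AdjoinRoot.mk_self, zero_dvd_iff] at hx
    rw [hx, rt_zero]; exact H.one_mem

lemma mem_rootIdeal {a b c : k[X]} (ha : a ≠ 0) (hab : a = b * c)
    {H : Subgroup (GL n (AdjoinRoot a))}
    (hH : ∀ (P b' : k[X]) (e : ℕ), P.Monic → Irreducible P → P ∣ c → a = P ^ (e + 1) * b' →
      ¬P ∣ b' → b' ∈ rootIdeal H) : b ∈ rootIdeal H := by
  classical
  obtain ⟨g, hg⟩ := (IsPrincipalIdealRing.principal (rootIdeal H)).principal
  have hJ : ∀ u, u ∈ rootIdeal H → g ∣ u := fun u hu => by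
    rw [hg] at hu; exact Ideal.mem_span_singleton.mp hu
  have hga : g ∣ a := hJ a (self_mem_rootIdeal H)
  have hgc : IsCoprime g c := by
    refine isCoprime_of_irreducible_dvd (fun h => ha (by rw [hab, h.2, mul_zero]))
      fun p hp hpg hpc => ?_
    have hpa := normalize_associated p
    have hP : Irreducible (normalize p) := hpa.symm.irreducible hp
    obtain ⟨e, b', hb, hab'⟩ := WfDvdMonoid.max_power_factor ha hP
    rcases e with _ | e
    · rw [pow_zero, one_mul] at hab'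
      exact hb (hab' ▸ (hpa.dvd.trans hpg).trans hga)
    exact hb ((hpa.dvd.trans hpg).trans (hJ _ (hH _ b' e (monic_normalize hp.ne_zero) hP
      (hpa.dvd.trans hpc) hab' hb)))
  rw [hg]
  exact Ideal.mem_span_singleton.mpr (hgc.dvd_of_dvd_mul_right (hab ▸ hga))

lemma index_le_adj [Finite k] {a s : k[X]} (ha : a ≠ 0) (hs : s ≠ 0)
    {H : Subgroup (GL n (AdjoinRoot a))} (h : s ∈ rootIdeal H) :
    H.index ≤ (H.map GeneralLinearGroup.det).index *
      Nat.card (AdjoinRoot (s ^ 2)) ^ (Fintype.card n ^ 2) := by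
  have := finite_adjoinRoot ha
  refine (index_le (s := AdjoinRoot.mk a s) h).trans
    (Nat.mul_le_mul_left _ (Nat.pow_le_pow_left ?_ _))
  have := finite_adjoinRoot (pow_ne_zero 2 hs)
  refine Nat.card_le_card_of_surjective (Ideal.Quotient.lift (Ideal.span {s ^ 2})
    ((Ideal.Quotient.mk _).comp (AdjoinRoot.mk a)) fun x hx => ?_) fun y => ?_
  · obtain ⟨z, rfl⟩ := Ideal.mem_span_singleton.mp hx
    rw [RingHom.comp_apply, Ideal.Quotient.eq_zero_iff_mem, map_mul, map_pow]
    exact Ideal.mul_mem_right _ _ (Ideal.mem_span_singleton_self _)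
  · obtain ⟨y, rfl⟩ := Ideal.Quotient.mk_surjective y
    obtain ⟨x, rfl⟩ := AdjoinRoot.mk_surjective y
    exact ⟨Ideal.Quotient.mk _ x, rfl⟩

lemma det_eq_one_of_mem_commutator {R : Type} [CommRing R] {H : Subgroup (GL n R)} {g : GL n R}
    (hg : g ∈ ⁅H, H⁆) : g.val.det = 1 := by
  refine mem_ker_det.mp ((Subgroup.commutator_le.mpr fun a _ b _ => ?_ :
    ⁅H, H⁆ ≤ (GeneralLinearGroup.det (n := n) (R := R)).ker) hg)
  rw [MonoidHom.mem_ker, map_commutatorElement, commutatorElement_eq_one_iff_mul_comm, mul_comm]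

lemma mem_rootIdeal_of_block [Finite k] {a b c s : k[X]} (ha : a ≠ 0) (hab : a = b * c)
    (hbc : IsCoprime b c) {H : Subgroup (GL n (AdjoinRoot a))} (hb : b ∈ rootIdeal H)
    (hs : s ∈ rootIdeal ⁅H.map (red (fac (Dvd.intro _ hab.symm))),
      H.map (red (fac (Dvd.intro _ hab.symm)))⁆) : s ∈ rootIdeal H := by
  have := finite_adjoinRoot ha
  rintro i j hij _ ⟨y, rfl⟩
  have h1 := hs hij (fac (Dvd.intro _ hab.symm) (AdjoinRoot.mk a s * y)) (by simp)
  rw [← Subgroup.map_commutator] at h1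
  obtain ⟨t, ht, e⟩ := h1
  rw [← red_rt] at e
  have htH : t ∈ H := (Subgroup.commutator_le.mpr fun x hx y hy =>
    H.mul_mem (H.mul_mem (H.mul_mem hx hy) (H.inv_mem hx)) (H.inv_mem hy) : ⁅H, H⁆ ≤ H) ht
  have h2 : t⁻¹ * rt hij (AdjoinRoot.mk a s * y) ∈ H := by
    refine mem_of_roots (s := AdjoinRoot.mk a b) hb _ ?_ fun u v => ?_
    · rw [Units.val_mul, det_mul, rt_det, mul_one]
      exact det_eq_one_of_mem_commutator (Subgroup.inv_mem _ ht)
    have e1 : red (fac (Dvd.intro _ hab.symm)) (t⁻¹ * rt hij (AdjoinRoot.mk a s * y)) = 1 := by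
      rw [map_mul, map_inv, e, inv_mul_cancel]
    generalize t⁻¹ * rt hij (AdjoinRoot.mk a s * y) = g at e1 ⊢
    have e2 := congrArg (fun g : GL n (AdjoinRoot b) => (g.val - 1) u v) e1
    obtain ⟨z, hz⟩ := AdjoinRoot.mk_surjective ((g.val - 1) u v)
    have e3 : b ∣ z := by
      rw [← AdjoinRoot.mk_eq_zero, ← fac_mk (Dvd.intro _ hab.symm), hz]
      simpa [Matrix.one_apply, apply_ite (fac (Dvd.intro _ hab.symm))] using e2
    obtain ⟨w, rfl⟩ := e3
    obtain ⟨p, q, hpq⟩ := hbc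
    refine ⟨AdjoinRoot.mk a (p * w), ?_⟩
    rw [← hz, ← map_pow, ← map_mul, AdjoinRoot.mk_eq_mk, hab]
    exact ⟨q * w, by linear_combination (-b * w) * hpq⟩
  simpa using H.mul_mem htH h2

/-- the index bound from the large primes and the block of small primes -/
theorem assemble_block (k n : Type) [Field k] [Finite k] [Fintype n] [DecidableEq n]
    [Nontrivial n] (C : ℕ) : ∃ d1 : ℕ, ∀ s : k[X], s ≠ 0 → ∃ N : ℕ, ∀ a b c : k[X], a ≠ 0 →
      ∀ hab : a = b * c, IsCoprime b c → ∀ H : Subgroup (GL n (AdjoinRoot a)),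
      (H.map GeneralLinearGroup.det).index ≤ C →
      (∀ P : k[X], Irreducible P → P ∣ c → d1 < P.natDegree) →
      (∀ (P b' : k[X]) [Fact (Irreducible P)] (e : ℕ) (ha : a = P ^ (e + 1) * b'), P.Monic →
        P ∣ c → ¬P ∣ b' → LargeAt H P b' e ha) →
      Roots ⁅H.map (red (fac (Dvd.intro _ hab.symm))), H.map (red (fac (Dvd.intro _ hab.symm)))⁆
        {x | AdjoinRoot.mk b s ∣ x} → H.index ≤ N := by
  obtain ⟨B, hB⟩ := large_roots n
  refine ⟨B + C, fun s hs => ⟨C * Nat.card (AdjoinRoot (s ^ 2)) ^ (Fintype.card n ^ 2),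
    fun a b c ha hab hbc H hC hd h1 h2 => ?_⟩⟩
  refine (index_le_adj ha hs (mem_rootIdeal_of_block ha hab hbc ?_ h2)).trans
    (Nat.mul_le_mul_right _ hC)
  refine mem_rootIdeal ha hab fun P b' e hm hP hPc hab' hb => ?_
  have := Fact.mk hP
  have h3 : P.natDegree < Nat.card k ^ P.natDegree := Nat.lt_pow_self Finite.one_lt_card
  have h4 := hd P hP hPc
  exact hB k a ha H P b' e hab' hb (by omega) (by omega) (h1 P b' e hab' hm hPc hb)

end Pool.Agent.Lib.MP_6adaea_nt.G
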