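import Mathlib

/-!
Root elements, diagonal elements and conjugation in `GL n R`.
-/

set_option linter.unusedSectionVars false

namespace Pool.Agent.Lib.MP_6adaea_nt.G
open Matrix

variable {n : Type} [Fintype n] [DecidableEq n] {R S : Type} [CommRing R] [CommRing S]

/-- the root element `1 + x E_ij` -/
def rt {i j : n} (h : i ≠ j) (x : R) : GL n R where
  val := 1 + single i j x
  inv := 1 + single i j (-x)
  val_inv := by
    have := transvection_mul_transvection_same i j h x (-x)
    simpa [transvection] using this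
  inv_val := by
    have := transvection_mul_transvection_same i j h (-x) x
    simpa [transvection] using this

/-- the diagonal element with given unit entries -/
def dg (d : n → Rˣ) : GL n R where
  val := diagonal fun i => (d i : R)
  inv := diagonal fun i => ((d i)⁻¹ : Rˣ)
  val_inv := by simp [diagonal_mul_diagonal]
  inv_val := by simp [diagonal_mul_diagonal]

/-- the diagonal element with `a` at `i`, `a⁻¹` at `j` and `1` elsewhere -/
def tor (i j : n) (a : Rˣ) : GL n R :=
  dg fun l => if l = i then a else if l = j then a⁻¹ else 1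

/-- conjugation of a matrix -/
def ad (g : GL n R) (X : Matrix n n R) : Matrix n n R := g.val * X * (g⁻¹).val

/-- `H` contains all root elements with parameter in `I` -/
def Roots (H : Subgroup (GL n R)) (I : Set R) : Prop :=
  ∀ ⦃i j : n⦄ (h : i ≠ j), ∀ x ∈ I, rt h x ∈ H

/-- `H` contains all matrices of determinant one -/
def HasSL (H : Subgroup (GL n R)) : Prop := ∀ g : GL n R, g.val.det = 1 → g ∈ H

/-- the level ideal of a matrix: off-diagonal entries and differences of diagonal entries -/
def lev (X : Matrix n n R) : Ideal R :=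
  Ideal.span ({a | ∃ i j, i ≠ j ∧ a = X i j} ∪ {a | ∃ i j, a = X i i - X j j})

/-- scalar matrices -/
def Scal (X : Matrix n n R) : Prop := ∃ c : R, X = c • (1 : Matrix n n R)

/-- reduction of invertible matrices along a ring homomorphism -/
abbrev red (f : R →+* S) : GL n R →* GL n S := GeneralLinearGroup.map f

@[simp] lemma rt_val {i j : n} (h : i ≠ j) (x : R) : (rt h x).val = 1 + single i j x := rfl

@[simp] lemma rt_inv_val {i j : n} (h : i ≠ j) (x : R) :
    ((rt h x)⁻¹).val = 1 + single i j (-x) := rfl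

lemma rt_add {i j : n} (h : i ≠ j) (x y : R) : rt h (x + y) = rt h x * rt h y := by
  ext1
  have := transvection_mul_transvection_same i j h x y
  simpa [transvection] using this.symm

@[simp] lemma rt_zero {i j : n} (h : i ≠ j) : rt h (0 : R) = 1 := by
  ext1; simp

lemma rt_neg {i j : n} (h : i ≠ j) (x : R) : rt h (-x) = (rt h x)⁻¹ := Units.ext rfl

lemma rt_det {i j : n} (h : i ≠ j) (x : R) : (rt h x).val.det = 1 :=
  det_transvection_of_ne i j h x

lemma rt_inj {i j : n} (h : i ≠ j) {x y : R} (e : rt h x = rt h y) : x = y := by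
  have := congrArg (fun g : GL n R => g.val i j) e
  simpa using this

@[simp] lemma dg_val (d : n → Rˣ) : (dg d).val = diagonal fun i => (d i : R) := rfl

@[simp] lemma dg_inv_val (d : n → Rˣ) :
    ((dg d)⁻¹).val = diagonal fun i => (((d i)⁻¹ : Rˣ) : R) := rfl

lemma dg_mul (d e : n → Rˣ) : dg (d * e) = dg d * dg e := by
  ext1; simp [diagonal_mul_diagonal]

@[simp] lemma dg_one : dg (1 : n → Rˣ) = 1 := by
  ext1; simp

lemma tor_det {i j : n} (h : i ≠ j) (a : Rˣ) : (tor i j a).val.det = 1 := by
  rw [tor, dg_val, det_diagonal, ← Finset.mul_prod_erase _ _ (Finset.mem_univ i),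
    ← Finset.mul_prod_erase _ _ (Finset.mem_erase.mpr ⟨h.symm, Finset.mem_univ j⟩),
    Finset.prod_eq_one]
  · simp [h.symm]
  · intro l hl
    simp only [Finset.mem_erase] at hl
    simp [hl.1, hl.2.1]

@[simp] lemma red_val (f : R →+* S) (g : GL n R) : (red f g).val = g.val.map f := rfl

lemma red_rt (f : R →+* S) {i j : n} (h : i ≠ j) (x : R) : red f (rt h x) = rt h (f x) := by
  ext a b
  simp [Matrix.one_apply, single, apply_ite f]

lemma red_det (f : R →+* S) (g : GL n R) : (red f g).val.det = f g.val.det := by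
  rw [red_val, RingHom.map_det]; rfl

lemma red_comp {T : Type} [CommRing T] (f : R →+* S) (f' : S →+* T) (g : GL n R) :
    red f' (red f g) = red (f'.comp f) g := by
  ext a b; simp

lemma ad_mul (g h : GL n R) (X : Matrix n n R) : ad (g * h) X = ad g (ad h X) := by
  simp [ad, Matrix.mul_assoc]

@[simp] lemma ad_one (X : Matrix n n R) : ad 1 X = X := by simp [ad]

lemma ad_add (g : GL n R) (X Y : Matrix n n R) : ad g (X + Y) = ad g X + ad g Y := by
  simp [ad, Matrix.mul_add, Matrix.add_mul]

lemma ad_sub (g : GL n R) (X Y : Matrix n n R) : ad g (X - Y) = ad g X - ad g Y := by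
  simp [ad, Matrix.mul_sub, Matrix.sub_mul]

lemma ad_smul (g : GL n R) (c : R) (X : Matrix n n R) : ad g (c • X) = c • ad g X := by
  simp [ad]

@[simp] lemma ad_id (g : GL n R) : ad g 1 = 1 := by
  rw [ad, Matrix.mul_one, ← Units.val_mul, mul_inv_cancel, Units.val_one]

lemma ad_mul_ad (g : GL n R) (X Y : Matrix n n R) : ad g (X * Y) = ad g X * ad g Y := by
  have : (g⁻¹).val * g.val = 1 := by rw [← Units.val_mul, inv_mul_cancel, Units.val_one]
  calc ad g (X * Y) = g.val * X * ((g⁻¹).val * g.val) * Y * (g⁻¹).val := by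
        rw [this]; simp [ad, Matrix.mul_assoc]
    _ = _ := by simp only [ad, Matrix.mul_assoc]

lemma ad_trace (g : GL n R) (X : Matrix n n R) : (ad g X).trace = X.trace := by
  rw [ad, trace_mul_cycle, ← Units.val_mul, inv_mul_cancel, Units.val_one, Matrix.one_mul]

lemma ad_val (g h : GL n R) : (g * h * g⁻¹).val = ad g h.val := by simp [ad]

lemma ad_map (f : R →+* S) (g : GL n R) (X : Matrix n n R) :
    (ad g X).map f = ad (red f g) (X.map f) := by
  rw [ad, ad, Matrix.map_mul, Matrix.map_mul, ← map_inv]; rfl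

lemma ad_rt {i j : n} (h : i ≠ j) (y : R) (X : Matrix n n R) :
    ad (rt h y) X = X + y • (single i j 1 * X - X * single i j 1) -
      (y ^ 2 * X j i) • single i j 1 := by
  have e1 : single i j y = y • (single i j 1 : Matrix n n R) := by simp [smul_single]
  have e2 : single i j (-y) = (-y) • (single i j 1 : Matrix n n R) := by
    rw [smul_single, smul_eq_mul, mul_one]
  have e3 : (single i j 1 : Matrix n n R) * X * single i j 1 = X j i • single i j 1 := by
    rw [single_mul_mul_single]; simp [smul_single]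
  rw [ad, rt_val, rt_inv_val, e1, e2]
  simp only [Matrix.add_mul, Matrix.mul_add, Matrix.one_mul, Matrix.mul_one, Matrix.smul_mul,
    Matrix.mul_smul, e3]
  module

lemma ad_dg_apply (d : n → Rˣ) (X : Matrix n n R) (a b : n) :
    ad (dg d) X a b = d a * X a b * ((d b)⁻¹ : Rˣ) := by
  rw [ad, dg_val, dg_inv_val, mul_diagonal, diagonal_mul]

lemma tor_conj_rt {i j : n} (h : i ≠ j) (a : Rˣ) (x : R) :
    tor i j a * rt h x * (tor i j a)⁻¹ = rt h ((a : R) ^ 2 * x) := by
  ext1
  rw [ad_val, rt_val, ad_add, ad_id, rt_val]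
  congr 1
  ext u v
  rw [tor, ad_dg_apply]
  by_cases hu : i = u <;> by_cases hv : j = v
  · subst hu hv; simp [h.symm]; ring
  all_goals simp [hu, hv]

lemma offdiag_mem_lev (X : Matrix n n R) {i j : n} (h : i ≠ j) : X i j ∈ lev X :=
  Ideal.subset_span (Or.inl ⟨i, j, h, rfl⟩)

lemma diag_mem_lev (X : Matrix n n R) (i j : n) : X i i - X j j ∈ lev X :=
  Ideal.subset_span (Or.inr ⟨i, j, rfl⟩)

lemma lev_le_iff {X : Matrix n n R} {I : Ideal R} :
    lev X ≤ I ↔ (∀ i j, i ≠ j → X i j ∈ I) ∧ ∀ i j, X i i - X j j ∈ I := by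
  refine ⟨fun h => ⟨fun i j hij => h (offdiag_mem_lev X hij), fun i j => h (diag_mem_lev X i j)⟩,
    fun h => Ideal.span_le.mpr ?_⟩
  rintro a (⟨i, j, hij, rfl⟩ | ⟨i, j, rfl⟩)
  exacts [h.1 i j hij, h.2 i j]

lemma scal_iff [Nonempty n] {X : Matrix n n R} :
    Scal X ↔ (∀ i j, i ≠ j → X i j = 0) ∧ ∀ i j, X i i = X j j := by
  constructor
  · rintro ⟨c, rfl⟩
    exact ⟨fun i j h => by simp [h], fun i j => by simp⟩
  · rintro ⟨h1, h2⟩
    obtain ⟨i0⟩ := ‹Nonempty n›
    refine ⟨X i0 i0, ?_⟩
    ext i j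
    by_cases h : i = j
    · subst h; simp [h2 i i0]
    · simp [h, h1 i j h]

lemma scal_iff_lev [Nonempty n] {X : Matrix n n R} : Scal X ↔ lev X = ⊥ := by
  rw [scal_iff, ← le_bot_iff, lev_le_iff]
  simp [sub_eq_zero]

lemma HasSL.roots {H : Subgroup (GL n R)} (h : HasSL H) : Roots H Set.univ :=
  fun _ _ hij x _ => h _ (rt_det hij x)

lemma Roots.mono {H : Subgroup (GL n R)} {I J : Set R} (h : Roots H J) (hI : I ⊆ J) :
    Roots H I := fun _ _ hij x hx => h hij x (hI hx)

end Pool.Agent.Lib.MP_6adaea_nt.G
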