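import Pool.Agent.Lib.MP_6adaea_nt.G.Goursat

/-!
Subgroups of bounded index at levels with large prime factors.
-/

set_option linter.unusedSectionVars false

namespace Pool.Agent.Lib.MP_6adaea_nt.G
open Matrix Polynomial

variable {n : Type} [Fintype n] [DecidableEq n] {R S : Type} [CommRing R] [CommRing S]

/-- Chinese remainder theorem over the finitely many maximal ideals
(`Ideal.exists_forall_sub_mem_ideal`): choose in each residue field a value avoiding the
residues of the elements of `s`. -/
theorem exists_avoid [Finite R] (s : Finset R)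
    (h : ∀ I : Ideal R, I ≠ ⊤ → s.card < Nat.card (R ⧸ I)) : ∃ u, ∀ x ∈ s, IsUnit (u - x) := by
  classical
  have hfin : Finite (MaximalSpectrum R) := inferInstance
  have h1 : ∀ M : MaximalSpectrum R, ∃ y : R, ∀ x ∈ s, y - x ∉ M.asIdeal := fun M => by
    have : Finite (R ⧸ M.asIdeal) := Finite.of_surjective _ Ideal.Quotient.mk_surjective
    have := Fintype.ofFinite (R ⧸ M.asIdeal)
    have h2 := h _ M.isMaximal.ne_top
    rw [Nat.card_eq_fintype_card, ← Finset.card_univ] at h2
    obtain ⟨z, -, hz⟩ := Finset.exists_mem_notMem_of_card_lt_card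
      (Finset.card_image_le.trans_lt h2 : (s.image (Ideal.Quotient.mk M.asIdeal)).card < _)
    obtain ⟨y, rfl⟩ := Ideal.Quotient.mk_surjective z
    exact ⟨y, fun x hx hy => hz (Finset.mem_image.mpr ⟨x, hx, (Ideal.Quotient.eq.mpr hy).symm⟩)⟩
  choose y hy using h1
  obtain ⟨u, hu⟩ := Ideal.exists_forall_sub_mem_ideal
    (I := fun M : MaximalSpectrum R => M.asIdeal)
    (fun _ _ hne => MaximalSpectrum.isCoprime_of_ne hne) y
  refine ⟨u, fun x hx => ?_⟩
  by_contra h2
  obtain ⟨I, hI, hm⟩ := exists_max_ideal_of_mem_nonunits h2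
  refine hy ⟨I, hI⟩ x hx ?_
  have := I.sub_mem hm (hu ⟨I, hI⟩)
  rwa [sub_sub_sub_cancel_left] at this

private lemma dg_conj_rt {i j : n} (h : i ≠ j) (u : Rˣ) (x : R) :
    dg (Function.update 1 i u) * rt h x * (dg (Function.update 1 i u))⁻¹ = rt h ((u : R) * x) := by
  ext1
  rw [ad_val, rt_val, ad_add, ad_id, rt_val]
  congr 1
  ext a b
  rw [ad_dg_apply]
  by_cases hu : i = a <;> by_cases hv : j = b
  · subst hu hv; simp [h.symm]
  all_goals simp [hu, hv]

/-- Let `N` be the normal core of `H`, of index dividing `C' !`, `C' ≤ C`. For `i ≠ j` the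
additive subgroup `{x | rt h x ∈ N}` has index at most `C !` and is stable under units
(conjugate with `dg (update 1 i u)`). Every element is a sum of two units (`exists_avoid`), so
it is an ideal, and it is `⊤` by the hypothesis. -/
theorem hasSL_of_index [Finite R] (C : ℕ) (H : Subgroup (GL n R)) (hC : H.index ≤ C)
    (h : ∀ I : Ideal R, I ≠ ⊤ → C.factorial + 2 < Nat.card (R ⧸ I)) : HasSL H := by
  classical
  have hN : H.normalCore.index ≤ C.factorial := by
    rw [Subgroup.normalCore_eq_ker, Subgroup.index_ker]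
    refine (Nat.card_le_card_of_injective _ Subtype.val_injective).trans ?_
    rw [Nat.card_perm]
    exact Nat.factorial_le hC
  refine hasSL_of_roots fun i j hij x _ => H.normalCore_le ?_
  have hu : ∀ (u : R), IsUnit u → ∀ y, rt hij y ∈ H.normalCore →
      rt hij (u * y) ∈ H.normalCore := by
    rintro _ ⟨u, rfl⟩ y hy
    rw [← dg_conj_rt]
    exact H.normalCore_normal.conj_mem _ hy _
  let I : Ideal R :=
    { carrier := {y | rt hij y ∈ H.normalCore}
      zero_mem' := by
        rw [Set.mem_ofPred_eq, rt_zero]; exact Subgroup.one_mem _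
      add_mem' := fun {a b} ha hb => by
        rw [Set.mem_ofPred_eq, rt_add]; exact Subgroup.mul_mem _ ha hb
      smul_mem' := fun c y hy => by
        obtain ⟨u, hu'⟩ := exists_avoid ({0, c} : Finset R) fun J hJ =>
          (Finset.card_le_two.trans_lt (by have := h J hJ; omega))
        have h1 := hu _ (hu' 0 (by simp)) y hy
        have h2 := hu _ (hu' c (by simp)) y hy
        rw [Set.mem_ofPred_eq, smul_eq_mul,
          show c * y = (u - 0) * y + -((u - c) * y) by ring, rt_add, rt_neg]
        exact Subgroup.mul_mem _ h1 (Subgroup.inv_mem _ h2) }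
  have hI : I = ⊤ := by
    by_contra hI
    have h1 := h I hI
    choose r hr using Ideal.Quotient.mk_surjective (I := I)
    have h2 : Nat.card (R ⧸ I) ≤ H.normalCore.index :=
      Nat.card_le_card_of_injective
        (fun y => (QuotientGroup.mk (rt hij (r y)) : GL n R ⧸ H.normalCore)) fun a b hab => by
          have h3 := QuotientGroup.eq.mp hab
          rw [← rt_neg, ← rt_add, neg_add_eq_sub] at h3
          rw [← hr a, ← hr b]
          exact (Ideal.Quotient.eq.mpr h3).symm
    omega
  exact (hI ▸ Submodule.mem_top : x ∈ I)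

/-- `rt h ((u ^ 2 - 1) * y)` is the commutator of `tor i j u` and `rt h y`; choose `u` with
`exists_avoid` for `{0, 1, -1}` -/
theorem HasSL.commutator [Finite R] {H : Subgroup (GL n R)} (hH : HasSL H)
    (h : ∀ I : Ideal R, I ≠ ⊤ → 3 < Nat.card (R ⧸ I)) : HasSL ⁅H, H⁆ := by
  classical
  obtain ⟨u, hu⟩ := exists_avoid ({0, 1, -1} : Finset R) fun J hJ =>
    Finset.card_le_three.trans_lt (h J hJ)
  obtain ⟨a, ha⟩ := hu 0 (by simp)
  obtain ⟨w, hw⟩ := ((hu 1 (by simp)).mul (hu (-1) (by simp))).exists_right_inv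
  refine hasSL_of_roots fun i j hij x _ => ?_
  have h1 := Subgroup.commutator_mem_commutator (hH _ (tor_det hij a))
    (hH _ (rt_det hij (w * x)))
  rw [commutatorElement_def, tor_conj_rt, ← rt_neg, ← rt_add, ha] at h1
  rwa [show x = (u - 0) ^ 2 * (w * x) + -(w * x) by linear_combination -x * hw]

/-- a proper ideal of `k[X] / a` comes from a nonunit divisor of `a`, which has an irreducible
factor `P`; the quotient surjects onto `AdjoinRoot P` -/
theorem card_quot_adjoinRoot {k : Type} [Field k] [Finite k] {a : k[X]} (ha : a ≠ 0) {B : ℕ}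
    (h : ∀ P : k[X], Irreducible P → P ∣ a → B < Nat.card k ^ P.natDegree)
    (I : Ideal (AdjoinRoot a)) (hI : I ≠ ⊤) : B < Nat.card (AdjoinRoot a ⧸ I) := by
  have := finite_adjoinRoot ha
  have : Finite (AdjoinRoot a ⧸ I) := Finite.of_surjective _ Ideal.Quotient.mk_surjective
  obtain ⟨g, hg⟩ := (IsPrincipalIdealRing.principal (I.comap (AdjoinRoot.mk a))).principal
  have hJ : ∀ u, AdjoinRoot.mk a u ∈ I ↔ g ∣ u := fun u => by
    rw [← Ideal.mem_comap, hg]; exact Ideal.mem_span_singleton
  have hga : g ∣ a := (hJ a).mp (by rw [AdjoinRoot.mk_self]; exact I.zero_mem)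
  have hgu : ¬IsUnit g := fun hu => hI <| (Ideal.eq_top_iff_one I).mpr <| by
    simpa using (hJ 1).mpr hu.dvd
  obtain ⟨P, hP, hPg⟩ := WfDvdMonoid.exists_irreducible_factor hgu (ne_zero_of_dvd_ne_zero ha hga)
  refine (h P hP (hPg.trans hga)).trans_le ?_
  rw [← card_adjoinRoot hP.ne_zero]
  refine Nat.card_le_card_of_surjective (Ideal.Quotient.lift I (fac (hPg.trans hga))
    fun y hy => ?_) fun y => ?_
  · obtain ⟨x, rfl⟩ := AdjoinRoot.mk_surjective y
    rw [fac_mk, AdjoinRoot.mk_eq_zero]
    exact hPg.trans ((hJ x).mp hy)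
  · obtain ⟨x, rfl⟩ := fac_surjective (hPg.trans hga) y
    exact ⟨Ideal.Quotient.mk _ x, rfl⟩

/-- split off the prime factors of degree at most `d` (induction on the factorisation) -/
theorem exists_small_large {k : Type} [Field k] {a : k[X]} (ha : a ≠ 0) (d : ℕ) :
    ∃ b c : k[X], a = b * c ∧ IsCoprime b c ∧
      (∀ P : k[X], Irreducible P → P ∣ b → P.natDegree ≤ d) ∧
      ∀ P : k[X], Irreducible P → P ∣ c → d < P.natDegree := by
  induction a using WfDvdMonoid.induction_on_irreducible with
  | zero => exact absurd rfl ha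
  | unit u hu =>
    exact ⟨u, 1, (mul_one u).symm, isCoprime_one_right,
      fun P hP h => absurd (isUnit_of_dvd_unit h hu) hP.not_isUnit,
      fun P hP h => absurd (isUnit_of_dvd_one h) hP.not_isUnit⟩
  | mul a p ha' hp ih =>
    obtain ⟨b, c, rfl, h1, h2, h3⟩ := ih ha'
    have hd : ∀ P : k[X], Irreducible P → P ∣ p → P.natDegree = p.natDegree := fun P hP h =>
      natDegree_eq_of_degree_eq (degree_eq_degree_of_associated (hP.associated_of_dvd hp h))
    rcases le_or_gt p.natDegree d with h | h
    · refine ⟨p * b, c, (mul_assoc _ _ _).symm, IsCoprime.mul_left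
        (hp.coprime_iff_not_dvd.mpr fun h4 => absurd (h3 p hp h4) (not_lt.mpr h)) h1,
        fun P hP h4 => ?_, h3⟩
      rcases hP.prime.dvd_or_dvd h4 with h4 | h4
      exacts [(hd P hP h4).trans_le h, h2 P hP h4]
    · refine ⟨b, p * c, mul_left_comm _ _ _, IsCoprime.mul_right
        (hp.coprime_iff_not_dvd.mpr fun h4 => absurd (h2 p hp h4) (not_le.mpr h)).symm h1,
        h2, fun P hP h4 => ?_⟩
      rcases hP.prime.dvd_or_dvd h4 with h4 | h4
      exacts [h.trans_eq (hd P hP h4).symm, h3 P hP h4]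

end Pool.Agent.Lib.MP_6adaea_nt.G
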