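import Mathlib

/-!
The Carlitz polynomials over `k[T]`.
-/

set_option linter.unusedSectionVars false

namespace Pool.Agent.Lib.MP_6adaea_nt.G
open Polynomial

variable {k : Type} [Field k] [Finite k]

/-- the polynomial `C_T ^ i` over `k[T]` -/
noncomputable def cIter (k : Type) [Field k] : ℕ → k[X][X]
  | 0 => X
  | i + 1 => C X * cIter k i + cIter k i ^ Nat.card k

/-- the Carlitz polynomial `C_a` over `k[T]` -/
noncomputable def cPol (a : k[X]) : k[X][X] := a.sum fun i c => C (C c) * cIter k i

/-- evaluation of the Carlitz polynomial in a `k`-algebra (induction on `i`, then linearity) -/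
theorem cPol_eval {B : Type} [CommRing B] [Algebra k B] (ζ : B) (c : B →ₗ[k] B)
    (hc : ∀ y, c y = ζ * y + y ^ Nat.card k) (a : k[X]) (y : B) :
    (cPol a).eval₂ (aeval ζ : k[X] →ₐ[k] B).toRingHom y = aeval c a y := by
  have h : ∀ i, (cIter k i).eval₂ (aeval ζ : k[X] →ₐ[k] B).toRingHom y = (c ^ i) y := fun i => by
    induction i with
    | zero => rw [cIter, eval₂_X, pow_zero, Module.End.one_apply]
    | succ i ih =>
      rw [cIter, eval₂_add, eval₂_mul, eval₂_pow, eval₂_C, ih, pow_succ', Module.End.mul_apply, hc]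
      exact congrArg (· * _ + _) (aeval_X ζ)
  rw [cPol, sum_def, eval₂_finsetSum, aeval_def c, eval₂_eq_sum, sum_def, LinearMap.sum_apply]
  refine Finset.sum_congr rfl fun i _ => ?_
  rw [eval₂_mul, eval₂_C, h, Module.End.mul_apply, Module.algebraMap_end_apply, Algebra.smul_def]
  exact congrArg (· * _) (aeval_C ζ _)

theorem carlitz_iter (i : ℕ) :
    (cIter k i).Monic ∧ (cIter k i).degree = (Nat.card k ^ i : ℕ) := by
  induction i with
  | zero => exact ⟨monic_X, by rw [cIter, degree_X, pow_zero, Nat.cast_one]⟩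
  | succ i ih =>
    have h1 : (cIter k i ^ Nat.card k).degree = (Nat.card k ^ (i + 1) : ℕ) := by
      rw [degree_pow, ih.2, nsmul_eq_mul, ← Nat.cast_mul, pow_succ']
    have h2 : (C X * cIter k i).degree < (cIter k i ^ Nat.card k).degree := by
      rw [degree_C_mul X_ne_zero, ih.2, h1, Nat.cast_lt]
      exact Nat.pow_lt_pow_right Finite.one_lt_card (Nat.lt_succ_self i)
    rw [cIter]
    exact ⟨(ih.1.pow _).add_of_right h2, (degree_add_eq_right_of_degree_lt h2).trans h1⟩

theorem cPol_monic {a : k[X]} (ha : a.Monic) :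
    (cPol a).Monic ∧ (cPol a).natDegree = Nat.card k ^ a.natDegree := by
  have h1 : cPol a = ∑ i ∈ Finset.range a.natDegree, C (C (a.coeff i)) * cIter k i +
      cIter k a.natDegree := by
    rw [cPol, sum_over_range _ fun i => by rw [C_0, C_0, zero_mul], Finset.sum_range_succ,
      ha.coeff_natDegree, C_1, C_1, one_mul]
  have h2 : (∑ i ∈ Finset.range a.natDegree, C (C (a.coeff i)) * cIter k i).degree <
      (cIter k a.natDegree).degree := by
    rw [(carlitz_iter _).2]
    refine (degree_sum_le _ _).trans_lt ((Finset.sup_lt_iff (WithBot.bot_lt_coe _)).2 fun i hi => ?_)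
    rw [← smul_eq_C_mul]
    refine (degree_smul_le _ _).trans_lt ?_
    rw [(carlitz_iter _).2, Nat.cast_lt]
    exact Nat.pow_lt_pow_right Finite.one_lt_card (Finset.mem_range.1 hi)
  rw [h1]
  exact ⟨(carlitz_iter _).1.add_of_right h2, natDegree_eq_of_degree_eq_some
    ((degree_add_eq_right_of_degree_lt h2).trans (carlitz_iter _).2)⟩

/-- the derivative of `cIter i` is `C (X ^ i)` since `(Nat.card k : k) = 0` -/
theorem cPol_derivative (a : k[X]) : derivative (cPol a) = C a := by
  have h0 : (Nat.card k : k[X]) = 0 := by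
    have := Fintype.ofFinite k
    rw [← C_eq_natCast, Nat.card_eq_fintype_card, FiniteField.cast_card_eq_zero, C_0]
  have h : ∀ i, derivative (cIter k i) = C (X ^ i) := fun i => by
    induction i with
    | zero => rw [cIter, derivative_X, pow_zero, C_1]
    | succ i ih =>
      rw [cIter, derivative_add, derivative_C_mul, derivative_pow, h0, C_0, zero_mul, zero_mul,
        add_zero, ih, ← C_mul, pow_succ']
  conv_rhs => rw [← a.sum_C_mul_X_pow_eq]
  rw [cPol, sum_def, sum_def, derivative_sum, map_sum]
  refine Finset.sum_congr rfl fun i _ => ?_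
  rw [derivative_C_mul, h, ← C_mul]

theorem carlitz_split {P : k[X]} (hP : Irreducible P) (hm : P.Monic) :
    P.map (algebraMap k (AdjoinRoot P)) =
      ∏ i ∈ Finset.range P.natDegree, (X - C (AdjoinRoot.root P ^ Nat.card k ^ i)) := by
  have := Fintype.ofFinite k
  have := Fact.mk hP
  have := hm.finite_adjoinRoot
  have := Module.finite_of_finite k (M := AdjoinRoot P)
  have hd : Module.finrank k (AdjoinRoot P) = P.natDegree := finrank_quotient_span_eq_natDegree
  have h1 : ∀ i, (FiniteField.frobeniusAlgHom k (AdjoinRoot P) ^ i) (AdjoinRoot.root P) =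
      AdjoinRoot.root P ^ Nat.card k ^ i := fun i => by
    rw [AlgHom.coe_pow, FiniteField.coe_frobeniusAlgHom, pow_iterate, Nat.card_eq_fintype_card]
  rw [Finset.prod_range]
  refine eq_of_monic_of_dvd_of_natDegree_le (monic_prod_X_sub_C _ _) (hm.map _) ?_ ?_
  · refine Finset.prod_dvd_of_coprime ((pairwise_coprime_X_sub_C fun i j e => ?_).set_pairwise _)
      fun i _ => ?_
    · have := (FiniteField.bijective_frobeniusAlgHom_pow k (AdjoinRoot P)).1
        (a₁ := i.cast hd.symm) (a₂ := j.cast hd.symm)
        (AdjoinRoot.algHom_ext (by rw [h1, h1]; exact e))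
      exact Fin.cast_injective _ this
    · rw [dvd_iff_isRoot, IsRoot.def, eval_map_algebraMap, ← h1, aeval_algHom_apply,
        AdjoinRoot.aeval_eq, AdjoinRoot.mk_self, map_zero]
  · rw [natDegree_finsetProd_X_sub_C_eq_card, hm.natDegree_map, Finset.card_univ, Fintype.card_fin]

/-- `C_P` is the Frobenius modulo `P`. Let `K = AdjoinRoot P`, `ζ` the root, `d = natDegree P`,
`q = card k`; `P = ∏ i < d, (X - ζ ^ q ^ i)` over `K`. On the `K[X]`-module... precisely: let
`B = K[X]`, `c y = C ζ * y + y ^ q`, and let `ρ` be the `B`-linear map `f ↦ f ∘ c` on functions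
`B → B`. Then `(ρ - C (ζ ^ q ^ i)) (y ↦ y ^ q ^ i) = (y ↦ y ^ q ^ (i + 1))`, so `aeval ρ P id` is
`y ↦ y ^ q ^ d`, and it is also `y ↦ aeval c P y`. Evaluate at `y = X` and use `cPol_eval`. -/
theorem cPol_map_prime {P : k[X]} (hP : Irreducible P) (hm : P.Monic) :
    (cPol P).map (AdjoinRoot.mk P) = X ^ (Nat.card k ^ P.natDegree) := by
  have := Fintype.ofFinite k
  let K := AdjoinRoot P
  let c : K[X] →ₗ[k] K[X] := LinearMap.mulLeft k (C (AdjoinRoot.root P)) +
    (FiniteField.frobeniusAlgHom k K[X]).toLinearMap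
  have hc : ∀ y, c y = C (AdjoinRoot.root P) * y + y ^ Nat.card k := fun y => by
    rw [Nat.card_eq_fintype_card]
    rfl
  let ρ : Module.End K (K[X] → K[X]) := LinearMap.funLeft K K[X] c
  have h1 : ∀ (n : ℕ) (y : K[X]), (ρ ^ n) id y = (c ^ n) y := fun n => by
    induction n with
    | zero => exact fun _ => rfl
    | succ n ih =>
      intro y
      rw [pow_succ', pow_succ, Module.End.mul_apply, Module.End.mul_apply, ← ih]
      rfl
  have h2 : ∀ (a : k[X]) (y : K[X]), aeval ρ (a.map (algebraMap k K)) id y = aeval c a y := by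
    intro a y
    induction a using Polynomial.induction_on' with
    | add a b ha hb =>
      rw [Polynomial.map_add, map_add, map_add, LinearMap.add_apply, LinearMap.add_apply,
        Pi.add_apply, ha, hb]
    | monomial n a =>
      rw [Polynomial.map_monomial, aeval_monomial, aeval_monomial, Module.End.mul_apply,
        Module.End.mul_apply, Module.algebraMap_end_apply, Module.algebraMap_end_apply,
        Pi.smul_apply, h1, algebraMap_smul]
  have h3 : ∀ m : ℕ, aeval ρ (∏ i ∈ Finset.range m, (X - C (AdjoinRoot.root P ^ Nat.card k ^ i)))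
      id = fun y => y ^ Nat.card k ^ m := fun m => by
    induction m with
    | zero =>
      funext y
      rw [Finset.prod_range_zero, map_one, pow_zero, pow_one]
      rfl
    | succ m ih =>
      funext y
      have e : ∀ u v : K[X], (u + v) ^ Nat.card k ^ m = u ^ Nat.card k ^ m + v ^ Nat.card k ^ m := by
        intro u v
        simpa only [AlgHom.coe_pow, FiniteField.coe_frobeniusAlgHom, pow_iterate,
          Nat.card_eq_fintype_card] using map_add (FiniteField.frobeniusAlgHom k K[X] ^ m) u v
      rw [Finset.prod_range_succ_comm, map_mul, Module.End.mul_apply, ih, map_sub, aeval_X,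
        aeval_C, LinearMap.sub_apply, Module.algebraMap_end_apply, Pi.sub_apply, Pi.smul_apply,
        smul_eq_C_mul, C_pow]
      change c y ^ Nat.card k ^ m - _ = _
      rw [hc, e, mul_pow, add_sub_cancel_left, ← pow_mul, pow_succ']
  have h4 : (aeval (C (AdjoinRoot.root P)) : k[X] →ₐ[k] K[X]).toRingHom =
      C.comp (AdjoinRoot.mk P) :=
    ringHom_ext (fun a => aeval_C _ a) (aeval_X _)
  have h5 := cPol_eval _ c hc P X
  rw [← h2, carlitz_split hP hm, h3, h4] at h5
  exact h5

end Pool.Agent.Lib.MP_6adaea_nt.G
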