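import Pool.Agent.Lib.MP_6adaea_nt.G.Rep

/-!
Generating functions of torsion points and the frame matrix.
-/

set_option linter.unusedSectionVars false

namespace Pool.Agent.Lib.MP_6adaea_nt.G
open Matrix Polynomial

variable {k : Type} [Field k] [Finite k] {Ω : Type} [Field Ω] [Algebra k Ω]
  {θ : Ω} {r : ℕ} {g : ℕ → Ω} {φ : Ω →ₗ[k] Ω}

/-- the `q`-Frobenius of a `k`-algebra -/
noncomputable def frob (k Ω : Type) [Field k] [Finite k] [Field Ω] [Algebra k Ω] : Ω →ₐ[k] Ω :=
  haveI := Fintype.ofFinite k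
  FiniteField.frobeniusAlgHom k Ω

theorem frob_pow_apply (i : ℕ) (x : Ω) : (frob k Ω ^ i) x = x ^ (Nat.card k ^ i) := by
  let _ := Fintype.ofFinite k
  rw [frob, AlgHom.coe_pow, FiniteField.coe_frobeniusAlgHom, pow_iterate, Nat.card_eq_fintype_card]

/-- the generating function `∑ i, φ_(divX ^ (i + 1) a) (w) t ^ i` of a point `w` -/
noncomputable def gen (φ : Ω →ₗ[k] Ω) (a : k[X]) (w : Ω) : Polynomial Ω :=
  ∑ i ∈ Finset.range a.natDegree, monomial i (aeval φ (divX^[i + 1] a) w)

private theorem frame_coeff_iter (a : k[X]) (n j : ℕ) :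
    (divX^[n] a).coeff j = a.coeff (j + n) := by
  induction n generalizing j with
  | zero => rfl
  | succ n ih => rw [Function.iterate_succ_apply', coeff_divX, ih, add_assoc, add_comm 1 n]

private theorem frame_comm (b c : k[X]) (w : Ω) :
    aeval φ b (aeval φ c w) = aeval φ c (aeval φ b w) := by
  rw [← Module.End.mul_apply, ← map_mul, mul_comm, map_mul, Module.End.mul_apply]

private theorem frame_phi (c : k[X]) (w : Ω) : aeval φ c (φ w) = φ (aeval φ c w) := by
  simpa only [aeval_X] using frame_comm (φ := φ) c X w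

theorem gen_coeff (a : k[X]) (w : Ω) (i : ℕ) :
    (gen φ a w).coeff i = aeval φ (divX^[i + 1] a) w := by
  rw [gen, finsetSum_coeff]
  simp only [coeff_monomial]
  rw [Finset.sum_ite_eq']
  split_ifs with h
  · rfl
  · have h0 : divX^[i + 1] a = 0 := by
      ext j
      rw [frame_coeff_iter, coeff_zero]
      rw [Finset.mem_range, not_lt] at h
      exact coeff_eq_zero_of_natDegree_lt (by omega)
    rw [h0, map_zero, LinearMap.zero_apply]

theorem gen_add (a : k[X]) (w w' : Ω) : gen φ a (w + w') = gen φ a w + gen φ a w' := by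
  ext i
  simp only [gen_coeff, coeff_add, map_add]

private theorem frame_gen_smul (a : k[X]) (c : k) (w : Ω) :
    gen φ a (c • w) = C (algebraMap k Ω c) * gen φ a w := by
  ext i
  rw [gen_coeff, coeff_C_mul, gen_coeff, map_smul, Algebra.smul_def]

private theorem frame_gen_sum {ι : Type} (a : k[X]) (s : Finset ι) (w : ι → Ω) :
    gen φ a (∑ l ∈ s, w l) = ∑ l ∈ s, gen φ a (w l) := by
  ext i
  simp only [gen_coeff, finsetSum_coeff, map_sum]

/-- compare coefficients, `X * divX p + C (p.coeff 0) = p` -/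
theorem gen_phi (a : k[X]) (w : Ω) :
    gen φ a (φ w) = X * gen φ a w + C (aeval φ a w) - C w * a.map (algebraMap k Ω) := by
  have key : ∀ i, aeval φ (divX^[i + 1] a) (φ w) =
      aeval φ (divX^[i] a) w - w * algebraMap k Ω (a.coeff i) := by
    intro i
    have h := congrArg (fun p => aeval φ p w) (divX_mul_X_add (divX^[i] a))
    simp only [map_add, map_mul, aeval_X, aeval_C, LinearMap.add_apply, Module.End.mul_apply,
      Module.algebraMap_end_apply, frame_coeff_iter, zero_add] at h
    rw [Function.iterate_succ_apply', ← h, Algebra.smul_def]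
    ring
  ext i
  rw [gen_coeff, key, coeff_sub, coeff_add, coeff_C_mul, coeff_map]
  cases i with
  | zero => simp
  | succ i => rw [coeff_X_mul, gen_coeff, coeff_C_succ, add_zero]

/-- for an `a`-torsion point, `gen (φ_c w) ≡ c * gen w` modulo `a` (induction on `c`) -/
theorem gen_aeval {a : k[X]} {w : Ω} (hw : aeval φ a w = 0) (c : k[X]) :
    a.map (algebraMap k Ω) ∣ gen φ a (aeval φ c w) - c.map (algebraMap k Ω) * gen φ a w := by
  induction c using Polynomial.induction_on with
  | C c =>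
    rw [aeval_C, Module.algebraMap_end_apply, frame_gen_smul, map_C, sub_self]
    exact dvd_zero _
  | add p q hp hq =>
    rw [map_add, LinearMap.add_apply, gen_add, Polynomial.map_add]
    exact (dvd_add hp hq).trans (dvd_of_eq (by ring))
  | monomial n c h =>
    rw [pow_succ, ← mul_assoc]
    generalize C c * X ^ n = p at h
    rw [map_mul, Module.End.mul_apply, aeval_X, frame_phi, gen_phi, frame_comm a p, hw, map_zero,
      map_zero, add_zero, Polynomial.map_mul, map_X]
    exact (dvd_sub (h.mul_left X) (dvd_mul_left _ (C (aeval φ p w)))).trans (dvd_of_eq (by ring))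

theorem gen_map {ψ : Ω →+* Ω} (hψ : ∀ (c : k[X]) y, ψ (aeval φ c y) = aeval φ c (ψ y))
    (a : k[X]) (w : Ω) : (gen φ a w).map ψ = gen φ a (ψ w) := by
  ext i
  rw [coeff_map, gen_coeff, gen_coeff, hψ]

/-- `φ` applied to the coefficients -/
theorem gen_dr (hφ : IsDr θ r g φ) (a : k[X]) (w : Ω) :
    gen φ a (φ w) = C θ * gen φ a w +
      ∑ i ∈ Finset.Icc 1 r, C (g i) * (gen φ a w).map (frob k Ω ^ i : Ω →ₐ[k] Ω) := by
  ext i
  rw [gen_coeff, frame_phi, hφ, coeff_add, coeff_C_mul, gen_coeff, finsetSum_coeff]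
  congr 1
  refine Finset.sum_congr rfl fun l _ => ?_
  rw [coeff_C_mul, coeff_map, gen_coeff, ← frob_pow_apply]
  rfl

/-- the frame matrix: row `i` is the `i`-th Frobenius twist of the generating functions of the
basis vectors -/
noncomputable def frame {a : k[X]} (E : Coord φ a (Fin r)) : Matrix (Fin r) (Fin r) (Polynomial Ω) :=
  Matrix.of fun i j => (gen φ a (E.e (Pi.single j 1))).map (frob k Ω ^ (i : ℕ) : Ω →ₐ[k] Ω)

private theorem frame_det {A : Type} [CommRing A] {s : ℕ} (u : ℕ → Fin (s + 1) → A) (c b : A)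
    (γ : ℕ → A) (h : c • u (s + 1) = b • u 0 - ∑ i ∈ Finset.Icc 1 s, γ i • u i) :
    (-1) ^ s * c * (Matrix.of fun i : Fin (s + 1) => u (i + 1)).det =
      b * (Matrix.of fun i : Fin (s + 1) => u i).det := by
  set M := Matrix.of fun i : Fin (s + 1) => u (i + 1) with hM
  set M₀ := Matrix.of fun i : Fin (s + 1) => u i with hM₀
  set N := M₀.submatrix (finRotate (s + 1)) id with hN
  have h1 : ∀ i : Fin (s + 1), i ≠ Fin.last s → N i = u (i + 1) := fun i hi => by
    ext j
    simp only [hN, hM₀, submatrix_apply, of_apply, id, coe_finRotate_of_ne_last hi]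
  have h2 : N (Fin.last s) = u 0 := by
    ext j
    simp only [hN, hM₀, submatrix_apply, of_apply, id, finRotate_last, Fin.val_zero]
  have h3 : ∀ v, M.updateRow (Fin.last s) v = N.updateRow (Fin.last s) v := fun v => by
    ext i j
    by_cases hi : i = Fin.last s
    · subst hi
      simp only [updateRow_self]
    · rw [updateRow_ne hi, updateRow_ne hi, h1 i hi]
      rfl
  let e : Fin (s + 1) → A := Fin.lastCases b fun i => -γ (i + 1)
  have h4 : c • u (s + 1) = ∑ l, e l • N l := by
    rw [h, Fin.sum_univ_castSucc, h2]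
    simp only [e, Fin.lastCases_castSucc, Fin.lastCases_last]
    rw [sub_eq_neg_add, ← Finset.sum_neg_distrib]
    congr 1
    rw [show Finset.Icc 1 s = Finset.Ico 1 (s + 1) from rfl, Finset.sum_Ico_eq_sum_range,
      Nat.add_sub_cancel, Finset.sum_range]
    refine Finset.sum_congr rfl fun i _ => ?_
    rw [h1 _ (Fin.castSucc_ne_last i), neg_smul, add_comm 1 (i : ℕ), Fin.val_castSucc]
  have h5 : c * M.det = b * N.det := by
    have h6 : M.updateRow (Fin.last s) (u (s + 1)) = M := updateRow_eq_self M (Fin.last s)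
    have h7 := det_updateRow_smul M (Fin.last s) c (u (s + 1))
    rw [h6] at h7
    rw [← h7, h3, h4, det_updateRow_sum]
    simp only [e, Fin.lastCases_last, smul_eq_mul]
  rw [mul_assoc, h5, hN, det_permute, sign_finRotate, Nat.add_sub_cancel]
  push_cast
  have h7 : ((-1 : A) ^ s) * (-1) ^ s = 1 := by
    rw [← mul_pow, neg_mul_neg, one_mul, one_pow]
  linear_combination (b * M₀.det) * h7

private theorem frame_map_fix (ψ : Ω →ₐ[k] Ω) (a : k[X]) :
    (a.map (algebraMap k Ω)).map (ψ : Ω →+* Ω) = a.map (algebraMap k Ω) := by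
  rw [Polynomial.map_map, AlgHom.comp_algebraMap]

/-- The functional equation of the determinant. The Frobenius twist of the frame has rows
`1, …, r`; by `gen_dr` and `gen_phi`, `g r * row r ≡ (X - θ) * row 0 - ∑ 0 < i < r, g i * row i`
modulo `a`. -/
theorem frame_det_frob (hφ : IsDr θ r g φ) (hr : 0 < r) {a : k[X]} (E : Coord φ a (Fin r)) :
    a.map (algebraMap k Ω) ∣ C ((-1) ^ (r - 1) * g r) * (frame E).det.map (frob k Ω : Ω →ₐ[k] Ω) -
      (X - C θ) * (frame E).det := by
  obtain ⟨s, rfl⟩ : ∃ s, r = s + 1 := ⟨r - 1, by omega⟩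
  let π := AdjoinRoot.mk (a.map (algebraMap k Ω))
  let G : Fin (s + 1) → Polynomial Ω := fun j => gen φ a (E.e (Pi.single j 1))
  let u : ℕ → Fin (s + 1) → AdjoinRoot (a.map (algebraMap k Ω)) := fun i j =>
    π ((G j).map (frob k Ω ^ i : Ω →ₐ[k] Ω))
  have h0 : ∀ j, u 0 j = π (G j) := fun j => by
    simp only [u, pow_zero]
    congr 1
    ext l
    rw [coeff_map]
    rfl
  have h := frame_det u (π (C (g (s + 1)))) (π (X - C θ)) (fun i => π (C (g i))) (by
    ext j
    have h1 := gen_dr hφ a (E.e (Pi.single j 1))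
    rw [gen_phi, (E.range _).2 ⟨_, rfl⟩, Finset.sum_Icc_succ_top (by omega)] at h1
    have h2 := congrArg π h1
    simp only [map_add, map_sub, map_mul, map_sum, map_zero, π, AdjoinRoot.mk_self] at h2
    simp only [Pi.smul_apply, Pi.sub_apply, Finset.sum_apply, smul_eq_mul, h0, map_sub]
    simp only [u, G, π]
    linear_combination -h2)
  rw [← AdjoinRoot.mk_eq_zero, map_sub, map_mul, map_mul, sub_eq_zero]
  have h3 : π ((frame E).det.map (frob k Ω : Ω →ₐ[k] Ω)) =
      (Matrix.of fun i : Fin (s + 1) => u (i + 1)).det := by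
    have h4 := (π.comp (mapRingHom ((frob k Ω : Ω →ₐ[k] Ω) : Ω →+* Ω))).map_det (frame E)
    refine h4.trans ?_
    congr 1
    ext i j
    simp only [RingHom.mapMatrix_apply, map_apply, RingHom.comp_apply, coe_mapRingHom, frame,
      of_apply, u, G, Polynomial.map_map]
    rw [pow_succ']
    rfl
  have h5 : π (frame E).det = (Matrix.of fun i : Fin (s + 1) => u i).det := π.map_det (frame E)
  change π _ * π _ = π _ * π _
  rw [h3, h5, ← h, Nat.add_sub_cancel]
  simp only [map_mul, map_pow, map_neg, map_one]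

/-- Galois action on the frame: `σ (frame) ≡ frame * ρ σ` modulo `a` -/
theorem frame_aut {L : Type} [Field L] [Algebra L Ω] [Algebra k L] [IsScalarTower k L Ω]
    (hσ : ∀ (σ : Ω ≃ₐ[L] Ω) (c : k[X]) y, σ (aeval φ c y) = aeval φ c (σ y)) {a : k[X]}
    {E : Coord φ a (Fin r)} {ρ : (Ω ≃ₐ[L] Ω) →* GL (Fin r) (AdjoinRoot a)} (h : IsRep E ρ)
    (σ : Ω ≃ₐ[L] Ω) (B : Matrix (Fin r) (Fin r) k[X]) (hB : B.map (AdjoinRoot.mk a) = (ρ σ).val)
    (i j : Fin r) : a.map (algebraMap k Ω) ∣ (frame E i j).map (σ : Ω →+* Ω) -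
      (frame E * B.map (Polynomial.map (algebraMap k Ω))) i j := by
  have h1 : σ (E.e (Pi.single j 1)) = ∑ l, aeval φ (B l j) (E.e (Pi.single l 1)) := by
    rw [h σ, ← hB]
    simp only [← E.smul, ← map_sum]
    congr 1
    ext l
    simp [Pi.single_apply]
  have h2 : (frame E i j).map (σ : Ω →+* Ω) =
      (gen φ a (σ (E.e (Pi.single j 1)))).map (frob k Ω ^ (i : ℕ) : Ω →ₐ[k] Ω) := by
    have h3 := gen_map (ψ := (σ : Ω →+* Ω)) (hσ σ) a (E.e (Pi.single j 1))
    rw [RingHom.coe_coe] at h3
    rw [← h3]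
    ext l
    simp only [frame, of_apply, coeff_map, RingHom.coe_coe, frob_pow_apply, map_pow]
  rw [h2, h1, frame_gen_sum, Polynomial.map_sum, mul_apply, ← Finset.sum_sub_distrib]
  refine Finset.dvd_sum fun l _ => ?_
  have h4 := Polynomial.map_dvd ((frob k Ω ^ (i : ℕ) : Ω →ₐ[k] Ω) : Ω →+* Ω)
    (gen_aeval ((E.range _).2 ⟨Pi.single l 1, rfl⟩) (B l j))
  rw [frame_map_fix, Polynomial.map_sub, Polynomial.map_mul, frame_map_fix, mul_comm] at h4
  exact h4

end Pool.Agent.Lib.MP_6adaea_nt.G
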