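import Pool.Agent.Lib.MP_6adaea_nt.G.Tors
import Pool.Agent.Lib.MP_6adaea_nt.G.Frame

/-!
The frame matrix is invertible modulo the level.
-/

set_option linter.unusedSectionVars false

namespace Pool.Agent.Lib.MP_6adaea_nt.G
open Matrix Polynomial

variable {k : Type} [Field k] [Finite k] {Ω : Type} [Field Ω] [Algebra k Ω]
  {θ : Ω} {r : ℕ} {g : ℕ → Ω} {φ : Ω →ₗ[k] Ω}

private lemma cop_coeff (a : k[X]) (m n : ℕ) : (divX^[m] a).coeff n = a.coeff (n + m) := by
  induction m generalizing n with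
  | zero => rfl
  | succ m ih => rw [Function.iterate_succ_apply', coeff_divX, ih]; congr 1; omega

private lemma cop_deg (a : k[X]) (m : ℕ) : (divX^[m] a).natDegree = a.natDegree - m := by
  induction m with
  | zero => rfl
  | succ m ih => rw [Function.iterate_succ_apply', natDegree_divX_eq_natDegree_tsub_one, ih]; omega

private lemma cop_ne {a : k[X]} (ha : a ≠ 0) {m : ℕ} (hm : m ≤ a.natDegree) : divX^[m] a ≠ 0 := by
  intro h
  have h1 := cop_coeff a m (a.natDegree - m)
  rw [h, coeff_zero, Nat.sub_add_cancel hm] at h1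
  exact leadingCoeff_ne_zero.2 ha h1.symm

private lemma cop_fix (p : k[X]) (ψ : Ω →ₐ[k] Ω) :
    (p.map (algebraMap k Ω)).map (ψ : Ω →+* Ω) = p.map (algebraMap k Ω) := by
  rw [Polynomial.map_map, AlgHom.comp_algebraMap]

/-- the additive functional attached to a root and a kernel vector -/
private noncomputable def copF {Ω' : Type} [Field Ω'] [Algebra Ω Ω'] (φ : Ω →ₗ[k] Ω) (a : k[X])
    (α : Ω') (c : Fin r → Ω') (w : Ω) : Ω' :=
  ∑ i : Fin r, c i * aeval α ((gen φ a w).map ((frob k Ω ^ (i : ℕ) : Ω →ₐ[k] Ω) : Ω →+* Ω))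

private lemma copF_add {Ω' : Type} [Field Ω'] [Algebra Ω Ω'] (a : k[X]) (α : Ω') (c : Fin r → Ω')
    (w w' : Ω) : copF φ a α c (w + w') = copF φ a α c w + copF φ a α c w' := by
  simp only [copF, gen_add, Polynomial.map_add, map_add, mul_add, Finset.sum_add_distrib]

private lemma copF_sum {Ω' : Type} [Field Ω'] [Algebra Ω Ω'] (a : k[X]) (α : Ω')
    (c : Fin r → Ω') {ι : Type} (s : Finset ι) (w : ι → Ω) :
    copF φ a α c (∑ j ∈ s, w j) = ∑ j ∈ s, copF φ a α c (w j) :=
  map_sum (AddMonoidHom.mk' (copF φ a α c) (copF_add a α c)) w s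

private lemma copF_aeval {Ω' : Type} [Field Ω'] [Algebra Ω Ω'] {a : k[X]} {α : Ω'}
    (hα : aeval α (a.map (algebraMap k Ω)) = 0) (c : Fin r → Ω') {w : Ω} (hw : aeval φ a w = 0)
    (p : k[X]) :
    copF φ a α c (aeval φ p w) = aeval α (p.map (algebraMap k Ω)) * copF φ a α c w := by
  obtain ⟨s, hs⟩ := gen_aeval hw p
  rw [sub_eq_iff_eq_add] at hs
  simp only [copF, hs, Polynomial.map_add, Polynomial.map_mul, cop_fix, map_add, map_mul, hα,
    zero_mul, zero_add, Finset.mul_sum]
  exact Finset.sum_congr rfl fun i _ => by ring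

private lemma copF_eq {Ω' : Type} [Field Ω'] [Algebra Ω Ω'] (a : k[X]) (α : Ω')
    (c : Fin r → Ω') (w : Ω) : copF φ a α c w = ∑ i : Fin r, ∑ l ∈ Finset.range a.natDegree,
      c i * α ^ l * (algebraMap Ω Ω' (aeval φ (divX^[l + 1] a) w)) ^ (Nat.card k ^ (i : ℕ)) := by
  refine Finset.sum_congr rfl fun i _ => ?_
  rw [gen, Polynomial.map_sum, map_sum, Finset.mul_sum]
  refine Finset.sum_congr rfl fun l _ => ?_
  rw [Polynomial.map_monomial, aeval_monomial, RingHom.coe_coe, frob_pow_apply, map_pow]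
  ring

private lemma cop_arith {r d l i i0 : ℕ} (hi : i < r) (hl : l < d) (h : i ≤ i0)
    (hne : ¬ (i = i0 ∧ l = 0)) : r * (d - (l + 1)) + i < r * (d - 1) + i0 := by
  obtain ⟨m, rfl⟩ : ∃ m, d = m + l + 1 := ⟨d - (l + 1), by omega⟩
  rw [show m + l + 1 - (l + 1) = m by omega, show m + l + 1 - 1 = m + l by omega, mul_add]
  rcases Nat.eq_zero_or_pos l with rfl | h0
  · have : i ≠ i0 := fun h1 => hne ⟨h1, rfl⟩
    omega
  · have : r ≤ r * l := Nat.le_mul_of_pos_right r h0
    omega

private lemma cop_arith' {r d l i : ℕ} (hi : i < r) (hl : l < d) :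
    r * (d - (l + 1)) + i < r * d := by
  obtain ⟨m, rfl⟩ : ∃ m, d = m + l + 1 := ⟨d - (l + 1), by omega⟩
  rw [show m + l + 1 - (l + 1) = m by omega, mul_add, mul_add]
  omega

/-- The frame is invertible modulo `a`. Work at a root `α` of `a` in the algebraic closure `Ω'`
of `Ω`. If the determinant vanishes at `α` there is `c ≠ 0` in `Fin r → Ω'` with
`∑ i, c i * (frame i j)(α) = 0` for all `j` (`Matrix.exists_vecMul_eq_zero_iff`), hence (`gen_add`,
`gen_aeval`, Frobenius fixes polynomials over `k`) `∑ i, c i * ((gen w).map (frob ^ i))(α) = 0` for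
every `a`-torsion point `w`. By `exists_poly` the left side is the value at `w` of the polynomial
`∑ i, ∑ l < deg a, c i * α ^ l * (Φ_(divX ^ (l + 1) a)) ^ q ^ i`; the summand `(i, l)` has degree
`q ^ (r * (deg a - 1 - l) + i)`, these exponents are distinct and less than `r * deg a`, and the
summand `(i, 0)` with the largest `i` such that `c i ≠ 0` is nonzero of largest degree. A nonzero
polynomial of degree `< q ^ (r * deg a)` cannot vanish on the torsion (`E.inj`, `E.range`,
`card_adjoinRoot`). -/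
theorem frame_coprime (hφ : IsDr θ r g φ) (hr : 0 < r) (hg : g r ≠ 0) {a : k[X]} (ha : a ≠ 0)
    (E : Coord φ a (Fin r)) : IsCoprime (frame E).det (a.map (algebraMap k Ω)) := by
  classical
  rw [Polynomial.isCoprime_iff_aeval_ne_zero_of_isAlgClosed Ω (AlgebraicClosure Ω)]
  intro α
  by_contra hcon
  rw [not_or, not_not, not_not] at hcon
  obtain ⟨hdet, hα⟩ := hcon
  have hq : 1 < Nat.card k := Finite.one_lt_card
  have hd : 0 < a.natDegree := by
    rw [Nat.pos_iff_ne_zero]
    intro h0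
    rw [eq_C_of_natDegree_eq_zero h0, map_C, aeval_C, map_eq_zero, map_eq_zero] at hα
    exact ha (by rw [eq_C_of_natDegree_eq_zero h0, hα, map_zero])
  rw [AlgHom.map_det] at hdet
  obtain ⟨c, hc0, hc⟩ := Matrix.exists_vecMul_eq_zero_iff.2 hdet
  have h1 : ∀ j, copF φ a α c (E.e (Pi.single j 1)) = 0 := fun j => by
    have h2 := congrFun hc j
    simpa [Matrix.vecMul, dotProduct, frame, copF] using h2
  have h2 : ∀ v, copF φ a α c (E.e v) = 0 := fun v => by
    choose p hp using fun j => AdjoinRoot.mk_surjective (v j)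
    have h3 : v = ∑ j, AdjoinRoot.mk a (p j) • (Pi.single j 1 : Fin r → AdjoinRoot a) := by
      funext i
      simp [Finset.sum_apply, Pi.single_apply, hp]
    rw [h3, map_sum, copF_sum]
    refine Finset.sum_eq_zero fun j _ => ?_
    rw [E.smul, copF_aeval hα c ((E.range _).2 ⟨_, rfl⟩), h1, mul_zero]
  have h3 : ∀ l, ∃ Φ : Polynomial Ω, l < a.natDegree → (∀ y, Φ.eval y = aeval φ (divX^[l + 1] a) y) ∧
      Φ.natDegree = Nat.card k ^ (r * (a.natDegree - (l + 1))) := fun l => by
    by_cases hl : l < a.natDegree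
    · obtain ⟨Φ, h4, h5, -⟩ := exists_poly hφ hr hg (cop_ne ha (m := l + 1) hl)
      exact ⟨Φ, fun _ => ⟨h4, by rw [h5, cop_deg]⟩⟩
    · exact ⟨0, fun h => absurd h hl⟩
  choose Φ hΦ using h3
  let ι := algebraMap Ω (AlgebraicClosure Ω)
  let T : Fin r → ℕ → Polynomial (AlgebraicClosure Ω) := fun i l =>
    C (c i * α ^ l) * ((Φ l).map ι) ^ (Nat.card k ^ (i : ℕ))
  have hT : ∀ (i : Fin r) l, l < a.natDegree → (((Φ l).map ι) ^ (Nat.card k ^ (i : ℕ))).natDegree =
      Nat.card k ^ (r * (a.natDegree - (l + 1)) + i) := fun i l hl => by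
    rw [natDegree_pow, natDegree_map, (hΦ l hl).2, pow_add, mul_comm]
  have hP : ∑ i : Fin r, ∑ l ∈ Finset.range a.natDegree, T i l = 0 := by
    have := finite_adjoinRoot ha
    let _ := Fintype.ofFinite (AdjoinRoot a)
    refine eq_zero_of_natDegree_lt_card_of_eval_eq_zero _
      (f := fun v : Fin r → AdjoinRoot a => ι (E.e v)) (ι.injective.comp E.inj) (fun v => ?_) ?_
    · rw [← h2 v, copF_eq, eval_finsetSum]
      refine Finset.sum_congr rfl fun i _ => ?_
      rw [eval_finsetSum]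
      refine Finset.sum_congr rfl fun l hl => ?_
      simp only [T, eval_mul, eval_C, eval_pow, eval_map, eval₂_hom,
        (hΦ l (Finset.mem_range.1 hl)).1]
      rfl
    · rw [Fintype.card_fun, Fintype.card_fin, ← Nat.card_eq_fintype_card, card_adjoinRoot ha,
        ← pow_mul, mul_comm]
      have h4 : 0 < Nat.card k ^ (r * a.natDegree) := by positivity
      refine lt_of_le_of_lt (natDegree_sum_le_of_forall_le _ _ fun i _ =>
        natDegree_sum_le_of_forall_le _ _ fun l hl => ?_) (Nat.sub_one_lt h4.ne')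
      refine Nat.le_sub_one_of_lt (lt_of_le_of_lt (natDegree_C_mul_le _ _) ?_)
      rw [hT i l (Finset.mem_range.1 hl)]
      exact Nat.pow_lt_pow_right hq (cop_arith' i.2 (Finset.mem_range.1 hl))
  obtain ⟨i0, hi0, hmax⟩ := Finset.exists_max_image (Finset.univ.filter fun i => c i ≠ 0) id
    (by
      obtain ⟨i, hi⟩ := Function.ne_iff.1 hc0
      exact ⟨i, by simpa using hi⟩)
  simp only [Finset.mem_filter, Finset.mem_univ, true_and, id] at hi0 hmax
  have h4 : ∀ (i : Fin r) l, l < a.natDegree → ¬ (i = i0 ∧ l = 0) →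
      (T i l).coeff (Nat.card k ^ (r * (a.natDegree - 1) + i0)) = 0 := fun i l hl hne => by
    by_cases hi : c i = 0
    · simp [T, hi]
    · refine coeff_eq_zero_of_natDegree_lt (lt_of_le_of_lt (natDegree_C_mul_le _ _) ?_)
      rw [hT i l hl]
      exact Nat.pow_lt_pow_right hq (cop_arith i.2 hl (hmax i hi) fun h => hne ⟨Fin.ext h.1, h.2⟩)
  have h5 := congrArg (fun p => p.coeff (Nat.card k ^ (r * (a.natDegree - 1) + i0))) hP
  simp only [finsetSum_coeff, coeff_zero] at h5
  rw [Finset.sum_eq_single i0 (fun i _ hi => Finset.sum_eq_zero fun l hl =>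
      h4 i l (Finset.mem_range.1 hl) fun h => hi h.1) (fun h => absurd (Finset.mem_univ _) h),
    Finset.sum_eq_single 0 (fun l hl h0 => h4 i0 l (Finset.mem_range.1 hl) fun h => h0 h.2)
      (fun h => absurd (Finset.mem_range.2 hd) h)] at h5
  have h6 := hT i0 0 hd
  rw [zero_add] at h6
  simp only [T, coeff_C_mul, pow_zero, mul_one] at h5
  rw [← h6, coeff_natDegree, mul_eq_zero, leadingCoeff_eq_zero] at h5
  rcases h5 with h5 | h5
  · exact hi0 h5
  · rw [h5, natDegree_zero] at h6
    exact (pow_pos (zero_lt_one.trans hq) _).ne h6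

end Pool.Agent.Lib.MP_6adaea_nt.G
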