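import Pool.Agent.Lib.MP_6adaea_nt.G.Gen

/-!
Index bounds.
-/

set_option linter.unusedSectionVars false

namespace Pool.Agent.Lib.MP_6adaea_nt.G
open Matrix

variable {n : Type} [Fintype n] [DecidableEq n] {R S : Type} [CommRing R] [CommRing S]

theorem index_card_gl (R : Type) [CommRing R] [Finite R] :
    Nat.card (GL n R) ≤ Nat.card R ^ (Fintype.card n ^ 2) := by
  refine (Nat.card_le_card_of_injective _ Units.val_injective).trans (le_of_eq ?_)
  change Nat.card (n → n → R) = _
  rw [Nat.card_fun, Nat.card_fun, ← pow_mul, Nat.card_eq_fintype_card (α := n), sq]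

/-- `H.index = (H ⊔ ker det).index * relIndex`; the first factor is at most the index of the
determinant image (the map `GL / (H ⊔ ker det) → Rˣ / det H` is injective), the second at most
the index in `ker det` of the kernel of reduction mod `s ^ 2`, which embeds in the matrices over
`R ⧸ span {s ^ 2}`. -/
theorem index_le [Finite R] {H : Subgroup (GL n R)} {s : R} (hH : Roots H {x | s ∣ x}) :
    H.index ≤ (H.map GeneralLinearGroup.det).index *
      Nat.card (R ⧸ Ideal.span {s ^ 2}) ^ (Fintype.card n ^ 2) := by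
  have : Finite (R ⧸ Ideal.span {s ^ 2}) := Finite.of_surjective _ Ideal.Quotient.mk_surjective
  set D := (GeneralLinearGroup.det (n := n) (R := R)).ker with hD
  set K := (red (n := n) (Ideal.Quotient.mk (Ideal.span {s ^ 2}))).ker with hK
  have h1 : K ⊓ D ≤ H := by
    rintro g ⟨hg1, hg2⟩
    refine mem_of_roots hH g (congrArg Units.val (MonoidHom.mem_ker.1 hg2)) fun i j => ?_
    have h2 := congrArg (fun g : GL n (R ⧸ Ideal.span {s ^ 2}) => g.val i j)
      (MonoidHom.mem_ker.1 hg1)
    rw [← Ideal.mem_span_singleton, Matrix.sub_apply, ← Ideal.Quotient.eq]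
    simpa [Matrix.one_apply, apply_ite (Ideal.Quotient.mk (Ideal.span {s ^ 2}))] using h2
  have h2 : H.relIndex D ≤ Nat.card (R ⧸ Ideal.span {s ^ 2}) ^ (Fintype.card n ^ 2) := by
    refine (Subgroup.relIndex_le_of_le_left h1 Subgroup.index_ne_zero_of_finite).trans ?_
    rw [Subgroup.inf_relIndex_right, hK, Subgroup.relIndex_ker]
    exact (Subgroup.card_le_card_group _).trans (index_card_gl _)
  have h3 := Subgroup.relIndex_mul_index (inf_le_left : H ⊓ D ≤ H)
  have h4 := Subgroup.relIndex_mul_index (inf_le_right : H ⊓ D ≤ D)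
  rw [Subgroup.inf_relIndex_left, hD, Subgroup.relIndex_ker] at h3
  rw [Subgroup.inf_relIndex_right] at h4
  have h5 : D.index ≤ Nat.card (H.map GeneralLinearGroup.det) *
      (H.map GeneralLinearGroup.det).index := by
    rw [Subgroup.card_mul_index, hD, Subgroup.index_ker]
    exact Subgroup.card_le_card_group _
  refine Nat.le_of_mul_le_mul_left ?_ (Nat.card_pos (α := H.map GeneralLinearGroup.det))
  rw [h3, ← hD, ← h4, ← mul_assoc, mul_comm]
  exact Nat.mul_le_mul h5 h2

/-- `SL × kˣ` embeds in the matrices by `(g, u) ↦ g * dg (update 1 i0 u)`. -/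
theorem card_sl_le [Nonempty n] (k : Type) [Field k] [Finite k] :
    Nat.card (GeneralLinearGroup.det (n := n) (R := k)).ker ≤
      2 * Nat.card k ^ (Fintype.card n ^ 2 - 1) := by
  have h1 := Subgroup.card_mul_index (GeneralLinearGroup.det (n := n) (R := k)).ker
  rw [Subgroup.index_ker, MonoidHom.range_eq_top.2 GeneralLinearGroup.det_surjective,
    Subgroup.card_top, Nat.card_units] at h1
  have h2 := index_card_gl (n := n) k
  have h3 : 1 < Nat.card k := Finite.one_lt_card
  have h4 : Fintype.card n ^ 2 = Fintype.card n ^ 2 - 1 + 1 :=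
    (Nat.sub_add_cancel (Nat.one_le_pow _ _ Fintype.card_pos)).symm
  rw [← h1, h4, pow_succ] at h2
  refine Nat.le_of_mul_le_mul_right (h2.trans ?_) (Nat.sub_pos_of_lt h3)
  rw [mul_comm 2, mul_assoc]
  exact Nat.mul_le_mul_left _ (by omega)

/-- A subgroup of bounded index in `SL` contains `SL`. Let `S = ker det` and `N` the normal core
of `H.subgroupOf S`; its index divides `C' !` with `C' ≤ C`. For `i ≠ j` two of the more than
`C !` elements `rt h x` lie in the same coset of `N`, so `rt h z ∈ N` with `z ≠ 0`. Conjugating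
with `tor i j a` (`tor_conj_rt`) gives `rt h (a ^ 2 * z) ∈ N`; the additive span of the squares
is `k` (characteristic two: every element is a square; else
`x = ((x + 1) / 2) ^ 2 - ((x - 1) / 2) ^ 2`). Finish with `hasSL_of_roots`. -/
theorem hasSL_of_relIndex (k : Type) [Field k] [Finite k] (C : ℕ) (hk : C.factorial < Nat.card k)
    (H : Subgroup (GL n k))
    (hC : H.relIndex (GeneralLinearGroup.det (n := n) (R := k)).ker ≤ C) : HasSL H := by
  set D := (GeneralLinearGroup.det (n := n) (R := k)).ker with hD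
  set N := (H.subgroupOf D).normalCore with hN
  have h1 : N.index ≤ C.factorial := by
    rw [hN, Subgroup.normalCore_eq_ker, Subgroup.index_ker]
    refine (Subgroup.card_le_card_group _).trans ?_
    rw [Nat.card_perm]
    exact Nat.factorial_le hC
  have hm : ∀ g : GL n k, g.val.det = 1 → g ∈ D := fun g hg => MonoidHom.mem_ker.2 (Units.ext hg)
  refine hasSL_of_roots fun i j h x _ => ?_
  let r : k → D := fun x => ⟨rt h x, hm _ (rt_det h x)⟩
  have radd : ∀ x y, r (x + y) = r x * r y := fun x y => Subtype.ext (rt_add h x y)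
  have rneg : ∀ x, r (-x) = (r x)⁻¹ := fun x => Subtype.ext (rt_neg h x)
  obtain ⟨z, hz0, hz⟩ : ∃ z, z ≠ 0 ∧ r z ∈ N := by
    have h2 : ¬ Function.Injective fun x => (QuotientGroup.mk (r x) : D ⧸ N) := fun hi =>
      absurd ((Nat.card_le_card_of_injective _ hi).trans h1) (not_le.2 hk)
    obtain ⟨a, b, hab, hne⟩ := Function.not_injective_iff.1 h2
    refine ⟨-a + b, fun h0 => hne (neg_add_eq_zero.1 h0), ?_⟩
    rw [radd, rneg]
    exact QuotientGroup.eq.1 hab
  have hsq : ∀ a : k, r (a ^ 2 * z) ∈ N := by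
    intro a
    rcases eq_or_ne a 0 with rfl | ha
    · have : r (0 ^ 2 * z) = 1 := Subtype.ext (by simp [r])
      rw [this]
      exact N.one_mem
    · have h2 := (Subgroup.normalCore_normal (H.subgroupOf D)).conj_mem _ hz
        ⟨tor i j (Units.mk0 a ha), hm _ (tor_det h _)⟩
      have h3 : r (a ^ 2 * z) = ⟨tor i j (Units.mk0 a ha), hm _ (tor_det h _)⟩ * r z *
          (⟨tor i j (Units.mk0 a ha), hm _ (tor_det h _)⟩ : D)⁻¹ :=
        Subtype.ext (tor_conj_rt h (Units.mk0 a ha) z).symm
      rw [h3]
      exact h2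
  have hx : r x ∈ N := by
    by_cases h2 : ringChar k = 2
    · obtain ⟨a, ha⟩ := FiniteField.isSquare_of_char_two h2 (x / z)
      have : x = a ^ 2 * z := by rw [sq, ← ha, div_mul_cancel₀ _ hz0]
      rw [this]
      exact hsq a
    · have h3 : (2 : k) ≠ 0 := Ring.two_ne_zero h2
      have : x = ((x / z + 1) / 2) ^ 2 * z + -(((x / z - 1) / 2) ^ 2 * z) := by
        field_simp
        ring
      rw [this, radd, rneg]
      exact N.mul_mem (hsq _) (N.inv_mem (hsq _))
  exact (H.subgroupOf D).normalCore_le hx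

end Pool.Agent.Lib.MP_6adaea_nt.G
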