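import Pool.Agent.Lib.MP_6adaea_nt.G.Layer

/-!
The layer lemma and lifting for normal subgroups.
-/

set_option linter.unusedSectionVars false

namespace Pool.Agent.Lib.MP_6adaea_nt.G
open Matrix

variable {n : Type} [Fintype n] [DecidableEq n] {R S : Type} [CommRing R] [CommRing S]

variable {k : Type} [Field k]

private lemma lift_comm (x y : GL n R) :
    (x * y * x⁻¹ * y⁻¹).val = 1 + (x.val * y.val - y.val * x.val) * (x⁻¹).val * (y⁻¹).val := by
  have e : y.val * x.val * (x⁻¹).val * (y⁻¹).val = 1 := by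
    rw [← Units.val_mul, ← Units.val_mul, ← Units.val_mul, mul_inv_cancel_right, mul_inv_cancel,
      Units.val_one]
  rw [Matrix.sub_mul, Matrix.sub_mul, e, Units.val_mul, Units.val_mul, Units.val_mul]
  abel

private lemma lift_comm_mem {H : Subgroup (GL n R)} {x y : GL n R} (h : x * y * x⁻¹ * y⁻¹ ∈ H) :
    x * y * x⁻¹ * y⁻¹ ∈ H ⊓ (GeneralLinearGroup.det (n := n) (R := R)).ker := by
  refine Subgroup.mem_inf.2 ⟨h, ?_⟩
  rw [MonoidHom.mem_ker, map_mul, map_mul, map_mul, map_inv, map_inv,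
    mul_inv_cancel_comm, mul_inv_cancel]

private lemma lift_det {H : Subgroup (GL n R)} (s : GL n R)
    (hs : s ∈ H ⊓ (GeneralLinearGroup.det (n := n) (R := R)).ker) : s.val.det = 1 :=
  congrArg Units.val (MonoidHom.mem_ker.1 hs.2)

private lemma lift_pi (C : Loc R k) : C.π C.ϖ = 0 := (C.ker _).2 dvd_rfl

private lemma lift_inv_red (C : Loc R k) {y : GL n R} {m : ℕ} {Y : Matrix n n R}
    (hy : y.val = 1 + C.ϖ ^ (m + 1) • Y) : (y⁻¹).val.map C.π = 1 := by
  have e : red C.π y = 1 := by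
    ext a b
    simp [hy, lift_pi C, Matrix.one_apply, apply_ite C.π]
  rw [← red_val, map_inv, e, inv_one, Units.val_one]

/-- the commutator of any element with an element of a layer -/
private lemma lift_layer_ad (C : Loc R k) {T : Subgroup (GL n R)} {g y : GL n R} {m : ℕ}
    {Y : Matrix n n R} (hy : y.val = 1 + C.ϖ ^ (m + 1) • Y) (h : g * y * g⁻¹ * y⁻¹ ∈ T) :
    ad (red C.π g) (Y.map C.π) - Y.map C.π ∈ layer C T m := by
  refine ⟨_, h, (ad g Y - Y) * (y⁻¹).val, ?_, ?_⟩
  · have e : (1 + C.ϖ ^ (m + 1) • Y) * (y⁻¹).val = 1 := by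
      rw [← hy, ← Units.val_mul, mul_inv_cancel, Units.val_one]
    rw [Units.val_mul, ad_val, hy, ad_add, ad_id, ad_smul]
    calc (1 + C.ϖ ^ (m + 1) • ad g Y) * (y⁻¹).val
        = (1 + C.ϖ ^ (m + 1) • Y) * (y⁻¹).val + C.ϖ ^ (m + 1) • ((ad g Y - Y) * (y⁻¹).val) := by
          rw [← Matrix.smul_mul, ← Matrix.add_mul, smul_sub]
          congr 1
          abel
      _ = _ := by rw [e]
  · rw [Matrix.map_mul, lift_inv_red C hy, Matrix.mul_one, Matrix.map_sub _ (map_sub C.π), ad_map]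

/-- the commutator of two elements of layers -/
private lemma lift_layer_comm (C : Loc R k) {T : Subgroup (GL n R)} {x y : GL n R} {m : ℕ}
    {X Y : Matrix n n R} (hx : x.val = 1 + C.ϖ ^ (0 + 1) • X) (hy : y.val = 1 + C.ϖ ^ (m + 1) • Y)
    (h : x * y * x⁻¹ * y⁻¹ ∈ T) :
    X.map C.π * Y.map C.π - Y.map C.π * X.map C.π ∈ layer C T (m + 1) := by
  refine ⟨_, h, (X * Y - Y * X) * (x⁻¹).val * (y⁻¹).val, ?_, ?_⟩
  · rw [lift_comm, ← Matrix.smul_mul, ← Matrix.smul_mul]
    congr 3
    rw [hx, hy]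
    simp only [Matrix.add_mul, Matrix.mul_add, Matrix.one_mul, Matrix.mul_one, Matrix.smul_mul,
      Matrix.mul_smul]
    module
  · rw [Matrix.map_mul, Matrix.map_mul, lift_inv_red C hx, lift_inv_red C hy, Matrix.mul_one,
      Matrix.mul_one, Matrix.map_sub _ (map_sub C.π), Matrix.map_mul, Matrix.map_mul]

private lemma lift_exists_sq [Finite k] (hk : 3 < Nat.card k) : ∃ a : kˣ, (a : k) ^ 2 - 1 ≠ 0 := by
  classical
  have := Fintype.ofFinite k
  obtain ⟨a, -, ha⟩ := Finset.exists_mem_notMem_of_card_lt_card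
    (s := ({0, 1, -1} : Finset k)) (t := Finset.univ)
    (lt_of_le_of_lt Finset.card_le_three (by rwa [Finset.card_univ, ← Nat.card_eq_fintype_card]))
  simp only [Finset.mem_insert, Finset.mem_singleton, not_or] at ha
  refine ⟨Units.mk0 a ha.1, fun h => ?_⟩
  rcases mul_self_eq_one_iff.1 ((sq a).symm.trans (sub_eq_zero.1 h)) with h | h
  exacts [ha.2.1 h, ha.2.2 h]

private lemma lift_ad_tor {i j : n} (h : i ≠ j) (a : kˣ) :
    ad (tor i j a) (single i j 1) - single i j 1 = single i j ((a : k) ^ 2 - 1) := by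
  have e := congrArg Units.val (tor_conj_rt h a 1)
  rw [ad_val, rt_val, rt_val, ad_add, ad_id, add_right_inj, mul_one] at e
  rw [e, sub_eq_iff_eq_add, ← single_add, sub_add_cancel]

private lemma lift_not_scal {i j : n} (h : i ≠ j) {c : k} (hc : c ≠ 0) :
    ¬Scal (single i j c) := by
  rintro ⟨d, hd⟩
  have := congrFun (congrFun hd i) j
  simp [h, hc] at this

private lemma lift_layer_inv [Finite k] (hk : 3 < Nat.card k) (C : Loc R k)
    {H T : Subgroup (GL n R)} (h0 : HasSL (H.map (red C.π)))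
    (hT : ∀ g ∈ H, ∀ s ∈ T, g * s * g⁻¹ ∈ T) {m : ℕ} {X : Matrix n n k} (hX : X ∈ layer C T m)
    (hs : ¬Scal X) {Y : Matrix n n k} (hY : Y.trace = 0) : Y ∈ layer C T m := by
  refine inv_add hk (layer C T m) (fun g hg Z hZ => ?_) hX hs hY
  obtain ⟨g', hg', rfl⟩ := h0 g hg
  exact layer_ad C (hT g' hg') hZ

private lemma lift_trace [Nontrivial n] [Finite R] [Finite k] (hk : 3 < Nat.card k) (C : Loc R k)
    (H : Subgroup (GL n R)) (h0 : HasSL (H.map (red C.π)))
    (hdet : (H.map GeneralLinearGroup.det).index < Nat.card k) :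
    ∃ Y ∈ layer C H 0, Y.trace ≠ 0 := by
  by_cases hϖ : C.ϖ = 0
  · obtain ⟨i⟩ : Nonempty n := inferInstance
    refine ⟨single i i 1, ⟨1, H.one_mem, single i i 1, by simp [hϖ], ?_⟩, by simp⟩
    ext a b
    simp [single, apply_ite C.π]
  choose σ hσ using C.surj
  have hu : ∀ a : k, IsUnit (1 + C.ϖ * σ a) := fun a => C.isUnit (by simp [lift_pi C])
  obtain ⟨a, b, hab, e⟩ : ∃ a b : k, a ≠ b ∧ ((hu a).unit : Rˣ ⧸ H.map GeneralLinearGroup.det) =
      ((hu b).unit : Rˣ ⧸ H.map GeneralLinearGroup.det) := by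
    by_contra hc
    refine absurd hdet (not_lt.2 (Nat.card_le_card_of_injective
      (fun a => ((hu a).unit : Rˣ ⧸ H.map GeneralLinearGroup.det)) fun a b e => ?_))
    by_contra hab
    exact hc ⟨a, b, hab, e⟩
  obtain ⟨g, hg, e1⟩ := QuotientGroup.eq.1 e
  have e2 : (1 + C.ϖ * σ a) * g.val.det = 1 + C.ϖ * σ b := by
    have := congrArg Units.val (eq_inv_mul_iff_mul_eq.1 e1)
    simpa using this
  have e3 : (red C.π g).val.det = 1 := by
    have := congrArg C.π e2
    rw [red_det]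
    simpa [lift_pi C] using this
  obtain ⟨t, ht, e4⟩ := hasSL_inf hk C.π H h0 (red C.π g) e3
  have e5 : red C.π (g * t⁻¹) = 1 := by rw [map_mul, map_inv, e4, mul_inv_cancel]
  have e6 : ∀ u v, ∃ x, ((g * t⁻¹).val - 1) u v = C.ϖ * x := fun u v => by
    refine (C.ker _).1 ?_
    have := congrArg (fun w : GL n k => w.val u v) e5
    simp only [red_val, map_apply, Units.val_one] at this
    rw [Matrix.sub_apply, map_sub, this, Matrix.one_apply, Matrix.one_apply, apply_ite C.π, map_one,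
      map_zero, sub_self]
  choose X hX using e6
  have e7 : (g * t⁻¹).val = 1 + C.ϖ • Matrix.of X := by
    rw [← sub_eq_iff_eq_add']
    ext u v
    rw [hX, Matrix.smul_apply, smul_eq_mul, of_apply]
  refine ⟨(Matrix.of X).map C.π, ⟨g * t⁻¹, H.mul_mem hg (H.inv_mem ht.1), Matrix.of X,
    by rw [e7, zero_add, pow_one], rfl⟩, fun h => ?_⟩
  obtain ⟨z, hz⟩ := det_one_add C.ϖ (Matrix.of X)
  rw [← e7, Units.val_mul, det_mul, lift_det _ (Subgroup.inv_mem _ ht), mul_one] at hz
  rw [hz] at e2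
  have e8 : C.ϖ * (σ a - σ b + (1 + C.ϖ * σ a) * ((Matrix.of X).trace + C.ϖ * z)) = 0 := by
    linear_combination e2
  have e9 : C.π (Matrix.of X).trace = 0 := by
    rw [← h]
    simp [Matrix.trace]
  refine hϖ ((C.isUnit ?_).mul_left_eq_zero.1 e8)
  simpa [lift_pi C, e9, hσ, sub_eq_zero] using hab

/-- The layer lemma. Let `T = H ⊓ ker det`. (1) Layer `0` of `H` has an element of nonzero
trace: if `ϖ = 0` take `1`; else two of the units `1 + ϖ * a` (`a` lifts of elements of `k`)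
lie in one coset of `det H`, so `det g = 1 + ϖ * c`, `π c ≠ 0`, `g ∈ H`; multiply `g` by an
element of `T` with the inverse reduction (`hasSL_inf`) and use `det_one_add`.
(2) Layer `0` of `H` contains the trace zero matrices (`inv_add`), hence `single i i c` with
`c ≠ 0`, and `single i j 1`. (3) For `x, y` in a group `x * y * x⁻¹ * y⁻¹ = 1 + (x * y - y * x) *
x⁻¹ * y⁻¹`. The commutator of a lift of `tor i j a` with an element of layer `0` shows that
layer `0` of `T` contains `single i j (a ^ 2 - 1)`; the commutator of the element with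
`single i i c` and an element of `T` with `single i j 1` in layer `m` shows that layer `m + 1`
of `T` contains `single i j c`. Apply `approx`. -/
theorem layers [Nontrivial n] [Finite R] [Finite k] (hk : 3 < Nat.card k) (C : Loc R k)
    (H : Subgroup (GL n R)) (h0 : HasSL (H.map (red C.π))) (h1 : ∃ Y ∈ layer C H 0, ¬Scal Y)
    (hdet : (H.map GeneralLinearGroup.det).index < Nat.card k) : HasSL H := by
  obtain ⟨i, j, hij⟩ := exists_pair_ne n
  obtain ⟨a, ha⟩ := lift_exists_sq hk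
  obtain ⟨Y₁, hY₁, hs₁⟩ := h1
  obtain ⟨Y₂, hY₂, ht₂⟩ := lift_trace hk C H h0 hdet
  have hH : ∀ Y : Matrix n n k, Y.trace = 0 → Y ∈ layer C H 0 := fun Y hY =>
    lift_layer_inv hk C h0 (fun g hg s hs => H.mul_mem (H.mul_mem hg hs) (H.inv_mem hg)) hY₁ hs₁ hY
  obtain ⟨x, hx, X, hxX, eX⟩ : single i i Y₂.trace ∈ layer C H 0 := by
    have := (layer C H 0).sub_mem hY₂ (hH (Y₂ - single i i Y₂.trace) (by simp))
    rwa [sub_sub_cancel] at this
  have hT : ∀ g ∈ H, ∀ s ∈ H ⊓ (GeneralLinearGroup.det (n := n) (R := R)).ker,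
      g * s * g⁻¹ ∈ H ⊓ (GeneralLinearGroup.det (n := n) (R := R)).ker := fun g hg s hs =>
    ⟨H.mul_mem (H.mul_mem hg hs.1) (H.inv_mem hg), (MonoidHom.normal_ker _).conj_mem s hs.2 g⟩
  have key : ∀ m, single i j 1 ∈
      layer C (H ⊓ (GeneralLinearGroup.det (n := n) (R := R)).ker) m := by
    intro m
    induction m with
    | zero =>
      obtain ⟨y, hy, Y, hyY, eY⟩ := hH (single i j 1) (trace_single_eq_of_ne i j 1 hij)
      obtain ⟨g, hg, eg⟩ := h0 _ (tor_det hij a)
      have := lift_layer_ad C hyY (lift_comm_mem (x := g)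
        (H.mul_mem (H.mul_mem (H.mul_mem hg hy) (H.inv_mem hg)) (H.inv_mem hy)))
      rw [eg, eY, lift_ad_tor hij] at this
      exact lift_layer_inv hk C h0 hT this (lift_not_scal hij ha) (trace_single_eq_of_ne i j 1 hij)
    | succ m ih =>
      obtain ⟨y, hy, Y, hyY, eY⟩ := ih
      have := lift_layer_comm C hxX hyY (lift_comm_mem
        (H.mul_mem (H.mul_mem (H.mul_mem hx hy.1) (H.inv_mem hx)) (H.inv_mem hy.1)))
      rw [eX, eY, single_mul_single_same, single_mul_single_of_ne _ _ _ _ hij.symm, sub_zero,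
        mul_one] at this
      exact lift_layer_inv hk C h0 hT this (lift_not_scal hij ht₂) (trace_single_eq_of_ne i j 1 hij)
  exact fun g hg => (approx hk C _ lift_det (hasSL_inf hk C.π H h0)
    (fun m => ⟨_, key m, lift_not_scal hij one_ne_zero⟩) g hg).1

/-- A subgroup normalised by `SL(R)` whose reduction contains `SL(k)` contains `SL(R)`.
Let `T = K ⊓ ker det` (`hasSL_inf`). For a lift `κ ∈ K` of `tor i j a` the commutator of `κ`
and `rt h (ϖ ^ (m + 1))` lies in `T` and gives `single i j (a ^ 2 - 1)` in layer `m`. -/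
theorem normal_lift [Nontrivial n] [Finite k] (hk : 3 < Nat.card k) (C : Loc R k)
    (K : Subgroup (GL n R)) (hK : ∀ s : GL n R, s.val.det = 1 → ∀ x ∈ K, s * x * s⁻¹ ∈ K)
    (h0 : HasSL (K.map (red C.π))) : HasSL K := by
  obtain ⟨i, j, hij⟩ := exists_pair_ne n
  obtain ⟨a, ha⟩ := lift_exists_sq hk
  obtain ⟨κ, hκ, e⟩ := h0 _ (tor_det hij a)
  refine fun g hg => (approx hk C _ lift_det (hasSL_inf hk C.π K h0)
    (fun m => ⟨_, ?_, lift_not_scal hij ha⟩) g hg).1
  have h1 : κ * rt hij (C.ϖ ^ (m + 1)) * κ⁻¹ * (rt hij (C.ϖ ^ (m + 1)))⁻¹ ∈ K := by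
    have := K.mul_mem hκ (hK _ (rt_det hij (C.ϖ ^ (m + 1))) _ (K.inv_mem hκ))
    simpa only [mul_assoc] using this
  have h2 := lift_layer_ad C (m := m) (Y := single i j 1) (by simp [smul_single]) (lift_comm_mem h1)
  have h3 : (single i j (1 : R) : Matrix n n R).map C.π = single i j 1 := by
    ext u v
    simp [single, apply_ite C.π]
  rwa [e, h3, lift_ad_tor hij] at h2

end Pool.Agent.Lib.MP_6adaea_nt.G
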