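import Pool.Agent.Lib.MP_6adaea_nt.G.Fill
import Pool.Agent.Lib.MP_6adaea_nt.G.Index
import Pool.Agent.Lib.MP_6adaea_nt.G.Lift

/-!
Counting: a normal subgroup with a dense polynomial family contains `SL`; normal subgroups.
-/

set_option linter.unusedSectionVars false

namespace Pool.Agent.Lib.MP_6adaea_nt.G
open Matrix Polynomial

variable {n : Type} [Fintype n] [DecidableEq n] {R S : Type} [CommRing R] [CommRing S]

lemma red_injective {f : R →+* S} (hf : Function.Injective f) :
    Function.Injective (red (n := n) f) := fun g h e => by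
  ext i j
  exact hf (congrArg (fun u : GL n S => u.val i j) e)

lemma mem_ker_det {g : GL n R} :
    g ∈ (GeneralLinearGroup.det (n := n) (R := R)).ker ↔ g.val.det = 1 := by
  rw [MonoidHom.mem_ker, Units.ext_iff]; rfl

theorem count (n : Type) [Fintype n] [DecidableEq n] [Nontrivial n] (D c : ℕ) :
    ∃ B : ℕ, ∀ (k F : Type) [Field k] [Finite k] [Field F] [Infinite F] (ι : k →+* F),
      B < Nat.card k → ∀ H N : Subgroup (GL n k), (∀ h ∈ H, ∀ ν ∈ N, h * ν * h⁻¹ ∈ N) →
      Big (H.map (red ι)) → ∀ (M : ℕ) (X0 : Matrix n n F), ¬Scal X0 → Nat.card k ≤ c * M →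
      Fam D M ((fun ν : GL n k => ν.val.map ι) '' N) X0 → HasSL N := by
  set r := Fintype.card n ^ 2 - 1
  set E := r * ((Fintype.card n + 1) * D) + 1 with hE
  refine ⟨(2 * (c * E) ^ r).factorial, fun k F _ _ _ _ ι hk H N hN hH M X0 hX hM Φ => ?_⟩
  refine hasSL_of_relIndex k _ hk N ?_
  set T := (GeneralLinearGroup.det (n := n) (R := k)).ker
  have e0 : (fun ν : GL n k => ν.val.map ι) '' N =
      Units.val '' ((N.map (red ι) : Subgroup (GL n F)) : Set (GL n F)) := by
    rw [Subgroup.coe_map, Set.image_image]; rfl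
  rw [e0] at Φ
  let f : N.subgroupOf T → {ν : GL n F // ν ∈ N.map (red ι) ∧ ν.val.det = 1} := fun x =>
    ⟨red ι x.1.1, Subgroup.mem_map_of_mem _ x.2, by rw [red_det, mem_ker_det.mp x.1.2, map_one]⟩
  have hf : Function.Surjective f := by
    rintro ⟨_, ⟨ν, hν, rfl⟩, hd⟩
    rw [red_det] at hd
    exact ⟨⟨⟨ν, mem_ker_det.mpr (ι.injective (by rw [hd, map_one]))⟩, hν⟩, rfl⟩
  have := Finite.of_surjective f hf
  have h1 := fill (m := M / E) hH (by
    rintro _ ⟨h, hh, rfl⟩ _ ⟨ν, hν, rfl⟩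
    exact ⟨_, hN h hh ν hν, by simp only [map_mul, map_inv]⟩) hX Φ (by
      rw [mul_assoc]
      exact (Nat.mul_le_mul_left _ (Nat.le_succ _)).trans (Nat.div_mul_le_self M E))
  have h2 := h1.trans (Nat.card_le_card_of_surjective f hf)
  have h3 := card_sl_le (n := n) k
  have h4 : Nat.card k ≤ c * E * (M / E + 1) := by
    rw [mul_assoc]
    exact hM.trans (Nat.mul_le_mul_left _ (Nat.lt_mul_div_succ M (by omega)).le)
  have h5 := (N.subgroupOf T).index_mul_card
  refine Nat.le_of_mul_le_mul_right (c := (M / E + 1) ^ r) ?_ (by positivity)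
  calc N.relIndex T * (M / E + 1) ^ r ≤ (N.subgroupOf T).index * Nat.card (N.subgroupOf T) :=
        Nat.mul_le_mul_left _ h2
    _ ≤ 2 * Nat.card k ^ r := h5 ▸ h3
    _ ≤ 2 * (c * E * (M / E + 1)) ^ r := Nat.mul_le_mul_left _ (Nat.pow_le_pow_left h4 _)
    _ = _ := by rw [mul_pow (c * E), mul_assoc]

lemma big_of_roots {F : Type} [Field F] {H : Subgroup (GL n F)} {y z : F} (hy : y ≠ 0)
    (hz : z ≠ 0) (hyz : y ≠ z) (hH : Roots H {y, z}) : Big H := fun U hU => by
  by_cases h : ∀ X ∈ U, Scal X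
  · exact Or.inl h
  push Not at h
  obtain ⟨X, hX, hs⟩ := h
  exact Or.inr fun Y hY => inv_field U hy hz hyz
    (fun i j hij X hX => ⟨hU _ (hH hij y (by simp)) X hX, hU _ (hH hij z (by simp)) X hX⟩) hX hs hY

/-- polynomial functions of degree at most `d` in one variable -/
noncomputable def polyFn (F : Type) [Field F] (d : ℕ) : Submodule F (F → F) :=
  (degreeLE F d).map (aeval (fun s : F => s)).toLinearMap

lemma mem_polyFn {F : Type} [Field F] {d : ℕ} {f : F → F} :
    f ∈ polyFn F d ↔ ∃ p : F[X], p.natDegree ≤ d ∧ ∀ s, f s = p.eval s := by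
  simp only [polyFn, Submodule.mem_map, mem_degreeLE, AlgHom.toLinearMap_apply,
    natDegree_le_iff_degree_le]
  refine exists_congr fun p => and_congr_right fun _ => ?_
  rw [eq_comm, funext_iff]
  simp

/-- the family given by a matrix of polynomials in one variable -/
noncomputable def Fam.ofPoly {F : Type} [Field F] {D : ℕ} {N : Set (Matrix n n F)}
    (V : Matrix n n F[X]) (hV : ∀ i j, (V i j).natDegree < D) (Λ : Finset F) {M : ℕ}
    (hM : M < Λ.card) (hval : ∀ t ∈ Λ, ∃ c : F, ∃ ν ∈ N, 1 + t • V.map (eval t) = c • ν) :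
    Fam D M N (V.map (eval 0)) where
  T := F
  A := polyFn F
  one_mem := mem_polyFn.mpr ⟨1, by simp, by simp⟩
  mul_mem := fun hf hg => by
    obtain ⟨p, hp, hf⟩ := mem_polyFn.mp hf
    obtain ⟨p', hp', hg⟩ := mem_polyFn.mp hg
    exact mem_polyFn.mpr ⟨p * p', natDegree_mul_le.trans (add_le_add hp hp'), by simp [hf, hg]⟩
  mono := fun d e hde f hf => by
    obtain ⟨p, hp, hf⟩ := mem_polyFn.mp hf
    exact mem_polyFn.mpr ⟨p, hp.trans hde, hf⟩
  Λ := Λ
  dense := fun f hf h => by
    obtain ⟨p, hp, hf⟩ := mem_polyFn.mp hf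
    have : p = 0 := eq_zero_of_natDegree_lt_card_of_eval_eq_zero' p Λ
      (fun t ht => by rw [← hf, h t ht]) (hp.trans_lt hM)
    funext s; simp [hf, this]
  Ψ := fun t => 1 + t • V.map (eval t)
  deg := fun i j => mem_polyFn.mpr ⟨C ((1 : Matrix n n F) i j) + X * V i j, by
    have h1 := hV i j
    have h2 : (X * V i j).natDegree ≤ 1 + (V i j).natDegree :=
      natDegree_mul_le.trans (by simp)
    exact natDegree_add_le_of_degree_le (by simp) (by omega), by simp⟩
  val := hval
  γ := id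
  V := V
  curve := fun _ => rfl
  tangent := rfl

lemma exists_not_scal [Nonempty n] {F : Type} [Field F] {g : GL n F} (hg : ¬Scal g.val) :
    ∃ i j, i ≠ j ∧ ¬Scal (ad g (single i j 1) - single i j (1 : F)) := by
  by_contra hc
  push Not at hc
  have h1 : ∀ i j, i ≠ j → g.val * single i j 1 = single i j 1 * g.val := fun i j hij => by
    obtain ⟨c, hc⟩ := hc i j hij
    rw [sub_eq_iff_eq_add] at hc
    have h2 : ad g (single i j 1) * ad g (single i j (1 : F)) = 0 := by
      rw [← ad_mul_ad, single_mul_single_of_ne _ _ _ _ hij.symm]; simp [ad]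
    have h3 := congrFun (congrFun h2 i) i
    rw [hc] at h3
    simp [Matrix.add_mul, Matrix.mul_add, single_mul_single_of_ne _ _ _ _ hij.symm, hij.symm] at h3
    rw [h3, zero_smul, zero_add] at hc
    conv_rhs => rw [← hc, ad, Matrix.mul_assoc, ← Units.val_mul, inv_mul_cancel, Units.val_one,
      Matrix.mul_one]
  refine hg (scal_iff.mpr ⟨fun i j hij => ?_, fun i j => ?_⟩)
  · simpa [hij] using congrFun (congrFun (h1 j i hij.symm) i) i
  · by_cases hij : i = j
    · rw [hij]
    · simpa using congrFun (congrFun (h1 i j hij) i) j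

theorem normal_field (n : Type) [Fintype n] [DecidableEq n] [Nontrivial n] :
    ∃ B : ℕ, ∀ (k : Type) [Field k] [Finite k], B < Nat.card k → ∀ N : Subgroup (GL n k),
      (∀ s : GL n k, s.val.det = 1 → ∀ x ∈ N, s * x * s⁻¹ ∈ N) → (∃ g ∈ N, ¬Scal g.val) →
      HasSL N := by
  classical
  obtain ⟨B, hB⟩ := count n 2 2
  refine ⟨B + 2, fun k _ _ hk N hN ⟨g, hg, hs⟩ => ?_⟩
  have := Fintype.ofFinite k
  obtain ⟨i, j, hij, hX⟩ := exists_not_scal hs
  let ι : k →+* AlgebraicClosure k := algebraMap _ _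
  obtain ⟨y, hy0, hy1⟩ : ∃ y : k, y ≠ 0 ∧ y ≠ 1 := by
    by_contra hc
    push Not at hc
    have : (Finset.univ : Finset k) ⊆ {0, 1} := fun y _ => by
      by_cases h : y = 0 <;> simp [h, hc]
    have h2 := (Finset.card_le_card this).trans Finset.card_le_two
    rw [Finset.card_univ, ← Nat.card_eq_fintype_card] at h2
    omega
  let E : Matrix n n k := single i j 1
  let V : Matrix n n (AlgebraicClosure k)[X] :=
    ((ad g E - E).map ι).map C - (X : (AlgebraicClosure k)[X]) • ((ad g E * E).map ι).map C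
  have hV : ∀ t, V.map (eval t) = (ad g E - E).map ι - t • (ad g E * E).map ι := fun t => by
    ext a b; simp [V, -Matrix.map_mul]; ring
  refine hB k (AlgebraicClosure k) ι (by omega) (GeneralLinearGroup.det (n := n) (R := k)).ker N
    (fun h hh => hN h (mem_ker_det.mp hh)) ?_ (Nat.card k - 1) (V.map (eval 0)) ?_ (by omega)
    (Fam.ofPoly V (fun a b => ?_) (Finset.univ.image ι) ?_ fun t ht => ?_)
  · refine big_of_roots (y := ι y) (z := 1) (by simpa using hy0) one_ne_zero
      (fun h => hy1 (ι.injective (by simpa using h))) fun a b hab x hx => ?_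
    rcases hx with rfl | rfl
    · exact ⟨rt hab y, mem_ker_det.mpr (rt_det _ _), red_rt _ _ _⟩
    · exact ⟨rt hab 1, mem_ker_det.mpr (rt_det _ _), by rw [red_rt, map_one]⟩
  · rw [hV, zero_smul, sub_zero]
    refine fun h => hX ?_
    rw [scal_iff] at h ⊢
    exact ⟨fun a b hab => ι.injective (by simpa using h.1 a b hab),
      fun a b => ι.injective (h.2 a b)⟩
  · refine Nat.lt_succ_of_le ?_
    simp only [V, Matrix.sub_apply, Matrix.smul_apply, Matrix.map_apply, smul_eq_mul]
    compute_degree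
  · rw [Finset.card_image_of_injective _ ι.injective, Finset.card_univ,
      ← Nat.card_eq_fintype_card]
    omega
  · obtain ⟨x, -, rfl⟩ := Finset.mem_image.mp ht
    refine ⟨1, _, ⟨g * (rt hij x * g⁻¹ * (rt hij x)⁻¹), N.mul_mem hg
      (hN _ (rt_det _ _) _ (N.inv_mem hg)), rfl⟩, ?_⟩
    have e1 : single i j x = x • E := by simp [E, smul_single]
    have e2 : single i j (-x) = (-x) • E := by rw [smul_single, smul_eq_mul, mul_one]
    have e3 : (g * (rt hij x * g⁻¹ * (rt hij x)⁻¹)).val =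
        1 + x • (ad g E - E - x • (ad g E * E)) := by
      rw [← mul_assoc, ← mul_assoc, Units.val_mul, ad_val, rt_val, rt_inv_val, e1, e2, ad_add,
        ad_id, ad_smul]
      simp only [Matrix.add_mul, Matrix.mul_add, Matrix.one_mul, Matrix.mul_one, Matrix.smul_mul,
        Matrix.mul_smul]
      module
    rw [one_smul, hV]
    simp only [e3]
    ext a b
    simp [Matrix.one_apply, apply_ite ι, -Matrix.map_mul]

theorem normal_loc (n : Type) [Fintype n] [DecidableEq n] [Nontrivial n] :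
    ∃ B : ℕ, ∀ (R k : Type) [CommRing R] [Field k] [Finite k] (C : Loc R k), B < Nat.card k →
      ∀ K : Subgroup (GL n R), (∀ s : GL n R, s.val.det = 1 → ∀ x ∈ K, s * x * s⁻¹ ∈ K) →
      (∃ g ∈ K, ¬Scal (g.val.map C.π)) → HasSL K := by
  obtain ⟨B, hB⟩ := normal_field n
  refine ⟨B + 3, fun R k _ _ _ C hk K hK ⟨g, hg, hs⟩ => normal_lift (by omega) C K hK ?_⟩
  refine hB k (by omega) _ ?_ ⟨red C.π g, Subgroup.mem_map_of_mem _ hg, hs⟩
  have : HasSL ((GeneralLinearGroup.det (n := n) (R := R)).ker.map (red C.π)) :=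
    hasSL_of_roots fun i j hij x _ => by
      obtain ⟨y, rfl⟩ := C.surj x
      exact ⟨rt hij y, mem_ker_det.mpr (rt_det _ _), red_rt _ _ _⟩
  rintro s hs _ ⟨x, hx, rfl⟩
  obtain ⟨t, ht, rfl⟩ := this s hs
  exact ⟨_, hK t (mem_ker_det.mp ht) x hx, by simp only [map_mul, map_inv]⟩

end Pool.Agent.Lib.MP_6adaea_nt.G
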