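import Pool.Agent.Lib.MP_6adaea_nt.G.Count

/-!
Nonconstant polynomial curves with a fixed vector; density implies bigness.
-/

set_option linter.unusedSectionVars false

namespace Pool.Agent.Lib.MP_6adaea_nt.G
open Matrix Polynomial

variable {n : Type} [Fintype n] [DecidableEq n] {R S : Type} [CommRing R] [CommRing S]

theorem curve_adj (g : GL n R) : g.val.adjugate = g.val.det • (g⁻¹).val := by
  calc g.val.adjugate = g.val.adjugate * g.val * (g⁻¹).val := by
        rw [Matrix.mul_assoc, ← Units.val_mul, mul_inv_cancel, Units.val_one, Matrix.mul_one]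
    _ = _ := by rw [adjugate_mul, Matrix.smul_mul, Matrix.one_mul]

theorem curve_vec {F : Type} [Field F] (c : Matrix n n F[X]) (v : n → F) (i : n) (s : F) :
    (∑ j, c i j * C (v j)).eval s = (c.map (eval s) *ᵥ v) i := by
  simp [mulVec, dotProduct, eval_finsetSum]

theorem curve_taylor {F : Type} [Field F] (c : Matrix n n F[X]) (y s : F) :
    c.map (eval (s + y)) = c.map (eval y) + s • (c.map fun q => divX (taylor y q)).map (eval s) := by
  ext i j
  have h := congrArg (eval s) (X_mul_divX_add (taylor y (c i j)))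
  rw [taylor_eval, taylor_coeff_zero, eval_add, eval_mul, eval_X, eval_C] at h
  simp only [Matrix.add_apply, Matrix.smul_apply, Matrix.map_apply, smul_eq_mul]
  rw [← h, add_comm]

/-- Let `U` be stable under `ad h`, `h ∈ H`. For `X ∈ U` and a functional `l` killing `U` one has
`l (h * X * adjugate h) = det h * l (ad h X) = 0`, so `l (ad s X) = 0` for `det s = 1`; hence
`ad s X ∈ U` (`Submodule.exists_dual_map_eq_bot_of_notMem` or `Subspace.forall_mem_dualAnnihilator_apply_eq_zero_iff`).
Conclude with `inv_field` as in `big_of_roots`. -/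
theorem big_of_dense {F : Type} [Field F] [Infinite F] {H : Subgroup (GL n F)}
    (h : ∀ (l : Matrix n n F →ₗ[F] F) (X : Matrix n n F),
      (∀ g ∈ H, l (g.val * X * g.val.adjugate) = 0) →
      ∀ s : Matrix n n F, s.det = 1 → l (s * X * s.adjugate) = 0) : Big H := by
  classical
  intro U hU
  by_cases h0 : ∀ X ∈ U, Scal X
  · exact Or.inl h0
  push Not at h0
  obtain ⟨X, hX, hs⟩ := h0
  have key : ∀ s : GL n F, s.val.det = 1 → ∀ Z ∈ U, ad s Z ∈ U := fun s hs Z hZ => by
    refine (Subspace.forall_mem_dualAnnihilator_apply_eq_zero_iff U _).mp fun l hl => ?_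
    rw [Submodule.mem_dualAnnihilator] at hl
    have h1 := h l Z (fun g hg => by
      have h2 : l (g.val * Z * (g⁻¹).val) = 0 := hl _ (hU g hg Z hZ)
      rw [curve_adj, Matrix.mul_smul, map_smul, h2, smul_zero]) s.val hs
    rwa [curve_adj, hs, one_smul] at h1
  obtain ⟨y, hy⟩ := Infinite.exists_notMem_finset ({0, 1} : Finset F)
  simp only [Finset.mem_insert, Finset.mem_singleton, not_or] at hy
  exact Or.inr fun Y hY => inv_field U hy.1 one_ne_zero hy.2
    (fun i j hij Z hZ => ⟨key _ (rt_det hij _) Z hZ, key _ (rt_det hij _) Z hZ⟩) hX hs hY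

/-- Take `B` from `count n (D + 1) 2`, enlarged by `D + 2`. Strong induction on the sum of the
degrees of the entries. If all entries have derivative zero, `c = expand p c'`
(`Polynomial.expand_contract`), the `p`-th power map is onto on `k`, and `c'` fixes `v` at the
infinitely many points `s ^ p`, hence everywhere. Otherwise some entry of the derivative does
not vanish at some `ι y1` (degree less than `card k`); with `c (ι y1) = ν1` write
`c (ι y1 + s) * ν1⁻¹ = 1 + s • V s` (`divX` of the Taylor expansion). If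
`V 0 = c' (ι y1) * ν1⁻¹` were the scalar `l`, then `0 = c' (ι y1) v = l • v`. Use `Fam.ofPoly`. -/
theorem curve (n : Type) [Fintype n] [DecidableEq n] [Nontrivial n] (D : ℕ) :
    ∃ B : ℕ, ∀ (k F : Type) [Field k] [Finite k] [Field F] [Infinite F] (ι : k →+* F),
      B < Nat.card k → ∀ H N : Subgroup (GL n k), (∀ h ∈ H, ∀ ν ∈ N, h * ν * h⁻¹ ∈ N) →
      Big (H.map (red ι)) → ∀ c : Matrix n n F[X], (∀ i j, (c i j).natDegree ≤ D) →
      (∀ y : k, ∃ ν ∈ N, c.map (eval (ι y)) = ν.val.map ι) →
      (∃ v : n → F, v ≠ 0 ∧ ∀ s, c.map (eval s) *ᵥ v = v) →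
      (∃ i j, 0 < (c i j).natDegree) → HasSL N := by
  classical
  obtain ⟨B, hB⟩ := count n (D + 1) 2
  refine ⟨B + D + 2, fun k F _ _ _ _ ι hk H N hN hH c => ?_⟩
  have := Fintype.ofFinite k
  have hcard : (Finset.univ.image ι).card = Nat.card k := by
    rw [Finset.card_image_of_injective _ ι.injective, Finset.card_univ, Nat.card_eq_fintype_card]
  induction hm : ∑ i, ∑ j, (c i j).natDegree using Nat.strong_induction_on generalizing c with
  | _ m ih =>
  rintro hD hval ⟨v, hv0, hv⟩ ⟨i0, j0, h0⟩
  by_cases hd : ∀ i j, derivative (c i j) = 0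
  · obtain ⟨p, hp⟩ := CharP.exists k
    have hpp : p.Prime := CharP.char_is_prime k p
    have : Fact p.Prime := ⟨hpp⟩
    have : CharP F p := charP_of_injective_ringHom ι.injective p
    have e1 : ∀ i j, expand F p (c.map (contract p) i j) = c i j := fun i j =>
      expand_contract p (hd i j) hpp.ne_zero
    generalize c.map (contract p) = c' at e1
    have e2 : ∀ i j, (c i j).natDegree = (c' i j).natDegree * p := fun i j => by
      rw [← e1, natDegree_expand]
    have e3 : ∀ i j, (c' i j).natDegree ≤ (c i j).natDegree := fun i j => by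
      rw [e2]
      exact Nat.le_mul_of_pos_right _ hpp.pos
    have e4 : 0 < (c' i0 j0).natDegree := Nat.pos_of_mul_pos_right (e2 i0 j0 ▸ h0)
    have e5 : ∀ s, c.map (eval s) = c'.map (eval (s ^ p)) := fun s => by
      ext i j
      rw [Matrix.map_apply, Matrix.map_apply, ← e1, expand_eval]
    refine ih _ ?_ c' rfl (fun i j => (e3 i j).trans (hD i j)) (fun y => ?_)
      ⟨v, hv0, fun s => ?_⟩ ⟨i0, j0, e4⟩
    · rw [← hm]
      refine Finset.sum_lt_sum (fun i _ => Finset.sum_le_sum fun j _ => e3 i j)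
        ⟨i0, Finset.mem_univ _, Finset.sum_lt_sum (fun j _ => e3 i0 j)
          ⟨j0, Finset.mem_univ _, ?_⟩⟩
      rw [e2]
      exact lt_mul_of_one_lt_right e4 hpp.one_lt
    · obtain ⟨z, rfl⟩ := Finite.surjective_of_injective (frobenius_inj k p) y
      rw [frobenius_def, map_pow, ← e5]
      exact hval z
    · funext i
      have h1 : expand F p (∑ j, c' i j * C (v j) - C (v i)) = 0 := Polynomial.funext fun t => by
        rw [expand_eval, eval_sub, curve_vec, ← e5, hv, eval_C, sub_self, eval_zero]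
      have h2 := congrArg (eval s) ((expand_eq_zero hpp.pos).mp h1)
      rwa [eval_sub, curve_vec, eval_C, eval_zero, sub_eq_zero] at h2
  push Not at hd
  obtain ⟨i1, j1, hd⟩ := hd
  obtain ⟨y1, hy1⟩ : ∃ y1 : k, (derivative (c i1 j1)).eval (ι y1) ≠ 0 := by
    by_contra hc
    push Not at hc
    refine hd (eq_zero_of_natDegree_lt_card_of_eval_eq_zero' _ (Finset.univ.image ι)
      (fun t ht => ?_) ?_)
    · obtain ⟨x, -, rfl⟩ := Finset.mem_image.mp ht
      exact hc x
    · have h1 := natDegree_derivative_le (c i1 j1)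
      have h2 := hD i1 j1
      omega
  obtain ⟨ν, hν, eν⟩ := hval y1
  have e1 := curve_taylor c (ι y1)
  have e2 : (c.map fun q => divX (taylor (ι y1) q)).map (eval 0) i1 j1 ≠ 0 := by
    rwa [Matrix.map_apply, Matrix.map_apply, ← coeff_zero_eq_eval_zero, coeff_divX, zero_add,
      taylor_coeff_one]
  have e3 : ∀ i j, ((c.map fun q => divX (taylor (ι y1) q)) i j).natDegree ≤ D := fun i j =>
    natDegree_divX_le.trans ((natDegree_taylor _ _).trans_le (hD i j))
  generalize (c.map fun q => divX (taylor (ι y1) q)) = W at e1 e2 e3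
  rw [eν] at e1
  have e4 : ν.val.map ι * (ν⁻¹).val.map ι = 1 := by
    rw [← Matrix.map_mul, ← Units.val_mul, mul_inv_cancel, Units.val_one,
      Matrix.map_one _ (map_zero _) (map_one _)]
  have e5 : (ν⁻¹).val.map ι * ν.val.map ι = 1 := mul_eq_one_comm.mp e4
  have e6 : ∀ s, (W * ((ν⁻¹).val.map ι).map C).map (eval s) =
      W.map (eval s) * (ν⁻¹).val.map ι := fun s => by
    ext i j
    simp [Matrix.mul_apply, eval_finsetSum]
  have e7 : W.map (eval 0) *ᵥ v = 0 := by
    funext i
    have h1 : (X : F[X]) * ∑ j, W i j * C (v j) = 0 := Polynomial.funext fun t => by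
      have h2 := hv (t + ι y1)
      rw [e1, add_mulVec, ← eν, hv, add_eq_left, smul_mulVec] at h2
      rw [eval_mul, eval_X, curve_vec, eval_zero]
      exact congrFun h2 i
    have h2 := congrArg (eval 0) ((mul_eq_zero.mp h1).resolve_left X_ne_zero)
    rwa [curve_vec, eval_zero] at h2
  refine hB k F ι (by omega) H N hN hH (Nat.card k - 1) _ ?_ (by omega)
    (Fam.ofPoly (W * ((ν⁻¹).val.map ι).map C) (fun a b => Nat.lt_succ_of_le ?_)
      (Finset.univ.image ι) (by omega) fun t ht => ?_)
  · rintro ⟨l, hl⟩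
    rw [e6] at hl
    have h1 : W.map (eval 0) = l • ν.val.map ι := by
      rw [← Matrix.mul_one (W.map (eval 0)), ← e5, ← Matrix.mul_assoc, hl, Matrix.smul_mul,
        Matrix.one_mul]
    rw [h1, smul_mulVec, ← eν, hv, smul_eq_zero] at e7
    rw [h1, e7.resolve_right hv0, zero_smul] at e2
    exact e2 rfl
  · rw [Matrix.mul_apply]
    exact natDegree_sum_le_of_forall_le _ _ fun l _ => (natDegree_mul_C_le _ _).trans (e3 a l)
  · obtain ⟨x, -, rfl⟩ := Finset.mem_image.mp ht
    obtain ⟨ν', hν', eν'⟩ := hval (x + y1)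
    refine ⟨1, _, ⟨ν' * ν⁻¹, N.mul_mem hν' (N.inv_mem hν), rfl⟩, ?_⟩
    rw [map_add, e1] at eν'
    rw [one_smul, e6]
    simp only
    rw [Units.val_mul, Matrix.map_mul, ← eν', Matrix.add_mul, e4, Matrix.smul_mul]

end Pool.Agent.Lib.MP_6adaea_nt.G
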