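import Pool.Agent.Lib.MP_6adaea_nt.G.Carlitz

/-!
Irreducibility of the Carlitz cyclotomic polynomials.
-/

set_option linter.unusedSectionVars false

namespace Pool.Agent.Lib.MP_6adaea_nt.G
open Polynomial

variable {k : Type} [Field k] [Finite k]

theorem cyclo_card {m : k[X]} (hm : m.Monic) :
    Finite (AdjoinRoot m) ∧ Nat.card (AdjoinRoot m) = Nat.card k ^ m.natDegree := by
  have := hm.finite_adjoinRoot
  refine ⟨Module.finite_of_finite k, ?_⟩
  rw [Module.natCard_eq_pow_finrank (K := k), (AdjoinRoot.powerBasis' hm).finrank,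
    AdjoinRoot.powerBasis'_dim]

theorem cyclo_sep {K : Type} [Field K] (ψ : k[X] →+* K) {m : k[X]} (h : ψ m ≠ 0) :
    ((cPol m).map ψ).Separable := by
  rw [separable_def, derivative_map, cPol_derivative, map_C]
  exact ⟨0, C (ψ m)⁻¹, by rw [zero_mul, zero_add, ← C_mul, inv_mul_cancel₀ h, C_1]⟩

theorem cyclo_mul {Ω : Type} [AddCommGroup Ω] [Module k Ω] (c : Ω →ₗ[k] Ω) (a b : k[X]) (y : Ω) :
    aeval c a (aeval c b y) = aeval c (a * b) y := by
  rw [map_mul, Module.End.mul_apply]

theorem cyclo_root {Ω : Type} [AddCommGroup Ω] [Module k Ω] (c : Ω →ₗ[k] Ω) {m : k[X]} {y : Ω}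
    (h : aeval c m y = 0) (a : k[X]) : aeval c m (aeval c a y) = 0 := by
  rw [cyclo_mul, mul_comm, ← cyclo_mul, h, map_zero]

section

variable {Ω : Type} [Field Ω] [Algebra k Ω] [Algebra (RatFunc k) Ω]
  [IsScalarTower k (RatFunc k) Ω]

/-- Dedekind's argument. Make `Ω` a `k[X]`-algebra through `RatFunc k`. A root `μ` of the monic
`cPol m` is integral, its minimal polynomial `f` over `k[X]` maps to the one over `RatFunc k`
(`minpoly.isIntegrallyClosed_eq_field_fractions'`), `cPol m = f * g`. If `aeval c P μ` is not a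
root of `f` it is a root of `g`, so `f ∣ g.comp (cPol P)` (`minpoly.isIntegrallyClosed_dvd`).
Modulo `P` this reads `f ∣ g ^ q ^ d` (`FiniteField.expand_card`), so an irreducible factor of
`f` mod `P` has its square dividing `cPol m` mod `P`, whose derivative is the nonzero constant
`m` mod `P`: contradiction. -/
theorem minpoly_prime (c : Ω →ₗ[k] Ω)
    (hc : ∀ y, c y = algebraMap (RatFunc k) Ω RatFunc.X * y + y ^ Nat.card k) {m P : k[X]}
    (hm : m.Monic) (hP : Irreducible P) (hPm : P.Monic) (hd : ¬P ∣ m) {μ : Ω}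
    (hμ : aeval c m μ = 0) :
    minpoly (RatFunc k) (aeval c P μ) = minpoly (RatFunc k) μ := by
  let _ : Algebra k[X] Ω :=
    ((algebraMap (RatFunc k) Ω).comp (algebraMap k[X] (RatFunc k))).toAlgebra
  have : IsScalarTower k[X] (RatFunc k) Ω := IsScalarTower.of_algebraMap_eq' rfl
  have : FaithfulSMul k[X] Ω := (faithfulSMul_iff_algebraMap_injective _ _).2
    ((algebraMap (RatFunc k) Ω).injective.comp (IsFractionRing.injective _ _))
  have e : ∀ a y, aeval y (cPol a) = aeval c a y := fun a y => by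
    rw [← cPol_eval _ c hc, aeval_def]
    congr 1
    refine RingHom.ext fun p => ?_
    change _ = aeval _ p
    rw [aeval_algebraMap_apply, RatFunc.aeval_X_left_eq_algebraMap]
    rfl
  have hi : IsIntegral k[X] μ := ⟨cPol m, (cPol_monic hm).1, (e m μ).trans hμ⟩
  obtain ⟨g, hg⟩ := minpoly.isIntegrallyClosed_dvd hi ((e m μ).trans hμ)
  refine (minpoly.eq_of_irreducible_of_monic (minpoly.irreducible hi.tower_top) ?_
    (minpoly.monic hi.tower_top)).symm
  rw [minpoly.isIntegrallyClosed_eq_field_fractions' _ hi, aeval_map_algebraMap]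
  by_contra h0
  have h1 := (e m _).trans (cyclo_root c hμ P)
  rw [hg, map_mul] at h1
  have h2 := map_dvd (AdjoinRoot.mk P) (minpoly.isIntegrallyClosed_dvd hi
    (p := g.comp (cPol P)) (by rw [aeval_comp, e, (mul_eq_zero.1 h1).resolve_left h0]))
  have := Fact.mk hP
  have := (cyclo_card hPm).1
  have := Fintype.ofFinite (AdjoinRoot P)
  rw [map_comp, cPol_map_prime hP hPm, ← expand_eq_comp_X_pow, ← (cyclo_card hPm).2,
    Nat.card_eq_fintype_card, FiniteField.expand_card] at h2
  have h3 := cyclo_sep (AdjoinRoot.mk P) (AdjoinRoot.mk_eq_zero.not.2 hd)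
  rw [hg, Polynomial.map_mul] at h3
  refine not_isUnit_of_natDegree_pos _ ?_ (h3.isCoprime.pow_right.isUnit_of_dvd h2)
  rw [(minpoly.monic hi).natDegree_map]
  exact minpoly.natDegree_pos hi

/-- induction on the number of prime factors of the monic `a`; for general `a` replace it by
the monic `a + m * X ^ N` with `N` large -/
theorem minpoly_coprime (c : Ω →ₗ[k] Ω)
    (hc : ∀ y, c y = algebraMap (RatFunc k) Ω RatFunc.X * y + y ^ Nat.card k) {m a : k[X]}
    (hm : m.Monic) (ha : IsCoprime a m) {μ : Ω} (hμ : aeval c m μ = 0) :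
    minpoly (RatFunc k) (aeval c a μ) = minpoly (RatFunc k) μ := by
  have key : ∀ (n : ℕ) (a : k[X]), a.natDegree = n → a.Monic → IsCoprime a m →
      minpoly (RatFunc k) (aeval c a μ) = minpoly (RatFunc k) μ := by
    intro n
    induction n using Nat.strong_induction_on with
    | _ n ih =>
      intro a hn h1 h2
      by_cases hu : IsUnit a
      · rw [h1.eq_one_of_isUnit hu, map_one, Module.End.one_apply]
      obtain ⟨P, hP1, hP2, b, rfl⟩ := exists_monic_irreducible_factor a hu
      have hb := hP1.of_mul_monic_left h1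
      rw [← cyclo_mul, minpoly_prime c hc hm hP2 hP1
        (fun h => hP2.not_isUnit (h2.of_mul_left_left.isUnit_of_dvd h)) (cyclo_root c hμ b)]
      refine ih _ ?_ b rfl hb h2.of_mul_left_right
      rw [← hn, hP1.natDegree_mul hb]
      exact lt_add_of_pos_left _ hP2.natDegree_pos
  have h := key _ (a + m * X ^ (a.natDegree + 1)) rfl ((hm.mul (monic_X_pow _)).add_of_right
    (degree_lt_degree (by rw [hm.natDegree_mul (monic_X_pow _), natDegree_X_pow]; omega)))
    (ha.add_mul_left_left _)
  rwa [map_add, LinearMap.add_apply, mul_comm, ← cyclo_mul, hμ, map_zero, add_zero] at h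

end

/-- The elements `aeval c a μ`, `a` modulo `m`, are `q ^ deg m` distinct roots of `cPol m`, so
they are all roots and `cPol m` is separable. By `minpoly_coprime` the minimal polynomial of `μ`
over `F = RatFunc k` has degree at least `card (AdjoinRoot m)ˣ`; by the tower law the one over
`L` has degree at least `card (AdjoinRoot m)ˣ / finrank F L`. It is separable and splits, and
each root is `σ μ` (`minpoly.exists_algEquiv_of_root`), which is `aeval c a μ` with `a` a unit
modulo `m` (`σ` commutes with `c`, so `σ μ` also has exact order `m`). So `D` has at least that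
many elements. -/
theorem carlitz (L : Type) [Field L] [Algebra k L] [Algebra (RatFunc k) L]
    [IsScalarTower k (RatFunc k) L] [FiniteDimensional (RatFunc k) L] (Ω : Type) [Field Ω]
    [Algebra L Ω] [Algebra k Ω] [IsScalarTower k L Ω] [Normal L Ω] (c : Ω →ₗ[k] Ω)
    (hc : ∀ y, c y = algebraMap L Ω (algebraMap (RatFunc k) L RatFunc.X) * y + y ^ Nat.card k)
    {m : k[X]} (hm : m.Monic) {μ : Ω} (hμ : ∀ a : k[X], aeval c a μ = 0 ↔ m ∣ a)
    (D : Subgroup (AdjoinRoot m)ˣ)
    (hD : ∀ (σ : Ω ≃ₐ[L] Ω) (a : k[X]) (u : (AdjoinRoot m)ˣ), (u : AdjoinRoot m) = AdjoinRoot.mk m a →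
      σ μ = aeval c a μ → u ∈ D) :
    D.index ≤ Module.finrank (RatFunc k) L := by
  let _ : Algebra (RatFunc k) Ω := ((algebraMap L Ω).comp (algebraMap (RatFunc k) L)).toAlgebra
  have : IsScalarTower (RatFunc k) L Ω := IsScalarTower.of_algebraMap_eq' rfl
  have : IsScalarTower k (RatFunc k) Ω := IsScalarTower.of_algebraMap_eq fun x => by
    rw [IsScalarTower.algebraMap_apply k L Ω, IsScalarTower.algebraMap_apply k (RatFunc k) L]
    rfl
  obtain ⟨hf, hcard⟩ := cyclo_card hm
  obtain ⟨ψ, hψ, e⟩ : ∃ ψ : k[X] →+* L, ψ m ≠ 0 ∧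
      ∀ a y, aeval y ((cPol a).map ψ) = aeval c a y := by
    refine ⟨(aeval (algebraMap (RatFunc k) L RatFunc.X) : k[X] →ₐ[k] L).toRingHom, ?_,
      fun a y => ?_⟩
    · change aeval _ m ≠ 0
      rw [aeval_algebraMap_apply, RatFunc.aeval_X_left_eq_algebraMap]
      exact (_root_.map_ne_zero _).2 (RatFunc.algebraMap_ne_zero hm.ne_zero)
    · rw [← cPol_eval _ c hc, aeval_def, eval₂_map]
      congr 1
      exact RingHom.ext fun p => (aeval_algebraMap_apply Ω _ p).symm
  have h0 := (hμ m).2 dvd_rfl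
  have hM := (cPol_monic hm).1.map ψ
  have inj : ∀ a b, aeval c a μ = aeval c b μ ↔ AdjoinRoot.mk m a = AdjoinRoot.mk m b := by
    intro a b
    rw [AdjoinRoot.mk_eq_mk, ← hμ, map_sub, LinearMap.sub_apply, sub_eq_zero]
  choose r hr using AdjoinRoot.mk_surjective (g := m)
  have hφ : Function.Injective fun u => aeval c (r u) μ := fun u v h => by
    rw [← hr u, (inj _ _).1 h, hr]
  have hall : ∀ σ : Ω ≃ₐ[L] Ω, ∃ a : k[X], aeval c a μ = σ μ := by
    intro σ
    have h1 := Set.eq_of_subset_of_ncard_le (s := Set.range fun u => aeval c (r u) μ)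
      (t := ((cPol m).map ψ).rootSet Ω) (by
        rintro _ ⟨u, rfl⟩
        exact hM.mem_rootSet.2 ((e _ _).trans (cyclo_root c h0 _))) (by
        refine (ncard_rootSet_le _ _).trans (le_of_eq ?_)
        rw [Set.ncard_range_of_injective hφ, hcard, (cPol_monic hm).1.natDegree_map,
          (cPol_monic hm).2]) (rootSet_finite _ _)
    obtain ⟨u, hu⟩ : σ μ ∈ Set.range fun u => aeval c (r u) μ := by
      rw [h1, hM.mem_rootSet, aeval_algHom_apply, e, h0, map_zero]
    exact ⟨_, hu⟩
  have hi : IsIntegral L μ := ⟨_, hM, (e m μ).trans h0⟩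
  have hi' : IsIntegral (RatFunc k) μ := isIntegral_trans μ hi
  have hA : Nat.card (AdjoinRoot m)ˣ ≤ (minpoly (RatFunc k) μ).natDegree := by
    rw [← Set.ncard_range_of_injective (hφ.comp Units.val_injective)]
    refine (Set.ncard_le_ncard ?_ (rootSet_finite _ _)).trans (ncard_rootSet_le _ Ω)
    rintro _ ⟨u, rfl⟩
    obtain ⟨t, ht⟩ := AdjoinRoot.mk_eq_mk.1 (show AdjoinRoot.mk m (r ↑u⁻¹ * r u) =
      AdjoinRoot.mk m 1 by rw [map_mul, hr, hr, map_one, Units.inv_mul])
    rw [(minpoly.monic hi').mem_rootSet, ← minpoly_coprime c hc hm (a := r u)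
      ⟨r ↑u⁻¹, -t, by linear_combination ht⟩ h0]
    exact minpoly.aeval _ _
  have hB : (minpoly (RatFunc k) μ).natDegree ≤
      Module.finrank (RatFunc k) L * (minpoly L μ).natDegree := by
    have := IntermediateField.adjoin.finiteDimensional hi
    have := Module.Finite.trans (R := RatFunc k) L (IntermediateField.adjoin L {μ})
    rw [← IntermediateField.adjoin.finrank hi, Module.finrank_mul_finrank]
    exact (congrArg natDegree (minpoly.algHom_eq ((IntermediateField.val _).restrictScalars _)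
      Subtype.val_injective (IntermediateField.AdjoinSimple.gen L μ))).trans_le
      (minpoly.natDegree_le _)
  have hC : (minpoly L μ).natDegree ≤ Nat.card D := by
    rw [← card_rootSet_eq_natDegree ((cyclo_sep ψ hψ).of_dvd (minpoly.dvd L μ ((e m μ).trans h0)))
      (Normal.splits inferInstance μ), ← Nat.card_eq_fintype_card, Nat.card_coe_set_eq]
    refine (Set.ncard_le_ncard (t := (fun u : (AdjoinRoot m)ˣ => aeval c (r u) μ) '' D)
      (fun ν hν => ?_) (Set.toFinite _)).trans (Set.ncard_image_le (Set.toFinite _))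
    obtain ⟨σ, rfl⟩ := minpoly.exists_algEquiv_of_root' hi.isAlgebraic
      ((minpoly.monic hi).mem_rootSet.1 hν)
    obtain ⟨a, ha⟩ := hall σ
    obtain ⟨b, hb⟩ := hall σ.symm
    have h1 : AdjoinRoot.mk m a * AdjoinRoot.mk m b = 1 := by
      rw [mul_comm, ← map_mul, ← map_one (AdjoinRoot.mk m), ← inj, ← cyclo_mul, ha, ← e,
        aeval_algHom_apply, e, hb, map_one, Module.End.one_apply, σ.apply_symm_apply]
    exact ⟨Units.mkOfMulEqOne _ _ h1, hD σ a _ rfl ha.symm, ((inj _ _).2 (hr _)).trans ha⟩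
  refine Nat.le_of_mul_le_mul_left ?_ (Nat.card_pos (α := D))
  rw [D.card_mul_index, mul_comm]
  exact hA.trans (hB.trans (Nat.mul_le_mul_left _ hC))

end Pool.Agent.Lib.MP_6adaea_nt.G
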