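import Pool.Agent.Lib.MP_6adaea_nt.G.Coprime
import Pool.Agent.Lib.MP_6adaea_nt.G.Cyclo

/-!
The determinant of the Galois representation has image of bounded index.
-/

set_option linter.unusedSectionVars false

namespace Pool.Agent.Lib.MP_6adaea_nt.G
open Matrix Polynomial

variable {k : Type} [Field k] [Finite k] {Ω : Type} [Field Ω] [Algebra k Ω]

/-- the Carlitz module -/
noncomputable def carl (k : Type) [Field k] [Finite k] {Ω : Type} [Field Ω] [Algebra k Ω]
    (θ : Ω) : Ω →ₗ[k] Ω :=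
  LinearMap.mulLeft k θ + (frob k Ω).toLinearMap

theorem carl_apply (θ y : Ω) : carl k θ y = θ * y + y ^ Nat.card k := by
  have h := frob_pow_apply (k := k) (Ω := Ω) 1 y
  rw [pow_one, pow_one] at h
  simp [carl, h]

private theorem det_frob_apply (y : Ω) : frob k Ω y = y ^ Nat.card k := by
  have h := frob_pow_apply (k := k) (Ω := Ω) 1 y
  rwa [pow_one, pow_one] at h

/-- the top coefficient of the remainder -/
private noncomputable def detTop (p : Polynomial Ω) : Polynomial Ω →ₗ[Ω] Ω :=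
  (lcoeff Ω (p.natDegree - 1)).comp (Polynomial.modByMonicHom p)

private theorem detTop_apply (p Z : Polynomial Ω) :
    detTop p Z = (Z %ₘ p).coeff (p.natDegree - 1) := rfl

private theorem detTop_zero {p Z : Polynomial Ω} (hp : p.Monic) (h : p ∣ Z) : detTop p Z = 0 := by
  rw [detTop_apply, (modByMonic_eq_zero_iff_dvd hp).2 h, coeff_zero]

private theorem detTop_congr {p Z Z' : Polynomial Ω} (hp : p.Monic) (h : p ∣ Z - Z') :
    detTop p Z = detTop p Z' := by
  have := detTop_zero hp h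
  rwa [map_sub, sub_eq_zero] at this

private theorem detTop_map {p : Polynomial Ω} (hp : p.Monic) (ψ : Ω →+* Ω) (hψ : p.map ψ = p)
    (Z : Polynomial Ω) : ψ (detTop p Z) = detTop p (Z.map ψ) := by
  rw [detTop_apply, detTop_apply, ← coeff_map, map_modByMonic ψ hp, hψ]

private theorem detTop_dvd {p Z : Polynomial Ω} (hp : p.Monic)
    (h : ∀ i : ℕ, detTop p (X ^ i * Z) = 0) : p ∣ Z := by
  rw [← modByMonic_eq_zero_iff_dvd hp]
  by_contra hR
  have hlt : (Z %ₘ p).natDegree < p.natDegree :=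
    natDegree_lt_natDegree hR (degree_modByMonic_lt Z hp)
  obtain ⟨i, hi⟩ : ∃ i, p.natDegree - 1 = (Z %ₘ p).natDegree + i :=
    ⟨p.natDegree - 1 - (Z %ₘ p).natDegree, by omega⟩
  have h1 : detTop p (X ^ i * Z) = detTop p (X ^ i * (Z %ₘ p)) := by
    symm
    apply detTop_congr hp
    rw [← mul_sub]
    exact (dvd_modByMonic_sub Z p).mul_left _
  have h2 : (X ^ i * (Z %ₘ p)) %ₘ p = X ^ i * (Z %ₘ p) := by
    rw [modByMonic_eq_self_iff hp]
    apply degree_lt_degree
    rw [natDegree_X_pow_mul _ hR]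
    omega
  rw [h i, detTop_apply, h2, hi, coeff_X_pow_mul] at h1
  exact hR (leadingCoeff_eq_zero.1 h1.symm)

private theorem det_map_fix (ψ : Ω →ₐ[k] Ω) (c : k[X]) :
    (c.map (algebraMap k Ω)).map (ψ : Ω →+* Ω) = c.map (algebraMap k Ω) := by
  rw [Polynomial.map_map, ψ.comp_algebraMap]

private theorem detTop_aeval (θ : Ω) {a : k[X]} (ha : a.Monic) {W : Polynomial Ω}
    (h : a.map (algebraMap k Ω) ∣ W.map (frob k Ω : Ω →ₐ[k] Ω) - (X - C θ) * W) (c : k[X]) :
    aeval (carl k θ) c (detTop (a.map (algebraMap k Ω)) W) =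
      detTop (a.map (algebraMap k Ω)) (c.map (algebraMap k Ω) * W) := by
  have hp := ha.map (algebraMap k Ω)
  have step : ∀ c : k[X], carl k θ (detTop (a.map (algebraMap k Ω)) (c.map (algebraMap k Ω) * W)) =
      detTop (a.map (algebraMap k Ω)) ((X * c).map (algebraMap k Ω) * W) := by
    intro c
    rw [carl_apply, ← det_frob_apply]
    have e1 := detTop_map hp (frob k Ω : Ω →+* Ω) (det_map_fix _ a) (c.map (algebraMap k Ω) * W)
    rw [RingHom.coe_coe] at e1
    rw [e1, ← smul_eq_mul, ← map_smul, ← map_add]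
    apply detTop_congr hp
    rw [Polynomial.map_mul, det_map_fix, Polynomial.map_mul, map_X, smul_eq_C_mul]
    have e2 : C θ * (c.map (algebraMap k Ω) * W) +
        c.map (algebraMap k Ω) * W.map (frob k Ω : Ω →ₐ[k] Ω) - X * c.map (algebraMap k Ω) * W =
        c.map (algebraMap k Ω) * (W.map (frob k Ω : Ω →ₐ[k] Ω) - (X - C θ) * W) := by ring
    rw [e2]
    exact h.mul_left _
  induction c using Polynomial.induction_on with
  | C b =>
    rw [aeval_C, Module.algebraMap_end_apply, Polynomial.map_C, ← smul_eq_C_mul, map_smul,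
      algebraMap_smul]
  | add p q hp' hq' =>
    rw [map_add, LinearMap.add_apply, hp', hq', Polynomial.map_add, add_mul, map_add]
  | monomial n b ih =>
    have e : C b * X ^ (n + 1) = X * (C b * X ^ n) := by ring
    rw [e, map_mul, aeval_X, Module.End.mul_apply, ih, step]

/-- A unit `W` modulo `a` with `W ^ (1) ≡ (X - θ) * W` gives a Carlitz torsion point of exact
order `a`. Let `a' = a.map _` (monic, degree `d`), `l Z = (Z %ₘ a').coeff (d - 1)`; `l` is linear,
depends on `Z` mod `a'`, commutes with maps of the coefficients that fix `k`. Then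
`carl θ (l (c * W)) = l (X * c * W)` for `c` over `k`, so `aeval (carl θ) c (l W) = l (c * W)`.
If `l (X ^ i * Z) = 0` for all `i` then `a' ∣ Z` (look at the top coefficient of `Z %ₘ a'`).
So `aeval (carl θ) c (l W) = 0` gives `a' ∣ c * W`, `a' ∣ c`, `a ∣ c`
(`Polynomial.map_dvd_map'`). -/
theorem exists_carl_point (θ : Ω) {a : k[X]} (ha : a.Monic) {W : Polynomial Ω}
    (hW : IsCoprime W (a.map (algebraMap k Ω)))
    (h : a.map (algebraMap k Ω) ∣ W.map (frob k Ω : Ω →ₐ[k] Ω) - (X - C θ) * W) :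
    ∃ μ : Ω, (∀ c : k[X], aeval (carl k θ) c μ = 0 ↔ a ∣ c) ∧
      ∀ (ψ : Ω →ₐ[k] Ω) (c : k[X]),
        a.map (algebraMap k Ω) ∣ W.map (ψ : Ω →+* Ω) - c.map (algebraMap k Ω) * W →
        ψ μ = aeval (carl k θ) c μ := by
  have hp := ha.map (algebraMap k Ω)
  refine ⟨detTop (a.map (algebraMap k Ω)) W, fun c => ⟨fun hc => ?_, fun hc => ?_⟩,
    fun ψ c hc => ?_⟩
  · rw [← Polynomial.map_dvd_map' (algebraMap k Ω)]
    apply hW.symm.dvd_of_dvd_mul_right
    apply detTop_dvd hp
    intro i
    have e := detTop_aeval θ ha h (X ^ i * c)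
    rw [map_mul, Module.End.mul_apply, hc, map_zero, Polynomial.map_mul, Polynomial.map_pow,
      map_X, mul_assoc] at e
    exact e.symm
  · rw [detTop_aeval θ ha h]
    exact detTop_zero hp ((Polynomial.map_dvd _ hc).mul_right _)
  · rw [detTop_aeval θ ha h, ← detTop_congr hp hc,
      ← detTop_map hp (ψ : Ω →+* Ω) (det_map_fix ψ a)]
    rfl

private theorem det_mem_range {x : Ω} (hx : x ^ Nat.card k = x) :
    ∃ c : k, algebraMap k Ω c = x := by
  have h1 : 1 < Nat.card k := Finite.one_lt_card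
  have := (Polynomial.splits_X_pow_nat_card_sub_X (K := k)).mem_range_of_isRoot
    (FiniteField.X_pow_card_sub_X_ne_zero k h1) (i := algebraMap k Ω) (x := x) (by simp [hx])
  exact this

private theorem det_root [IsSepClosed Ω] (γ : Ω) : ∃ u : Ω, u ^ (Nat.card k - 1) = γ := by
  have h1 : 1 < Nat.card k := Finite.one_lt_card
  have h0 : ((Nat.card k : ℕ) : Ω) = 0 := by
    have := Fintype.ofFinite k
    rw [← map_natCast (algebraMap k Ω), Nat.card_eq_fintype_card, FiniteField.cast_card_eq_zero,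
      map_zero]
  have : NeZero ((Nat.card k - 1 : ℕ) : Ω) := ⟨by
    rw [Nat.cast_sub h1.le, h0]
    simp⟩
  exact IsSepClosed.exists_pow_nat_eq γ _

private theorem det_congr {n : Type} [Fintype n] [DecidableEq n] {p : Polynomial Ω}
    {M N : Matrix n n (Polynomial Ω)} (h : ∀ i j, p ∣ M i j - N i j) : p ∣ M.det - N.det := by
  rw [← AdjoinRoot.mk_eq_mk, RingHom.map_det, RingHom.map_det]
  congr 1
  ext i j
  exact AdjoinRoot.mk_eq_mk.2 (h i j)

private theorem det_index_le {G : Type} [CommGroup G] (H : Subgroup G) (f : kˣ →* G) :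
    H.index ≤ Nat.card k * (H ⊔ f.range).index := by
  rw [← Subgroup.relIndex_mul_index (le_sup_left : H ≤ H ⊔ f.range), Subgroup.relIndex_sup_left]
  apply Nat.mul_le_mul_right
  have hs : Function.Surjective f.rangeRestrict := f.rangeRestrict_surjective
  have : Finite f.range := Finite.of_surjective _ hs
  calc H.relIndex f.range ≤ Nat.card f.range :=
        Nat.le_of_dvd Nat.card_pos (Subgroup.relIndex_dvd_card _ _)
    _ ≤ Nat.card kˣ := Nat.card_le_card_of_surjective _ hs
    _ ≤ Nat.card k := Nat.card_le_card_of_injective _ Units.val_injective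

/-- Choose `u` with `u ^ (q - 1) = (-1) ^ (r - 1) * g r` (separable polynomial) and put
`W = C u * det frame`; `frame_coprime`, `frame_det_frob` give the hypotheses of
`exists_carl_point`. For `σ`, `σ u = ε * u` with `ε ^ (q - 1) = 1`, so `ε ∈ kˣ`, and
`σ W ≡ ε * det (ρ σ) * W` (`frame_aut`). Apply `carlitz` to `D = det (range ρ) ⊔ image of kˣ`;
the index of `det (range ρ)` in `D` is at most `q - 1`. For `a` not monic pass to the
associated monic polynomial first, or assume `a` monic as here. -/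
theorem det_index (L : Type) [Field L] [Algebra k L] [Algebra (RatFunc k) L]
    [IsScalarTower k (RatFunc k) L] [FiniteDimensional (RatFunc k) L] [Algebra L Ω]
    [IsScalarTower k L Ω] [Normal L Ω] [IsSepClosed Ω] {r : ℕ} (hr : 0 < r) {g : ℕ → L}
    (hg : g r ≠ 0) {φ : Ω →ₗ[k] Ω}
    (hφ : IsDr (algebraMap L Ω (algebraMap (RatFunc k) L RatFunc.X)) r
      (fun i => algebraMap L Ω (g i)) φ) {a : k[X]} (ha : a.Monic) {E : Coord φ a (Fin r)}
    {ρ : (Ω ≃ₐ[L] Ω) →* GL (Fin r) (AdjoinRoot a)} (h : IsRep E ρ) :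
    (ρ.range.map GeneralLinearGroup.det).index ≤ Nat.card k * Module.finrank (RatFunc k) L := by
  have h1 : 1 < Nat.card k := Finite.one_lt_card
  have hp := ha.map (algebraMap k Ω)
  have hg' : algebraMap L Ω (g r) ≠ 0 := (_root_.map_ne_zero _).2 hg
  obtain ⟨u, hu⟩ := det_root (k := k) ((-1) ^ (r - 1) * algebraMap L Ω (g r))
  have hγ : (-1) ^ (r - 1) * algebraMap L Ω (g r) ≠ 0 :=
    mul_ne_zero (pow_ne_zero _ (neg_ne_zero.2 one_ne_zero)) hg'
  have hu0 : u ≠ 0 := by
    rintro rfl
    rw [zero_pow (by omega)] at hu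
    exact hγ hu.symm
  have hpow : ∀ x : Ω, x ^ Nat.card k = x * x ^ (Nat.card k - 1) := by
    intro x
    rw [← pow_succ']
    congr 1
    omega
  have hW : IsCoprime (C u * (frame E).det) (a.map (algebraMap k Ω)) :=
    (isCoprime_mul_unit_left_left (isUnit_C.2 hu0.isUnit) _ _).2
      (frame_coprime hφ hr hg' ha.ne_zero E)
  have hF : a.map (algebraMap k Ω) ∣ (C u * (frame E).det).map (frob k Ω : Ω →ₐ[k] Ω) -
      (X - C (algebraMap L Ω (algebraMap (RatFunc k) L RatFunc.X))) * (C u * (frame E).det) := by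
    have h2 := (frame_det_frob hφ hr E).mul_left (C u)
    rw [Polynomial.map_mul, map_C, RingHom.coe_coe, det_frob_apply, hpow, hu, C_mul]
    rw [mul_sub, ← mul_assoc, mul_left_comm] at h2
    exact h2
  obtain ⟨μ, hμ, hμ2⟩ := exists_carl_point _ ha hW hF
  refine (det_index_le _ (Units.map (algebraMap k (AdjoinRoot a)).toMonoidHom)).trans ?_
  apply Nat.mul_le_mul_left
  refine carlitz L Ω (carl k _) (carl_apply _) ha hμ _ ?_
  intro σ b w hw hσ
  obtain ⟨ε, hε⟩ : ∃ ε : k, algebraMap k Ω ε = σ u / u := by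
    apply det_mem_range
    rw [hpow, div_pow, ← map_pow, hu, map_mul, map_pow, map_neg, map_one, AlgEquiv.commutes,
      div_self hγ, mul_one]
  have hσu : σ u = algebraMap k Ω ε * u := by rw [hε, div_mul_cancel₀ _ hu0]
  have hε0 : ε ≠ 0 := by
    rintro rfl
    rw [map_zero, zero_mul] at hσu
    exact hu0 ((map_eq_zero σ).1 hσu)
  choose B hB using fun i j => AdjoinRoot.mk_surjective (g := a) ((ρ σ).val i j)
  have hB' : (Matrix.of B).map (AdjoinRoot.mk a) = (ρ σ).val := by
    ext i j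
    exact hB i j
  have hd := det_congr (M := (frame E).map (Polynomial.map (σ : Ω →+* Ω)))
    (frame_aut (aut_comm hφ) h σ (Matrix.of B) hB')
  have e1 : ((frame E).map (Polynomial.map (σ : Ω →+* Ω))).det =
      (frame E).det.map (σ : Ω →+* Ω) :=
    ((Polynomial.mapRingHom (σ : Ω →+* Ω)).map_det (frame E)).symm
  have e2 : ((Matrix.of B).map (Polynomial.map (algebraMap k Ω))).det =
      (Matrix.of B).det.map (algebraMap k Ω) :=
    ((Polynomial.mapRingHom (algebraMap k Ω)).map_det (Matrix.of B)).symm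
  rw [det_mul, e1, e2] at hd
  have h3 := hμ2 ((σ : Ω →ₐ[L] Ω).restrictScalars k) (C ε * (Matrix.of B).det) (by
    have h4 := hd.mul_left (C (σ u))
    have e3 : (C u * (frame E).det).map (((σ : Ω →ₐ[L] Ω).restrictScalars k : Ω →ₐ[k] Ω) : Ω →+* Ω)
        = C (σ u) * (frame E).det.map (σ : Ω →+* Ω) := by
      rw [Polynomial.map_mul, map_C]
      rfl
    rw [e3, Polynomial.map_mul, map_C]
    have e4 : C (algebraMap k Ω ε) * (Matrix.of B).det.map (algebraMap k Ω) *
        (C u * (frame E).det) =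
        C (σ u) * ((frame E).det * (Matrix.of B).det.map (algebraMap k Ω)) := by
      rw [hσu, C_mul]
      ring
    rw [e4, ← mul_sub]
    exact h4)
  have h5 : aeval (carl k (algebraMap L Ω (algebraMap (RatFunc k) L RatFunc.X)))
      (b - C ε * (Matrix.of B).det) μ = 0 := by
    rw [map_sub, LinearMap.sub_apply, ← hσ, ← h3]
    exact sub_self _
  have h6 := AdjoinRoot.mk_eq_mk.2 ((hμ _).1 h5)
  have h7 : w = GeneralLinearGroup.det (ρ σ) *
      Units.map (algebraMap k (AdjoinRoot a)).toMonoidHom (Units.mk0 ε hε0) := by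
    apply Units.ext
    rw [hw, h6, map_mul, RingHom.map_det, RingHom.mapMatrix_apply, hB', mul_comm]
    rfl
  rw [h7]
  exact Subgroup.mul_mem_sup ⟨ρ σ, ⟨σ, rfl⟩, rfl⟩ ⟨_, rfl⟩

end Pool.Agent.Lib.MP_6adaea_nt.G
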