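import Pool.Agent.Lib.MP_6adaea_nt.G.Basic

/-!
The polynomial method: a finite group of matrices of determinant one that contains the
commutators of a polynomial family with a spanning set of tangent directions is large.
-/

set_option linter.unusedSectionVars false

namespace Pool.Agent.Lib.MP_6adaea_nt.G
open Matrix Polynomial

variable {n : Type} [Fintype n] [DecidableEq n] {F : Type} [Field F]

/-- a family of matrices of degree at most `D` for a filtration on the functions on the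
parameter space, with values in `F • N` on a parameter set that is dense up to degree `M`,
and a polynomial curve through the identity with tangent `X0` -/
structure Fam (D M : ℕ) (N : Set (Matrix n n F)) (X0 : Matrix n n F) where
  T : Type
  A : ℕ → Submodule F (T → F)
  one_mem : (1 : T → F) ∈ A 0
  mul_mem : ∀ {d e : ℕ} {f g : T → F}, f ∈ A d → g ∈ A e → f * g ∈ A (d + e)
  mono : Monotone A
  Λ : Set T
  dense : ∀ f ∈ A M, (∀ t ∈ Λ, f t = 0) → f = 0
  Ψ : T → Matrix n n F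
  deg : ∀ i j, (fun t => Ψ t i j) ∈ A D
  val : ∀ t ∈ Λ, ∃ c : F, ∃ ν ∈ N, Ψ t = c • ν
  γ : F → T
  V : Matrix n n F[X]
  curve : ∀ s, Ψ (γ s) = 1 + s • V.map (eval s)
  tangent : V.map (eval 0) = X0

/-- every stable subspace consists of scalars or contains the matrices of trace zero -/
def Big (H : Subgroup (GL n F)) : Prop :=
  ∀ U : Submodule F (Matrix n n F), (∀ h ∈ H, ∀ X ∈ U, ad h X ∈ U) →
    (∀ X ∈ U, Scal X) ∨ ∀ Y : Matrix n n F, Y.trace = 0 → Y ∈ U

section hom

variable {ι : Type} [Fintype ι] [DecidableEq ι] {m : ℕ}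

/-- the homogenised polynomial with coefficients `a` -/
def hpol {B : Type} [CommRing B] [Algebra F B] (a : (ι → Fin (m + 1)) → F) (x : ι → B) (d : B) :
    B :=
  ∑ α, a α • ((∏ p, x p ^ (α p : ℕ)) * d ^ (m * Fintype.card ι - ∑ p, (α p : ℕ)))

lemma sum_le (α : ι → Fin (m + 1)) : ∑ p, (α p : ℕ) ≤ m * Fintype.card ι := by
  calc ∑ p, (α p : ℕ) ≤ ∑ _p : ι, m := Finset.sum_le_sum fun p _ => Nat.lt_succ_iff.mp (α p).2
    _ = _ := by simp [mul_comm]

lemma hpol_map {B B' : Type} [CommRing B] [Algebra F B] [CommRing B'] [Algebra F B']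
    (f : B →ₐ[F] B') (a : (ι → Fin (m + 1)) → F) (x : ι → B) (d : B) :
    f (hpol a x d) = hpol a (fun p => f (x p)) (f d) := by
  simp [hpol, map_sum, map_prod]

lemma hpol_apply {T : Type} (a : (ι → Fin (m + 1)) → F) (x : ι → T → F) (d : T → F) (t : T) :
    hpol a x d t = hpol a (fun p => x p t) (d t) :=
  hpol_map (Pi.evalAlgHom F (fun _ => F) t) a x d

lemma hpol_smul (a : (ι → Fin (m + 1)) → F) (x : ι → F) (d c : F) :
    hpol a (fun p => c * x p) (c * d) = c ^ (m * Fintype.card ι) * hpol a x d := by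
  rw [hpol, hpol, Finset.mul_sum]
  refine Finset.sum_congr rfl fun α _ => ?_
  have h := sum_le α
  have e : c ^ (m * Fintype.card ι) =
      c ^ (∑ p, (α p : ℕ)) * c ^ (m * Fintype.card ι - ∑ p, (α p : ℕ)) := by
    rw [← pow_add, Nat.add_sub_cancel' h]
  simp only [mul_pow, Finset.prod_mul_distrib, Finset.prod_pow_eq_pow_sum, smul_eq_mul]
  rw [e]; ring

lemma exists_hpol {Y : Type} [Finite Y] (y : Y → ι → F)
    (h : Nat.card Y < (m + 1) ^ Fintype.card ι) :
    ∃ a : (ι → Fin (m + 1)) → F, a ≠ 0 ∧ ∀ u, hpol a (y u) 1 = 0 := by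
  classical
  have := Fintype.ofFinite Y
  let l : ((ι → Fin (m + 1)) → F) →ₗ[F] (Y → F) :=
    { toFun := fun a u => hpol a (y u) 1
      map_add' := fun a b => by
        funext u; simp [hpol, add_mul, Finset.sum_add_distrib]
      map_smul' := fun c a => by
        funext u; simp [hpol, Finset.mul_sum, mul_assoc] }
  have hk : LinearMap.ker l ≠ ⊥ := by
    refine LinearMap.ker_ne_bot_of_finrank_lt ?_
    simpa [Nat.card_eq_fintype_card] using h
  obtain ⟨a, ha, h0⟩ := Submodule.exists_mem_ne_zero_of_ne_bot hk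
  exact ⟨a, h0, fun u => congrFun (LinearMap.mem_ker.mp ha) u⟩

lemma hpol_eq_zero [Infinite F] (a : (ι → Fin (m + 1)) → F)
    (h : ∀ y : ι → F, ∃ (V : ι → F[X]) (d : F[X]), d.eval 0 = 1 ∧ (∀ p, (V p).eval 0 = y p) ∧
      hpol a (fun p => X * V p) d = 0) : a = 0 := by
  classical
  by_contra ha
  have hex : ∃ e, ∃ α : ι → Fin (m + 1), a α ≠ 0 ∧ ∑ p, (α p : ℕ) = e := by
    obtain ⟨α, hα⟩ := Function.ne_iff.mp ha
    exact ⟨_, α, hα, rfl⟩
  obtain ⟨α0, h0, he⟩ := Nat.find_spec hex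
  set e := Nat.find hex
  have hmin : ∀ α : ι → Fin (m + 1), ∑ p, (α p : ℕ) < e → a α = 0 := fun α hα => by
    by_contra hne
    exact Nat.find_min hex hα ⟨α, hne, rfl⟩
  let fs : (ι → Fin (m + 1)) → (ι →₀ ℕ) := fun α => Finsupp.equivFunOnFinite.symm fun p => α p
  have hfs : Function.Injective fs := fun α β hab => by
    funext p
    have := congrArg (fun u : ι →₀ ℕ => u p) hab
    exact Fin.ext (by simpa [fs] using this)
  let P : MvPolynomial ι F := ∑ α with ∑ p, (α p : ℕ) = e, MvPolynomial.monomial (fs α) (a α)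
  have hP : P = 0 := by
    refine MvPolynomial.funext fun y => ?_
    obtain ⟨V, d, hd, hV, hz⟩ := h y
    have hc := congrArg (fun f : F[X] => f.coeff e) hz
    simp only [hpol, finsetSum_coeff, coeff_smul, coeff_zero, smul_eq_mul] at hc
    rw [map_zero, ← hc, map_sum, Finset.sum_filter]
    refine Finset.sum_congr rfl fun α _ => ?_
    have e1 : (∏ p, (X * V p) ^ (α p : ℕ)) * d ^ (m * Fintype.card ι - ∑ p, (α p : ℕ)) =
        X ^ (∑ p, (α p : ℕ)) *
          ((∏ p, V p ^ (α p : ℕ)) * d ^ (m * Fintype.card ι - ∑ p, (α p : ℕ))) := by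
      simp only [mul_pow, Finset.prod_mul_distrib, Finset.prod_pow_eq_pow_sum]; ring
    rw [e1, coeff_X_pow_mul']
    rcases lt_trichotomy (∑ p, (α p : ℕ)) e with hl | hl | hl
    · rw [if_neg hl.ne, hmin α hl, zero_mul]
    · rw [if_pos hl, if_pos hl.le, hl, Nat.sub_self, coeff_zero_eq_eval_zero,
        MvPolynomial.eval_monomial, Finsupp.prod_fintype _ _ (by simp)]
      simp [eval_prod, hd, hV, fs]
    · rw [if_neg hl.ne', if_neg (not_le.mpr hl), mul_zero]
  have hc := congrArg (MvPolynomial.coeff (fs α0)) hP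
  rw [MvPolynomial.coeff_sum, Finset.sum_eq_single α0] at hc
  · simp [h0] at hc
  · intro β _ hβ
    rw [MvPolynomial.coeff_monomial, if_neg fun hh => hβ (hfs hh)]
  · intro hh
    exact absurd (by simpa using he) hh

end hom

namespace Fam

variable {D M : ℕ} {N : Set (Matrix n n F)} {X0 : Matrix n n F} (Φ : Fam D M N X0)

lemma const_mem (c : F) (d : ℕ) : (fun _ => c) ∈ Φ.A d := by
  have := (Φ.A 0).smul_mem c Φ.one_mem
  refine Φ.mono (Nat.zero_le d) ?_
  convert this using 1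
  funext t; simp

lemma prod_mem {ι : Type} (s : Finset ι) (f : ι → Φ.T → F) (d : ι → ℕ)
    (h : ∀ i ∈ s, f i ∈ Φ.A (d i)) : ∏ i ∈ s, f i ∈ Φ.A (∑ i ∈ s, d i) := by
  classical
  induction s using Finset.induction_on with
  | empty => simpa using Φ.one_mem
  | insert i s hi ih =>
    rw [Finset.prod_insert hi, Finset.sum_insert hi]
    exact Φ.mul_mem (h i (Finset.mem_insert_self _ _))
      (ih fun j hj => h j (Finset.mem_insert_of_mem hj))

lemma pow_mem {f : Φ.T → F} {d : ℕ} (h : f ∈ Φ.A d) (e : ℕ) : f ^ e ∈ Φ.A (e * d) := by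
  simpa using Φ.prod_mem (Finset.range e) (fun _ => f) (fun _ => d) fun _ _ => h

lemma hpol_mem {ι : Type} [Fintype ι] [DecidableEq ι] {m d : ℕ} (a : (ι → Fin (m + 1)) → F)
    {x : ι → Φ.T → F} {y : Φ.T → F} (hx : ∀ p, x p ∈ Φ.A d) (hy : y ∈ Φ.A d) :
    hpol a x y ∈ Φ.A (m * Fintype.card ι * d) := by
  refine Submodule.sum_mem _ fun α _ => Submodule.smul_mem _ _ ?_
  have := Φ.mul_mem (Φ.prod_mem Finset.univ (fun p => x p ^ (α p : ℕ)) (fun p => (α p : ℕ) * d)
    fun p _ => Φ.pow_mem (hx p) _) (Φ.pow_mem hy (m * Fintype.card ι - ∑ p, (α p : ℕ)))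
  rwa [← Finset.sum_mul, ← add_mul, Nat.add_sub_cancel' (sum_le α)] at this

/-- all entries have degree at most `d` -/
def MD (d : ℕ) (B : Φ.T → Matrix n n F) : Prop := ∀ i j, (fun t => B t i j) ∈ Φ.A d

variable {Φ}

lemma MD.mul {d e : ℕ} {B C : Φ.T → Matrix n n F} (hB : Φ.MD d B) (hC : Φ.MD e C) :
    Φ.MD (d + e) fun t => B t * C t := fun i j => by
  have := Submodule.sum_mem (Φ.A (d + e)) (t := Finset.univ)
    fun l _ => Φ.mul_mem (hB i l) (hC l j)
  convert this using 1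
  funext t; simp [Matrix.mul_apply]

lemma MD.const (B : Matrix n n F) : Φ.MD 0 fun _ => B := fun _ _ => Φ.const_mem _ _

lemma MD.ad {d : ℕ} {B : Φ.T → Matrix n n F} (hB : Φ.MD d B) (g : GL n F) :
    Φ.MD d fun t => ad g (B t) := by
  have := ((MD.const g.val).mul hB).mul (MD.const (g⁻¹).val)
  rwa [zero_add, add_zero] at this

lemma MD.det {d : ℕ} {B : Φ.T → Matrix n n F} (hB : Φ.MD d B) :
    (fun t => (B t).det) ∈ Φ.A (Fintype.card n * d) := by
  have := Submodule.sum_mem (Φ.A (Fintype.card n * d)) (t := Finset.univ)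
    fun (σ : Equiv.Perm n) _ => Submodule.smul_mem _ ((Equiv.Perm.sign σ : ℤ) : F)
      (by simpa using Φ.prod_mem Finset.univ (fun i t => B t (σ i) i) (fun _ => d)
            fun i _ => hB (σ i) i)
  convert this using 1
  funext t; simp [Matrix.det_apply']

lemma MD.adjugate {d : ℕ} {B : Φ.T → Matrix n n F} (hB : Φ.MD d B) :
    Φ.MD (Fintype.card n * d) fun t => (B t).adjugate := fun i j => by
  simp only [adjugate_apply]
  refine MD.det (B := fun t => (B t).updateRow j (Pi.single i 1)) fun a b => ?_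
  by_cases h : a = j
  · subst h; simpa using Φ.const_mem _ _
  · simpa [updateRow_ne h] using hB a b

end Fam

/-- the matrix positions other than `(i0, i0)` -/
abbrev Pos (i0 : n) : Type := {p : n × n // p ≠ (i0, i0)}

lemma card_pos (i0 : n) : Fintype.card (Pos i0) = Fintype.card n ^ 2 - 1 := by
  simp [Pos, Fintype.card_subtype_compl, sq]

section core

variable {i0 : n} {m : ℕ} (a : (Pos i0 → Fin (m + 1)) → F) (N : Subgroup (GL n F))

/-- pairs on which all translates of the polynomial vanish -/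
def Null (B : Matrix n n F) (d : F) : Prop :=
  ∀ ν ∈ N, ν.val.det = 1 → hpol a (fun p => (ν.val * B - d • 1) p.1.1 p.1.2) d = 0

/-- tangent directions of curves that preserve the null pairs -/
def jets : Submodule F (Matrix n n F) where
  carrier := {Y | ∃ (V : Matrix n n F[X]) (d : F[X]), d.eval 0 = 1 ∧ V.map (eval 0) = Y ∧
    ∀ s B b, Null a N B b →
      Null a N ((d.eval s • (1 : Matrix n n F) + s • V.map (eval s)) * B) (d.eval s * b)}
  zero_mem' := ⟨0, 1, by simp, by ext; simp, fun s B b h => by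
    have : (0 : Matrix n n F[X]).map (eval s) = 0 := by ext; simp
    simpa [this] using h⟩
  add_mem' := by
    rintro _ _ ⟨V, d, hd, rfl, h⟩ ⟨V', d', hd', rfl, h'⟩
    have hm : ∀ s, (d' • V + d • V' + (X : F[X]) • (V * V')).map (eval s) =
        d'.eval s • V.map (eval s) + d.eval s • V'.map (eval s) +
          s • (V.map (eval s) * V'.map (eval s)) := fun s => by
      ext i j; simp [Matrix.mul_apply, eval_finsetSum]
    refine ⟨d' • V + d • V' + (X : F[X]) • (V * V'), d * d', by simp [hd, hd'], by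
      rw [hm, hd, hd']; simp, fun s B b hB => ?_⟩
    have := h s _ _ (h' s B b hB)
    rw [← Matrix.mul_assoc, ← mul_assoc] at this
    rw [hm, eval_mul]
    convert this using 2
    simp only [Matrix.add_mul, Matrix.mul_add, Matrix.smul_mul, Matrix.mul_smul, Matrix.one_mul,
      Matrix.mul_one]
    module
  smul_mem' := by
    rintro c _ ⟨V, d, hd, rfl, h⟩
    have hm : ∀ s, ((C c : F[X]) • V.map (comp · (C c * X))).map (eval s) =
        c • V.map (eval (c * s)) := fun s => by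
      ext i j; simp [eval_comp]
    refine ⟨(C c : F[X]) • V.map (comp · (C c * X)), d.comp (C c * X), by simp [eval_comp, hd], by
      rw [hm, mul_zero], fun s B b hB => ?_⟩
    have := h (c * s) B b hB
    rw [hm, smul_smul, mul_comm s c]
    simpa [eval_comp] using this

variable {a N}

lemma null_step {D M : ℕ} {X0 : Matrix n n F} (Φ : Fam D M (Units.val '' (N : Set (GL n F))) X0)
    (hM : m * (Fintype.card n ^ 2 - 1) * ((Fintype.card n + 1) * D) ≤ M) {g h : GL n F}
    (hg : ∀ ν ∈ N, g * ν * g⁻¹ ∈ N) (hh : ∀ ν ∈ N, h * ν * h⁻¹ ∈ N) {B : Matrix n n F} {b : F}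
    (hB : Null a N B b) (t : Φ.T) :
    Null a N (ad g (ad h (Φ.Ψ t) * (Φ.Ψ t).adjugate) * B) ((Φ.Ψ t).det * b) := by
  intro ν hν hd
  have h1 : Φ.MD D Φ.Ψ := Φ.deg
  have h2 : Φ.MD ((Fintype.card n + 1) * D)
      fun t => ν.val * (ad g (ad h (Φ.Ψ t) * (Φ.Ψ t).adjugate) * B) := by
    have := (Fam.MD.const ν.val).mul
      ((((h1.ad h).mul h1.adjugate).ad g).mul (Fam.MD.const B))
    convert this using 1
    ring
  have h3 : (fun t => (Φ.Ψ t).det * b) ∈ Φ.A ((Fintype.card n + 1) * D) := by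
    refine Φ.mono (show Fintype.card n * D + 0 ≤ _ by nlinarith) ?_
    exact Φ.mul_mem h1.det (Φ.const_mem b 0)
  have h4 := Φ.hpol_mem a (x := fun p t => (ν.val * (ad g (ad h (Φ.Ψ t) * (Φ.Ψ t).adjugate) * B) -
      ((Φ.Ψ t).det * b) • (1 : Matrix n n F)) p.1.1 p.1.2) (fun p => by
    have := Submodule.sub_mem _ (h2 p.1.1 p.1.2)
      (Submodule.smul_mem _ ((1 : Matrix n n F) p.1.1 p.1.2) h3)
    convert this using 1
    funext t; simp [mul_comm]) h3
  rw [card_pos] at h4
  have h5 := Φ.dense _ (Φ.mono hM h4) fun t ht => by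
    obtain ⟨c, _, ⟨μ, hμ, rfl⟩, hc⟩ := Φ.val t ht
    have e1 : c • (Φ.Ψ t).adjugate = (Φ.Ψ t).det • (μ⁻¹).val := by
      have : μ.val * (c • (Φ.Ψ t).adjugate) = (Φ.Ψ t).det • 1 := by
        rw [Matrix.mul_smul, ← Matrix.smul_mul, ← hc, mul_adjugate]
      calc c • (Φ.Ψ t).adjugate = (μ⁻¹).val * (μ.val * (c • (Φ.Ψ t).adjugate)) := by
            rw [← Matrix.mul_assoc, ← Units.val_mul, inv_mul_cancel, Units.val_one,
              Matrix.one_mul]
        _ = _ := by rw [this, Matrix.mul_smul, Matrix.mul_one]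
    have e2 : ad g (ad h (Φ.Ψ t) * (Φ.Ψ t).adjugate) =
        (Φ.Ψ t).det • (g * (h * μ * h⁻¹ * μ⁻¹) * g⁻¹).val := by
      conv_lhs => rw [show ad h (Φ.Ψ t) = c • ad h μ.val by rw [hc, ad_smul]]
      rw [Matrix.smul_mul, ← Matrix.mul_smul, e1, Matrix.mul_smul, ad_smul, ad_val, Units.val_mul,
        ad_val]
    have hmem : g * (h * μ * h⁻¹ * μ⁻¹) * g⁻¹ ∈ N := hg _ (N.mul_mem (hh _ hμ) (N.inv_mem hμ))
    have hdet : (ν * (g * (h * μ * h⁻¹ * μ⁻¹) * g⁻¹)).val.det = 1 := by
      have : GeneralLinearGroup.det (g * (h * μ * h⁻¹ * μ⁻¹) * g⁻¹) = 1 := by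
        simp [map_mul, map_inv, mul_comm]
      rw [Units.val_mul, det_mul, hd, one_mul]
      exact congrArg Units.val this
    have h6 := hB _ (N.mul_mem hν hmem) hdet
    have h7 := hpol_smul a (fun p => ((ν * (g * (h * μ * h⁻¹ * μ⁻¹) * g⁻¹)).val * B - b • 1)
      p.1.1 p.1.2) b (Φ.Ψ t).det
    rw [h6, mul_zero] at h7
    rw [hpol_apply, ← h7]
    congr 1
    funext p
    simp only [e2, Matrix.smul_mul, Matrix.mul_smul, Units.val_mul ν,
      Matrix.mul_assoc, Matrix.sub_apply, Matrix.smul_apply, smul_eq_mul]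
    ring
  have h8 := congrFun h5 t
  rwa [hpol_apply] at h8

lemma mem_jets {D M : ℕ} {X0 : Matrix n n F} (Φ : Fam D M (Units.val '' (N : Set (GL n F))) X0)
    (hM : m * (Fintype.card n ^ 2 - 1) * ((Fintype.card n + 1) * D) ≤ M) {g h : GL n F}
    (hg : ∀ ν ∈ N, g * ν * g⁻¹ ∈ N) (hh : ∀ ν ∈ N, h * ν * h⁻¹ ∈ N) :
    ad g (ad h X0 - X0) ∈ jets a N := by
  let P : Matrix n n F[X] := 1 + (X : F[X]) • Φ.V
  have hP : ∀ s, P.map (evalRingHom s) = Φ.Ψ (Φ.γ s) := fun s => by
    rw [Φ.curve]; ext i j; simp [P, Matrix.one_apply, apply_ite (eval s)]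
  have hC : ∀ (s : F) (u : GL n F), red (evalRingHom s) (red (C : F →+* F[X]) u) = u :=
    fun s u => by ext i j; simp
  have hV : ∀ s, (ad (red C g) ((ad (red C h) Φ.V - Φ.V) * P.adjugate)).map (eval s) =
      ad g ((ad h (Φ.V.map (eval s)) - Φ.V.map (eval s)) * (Φ.Ψ (Φ.γ s)).adjugate) := fun s => by
    change Matrix.map _ (evalRingHom s) = _
    rw [ad_map, hC, Matrix.map_mul, Matrix.map_sub _ (map_sub _), ad_map, hC, ← hP]
    congr 2
    exact (evalRingHom s).map_adjugate P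
  have hd : ∀ s, P.det.eval s = (Φ.Ψ (Φ.γ s)).det := fun s => by
    rw [← hP]; exact (evalRingHom s).map_det P
  refine ⟨ad (red C g) ((ad (red C h) Φ.V - Φ.V) * P.adjugate), P.det, ?_, ?_, fun s B b hB => ?_⟩
  · rw [hd, Φ.curve]; simp
  · rw [hV, Φ.curve, Φ.tangent]; simp
  · rw [hV, hd]
    convert null_step Φ hM hg hh hB (Φ.γ s) using 2
    have e1 : ad h (Φ.Ψ (Φ.γ s)) =
        Φ.Ψ (Φ.γ s) + s • (ad h (Φ.V.map (eval s)) - Φ.V.map (eval s)) := by
      rw [Φ.curve, ad_add, ad_id, ad_smul]; module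
    rw [e1, Matrix.add_mul, mul_adjugate, ad_add, ad_smul, ad_id, Matrix.smul_mul, ad_smul]

end core

theorem fill [Nontrivial n] [Infinite F] {D M m : ℕ} {H N : Subgroup (GL n F)} (hH : Big H)
    (hN : ∀ h ∈ H, ∀ ν ∈ N, h * ν * h⁻¹ ∈ N) {X0 : Matrix n n F} (hX : ¬Scal X0)
    (Φ : Fam D M (Units.val '' (N : Set (GL n F))) X0)
    (hM : m * (Fintype.card n ^ 2 - 1) * ((Fintype.card n + 1) * D) ≤ M)
    [Finite {ν : GL n F // ν ∈ N ∧ ν.val.det = 1}] :
    (m + 1) ^ (Fintype.card n ^ 2 - 1) ≤ Nat.card {ν : GL n F // ν ∈ N ∧ ν.val.det = 1} := by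
  obtain ⟨i0, j0, hij⟩ := exists_pair_ne n
  by_contra hlt
  rw [not_le, ← card_pos i0] at hlt
  obtain ⟨a, ha, h0⟩ := exists_hpol (F := F) (fun (ν : {ν : GL n F // ν ∈ N ∧ ν.val.det = 1})
    (p : Pos i0) => (ν.1.val - 1) p.1.1 p.1.2) hlt
  have hn : Null a N 1 1 := fun ν hν hd => by simpa using h0 ⟨ν, hν, hd⟩
  let W : Submodule F (Matrix n n F) :=
    Submodule.span F {Y | ∃ g ∈ H, ∃ h ∈ H, Y = ad g (ad h X0 - X0)}
  have hW : W ≤ jets a N := Submodule.span_le.mpr (by
    rintro _ ⟨g, hg, h, hh, rfl⟩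
    exact mem_jets Φ hM (hN g hg) (hN h hh))
  have hst : ∀ h ∈ H, ∀ Y ∈ W, ad h Y ∈ W := fun u hu Y hY => by
    induction hY using Submodule.span_induction with
    | mem Y hY =>
      obtain ⟨g, hg, h, hh, rfl⟩ := hY
      exact Submodule.subset_span ⟨u * g, H.mul_mem hu hg, h, hh, (ad_mul _ _ _).symm⟩
    | zero => simp [ad]
    | add _ _ _ _ h1 h2 => rw [ad_add]; exact W.add_mem h1 h2
    | smul c _ _ h1 => rw [ad_smul]; exact W.smul_mem c h1
  rcases hH W hst with h1 | h1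
  · let U : Submodule F (Matrix n n F) := Submodule.span F {1, X0}
    have hU : ∀ h ∈ H, ∀ Y ∈ U, ad h Y ∈ U := fun h hh Y hY => by
      obtain ⟨c, c', rfl⟩ := Submodule.mem_span_pair.mp hY
      obtain ⟨e, he⟩ := h1 _ (Submodule.subset_span ⟨1, H.one_mem, h, hh, rfl⟩)
      rw [ad_one, sub_eq_iff_eq_add] at he
      rw [ad_add, ad_smul, ad_smul, ad_id, he]
      exact Submodule.mem_span_pair.mpr ⟨c + c' * e, c', by module⟩
    rcases hH U hU with h2 | h2
    · exact hX (h2 _ (Submodule.subset_span (by simp)))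
    · obtain ⟨c, c', e1⟩ := Submodule.mem_span_pair.mp
        (h2 (single i0 j0 1) (trace_single_eq_of_ne _ _ _ hij))
      obtain ⟨d, d', e2⟩ := Submodule.mem_span_pair.mp
        (h2 (single j0 i0 1) (trace_single_eq_of_ne _ _ _ hij.symm))
      have a1 := congrFun (congrFun e1 i0) j0
      have a2 := congrFun (congrFun e1 j0) i0
      have a3 := congrFun (congrFun e2 j0) i0
      simp [hij, hij.symm] at a1 a2 a3
      rcases a2 with a2 | a2
      · simp [a2] at a1
      · simp [a2] at a3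
  · refine ha (hpol_eq_zero a fun y => ?_)
    let Y0 : Matrix n n F := fun i j => if h : (i, j) = (i0, i0) then 0 else y ⟨(i, j), h⟩
    obtain ⟨V, d, hd, hV, hz⟩ := hW (h1 (Y0 - single i0 i0 Y0.trace) (by simp))
    refine ⟨fun p => V p.1.1 p.1.2, d, hd, fun p => ?_, Polynomial.funext fun s => ?_⟩
    · have := congrFun (congrFun hV p.1.1) p.1.2
      rw [Matrix.map_apply] at this
      have hp : ¬(i0 = p.1.1 ∧ i0 = p.1.2) := fun hh => p.2 (Prod.ext hh.1.symm hh.2.symm)
      rw [this, Matrix.sub_apply, single_apply_of_ne _ _ _ _ _ hp, sub_zero]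
      exact dif_neg p.2
    · have := hz s 1 1 hn 1 N.one_mem (by simp)
      rw [eval_zero, ← coe_aeval_eq_eval, hpol_map, ← this]
      simp

end Pool.Agent.Lib.MP_6adaea_nt.G
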