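import Pool.Agent.Lib.MP_6adaea_nt.G.Layer

/-!
Propagation of full layers from a finite level to all levels.
-/

set_option linter.unusedSectionVars false

namespace Pool.Agent.Lib.MP_6adaea_nt.G
open Matrix Polynomial

variable {n : Type} [Fintype n] [DecidableEq n] {R S : Type} [CommRing R] [CommRing S]

/-- some element of `K` is `1 + c ^ i • X` modulo `c ^ (i + 1)` -/
private def Ap (c : R) (K : Subgroup (GL n R)) (i : ℕ) (X : Matrix n n R) : Prop :=
  ∃ t ∈ K, ∃ Z : Matrix n n R, t.val = 1 + c ^ i • (X + c • Z)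

/-- the same up to a scalar which is `1` modulo `c` -/
private def Aq (c : R) (K : Subgroup (GL n R)) (i : ℕ) (X : Matrix n n R) : Prop :=
  ∃ t ∈ K, ∃ s : R, ∃ Z : Matrix n n R,
    t.val = (1 + c * s) • (1 : Matrix n n R) + c ^ i • (X + c • Z)

private lemma Ap.aq {c : R} {H : Subgroup (GL n R)} {i : ℕ} {X : Matrix n n R}
    (h : Ap c ⁅H, H⁆ i X) : Aq c H i X := by
  obtain ⟨t, ht, Z, e⟩ := h
  refine ⟨t, ?_, 0, Z, by rw [e, mul_zero, add_zero, one_smul]⟩
  refine (Subgroup.commutator_le.2 ?_ : ⁅H, H⁆ ≤ H) ht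
  intro x hx y hy
  rw [commutatorElement_def]
  exact H.mul_mem (H.mul_mem (H.mul_mem hx hy) (H.inv_mem hx)) (H.inv_mem hy)

private lemma val_mul_inv (t : GL n R) : t.val * (t⁻¹).val = 1 := by
  rw [← Units.val_mul, mul_inv_cancel, Units.val_one]

private lemma inv_cong {c : R} {t : GL n R} {A : Matrix n n R} (h : t.val = 1 + c • A) :
    (t⁻¹).val = 1 + c • (-(A * (t⁻¹).val)) := by
  have h1 := val_mul_inv t
  rw [h, Matrix.add_mul, Matrix.one_mul, Matrix.smul_mul] at h1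
  rw [smul_neg, ← h1]
  abel

private lemma br {c : R} {H : Subgroup (GL n R)} {i j : ℕ} {X Y : Matrix n n R}
    (hX : Aq c H (i + 1) X) (hY : Aq c H (j + 1) Y) :
    Ap c ⁅H, H⁆ (i + 1 + (j + 1)) (X * Y - Y * X) := by
  obtain ⟨x, hx, s, Z, ex⟩ := hX
  obtain ⟨y, hy, s', W, ey⟩ := hY
  have ex' : x.val = 1 + c • (s • (1 : Matrix n n R) + c ^ i • (X + c • Z)) := by
    rw [ex]; module
  have ey' : y.val = 1 + c • (s' • (1 : Matrix n n R) + c ^ j • (Y + c • W)) := by
    rw [ey]; module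
  obtain ⟨A, hA⟩ : ∃ A : Matrix n n R, (x⁻¹).val = 1 + c • A := ⟨_, inv_cong ex'⟩
  obtain ⟨B, hB⟩ : ∃ B : Matrix n n R, (y⁻¹).val = 1 + c • B := ⟨_, inv_cong ey'⟩
  have e1 : (x * y * x⁻¹ * y⁻¹).val =
      1 + (x.val * y.val - y.val * x.val) * ((x⁻¹).val * (y⁻¹).val) := by
    have e2 : y.val * x.val * ((x⁻¹).val * (y⁻¹).val) = 1 := by
      rw [Matrix.mul_assoc, ← Matrix.mul_assoc x.val, val_mul_inv, Matrix.one_mul, val_mul_inv]
    rw [Matrix.sub_mul, e2, Units.val_mul, Units.val_mul, Units.val_mul, Matrix.mul_assoc _ _ (y⁻¹).val]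
    abel
  obtain ⟨U, hU⟩ : ∃ U : Matrix n n R, x.val * y.val - y.val * x.val =
      c ^ (i + 1 + (j + 1)) • (X * Y - Y * X + c • U) := by
    refine ⟨X * W + Z * Y + c • (Z * W) - (W * X + Y * Z + c • (W * Z)), ?_⟩
    rw [ex, ey]
    simp only [Matrix.add_mul, Matrix.mul_add, Matrix.one_mul, Matrix.mul_one,
      Matrix.smul_mul, Matrix.mul_smul]
    module
  refine ⟨x * y * x⁻¹ * y⁻¹, Subgroup.commutator_mem_commutator hx hy,
    U + (X * Y - Y * X + c • U) * (A + B + c • (A * B)), ?_⟩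
  rw [e1, hU, hA, hB]
  generalize X * Y - Y * X = M
  simp only [Matrix.add_mul, Matrix.mul_add, Matrix.one_mul, Matrix.mul_one,
    Matrix.smul_mul, Matrix.mul_smul]
  module

private lemma Ap.add {c : R} {K : Subgroup (GL n R)} {i : ℕ} {X Y : Matrix n n R}
    (hX : Ap c K (i + 1) X) (hY : Ap c K (i + 1) Y) : Ap c K (i + 1) (X + Y) := by
  obtain ⟨x, hx, Z, ex⟩ := hX
  obtain ⟨y, hy, W, ey⟩ := hY
  refine ⟨x * y, K.mul_mem hx hy, Z + W + c ^ i • ((X + c • Z) * (Y + c • W)), ?_⟩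
  rw [Units.val_mul, ex, ey]
  generalize hP : (X + c • Z) * (Y + c • W) = P
  rw [Matrix.add_mul, Matrix.mul_add, Matrix.mul_add, Matrix.one_mul, Matrix.one_mul,
    Matrix.mul_one, Matrix.smul_mul, Matrix.mul_smul, hP]
  module

private lemma Ap.zero (c : R) (K : Subgroup (GL n R)) (i : ℕ) : Ap c K i 0 :=
  ⟨1, K.one_mem, 0, by simp⟩

private lemma aq_of {c : R} {H : Subgroup (GL n R)}
    (h : ∀ γ : GL n R, γ.val.det = 1 → (∀ i j, c ∣ (γ.val - 1) i j) →
      ∃ g ∈ H, ∀ i j, c ^ 3 ∣ (g.val - γ.val) i j)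
    {k : ℕ} (hk : k ≤ 1) {γ : GL n R} (hγ : γ.val.det = 1) {s : R} {X Z : Matrix n n R}
    (e : γ.val = (1 + c * s) • (1 : Matrix n n R) + c ^ (k + 1) • (X + c • Z)) :
    Aq c H (k + 1) X := by
  have e1 : γ.val - 1 = c • (s • (1 : Matrix n n R) + c ^ k • (X + c • Z)) := by
    rw [e]; module
  obtain ⟨g, hg, hd⟩ := h γ hγ fun i j => by
    rw [e1, Matrix.smul_apply, smul_eq_mul]; exact dvd_mul_right _ _
  choose W hW using hd
  have e2 : g.val = γ.val + c ^ 3 • Matrix.of W := by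
    ext i j
    have := hW i j
    rw [Matrix.sub_apply] at this
    rw [Matrix.add_apply, Matrix.smul_apply, Matrix.of_apply, smul_eq_mul, ← this]
    ring
  refine ⟨g, hg, s, Z + c ^ (1 - k) • Matrix.of W, ?_⟩
  rw [e2, e]
  interval_cases k <;> module

private lemma tor_one {c : R} (u : Rˣ) (hu : (u : R) = 1 + c) {a b : n} (hab : a ≠ b) :
    (tor a b u).val = (1 + c * 0) • (1 : Matrix n n R) +
      c ^ (0 + 1) • (single a a 1 - single b b 1 + c • single b b ((u⁻¹ : Rˣ) : R)) := by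
  have h1 : ((u⁻¹ : Rˣ) : R) * (1 + c) = 1 := by rw [← hu, Units.inv_mul]
  ext i j
  rw [tor, dg_val]
  by_cases hij : i = j
  · subst hij
    by_cases ha : i = a
    · subst ha; simp [hab.symm, hu]
    · by_cases hb : i = b
      · subst hb
        simp [ha, Ne.symm ha]
        linear_combination (1 - c) * h1
      · simp [ha, hb, Ne.symm ha, Ne.symm hb]
  · have h2 : ∀ (l : n) (x : R), single l l x i j = 0 := fun l x => by
      rw [single_apply_of_ne]
      rintro ⟨rfl, rfl⟩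
      exact hij rfl
    simp [hij, h2]

private lemma tor_two (h2 : (2 : R) = 0) {c : R} (u : Rˣ) (hu : (u : R) = 1 + c) {a b : n}
    (hab : a ≠ b) (hn : ∀ l, l = a ∨ l = b) :
    (tor a b u).val = (1 + c * 1) • (1 : Matrix n n R) +
      c ^ (1 + 1) • (single b b 1 + c • single b b (-((u⁻¹ : Rˣ) : R))) := by
  have h1 : ((u⁻¹ : Rˣ) : R) * (1 + c) = 1 := by rw [← hu, Units.inv_mul]
  ext i j
  rw [tor, dg_val]
  by_cases hij : i = j
  · subst hij
    rcases hn i with rfl | rfl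
    · simp [hab.symm, hu]
    · simp [hab.symm]
      linear_combination (1 - c + c ^ 2) * h1 - c * h2
  · have h2 : ∀ (l : n) (x : R), single l l x i j = 0 := fun l x => by
      rw [single_apply_of_ne]
      rintro ⟨rfl, rfl⟩
      exact hij rfl
    simp [hij, h2]

private lemma exists_diag (h2 : IsUnit (2 : R) ∨ (2 : R) = 0) {c : R} (hc : IsNilpotent c)
    {H : Subgroup (GL n R)}
    (h : ∀ γ : GL n R, γ.val.det = 1 → (∀ i j, c ∣ (γ.val - 1) i j) →
      ∃ g ∈ H, ∀ i j, c ^ 3 ∣ (g.val - γ.val) i j) {a b : n} (hab : a ≠ b) :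
    ∃ k ≤ 1, ∃ X : Matrix n n R, Aq c H (k + 1) X ∧
      ∀ y, ∃ z, X * single a b z - single a b z * X = single a b y := by
  obtain ⟨u, hu⟩ := hc.isUnit_one_add
  rcases h2 with ⟨v, hv⟩ | h2
  · refine ⟨0, Nat.zero_le _, _, aq_of h (Nat.zero_le _) (tor_det hab u) (tor_one u hu hab),
      fun y => ⟨((v⁻¹ : Rˣ) : R) * y, ?_⟩⟩
    have h1 : ((v⁻¹ : Rˣ) : R) * 2 = 1 := by rw [← hv, Units.inv_mul]
    rw [Matrix.sub_mul, Matrix.mul_sub, single_mul_single_same, single_mul_single_same,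
      single_mul_single_of_ne _ _ _ _ hab.symm, single_mul_single_of_ne _ _ _ _ hab.symm,
      sub_zero, zero_sub, sub_neg_eq_add, ← single_add]
    congr 1
    linear_combination y * h1
  · by_cases hn : ∀ l, l = a ∨ l = b
    · refine ⟨1, le_rfl, _, aq_of h le_rfl (tor_det hab u) (tor_two h2 u hu hab hn),
        fun y => ⟨-y, ?_⟩⟩
      rw [single_mul_single_same, single_mul_single_of_ne _ _ _ _ hab.symm, zero_sub, mul_one,
        single_neg, neg_neg]
    · push Not at hn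
      obtain ⟨l, hla, hlb⟩ := hn
      refine ⟨0, Nat.zero_le _, _,
        aq_of h (Nat.zero_le _) (tor_det hla.symm u) (tor_one u hu hla.symm), fun y => ⟨y, ?_⟩⟩
      rw [Matrix.sub_mul, Matrix.mul_sub, single_mul_single_same,
        single_mul_single_of_ne _ _ _ _ hla, single_mul_single_of_ne _ _ _ _ hab.symm,
        single_mul_single_of_ne _ _ _ _ hlb.symm, sub_zero, sub_zero, sub_zero, one_mul]

private lemma off (h2 : IsUnit (2 : R) ∨ (2 : R) = 0) {c : R} (hc : IsNilpotent c)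
    {H : Subgroup (GL n R)}
    (h : ∀ γ : GL n R, γ.val.det = 1 → (∀ i j, c ∣ (γ.val - 1) i j) →
      ∃ g ∈ H, ∀ i j, c ^ 3 ∣ (g.val - γ.val) i j) {a b : n} (hab : a ≠ b) :
    (∀ i y, Aq c H (i + 1) (single a b y)) ∧ ∀ i y, Ap c ⁅H, H⁆ (i + 3) (single a b y) := by
  obtain ⟨k, hk, X, hX, hb⟩ := exists_diag h2 hc h hab
  have step : ∀ j, (∀ y, Aq c H (j + 1) (single a b y)) →
      ∀ y, Ap c ⁅H, H⁆ (k + 1 + (j + 1)) (single a b y) := fun j hj y => by
    obtain ⟨z, hz⟩ := hb y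
    exact hz ▸ br hX (hj z)
  have base : ∀ i ≤ 1, ∀ y, Aq c H (i + 1) (single a b y) := fun i hi y =>
    aq_of h hi (rt_det hab (c ^ (i + 1) * y)) (s := 0) (Z := 0) (by simp [smul_single])
  have h1 : ∀ i y, Aq c H (i + 1) (single a b y) := by
    intro i
    induction i using Nat.strong_induction_on with
    | _ i ih =>
      by_cases hi : i ≤ 1
      · exact base i hi
      · intro y
        have := step (i - (k + 1)) (ih _ (by omega)) y
        rw [show k + 1 + (i - (k + 1) + 1) = i + 1 by omega] at this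
        exact this.aq
  refine ⟨h1, fun i y => ?_⟩
  have := step (i + 1 - k) (h1 _) y
  rwa [show k + 1 + (i + 1 - k + 1) = i + 3 by omega] at this

private lemma ap_trace (h2 : IsUnit (2 : R) ∨ (2 : R) = 0) {c : R} (hc : IsNilpotent c)
    {H : Subgroup (GL n R)}
    (h : ∀ γ : GL n R, γ.val.det = 1 → (∀ i j, c ∣ (γ.val - 1) i j) →
      ∃ g ∈ H, ∀ i j, c ^ 3 ∣ (g.val - γ.val) i j) (o : n) (i : ℕ) (Y : Matrix n n R) :
    Ap c ⁅H, H⁆ (i + 3) (Y - single o o Y.trace) := by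
  have hd : ∀ a y, Ap c ⁅H, H⁆ (i + 3) (single a a y - single o o y) := fun a y => by
    by_cases ha : a = o
    · rw [ha, sub_self]; exact Ap.zero _ _ _
    · have := br ((off h2 hc h ha).1 (i + 1) y) ((off h2 hc h (Ne.symm ha)).1 0 1)
      rwa [single_mul_single_same, single_mul_single_same, mul_one, one_mul] at this
  have e : Y - single o o Y.trace = ∑ a, ∑ b,
      (single a b (Y a b) - if a = b then single o o (Y a b) else 0) := by
    simp only [Finset.sum_sub_distrib, Finset.sum_ite_eq, Finset.mem_univ, if_true]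
    rw [← matrix_eq_sum_single Y]
    congr 1
    ext p q
    simp only [Matrix.trace, Matrix.diag_apply, Matrix.sum_apply, single, Matrix.of_apply]
    split_ifs <;> simp
  rw [e]
  refine Finset.sum_induction _ _ (fun _ _ => Ap.add) (Ap.zero _ _ _) fun a _ => ?_
  refine Finset.sum_induction _ _ (fun _ _ => Ap.add) (Ap.zero _ _ _) fun b _ => ?_
  split_ifs with hab
  · subst hab; exact hd a _
  · rw [sub_zero]; exact (off h2 hc h hab).2 i _

private lemma det_comm {H : Subgroup (GL n R)} {t : GL n R} (ht : t ∈ ⁅H, H⁆) :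
    (t⁻¹).val.det = 1 := by
  have h1 : ⁅H, H⁆ ≤ (GeneralLinearGroup.det (n := n) (R := R)).ker := by
    refine Subgroup.commutator_le.2 fun x _ y _ => ?_
    rw [MonoidHom.mem_ker, map_commutatorElement, commutatorElement_eq_one_iff_mul_comm, mul_comm]
  have h2 := MonoidHom.mem_ker.1 (h1 (inv_mem ht))
  simpa using congrArg Units.val h2

/-- Let `T = ⁅H, H⁆`. `O i`: for `a ≠ b` and `y` some `t ∈ T` is `1 + c ^ i • single a b y`
modulo `c ^ (i + 1)`. Use `x * y * x⁻¹ * y⁻¹ = 1 + (x * y - y * x) * x⁻¹ * y⁻¹`.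
If there is a third index `l`: `O 2` and `O i → O (i + 1)` by brackets of `E_al` and `E_lb`.
If `card n = 2` and `2` is a unit: the same with `d ≡ tor a b (1 + c)` mod `c ^ 3`, since
`(1 + c) - (1 + c)⁻¹ = c * (2 + c) * (1 + c)⁻¹`. If `card n = 2` and `2 = 0`: `d` is a scalar
modulo `c ^ 2`, `d ≡ (1 + c) • (1 + c ^ 2 • E_bb)` mod `c ^ 3`, which gives `O 3`, `O 4` (from
elements of `H`) and `O i → O (i + 2)`. The elements `1 + c ^ (i + 1) • y • (E_aa - E_bb)` come
from the bracket of level `i` (in `H` for `i = 2`, in `T` for `i ≥ 3`) with `1 + c • E_ba`.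
So for `i ≥ 3` and `Y` of trace zero some `t ∈ T` is `1 + c ^ i • Y` mod `c ^ (i + 1)`.
Descending induction from `c ^ N = 0` (`det_one_add`; `c ^ i * trace X ∈ (c ^ (2 * i))`) shows
that every `γ` of determinant one with `γ ≡ 1` mod `c ^ 3` lies in `T`. -/
theorem flp (h2 : IsUnit (2 : R) ∨ (2 : R) = 0) {c : R} (hc : IsNilpotent c)
    {H : Subgroup (GL n R)}
    (h : ∀ γ : GL n R, γ.val.det = 1 → (∀ i j, c ∣ (γ.val - 1) i j) →
      ∃ g ∈ H, ∀ i j, c ^ 3 ∣ (g.val - γ.val) i j) :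
    Roots ⁅H, H⁆ {x | c ^ 3 ∣ x} := by
  intro a b hab x hx
  obtain ⟨y, rfl⟩ := hx
  have key : ∀ i : ℕ, ∃ s ∈ ⁅H, H⁆, ∃ X : Matrix n n R,
      (rt hab (c ^ 3 * y) * s⁻¹).val = 1 + c ^ (i + 3) • X := by
    intro i
    induction i with
    | zero => exact ⟨1, one_mem _, single a b y, by simp [smul_single]⟩
    | succ i ih =>
      obtain ⟨s, hs, X, hX⟩ := ih
      have hd : ((rt hab (c ^ 3 * y) * s⁻¹).val).det = 1 := by
        rw [Units.val_mul, det_mul, rt_det, det_comm hs, one_mul]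
      obtain ⟨z, hz⟩ := det_one_add (c ^ (i + 3)) X
      rw [← hX, hd] at hz
      obtain ⟨t, ht, Z, e⟩ := ap_trace h2 hc h a i X
      have e1 : c ^ (i + 3) • (single a a X.trace : Matrix n n R) =
          c ^ (i + 1 + 3) • single a a (-(c ^ (i + 2) * z)) := by
        rw [smul_single, smul_single, smul_eq_mul, smul_eq_mul]
        congr 1
        linear_combination -hz
      have e2 : (1 : Matrix n n R) + c ^ (i + 3) • X =
          t.val + c ^ (i + 1 + 3) • (single a a (-(c ^ (i + 2) * z)) - Z) := by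
        rw [e, smul_sub (c ^ (i + 1 + 3)), ← e1]
        module
      refine ⟨t * s, mul_mem ht hs, (single a a (-(c ^ (i + 2) * z)) - Z) * (t⁻¹).val, ?_⟩
      rw [_root_.mul_inv_rev, ← mul_assoc, Units.val_mul, hX, e2, Matrix.add_mul, val_mul_inv,
        Matrix.smul_mul]
  obtain ⟨N, hN⟩ := hc
  obtain ⟨s, hs, X, hX⟩ := key N
  rw [pow_add, hN, zero_mul, zero_smul, add_zero] at hX
  have e : rt hab (c ^ 3 * y) * s⁻¹ = 1 := Units.ext hX
  rw [mul_inv_eq_one] at e
  exact e ▸ hs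

end Pool.Agent.Lib.MP_6adaea_nt.G
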