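import Pool.Agent.Lib.MP_6adaea_nt.G.Hank

/-!
The first layer is not scalar.
-/

set_option linter.unusedSectionVars false

namespace Pool.Agent.Lib.MP_6adaea_nt.G
open Matrix Polynomial

variable {n : Type} [Fintype n] [DecidableEq n] {R S : Type} [CommRing R] [CommRing S]

open TrivSqZeroExt

variable {k F : Type} [Field k] [Field F]

/-- If the layer is scalar, `g2fun` vanishes on `H`: for `hank ≠ 0` take `m` from
`exists_pow_eq_one` (`ι` is injective), then `h ^ m = 1 + ϖ • X` with `X` scalar modulo `ϖ`, and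
`Ψ ϖ = inr _`; use `g2fun_eq_zero`. -/
theorem g2fun_of_scalar [Finite R] (C : Loc R k) (H : Subgroup (GL n R))
    (h1 : ∀ Y ∈ layer C H 0, Scal Y) (Ψ : R →+* DualNumber F) (ι : k →+* F)
    (hΨ : ∀ x, (Ψ x).fst = ι (C.π x)) {h : GL n R} (hh : h ∈ H) : g2fun (h.val.map Ψ) = 0 := by
  by_cases hk : hank ((h.val.map Ψ).map fst) = 0
  · rw [g2fun, hk, zero_mul]
  have : Finite k := Finite.of_surjective _ C.surj
  obtain ⟨p, hp⟩ := CharP.exists k
  have : Fact p.Prime := ⟨CharP.char_is_prime k p⟩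
  have : CharP F p := charP_of_injective_ringHom ι.injective p
  have e0 : (h.val.map Ψ).map fst = (ι.comp C.π).mapMatrix h.val := by
    ext a b
    simp [hΨ]
  have hN : ((h.val.map Ψ).map fst) ^ orderOf h = 1 := by
    rw [e0, ← map_pow, ← Units.val_pow_eq_pow_val, pow_orderOf_eq_one, Units.val_one, map_one]
  obtain ⟨m, hm, e1⟩ := exists_pow_eq_one p hk (orderOf_pos h).ne' hN
  rw [e0, ← map_pow, ← Units.val_pow_eq_pow_val] at e1
  have e2 : ∀ u v, ∃ x, ((h ^ m).val - 1) u v = C.ϖ * x := fun u v => by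
    refine (C.ker _).1 (ι.injective ?_)
    have := congrFun (congrFun e1 u) v
    simp only [RingHom.mapMatrix_apply, map_apply, RingHom.comp_apply] at this
    rw [Matrix.sub_apply, map_sub, map_sub, this, Matrix.one_apply, Matrix.one_apply,
      apply_ite C.π, apply_ite ι, map_one, map_one, map_zero, map_zero, sub_self]
  choose X hX using e2
  have e3 : (h ^ m).val = 1 + C.ϖ • Matrix.of X := by
    rw [← sub_eq_iff_eq_add']
    ext u v
    rw [hX, Matrix.smul_apply, smul_eq_mul, of_apply]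
  obtain ⟨c, hc⟩ := h1 _ ⟨h ^ m, H.pow_mem hh m, Matrix.of X, by rw [e3, zero_add, pow_one], rfl⟩
  have hπ : (Ψ C.ϖ).fst = 0 := by rw [hΨ, (C.ker _).2 dvd_rfl, map_zero]
  refine g2fun_eq_zero hm (c := (Ψ C.ϖ).snd * ι c) ?_
  have e4 : h.val.map Ψ = Ψ.mapMatrix h.val := rfl
  rw [e4, ← map_pow, ← Units.val_pow_eq_pow_val, e3]
  ext u v
  · by_cases huv : u = v
    · subst huv
      simp [hπ]
    · simp [huv, hπ]
  · have e5 := congrFun (congrFun hc u) v
    simp only [map_apply, of_apply, Matrix.smul_apply, smul_eq_mul] at e5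
    by_cases huv : u = v
    · subst huv
      simp [hπ, hΨ, e5]
    · simp [huv, hπ, hΨ, e5]

private lemma g2_tr_adj (hn : Fintype.card n = 2) (g : Matrix n n R) :
    g.adjugate.trace = g.trace := by
  obtain ⟨e⟩ : Nonempty (Fin 2 ≃ n) := ⟨(Fintype.equivFinOfCardEq hn).symm⟩
  have t : ∀ A : Matrix n n R, (A.submatrix e e).trace = A.trace := fun A =>
    Equiv.sum_comp e fun i => A i i
  rw [← t, ← t g, ← adjugate_submatrix_equiv_self, adjugate_fin_two, trace_fin_two, trace_fin_two]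
  simp [add_comm]

private lemma g2_hank (hn : Fintype.card n = 2) (h2 : (2 : F) = 0) (g : Matrix n n F) :
    hank g = -g.trace ^ 2 := by
  have t : ∀ m : ℕ, m = 2 → ∀ f : ℕ → F,
      (Matrix.of fun i j : Fin m => f ((i : ℕ) + (j : ℕ))).det = f 0 * f 2 - f 1 * f 1 := by
    rintro m rfl f
    simp [det_fin_two]
  rw [hank, t _ hn fun i => (g ^ i).trace]
  simp only [pow_zero, pow_one, trace_one, hn, Nat.cast_ofNat, h2]
  ring

private lemma g2_snd (hn : Fintype.card n = 2) (h2 : (2 : F) = 0)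
    {g : Matrix n n (DualNumber F)} (h : g2fun g = 0) (ht : g.trace.fst ≠ 0) : g.det.snd = 0 := by
  have e : (g.map fst).trace = g.trace.fst := by simp [Matrix.trace, fst_sum]
  rw [g2fun, g2_hank hn h2, g2_tr_adj hn, e, DualNumber.snd_mul, fst_mul] at h
  have e2 : g.trace.fst ^ 4 * g.det.snd = 0 := by
    linear_combination h + (g.trace.fst ^ 3 * g.trace.snd * g.det.fst) * h2
  exact (mul_eq_zero.1 e2).resolve_left (pow_ne_zero _ ht)

private lemma g2_exists [Finite k] (hk : 3 < Nat.card k) (hn : Fintype.card n = 2)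
    (h2 : (2 : k) = 0) (g : GL n k) :
    ∃ s : GL n k, s.val.det = 1 ∧ s.val.trace ≠ 0 ∧ (g * s).val.trace ≠ 0 := by
  classical
  obtain ⟨i, j, hij, hu⟩ := Finset.card_eq_two.1 (Finset.card_univ (α := n).trans hn)
  have := Fintype.ofFinite k
  obtain ⟨w, -, hw⟩ := Finset.exists_mem_notMem_of_card_lt_card
    (s := ({0, 1} : Finset k)) (t := Finset.univ)
    (lt_of_le_of_lt Finset.card_le_two (by
      rw [Finset.card_univ, ← Nat.card_eq_fintype_card]
      omega))
  simp only [Finset.mem_insert, Finset.mem_singleton, not_or] at hw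
  have tr : ∀ (A : Matrix n n k) (x y : k), (A * (rt hij x * rt hij.symm y).val).trace =
      A.trace + y * A i j + x * A j i + x * y * A i i := by
    intro A x y
    rw [Units.val_mul, rt_val, rt_val]
    simp only [Matrix.add_mul, Matrix.mul_add, Matrix.one_mul, Matrix.mul_one,
      single_mul_single_same, trace_add, trace_mul_single]
    simp only [op_smul_eq_smul, smul_eq_mul]
    ring
  by_contra hc
  push Not at hc
  have key : ∀ x y : k, x ≠ 0 → y ≠ 0 →
      g.val.trace + y * g.val i j + x * g.val j i + x * y * g.val i i = 0 := by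
    intro x y hx hy
    rw [← tr, ← Units.val_mul]
    refine hc _ (by rw [Units.val_mul, det_mul, rt_det, rt_det, mul_one]) ?_
    have := tr 1 x y
    rw [Matrix.one_mul] at this
    rw [this]
    simp [hn, h2, hij, hij.symm, hx, hy]
  have k1 := key 1 1 one_ne_zero one_ne_zero
  have k2 := key 1 w one_ne_zero hw.1
  have k3 := key w 1 hw.1 one_ne_zero
  have k4 := key w w hw.1 hw.1
  have hw1 : 1 - w ≠ 0 := sub_ne_zero.2 (Ne.symm hw.2)
  have a0 : g.val i i = 0 := by
    have : (1 - w) ^ 2 * g.val i i = 0 := by linear_combination k1 - k2 - k3 + k4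
    exact (mul_eq_zero.1 this).resolve_left (pow_ne_zero _ hw1)
  have b0 : g.val i j = 0 := by
    have : (1 - w) * g.val i j = 0 := by linear_combination k1 - k2 - (1 - w) * a0
    exact (mul_eq_zero.1 this).resolve_left hw1
  refine (Matrix.isUnits_det_units g).ne_zero (det_eq_zero_of_row_eq_zero i fun l => ?_)
  have hl : l ∈ ({i, j} : Finset n) := hu ▸ Finset.mem_univ l
  rcases Finset.mem_insert.1 hl with rfl | hl
  · exact a0
  · rw [Finset.mem_singleton.1 hl]
    exact b0

/-- The case `card n = 2`, `2 = 0`. Here `trace (adj g) = trace g`, the `ε`-part of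
`trace g ^ 2` vanishes and `hank g0 = trace g0 ^ 2`, so `g2fun g = -(tr g0) ^ 4 * snd (det g)`.
The map `u h = snd (det) / fst (det)` is additive on `H` and vanishes when the trace mod `ϖ` is
nonzero. Every `h` is a product of two such elements (choose `s` in `SL(k)` among
`rt _ x * rt _ y`-type elements with `trace s ≠ 0`, `trace (h * s⁻¹) ≠ 0`, and lift it to `H`).
So `u = 0`; but as in `layers` some `h ∈ H` has `det h = 1 + ϖ * c`, `π c ≠ 0`. -/
theorem two_two [Finite R] [Finite k] (hk : 3 < Nat.card k) (hn : Fintype.card n = 2)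
    (h2 : (2 : F) = 0) (C : Loc R k) (H : Subgroup (GL n R)) (h0 : HasSL (H.map (red C.π)))
    (hdet : (H.map GeneralLinearGroup.det).index < Nat.card k) (Ψ : R →+* DualNumber F)
    (ι : k →+* F) (hΨ : ∀ x, (Ψ x).fst = ι (C.π x)) (hϖ : Ψ C.ϖ ≠ 0)
    (h : ∀ g ∈ H, g2fun (g.val.map Ψ) = 0) : False := by
  have h2k : (2 : k) = 0 := ι.injective (by rw [map_ofNat, h2, map_zero])
  have hdm : ∀ g : GL n R, (g.val.map Ψ).det = Ψ g.val.det := fun g => (Ψ.map_det _).symm
  have htr : ∀ g : GL n R, (g.val.map Ψ).trace.fst = ι (red C.π g).val.trace := fun g => by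
    simp [Matrix.trace, fst_sum, hΨ]
  have h1 : ∀ g ∈ H, (red C.π g).val.trace ≠ 0 → (Ψ g.val.det).snd = 0 := fun g hg ht => by
    rw [← hdm]
    refine g2_snd hn h2 (h g hg) ?_
    rw [htr]
    exact (map_ne_zero ι).2 ht
  have h3 : ∀ g ∈ H, (Ψ g.val.det).snd = 0 := fun g hg => by
    obtain ⟨s, hs, hs1, hs2⟩ := g2_exists hk hn h2k (red C.π g)
    obtain ⟨t, ht, rfl⟩ := h0 s hs
    have e1 := h1 t ht hs1
    have e2 := h1 (g * t) (H.mul_mem hg ht) (by rwa [map_mul])
    rw [red_det] at hs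
    rw [Units.val_mul, det_mul, map_mul, DualNumber.snd_mul, e1, mul_zero, zero_add, hΨ, hs,
      map_one, mul_one] at e2
    exact e2
  have hπ : C.π C.ϖ = 0 := (C.ker _).2 dvd_rfl
  have he : (Ψ C.ϖ).snd ≠ 0 := fun e => hϖ (TrivSqZeroExt.ext (by simp [hΨ, hπ]) (by simp [e]))
  choose σ hσ using C.surj
  have hu : ∀ a : k, IsUnit (1 + C.ϖ * σ a) := fun a => C.isUnit (by simp [hπ])
  obtain ⟨a, b, hab, e⟩ : ∃ a b : k, a ≠ b ∧ ((hu a).unit : Rˣ ⧸ H.map GeneralLinearGroup.det) =
      ((hu b).unit : Rˣ ⧸ H.map GeneralLinearGroup.det) := by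
    by_contra hc
    refine absurd hdet (not_lt.2 (Nat.card_le_card_of_injective
      (fun a => ((hu a).unit : Rˣ ⧸ H.map GeneralLinearGroup.det)) fun a b e => ?_))
    by_contra hab
    exact hc ⟨a, b, hab, e⟩
  obtain ⟨g, hg, e1⟩ := QuotientGroup.eq.1 e
  have e2 : (1 + C.ϖ * σ a) * g.val.det = 1 + C.ϖ * σ b := by
    have := congrArg Units.val (eq_inv_mul_iff_mul_eq.1 e1)
    simpa using this
  have e3 : C.π g.val.det = 1 := by
    have := congrArg C.π e2
    simpa [hπ] using this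
  have e4 := congrArg (fun x => (Ψ x).snd) e2
  simp only [map_mul, map_add, map_one, DualNumber.snd_mul, h3 g hg, snd_add, snd_one, hΨ, hπ, e3,
    hσ, map_zero, mul_zero, zero_mul, zero_add, mul_one] at e4
  exact hab (ι.injective (mul_left_cancel₀ he e4))

theorem g2 [Nontrivial n] [Finite R] [Finite k] [Infinite F] (hk : 3 < Nat.card k) (C : Loc R k)
    (H : Subgroup (GL n R)) (h0 : HasSL (H.map (red C.π)))
    (hdet : (H.map GeneralLinearGroup.det).index < Nat.card k) (Ψ : R →+* DualNumber F)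
    (ι : k →+* F) (hΨ : ∀ x, (Ψ x).fst = ι (C.π x)) (hϖ : Ψ C.ϖ ≠ 0)
    (hD : (∀ g ∈ H, g2fun (g.val.map Ψ) = 0) →
      ∀ s : Matrix n n (DualNumber F), s.det = 1 → g2fun s = 0) :
    ∃ Y ∈ layer C H 0, ¬Scal Y := by
  by_contra hc
  push Not at hc
  have h := fun g hg => g2fun_of_scalar C H hc Ψ ι hΨ (h := g) hg
  by_cases h2 : Fintype.card n = 2 ∧ (2 : F) = 0
  · exact two_two hk h2.1 h2.2 C H h0 hdet Ψ ι hΨ hϖ h
  · obtain ⟨s, hs, hne⟩ := exists_g2fun_ne_zero (n := n) (F := F) (not_and_or.mp h2)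
    exact hne (hD h s hs)

end Pool.Agent.Lib.MP_6adaea_nt.G
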