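import Pool.Agent.Lib.MP_6adaea_nt.G.Basic

/-!
Root elements of level `s` generate the congruence subgroup of level `s ^ 2` over a finite ring.
-/

set_option linter.unusedSectionVars false

namespace Pool.Agent.Lib.MP_6adaea_nt.G
open Matrix

variable {n : Type} [Fintype n] [DecidableEq n] {R S : Type} [CommRing R] [CommRing S]

/-- With `a = 1 + s * y`, `s ∣ y`:
`tor i j a = rt h s * rt h.symm y * rt h (-(s * a⁻¹)) * rt h.symm (-(y * a))`. -/
theorem tor_mem {H : Subgroup (GL n R)} {s : R} (hH : Roots H {x | s ∣ x}) {i j : n} (h : i ≠ j)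
    (a : Rˣ) (ha : s ^ 2 ∣ (a : R) - 1) : tor i j a ∈ H := by
  obtain ⟨z, hz⟩ := ha
  have e : tor i j a = rt h s * rt h.symm (s * z) * rt h (-(s * (a⁻¹ : Rˣ))) *
      rt h.symm (-(s * z * a)) := by
    have e1 : (tor i j a).val = 1 + single i i ((a : R) - 1) + single j j ((a⁻¹ : Rˣ) - 1 : R) := by
      ext u v
      rw [tor, dg_val]
      by_cases h1 : u = v
      · subst h1
        by_cases h2 : u = i
        · subst h2
          simp [h.symm]
        · by_cases h3 : u = j
          · subst h3
            simp [h, h2]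
          · simp [h2, h3, Ne.symm h2, Ne.symm h3]
      · have h4 : ∀ (k : n) (c : R), single k k c u v = 0 := fun k c =>
          single_apply_of_ne _ _ _ _ _ fun h5 => h1 (h5.1.symm.trans h5.2)
        simp [h1, h4]
    obtain ⟨E, e2⟩ : ∃ E : n → n → Matrix n n R, ∀ u v c, single u v c = c • E u v :=
      ⟨fun u v => single u v 1, fun u v c => by rw [smul_single, smul_eq_mul, mul_one]⟩
    have e3 := a.mul_inv
    ext1
    simp only [e1, Units.val_mul, rt_val, add_mul, mul_add, Matrix.one_mul, Matrix.mul_one,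
      single_mul_single_same, single_mul_single_of_ne _ _ _ _ h,
      single_mul_single_of_ne _ _ _ _ h.symm, add_zero]
    simp only [e2]
    match_scalars
    · rfl
    · linear_combination (1 + s ^ 2 * z) * hz - (s ^ 2 * z + s ^ 4 * z ^ 2) * e3
    · linear_combination e3 - ((a⁻¹ : Rˣ) : R) * hz
    · linear_combination s * e3 - s * ((a⁻¹ : Rˣ) : R) * hz
    · linear_combination s * z * hz - s ^ 3 * z ^ 2 * e3
  rw [e]
  exact H.mul_mem (H.mul_mem (H.mul_mem (hH h _ dvd_rfl) (hH h.symm _ (dvd_mul_right _ _)))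
    (hH h _ (dvd_mul_right _ _).neg_right))
    (hH h.symm _ ((dvd_mul_right _ _).mul_right _).neg_right)

/-- stable range one for finite rings. Some power `e` of `a` is idempotent; take
`y = (1 - e) * d`; then `a + b * y` lies in no maximal ideal. -/
theorem exists_unit_add [Finite R] {a b c d : R} (h : c * a + d * b = 1) :
    ∃ y, IsUnit (a + b * y) := by
  obtain ⟨m, t, ht⟩ := IsArtinian.exists_pow_succ_smul_dvd (R := R) (M := R) a 1
  refine ⟨1 - a * t, ?_⟩
  by_contra hu
  obtain ⟨I, hI, hm⟩ := exists_max_ideal_of_mem_nonunits hu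
  have hp := hI.isPrime
  have h1 : a ^ m * (1 - a * t) ∈ I := by
    rw [show a ^ m * (1 - a * t) = 0 by
      simp only [smul_eq_mul, Nat.succ_eq_add_one] at ht
      linear_combination -ht]
    exact I.zero_mem
  have h2 : a ∈ I := by
    rcases hp.mem_or_mem h1 with h2 | h2
    · exact hp.mem_of_pow_mem m h2
    · exact (I.add_mem_iff_left (I.mul_mem_left b h2)).1 hm
  refine hp.one_notMem ?_
  rcases hp.mem_or_mem ((I.add_mem_iff_right h2).1 hm) with h3 | h3
  · exact h ▸ I.add_mem (I.mul_mem_left c h2) (I.mul_mem_left d h3)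
  · simpa using I.add_mem h3 (I.mul_mem_right t h2)

/-- entries divisible by `s`, and supported in rows with `C` and columns without `C` -/
theorem gen_nil {H : Subgroup (GL n R)} {s : R} (hH : Roots H {x | s ∣ x}) (C : n → Prop)
    (N : Matrix n n R) (hN : ∀ i j, N i j ≠ 0 → C i ∧ ¬ C j) (hs : ∀ i j, s ∣ N i j) :
    ∃ u ∈ H, u.val.det = 1 ∧ u.val = 1 + N := by
  have h : ∀ A : Finset (n × n), ∃ u ∈ H, u.val.det = 1 ∧
      u.val = 1 + ∑ p ∈ A, single p.1 p.2 (N p.1 p.2) := fun A => by
    induction A using Finset.induction_on with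
    | empty => exact ⟨1, H.one_mem, by simp, by simp⟩
    | insert p A hp ih =>
      obtain ⟨u, hu, hd, e⟩ := ih
      rw [Finset.sum_insert hp]
      by_cases h0 : N p.1 p.2 = 0
      · exact ⟨u, hu, hd, by rw [e, h0]; simp⟩
      have h1 : p.1 ≠ p.2 := fun h1 => (hN _ _ h0).2 (h1 ▸ (hN _ _ h0).1)
      refine ⟨u * rt h1 (N p.1 p.2), H.mul_mem hu (hH h1 _ (hs _ _)),
        by rw [Units.val_mul, det_mul, hd, rt_det, one_mul], ?_⟩
      have h2 : (∑ q ∈ A, single q.1 q.2 (N q.1 q.2)) * single p.1 p.2 (N p.1 p.2) = 0 := by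
        rw [Finset.sum_mul]
        refine Finset.sum_eq_zero fun q _ => ?_
        by_cases h3 : N q.1 q.2 = 0
        · simp [h3]
        · exact single_mul_single_of_ne _ _ _ _
            (fun h4 : q.2 = p.1 => (hN _ _ h3).2 (h4 ▸ (hN _ _ h0).1)) _
      rw [Units.val_mul, e, rt_val, add_mul, mul_add, mul_add, h2]
      simp [add_assoc]
  obtain ⟨u, hu, hd, e⟩ := h Finset.univ
  refine ⟨u, hu, hd, ?_⟩
  rw [e, Fintype.sum_prod_type]
  exact congrArg _ (matrix_eq_sum_single N).symm

/-- the invariant of the elimination -/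
def GenInv (s : R) (T : Finset n) (X : Matrix n n R) : Prop :=
  (∀ i j, i ≠ j → s ∣ X i j ∧ (X i j ≠ 0 → i ∈ T ∧ j ∈ T)) ∧ ∀ i, s ^ 2 ∣ X i i - 1

theorem GenInv.mul {s : R} {T : Finset n} {X Y : Matrix n n R} (hX : GenInv s T X)
    (hY : GenInv s T Y) : GenInv s T (X * Y) := by
  refine ⟨fun i j h => ⟨?_, fun h0 => ?_⟩, fun i => ?_⟩
  · rw [mul_apply]
    refine Finset.dvd_sum fun k _ => ?_
    by_cases hk : i = k
    · exact (hY.1 k j (hk ▸ h)).1.mul_left _
    · exact (hX.1 i k hk).1.mul_right _
  · rw [mul_apply] at h0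
    obtain ⟨k, -, hk⟩ := Finset.exists_ne_zero_of_sum_ne_zero h0
    have h1 := left_ne_zero_of_mul hk
    have h2 := right_ne_zero_of_mul hk
    constructor
    · by_cases h3 : i = k
      · subst h3
        exact ((hY.1 i j h).2 h2).1
      · exact ((hX.1 i k h3).2 h1).1
    · by_cases h3 : k = j
      · subst h3
        exact ((hX.1 i k h).2 h1).2
      · exact ((hY.1 k j h3).2 h2).2
  · rw [mul_apply, ← Finset.add_sum_erase _ _ (Finset.mem_univ i), add_sub_right_comm]
    refine dvd_add ?_ (Finset.dvd_sum fun k hk => ?_)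
    · rw [show X i i * Y i i - 1 = (X i i - 1) * Y i i + (Y i i - 1) by ring]
      exact dvd_add ((hX.2 i).mul_right _) (hY.2 i)
    · have h1 := Finset.ne_of_mem_erase hk
      rw [sq]
      exact mul_dvd_mul (hX.1 i k h1.symm).1 (hY.1 k i h1).1

theorem gen_col {H : Subgroup (GL n R)} {s : R} (hH : Roots H {x | s ∣ x}) {T : Finset n} {l : n}
    (hl : l ∈ T) (x : n → R) (h0 : x l = 0) (hs : ∀ j, s ∣ x j) (hT : ∀ j, x j ≠ 0 → j ∈ T) :
    (∃ u ∈ H, u.val.det = 1 ∧ GenInv s T u.val ∧
      (∀ (X : Matrix n n R) i, (X * u.val) i l = X i l + ∑ j, X i j * x j) ∧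
      ∀ (X : Matrix n n R) i j, (u.val * X) i j = X i j + x i * X l j) ∧
    ∃ u ∈ H, u.val.det = 1 ∧ GenInv s T u.val ∧
      ∀ (X : Matrix n n R) i j, (X * u.val) i j = X i j + X i l * x j := by
  constructor
  · obtain ⟨u, hu, hd, e⟩ := gen_nil hH (fun i => i ≠ l) (of fun j k => if k = l then x j else 0)
      (fun i j h => by
        by_cases h1 : j = l
        · exact ⟨fun h2 => h (by simp [h0, h2]), by simp [h1]⟩
        · simp [h1] at h)
      (fun i j => by by_cases h1 : j = l <;> simp [h1, hs])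
    refine ⟨u, hu, hd, ⟨fun i j h => ?_, fun i => ?_⟩, fun X i => ?_, fun X i j => ?_⟩
    · by_cases h1 : j = l
      · subst h1
        simpa [e, h, hs, hl] using hT i
      · simp [e, h, h1]
    · by_cases h1 : i = l <;> simp [e, h1, h0]
    · rw [e, mul_add, Matrix.mul_one, Matrix.add_apply, mul_apply]
      simp
    · rw [e, add_mul, Matrix.one_mul, Matrix.add_apply, mul_apply]
      simp
  · obtain ⟨u, hu, hd, e⟩ := gen_nil hH (fun i => i = l) (of fun j k => if j = l then x k else 0)
      (fun i j h => by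
        by_cases h1 : i = l
        · exact ⟨h1, fun h2 => h (by simp [h0, h2])⟩
        · simp [h1] at h)
      (fun i j => by by_cases h1 : i = l <;> simp [h1, hs])
    refine ⟨u, hu, hd, ⟨fun i j h => ?_, fun i => ?_⟩, fun X i j => ?_⟩
    · by_cases h1 : i = l
      · subst h1
        simpa [e, h, hs, hl] using hT j
      · simp [e, h, h1]
    · by_cases h1 : i = l <;> simp [e, h1, h0]
    · rw [e, mul_add, Matrix.mul_one, Matrix.add_apply, mul_apply]
      simp

theorem gen_diag {H : Subgroup (GL n R)} {s : R} (hH : Roots H {x | s ∣ x}) (g : GL n R)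
    (hd : g.val.det = 1) (hg : GenInv s ∅ g.val) : g ∈ H := by
  rcases isEmpty_or_nonempty n with h | ⟨⟨i0⟩⟩
  · rw [show g = 1 from Units.ext (Subsingleton.elim _ _)]
    exact H.one_mem
  have h1 : g.val = diagonal fun i => g.val i i := by
    ext i j
    by_cases h : i = j
    · simp [h]
    · rw [diagonal_apply_ne _ h]
      by_contra h2
      simpa using ((hg.1 i j h).2 h2).1
  rw [h1, det_diagonal] at hd
  have h2 : ∀ i, IsUnit (g.val i i) := fun i =>
    isUnit_of_dvd_one (hd ▸ Finset.dvd_prod_of_mem _ (Finset.mem_univ i))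
  choose d hd' using h2
  have h3 : g = dg d := Units.ext (by rw [h1, dg_val]; simp [hd'])
  have h4 : ∏ i, d i = 1 := Units.ext (by simpa [hd'] using hd)
  let φ : (n → Rˣ) →* GL n R := ⟨⟨dg, dg_one⟩, dg_mul⟩
  have h5 : d = ∏ i ∈ Finset.univ.erase i0,
      fun l => if l = i then d i else if l = i0 then (d i)⁻¹ else 1 := by
    funext l
    rw [Finset.prod_apply]
    by_cases h : l = i0
    · subst h
      rw [Finset.prod_congr rfl fun i hi => if_neg (Finset.ne_of_mem_erase hi).symm]
      rw [← Finset.mul_prod_erase _ _ (Finset.mem_univ l)] at h4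
      simpa using eq_inv_of_mul_eq_one_left h4
    · simp [h]
  rw [h3, h5]
  exact (H.comap φ).prod_mem fun i hi =>
    tor_mem hH (Finset.ne_of_mem_erase hi) (d i) (by rw [hd']; exact hg.2 i)

theorem gen_ind [Finite R] {H : Subgroup (GL n R)} {s : R} (hH : Roots H {x | s ∣ x})
    (T : Finset n) : ∀ g : GL n R, g.val.det = 1 → GenInv s T g.val → g ∈ H := by
  induction T using Finset.induction_on with
  | empty => exact gen_diag hH
  | insert l T hl ih =>
    have hl' := Finset.mem_insert_self l T
    have h3 : ∀ g : GL n R, g.val.det = 1 → GenInv s (insert l T) g.val → IsUnit (g.val l l) →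
        (∀ i, i ≠ l → g.val i l = 0) → g ∈ H := fun g hd hg ⟨a, ha⟩ hc => by
      obtain ⟨-, u, hu, hud, hui, e⟩ := gen_col hH hl'
        (fun j => if j = l then 0 else -(a⁻¹ : Rˣ) * g.val l j) (by simp)
        (fun j => by
          split_ifs with h
          exacts [dvd_zero _, (hg.1 l j (Ne.symm h)).1.mul_left _])
        (fun j h => by
          split_ifs at h with h1
          exacts [absurd rfl h, ((hg.1 l j (Ne.symm h1)).2 (right_ne_zero_of_mul h)).2])
      have h4 := hg.mul hui
      rw [← H.mul_mem_cancel_right hu]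
      refine ih _ (by rw [Units.val_mul, det_mul, hd, hud, one_mul])
        ⟨fun i j h => ⟨(h4.1 i j h).1, fun h0 => ?_⟩, h4.2⟩
      obtain ⟨h5, h6⟩ := (h4.1 i j h).2 h0
      rw [Units.val_mul, e] at h0
      refine ⟨Finset.mem_of_mem_insert_of_ne h5 ?_, Finset.mem_of_mem_insert_of_ne h6 ?_⟩
      · rintro rfl
        exact h0 (by rw [if_neg h.symm, ← ha]; simp)
      · rintro rfl
        exact h0 (by simp [hc i h])
    have h2 : ∀ g : GL n R, g.val.det = 1 → GenInv s (insert l T) g.val → IsUnit (g.val l l) →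
        g ∈ H := fun g hd hg ⟨a, ha⟩ => by
      obtain ⟨⟨u, hu, hud, hui, -, e⟩, -⟩ := gen_col hH hl'
        (fun j => if j = l then 0 else -g.val j l * (a⁻¹ : Rˣ)) (by simp)
        (fun j => by
          split_ifs with h
          exacts [dvd_zero _, (hg.1 j l h).1.neg_right.mul_right _])
        (fun j h => by
          split_ifs at h with h1
          exacts [absurd rfl h, ((hg.1 j l h1).2 (neg_ne_zero.1 (left_ne_zero_of_mul h))).1])
      rw [← H.mul_mem_cancel_left hu]
      refine h3 _ (by rw [Units.val_mul, det_mul, hd, hud, one_mul]) (hui.mul hg) ?_ fun i hi => ?_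
      · rw [Units.val_mul, e]
        simp [← ha]
      · rw [Units.val_mul, e, if_neg hi, ← ha]
        simp
    intro g hd hg
    obtain ⟨z, hz⟩ := hg.2 l
    have h4 : g.val l l * (g⁻¹).val l l + ∑ j ∈ T, g.val l j * (g⁻¹).val j l = 1 := by
      have h5 : (g.val * (g⁻¹).val) l l = 1 := by
        rw [← Units.val_mul, mul_inv_cancel]
        simp
      rw [← h5, mul_apply, ← Finset.sum_insert (f := fun j => g.val l j * (g⁻¹).val j l) hl]
      refine Finset.sum_subset (Finset.subset_univ _) fun j _ hj => ?_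
      by_contra h6
      exact hj ((hg.1 l j fun h => hj (h ▸ hl')).2 (left_ne_zero_of_mul h6)).2
    obtain ⟨y, hy⟩ := exists_unit_add (a := g.val l l)
      (b := s * ∑ j ∈ T, g.val l j * (g⁻¹).val j l) (c := 1 - s ^ 2 * z * (g⁻¹).val l l)
      (d := -(s * z)) (by linear_combination hz - s ^ 2 * z * h4)
    obtain ⟨⟨u, hu, hud, hui, e, -⟩, -⟩ := gen_col hH hl'
      (fun j => if j ∈ T then s * ((g⁻¹).val j l * y) else 0) (by simp [hl])
      (fun j => by split_ifs <;> simp)
      (fun j h => by
        split_ifs at h with h1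
        exacts [Finset.mem_insert_of_mem h1, absurd rfl h])
    rw [← H.mul_mem_cancel_right hu]
    refine h2 _ (by rw [Units.val_mul, det_mul, hd, hud, one_mul]) (hg.mul hui) ?_
    rw [Units.val_mul, e]
    refine (congrArg IsUnit (congrArg _ ?_)).mp hy
    simp only [mul_ite, mul_zero, Finset.sum_ite_mem, Finset.univ_inter, Finset.mul_sum,
      Finset.sum_mul]
    exact Finset.sum_congr rfl fun j _ => by ring

/-- Gaussian elimination. Induction on a finset `T` of indices that are already cleared:
there are `u v ∈ H` such that `g' = u * g * v` has `s ^ 2 ∣ (g' - 1) i j` whenever `i, j ∉ T`,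
and for `i ∈ T` row `i` and column `i` vanish off the diagonal and `g' i i` is a unit with
`s ^ 2 ∣ g' i i - 1`. Step for a new index `l`: row `l` of `g'` is unimodular, hence also
`(g' l l, s * g' l j)` (use `g' l l = 1 + s ^ 2 z`); by `exists_unit_add` add multiples
`s * y j` of the columns `j ∉ T` to column `l` so that the entry `(l, l)` is a unit; clear
column `l` by row operations (multiples of `s`), then row `l` by column operations.
A product of root elements in one column `l` is `1 + ∑ j, single j l (y j)`.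
At the end `g'` is diagonal with unit entries `d i ≡ 1` and product one; it is the product of
the `tor i i0 (d i)`, `i ≠ i0`. -/
theorem mem_of_roots [Finite R] {H : Subgroup (GL n R)} {s : R} (hH : Roots H {x | s ∣ x})
    (g : GL n R) (hd : g.val.det = 1) (hg : ∀ i j, s ^ 2 ∣ (g.val - 1) i j) : g ∈ H := by
  refine gen_ind hH Finset.univ g hd ⟨fun i j h => ⟨?_, fun _ => by simp⟩, fun i => ?_⟩
  · simpa [h] using (dvd_pow_self s two_ne_zero).trans (hg i j)
  · simpa using hg i i

theorem hasSL_of_roots [Finite R] {H : Subgroup (GL n R)} (hH : Roots H Set.univ) : HasSL H :=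
  fun g hd => mem_of_roots (s := 1) (hH.mono (Set.subset_univ _)) g hd fun _ _ => by simp

end Pool.Agent.Lib.MP_6adaea_nt.G
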