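import Pool.Agent.Lib.MP_6adaea_nt.G.Inv

/-!
A subgroup normalised by root elements of bounded level with an element of bounded level
contains all root elements of bounded level.
-/

set_option linter.unusedSectionVars false

namespace Pool.Agent.Lib.MP_6adaea_nt.G
open Matrix

variable {n : Type} [Fintype n] [DecidableEq n] {R S : Type} [CommRing R] [CommRing S]

private lemma thick_scal (g : GL n R) (J : Ideal R) (i j : n)
    (hJ : i ≠ j → lev (ad g (single i j 1) - single i j (1 : R)) ≤ J) :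
    ∃ l : R ⧸ J, l ^ 2 = 0 ∧ (i ≠ j → (red (Ideal.Quotient.mk J) g).val * single i j 1 =
      (single i j 1 + l • (1 : Matrix n n (R ⧸ J))) * (red (Ideal.Quotient.mk J) g).val) := by
  by_cases h : i = j
  · exact ⟨0, by simp, fun h' => absurd h h'⟩
  have : Nonempty n := ⟨i⟩
  set π := Ideal.Quotient.mk J
  set g' := red π g
  obtain ⟨h1, h2⟩ := lev_le_iff.1 (hJ h)
  have h3 : Scal ((ad g (single i j 1) - single i j (1 : R)).map π) :=
    scal_iff.2 ⟨fun u v huv => Ideal.Quotient.eq_zero_iff_mem.2 (h1 u v huv),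
      fun u v => Ideal.Quotient.eq.2 (h2 u v)⟩
  obtain ⟨l, hl⟩ := h3
  have h4 : (single i j (1 : R)).map π = single i j 1 := by
    ext u v
    simp [single, apply_ite π]
  rw [Matrix.map_sub _ (map_sub π), ad_map, h4, sub_eq_iff_eq_add'] at hl
  refine ⟨l, ?_, fun _ => ?_⟩
  · have h5 := ad_mul_ad g' (single i j 1) (single i j 1)
    have h6 : ad g' 0 = 0 := by simp [ad]
    rw [single_mul_single_of_ne _ _ _ _ (Ne.symm h), h6, hl] at h5
    have h7 := congrFun (congrFun h5 i) i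
    simp only [Matrix.add_mul, Matrix.mul_add, single_mul_single_of_ne _ _ _ _ (Ne.symm h),
      Matrix.smul_mul, Matrix.mul_smul, Matrix.one_mul, Matrix.mul_one, Matrix.add_apply,
      Matrix.smul_apply, single_apply_of_col_ne _ _ (Ne.symm h), Matrix.zero_apply, one_apply_eq,
      smul_eq_mul, mul_zero, mul_one, add_zero, zero_add] at h7
    rw [sq, ← h7]
  · rw [← hl, ad, Matrix.mul_assoc, ← Units.val_mul, inv_mul_cancel, Units.val_one, Matrix.mul_one]

/-- Let `J` be the sum over `i ≠ j` of the ideals `lev (ad g E_ij - E_ij)`. Modulo `J` one has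
`ad g E_ij = E_ij + l_ij • 1` with `l_ij = (ad g E_ij) i i`; squaring gives `l_ij ^ 2 ∈ J`.
Modulo `J' = J + span (l_ij)` the matrix `g` commutes with all `E_ij`, so `lev g ≤ J'`.
The image of `J'` in `R ⧸ J` is generated by at most `card n ^ 2` elements of square zero
(`Ideal.sum_pow_mem_span_pow`). -/
theorem pow_mem_lev_ad (g : GL n R) {a : R} (ha : a ∈ lev g.val) :
    a ^ (Fintype.card n ^ 2 + 1) ∈
      ⨆ (i : n) (j : n) (_ : i ≠ j), lev (ad g (single i j 1) - single i j (1 : R)) := by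
  set J : Ideal R := ⨆ (i : n) (j : n) (_ : i ≠ j), lev (ad g (single i j 1) - single i j (1 : R))
  have hJ : ∀ i j, i ≠ j → lev (ad g (single i j 1) - single i j (1 : R)) ≤ J := fun i j h =>
    le_iSup_of_le i (le_iSup_of_le j (le_iSup_of_le h le_rfl))
  choose l hl using fun p : n × n => thick_scal g J p.1 p.2 (hJ p.1 p.2)
  let π := Ideal.Quotient.mk J
  have h1 : lev g.val ≤ (Ideal.span (Set.range l)).comap π := by
    have hm : ∀ p, l p ∈ Ideal.span (Set.range l) := fun p => Ideal.subset_span ⟨p, rfl⟩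
    rw [lev_le_iff]
    refine ⟨fun u i hui => ?_, fun i j => ?_⟩
    · have := congrFun (congrFun ((hl (i, u)).2 hui.symm) u) u
      simp only [Matrix.add_mul, Matrix.smul_mul, Matrix.one_mul, Matrix.add_apply,
        mul_single_apply_same, mul_one, Matrix.smul_apply, smul_eq_mul,
        single_mul_apply_of_ne _ _ _ _ _ hui, zero_add, red_val, map_apply] at this
      rw [Ideal.mem_comap, this]
      exact Ideal.mul_mem_right _ _ (hm _)
    · by_cases hij : i = j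
      · simp [hij]
      have := congrFun (congrFun ((hl (i, j)).2 hij) i) j
      simp only [Matrix.add_mul, Matrix.smul_mul, Matrix.one_mul, Matrix.add_apply,
        mul_single_apply_same, mul_one, Matrix.smul_apply, smul_eq_mul,
        single_mul_apply_same, one_mul, red_val, map_apply] at this
      rw [Ideal.mem_comap, map_sub, this, add_sub_cancel_left]
      exact Ideal.mul_mem_right _ _ (hm _)
  obtain ⟨c, hc⟩ := Ideal.mem_span_range_iff_exists_fun.1 (Ideal.mem_comap.1 (h1 ha))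
  have h2 := Ideal.sum_pow_mem_span_pow Finset.univ (fun p => c p * l p) 1
  rw [hc, Finset.card_univ, Fintype.card_prod, mul_one, ← sq, ← map_pow,
    Ideal.span_eq_bot.2, Ideal.mem_bot] at h2
  · exact Ideal.Quotient.eq_zero_iff_mem.1 h2
  · rintro _ ⟨p, -, rfl⟩
    simp only [mul_pow, Nat.reduceAdd, (hl p).1, mul_zero]

/-- the first order terms of elements of `K` at level `ϖ ^ β` -/
private def thickU (K : Subgroup (GL n R)) (t : R) : Submodule R (Matrix n n R) where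
  carrier := {X | ∀ c : R, ∃ κ ∈ K, κ.val.det = 1 ∧ ∃ Z, κ.val = 1 + (t * c) • X + t ^ 2 • Z}
  zero_mem' := fun _ => ⟨1, K.one_mem, by simp, 0, by simp⟩
  add_mem' := by
    intro X Y hX hY c
    obtain ⟨κ, hκ, hd, Z, hZ⟩ := hX c
    obtain ⟨κ', hκ', hd', W, hW⟩ := hY c
    refine ⟨κ * κ', K.mul_mem hκ hκ', by rw [Units.val_mul, det_mul, hd, hd', one_mul],
      Z + W + c ^ 2 • (X * Y) + (t * c) • (X * W) + (t * c) • (Z * Y) + t ^ 2 • (Z * W), ?_⟩
    rw [Units.val_mul, hZ, hW]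
    simp only [Matrix.add_mul, Matrix.mul_add, Matrix.one_mul, Matrix.mul_one, Matrix.smul_mul,
      Matrix.mul_smul]
    module
  smul_mem' := by
    intro a X hX c
    obtain ⟨κ, hκ, hd, Z, hZ⟩ := hX (c * a)
    exact ⟨κ, hκ, hd, Z, by rw [hZ, smul_smul, mul_assoc]⟩

private lemma thick_ad {K : Subgroup (GL n R)} {t : R} {r : GL n R}
    (hr : ∀ g ∈ K, r * g * r⁻¹ ∈ K) {X : Matrix n n R} (hX : X ∈ thickU K t) :
    ad r X ∈ thickU K t := by
  intro c
  obtain ⟨κ, hκ, hd, Z, hZ⟩ := hX c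
  refine ⟨r * κ * r⁻¹, hr κ hκ, ?_, ad r Z, ?_⟩
  · rw [Units.val_mul, Units.val_mul, det_units_conj, hd]
  · rw [ad_val, hZ, ad_add, ad_add, ad_id, ad_smul, ad_smul]

private lemma thick_comm {K : Subgroup (GL n R)} {t : R} {g : GL n R} (hg : g ∈ K) {i j : n}
    (h : i ≠ j) (hK : ∀ c : R, ∀ g ∈ K, rt h (t * c) * g * (rt h (t * c))⁻¹ ∈ K) :
    ad g (single i j 1) - single i j 1 ∈ thickU K t := by
  intro c
  refine ⟨g * rt h (t * c) * g⁻¹ * (rt h (t * c))⁻¹, ?_, ?_,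
    -(c ^ 2 • (ad g (single i j 1) * single i j 1)), ?_⟩
  · simpa only [mul_assoc] using K.mul_mem hg (hK c _ (K.inv_mem hg))
  · rw [Units.val_mul, det_mul, Units.val_mul, Units.val_mul, det_units_conj, ← rt_neg, rt_det,
      rt_det, one_mul]
  · have e1 : ∀ y : R, single i j y = y • (single i j 1 : Matrix n n R) := fun y => by
      rw [smul_single, smul_eq_mul, mul_one]
    rw [Units.val_mul, ad_val, rt_inv_val, rt_val, ad_add, ad_id, e1 (t * c), e1 (-(t * c)), ad_smul]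
    simp only [Matrix.add_mul, Matrix.mul_add, Matrix.one_mul, Matrix.mul_one, Matrix.smul_mul,
      Matrix.mul_smul]
    module

private lemma thick_all {b m β : ℕ} {ϖ : R} (hϖ : IsNilpotent ϖ) {K : Subgroup (GL n R)}
    (hK : ∀ ⦃i j : n⦄ (h : i ≠ j) (y : R), ϖ ^ b ∣ y → ∀ g ∈ K, rt h y * g * (rt h y)⁻¹ ∈ K)
    {g : GL n R} (hg : g ∈ K) (hm : ϖ ^ m ∈ lev g.val) (hβ : b ≤ β) {Y : Matrix n n R}
    (hY : Y.trace = 0) :
    ϖ ^ (8 * (3 * b + 1) + m * (Fintype.card n ^ 2 + 1)) • Y ∈ thickU K (ϖ ^ β) := by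
  set w := (ϖ ^ b * ϖ ^ (b + 1) * (ϖ ^ b - ϖ ^ (b + 1))) ^ 8 with hw
  have h1 : (⨆ (i : n) (j : n) (_ : i ≠ j), lev (ad g (single i j 1) - single i j (1 : R))) ≤
      (thickU K (ϖ ^ β)).comap (LinearMap.toSpanSingleton R _ (w • Y)) := by
    refine iSup_le fun i => iSup_le fun j => iSup_le fun h a ha => ?_
    rw [Submodule.mem_comap, LinearMap.toSpanSingleton_apply, smul_smul, mul_comm]
    refine inv_mod _ _ _ (fun u v huv X hX => ⟨thick_ad (hK huv _ dvd_rfl) hX,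
      thick_ad (hK huv _ (pow_dvd_pow _ (Nat.le_succ _))) hX⟩)
      (thick_comm hg h fun c => hK h _ ((pow_dvd_pow _ hβ).mul_right c)) ha hY
  have h2 := h1 (pow_mem_lev_ad g hm)
  rw [Submodule.mem_comap, LinearMap.toSpanSingleton_apply, smul_smul] at h2
  obtain ⟨u, hu⟩ := hϖ.isUnit_one_sub.exists_left_inv
  have h3 := Submodule.smul_mem _ (u ^ 8) h2
  rw [smul_smul] at h3
  convert h3 using 2
  have h4 : w = (ϖ ^ (3 * b + 1)) ^ 8 * (1 - ϖ) ^ 8 := by
    rw [hw, ← mul_pow]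
    congr 1
    ring
  calc ϖ ^ (8 * (3 * b + 1) + m * (Fintype.card n ^ 2 + 1))
      = (u * (1 - ϖ)) ^ 8 * ((ϖ ^ (3 * b + 1)) ^ 8 * (ϖ ^ m) ^ (Fintype.card n ^ 2 + 1)) := by
        rw [hu, one_pow, one_mul, ← pow_mul, ← pow_mul, ← pow_add, mul_comm 8]
    _ = _ := by
        rw [h4, mul_pow u]
        ring

private lemma thick_step {β e : ℕ} {ϖ : R} {K : Subgroup (GL n R)} (hβ : e + 1 ≤ β) (i : n)
    (hU : ∀ Y : Matrix n n R, Y.trace = 0 → ϖ ^ e • Y ∈ thickU K (ϖ ^ β))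
    (ih : ∀ γ : GL n R, γ.val.det = 1 → ∀ X : Matrix n n R,
      γ.val = 1 + ϖ ^ (β + 1 + e) • X → γ ∈ K)
    (γ : GL n R) (hγ : γ.val.det = 1) (X : Matrix n n R) (hX : γ.val = 1 + ϖ ^ (β + e) • X) :
    γ ∈ K := by
  obtain ⟨z, hz⟩ : ∃ z : R, ϖ ^ (β + e) * X.trace = z * (ϖ ^ (β + e)) ^ 2 := by
    rw [hX, det_one_add_smul] at hγ
    generalize (Polynomial.eval _ _ : R) = z at hγ
    exact ⟨-z, by linear_combination hγ⟩
  obtain ⟨κ, hκ, hd, Z, hZ⟩ := hU (X - single i i X.trace) (by simp [trace_sub]) 1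
  obtain ⟨d, rfl⟩ := Nat.exists_eq_add_of_le hβ
  have e1 : single i i X.trace = X.trace • (single i i 1 : Matrix n n R) := by
    rw [smul_single, smul_eq_mul, mul_one]
  have h1 : γ.val = κ.val + ϖ ^ (e + 1 + d + 1 + e) •
      (ϖ ^ d • ((z * ϖ ^ (2 * e)) • (single i i 1 : Matrix n n R) - Z)) := by
    have e2 : ϖ ^ (e + 1 + d + e) • X.trace • (single i i 1 : Matrix n n R) =
        (z * (ϖ ^ (e + 1 + d + e)) ^ 2) • (single i i 1 : Matrix n n R) := by rw [smul_smul, hz]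
    rw [hX, hZ, e1, mul_one, smul_smul, ← pow_add, smul_sub, e2]
    module
  have h2 : γ * κ⁻¹ ∈ K := by
    refine ih _ ?_ ((ϖ ^ d • ((z * ϖ ^ (2 * e)) • (single i i 1 : Matrix n n R) - Z)) *
      (κ⁻¹).val) ?_
    · have := congrArg det (Units.mul_inv κ)
      rw [det_mul, hd, one_mul, det_one] at this
      rw [Units.val_mul, det_mul, hγ, this, one_mul]
    · rw [Units.val_mul, h1, Matrix.add_mul, Units.mul_inv, Matrix.smul_mul]
  simpa using K.mul_mem h2 hκ

/-- For `β ≥ max b 1` let `U β` be the set of `X` such that for all `c` there are `κ ∈ K` of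
determinant one and `Z` with `κ = 1 + (ϖ ^ β * c) • X + ϖ ^ (2 * β) • Z`. It is a submodule,
stable under `ad (rt h y)` for `ϖ ^ b ∣ y`, and contains `ad g E_ij - E_ij`
(`κ = g * rt h y * g⁻¹ * (rt h y)⁻¹`, `y = ϖ ^ β * c`). By `inv_mod` with `y = ϖ ^ b`,
`z = ϖ ^ (b + 1)` (`1 - ϖ` is a unit) and `pow_mem_lev_ad`, `ϖ ^ e • Y ∈ U β` for all `Y` of trace
zero, `e = 8 * (3 * b + 1) + m * (card n ^ 2 + 1)`. Claim for `β ≥ b + e + 1`, by descending
induction from `ϖ ^ N = 0`: every `γ` of determinant one with `γ = 1 + ϖ ^ (β + e) • X` is in `K`.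
Indeed `ϖ ^ (β + e) * (trace X + ϖ ^ (β + e) * z) = 0` (`Matrix.det_one_add_smul`), so with
`Y = X - single i0 i0 (trace X)` one has `γ ≡ 1 + ϖ ^ (β + e) • Y` mod `ϖ ^ (2 * β)`, and
`γ * κ⁻¹ ≡ 1` mod `ϖ ^ (2 * β)`, `2 * β ≥ β + 1 + e`. Take `c = b + 2 * e + 1`. -/
theorem thick (n : Type) [Fintype n] [DecidableEq n] (b m : ℕ) :
    ∃ c : ℕ, ∀ (R : Type) [CommRing R] (ϖ : R), IsNilpotent ϖ → ∀ K : Subgroup (GL n R),
      (∀ ⦃i j : n⦄ (h : i ≠ j) (y : R), ϖ ^ b ∣ y → ∀ g ∈ K, rt h y * g * (rt h y)⁻¹ ∈ K) →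
      (∃ g ∈ K, ϖ ^ m ∈ lev g.val) → Roots K {x | ϖ ^ c ∣ x} := by
  set e := 8 * (3 * b + 1) + m * (Fintype.card n ^ 2 + 1) with he
  refine ⟨b + e + 1 + e, fun R _ ϖ hϖ K hK ⟨g, hg, hm⟩ i j h x ⟨y, hy⟩ => ?_⟩
  have key : ∀ β, b + e + 1 ≤ β → ∀ γ : GL n R, γ.val.det = 1 → ∀ X : Matrix n n R,
      γ.val = 1 + ϖ ^ (β + e) • X → γ ∈ K := by
    obtain ⟨N, hN⟩ := id hϖ
    intro β hβ
    refine Nat.decreasingInduction' (P := fun β => ∀ γ : GL n R, γ.val.det = 1 →
      ∀ X : Matrix n n R, γ.val = 1 + ϖ ^ (β + e) • X → γ ∈ K) (n := β + N) (m := β)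
      (fun k _ hk ih => ?_) (Nat.le_add_right _ _) ?_
    · intro γ hγ X hX
      exact thick_step (by omega) i (fun Y hY => thick_all hϖ hK hg hm (by omega) hY) ih γ hγ X hX
    · intro γ _ X hX
      rw [pow_eq_zero_of_le (by omega) hN, zero_smul, add_zero] at hX
      rw [show γ = 1 from Units.ext hX]
      exact K.one_mem
  refine key _ le_rfl _ (rt_det h x) (single i j y) ?_
  rw [rt_val, hy, smul_single, smul_eq_mul]

end Pool.Agent.Lib.MP_6adaea_nt.G
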