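import Pool.Agent.Lib.MP_6adaea_nt.G.Count
import Pool.Agent.Lib.MP_6adaea_nt.G.Thick

/-!
From the single primes to a composite level.
-/

set_option linter.unusedSectionVars false

namespace Pool.Agent.Lib.MP_6adaea_nt.G
open Matrix Polynomial

variable {n : Type} [Fintype n] [DecidableEq n]

section abstract

variable {R R1 R2 : Type} [CommRing R] [CommRing R1] [CommRing R2]

lemma roots_of_ker {f : R →+* R1} {f' : R →+* R2} (hinj : ∀ x, f x = 0 → f' x = 0 → x = 0)
    {H : Subgroup (GL n R)} {I : Set R1} (h : Roots ((H ⊓ (red f').ker).map (red f)) I) :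
    Roots H {x | f' x = 0 ∧ f x ∈ I} := by
  rintro i j hij x ⟨h1, h2⟩
  obtain ⟨g, ⟨hg, hg'⟩, e⟩ := h hij _ h2
  have e' : red f' g = red f' (rt hij x) := by
    rw [red_rt, h1, rt_zero]; exact hg'
  rw [← red_rt] at e
  have : g = rt hij x := by
    ext a b
    refine sub_eq_zero.mp (hinj _ ?_ ?_)
    · rw [map_sub, sub_eq_zero]; exact congrArg (fun u : GL n R1 => u.val a b) e
    · rw [map_sub, sub_eq_zero]; exact congrArg (fun u : GL n R2 => u.val a b) e'
  exact this ▸ hg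

lemma conj_ker (f : R →+* R1) (f' : R →+* R2) {H : Subgroup (GL n R)} {s : GL n R1}
    (hs : s ∈ H.map (red f)) {x : GL n R1} (hx : x ∈ (H ⊓ (red f').ker).map (red f)) :
    s * x * s⁻¹ ∈ (H ⊓ (red f').ker).map (red f) := by
  obtain ⟨t, ht, rfl⟩ := hs
  obtain ⟨y, ⟨hy, hy'⟩, rfl⟩ := hx
  exact ⟨t * y * t⁻¹, ⟨H.mul_mem (H.mul_mem ht hy) (H.inv_mem ht),
    (MonoidHom.normal_ker _).conj_mem _ hy' _⟩, by simp only [map_mul, map_inv]⟩

lemma index_det_map_le [Finite R] {f : R →+* R1} (hf : Function.Surjective (Units.map f.toMonoidHom))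
    (H : Subgroup (GL n R)) :
    ((H.map (red f)).map GeneralLinearGroup.det).index ≤ (H.map GeneralLinearGroup.det).index := by
  have : (H.map (red f)).map GeneralLinearGroup.det =
      (H.map GeneralLinearGroup.det).map (Units.map f.toMonoidHom) := by
    rw [Subgroup.map_map, Subgroup.map_map]
    congr 1
    ext g
    exact red_det f g
  rw [this]
  exact Nat.le_of_dvd (Nat.pos_of_ne_zero Subgroup.index_ne_zero_of_finite)
    (Subgroup.index_map_dvd _ hf)

end abstract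

variable {k : Type} [Field k]

/-- reduction modulo a divisor -/
noncomputable def fac {a b : k[X]} (h : b ∣ a) : AdjoinRoot a →+* AdjoinRoot b :=
  (AdjoinRoot.algHomOfDvd k a b h).toRingHom

@[simp] lemma fac_mk {a b : k[X]} (h : b ∣ a) (x : k[X]) :
    fac h (AdjoinRoot.mk a x) = AdjoinRoot.mk b x := by
  change AdjoinRoot.algHomOfDvd k a b h (AdjoinRoot.mk a x) = _
  rw [← AdjoinRoot.aeval_eq, ← AdjoinRoot.aeval_eq, ← aeval_algHom_apply,
    AdjoinRoot.algHomOfDvd_root]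

lemma fac_surjective {a b : k[X]} (h : b ∣ a) : Function.Surjective (fac h) := fun y => by
  obtain ⟨x, rfl⟩ := AdjoinRoot.mk_surjective y
  exact ⟨_, fac_mk h x⟩

lemma fac_comp {a b c : k[X]} (h : b ∣ a) (h' : c ∣ b) :
    (fac h').comp (fac h) = fac (h'.trans h) := by
  refine RingHom.ext fun y => ?_
  obtain ⟨x, rfl⟩ := AdjoinRoot.mk_surjective y
  simp

lemma finite_adjoinRoot [Finite k] {a : k[X]} (ha : a ≠ 0) : Finite (AdjoinRoot a) := by
  have := (AdjoinRoot.powerBasis ha).finite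
  exact Module.finite_of_finite k

lemma card_adjoinRoot [Finite k] {a : k[X]} (ha : a ≠ 0) :
    Nat.card (AdjoinRoot a) = Nat.card k ^ a.natDegree := by
  have := (AdjoinRoot.powerBasis ha).finite
  rw [Module.natCard_eq_pow_finrank (K := k), (AdjoinRoot.powerBasis ha).finrank]; rfl

lemma fac_units_surjective [Finite k] {a b : k[X]} (ha : a ≠ 0) (h : b ∣ a) :
    Function.Surjective (Units.map (fac h).toMonoidHom) := fun u => by
  have := finite_adjoinRoot ha
  obtain ⟨x, hx⟩ := AdjoinRoot.mk_surjective u.val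
  obtain ⟨y, hy⟩ := AdjoinRoot.mk_surjective (u⁻¹).val
  have : b ∣ y * x - 1 := by
    rw [← AdjoinRoot.mk_eq_mk, map_mul, hx, hy, map_one, Units.inv_mul]
  obtain ⟨z, hz⟩ := this
  obtain ⟨w, hw⟩ := exists_unit_add (a := AdjoinRoot.mk a x) (b := AdjoinRoot.mk a b)
    (c := AdjoinRoot.mk a y) (d := -AdjoinRoot.mk a z) (by
      rw [← map_mul, ← map_neg, ← map_mul, ← map_add, ← (AdjoinRoot.mk a).map_one]
      congr 1
      linear_combination hz)
  refine ⟨hw.unit, Units.ext ?_⟩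
  simp [hx]

/-- the local ring `A / P ^ (e + 1)` -/
noncomputable def locP (P : k[X]) [Fact (Irreducible P)] (e : ℕ) :
    Loc (AdjoinRoot (P ^ (e + 1))) (AdjoinRoot P) where
  ϖ := AdjoinRoot.mk _ P
  π := fac (dvd_pow_self P e.succ_ne_zero)
  surj := fac_surjective _
  ker := fun y => by
    obtain ⟨x, rfl⟩ := AdjoinRoot.mk_surjective y
    rw [fac_mk, AdjoinRoot.mk_eq_zero]
    refine ⟨fun h => map_dvd _ h, fun ⟨w, hw⟩ => ?_⟩
    obtain ⟨z, rfl⟩ := AdjoinRoot.mk_surjective w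
    rw [← map_mul, AdjoinRoot.mk_eq_mk] at hw
    exact (dvd_sub_right (dvd_mul_right P z) |>.mp <| by
      simpa using ((dvd_pow_self P e.succ_ne_zero).trans hw).neg_right)
  nil := ⟨e + 1, by rw [← map_pow, AdjoinRoot.mk_self]⟩

lemma fac_inj {P b : k[X]} (hP : Irreducible P) (hb : ¬P ∣ b) (e : ℕ) {a : k[X]}
    (ha : a = P ^ e * b) (y : AdjoinRoot a) (h1 : fac (Dvd.intro _ ha.symm) y = 0)
    (h2 : fac (Dvd.intro_left _ ha.symm) y = 0) : y = 0 := by
  obtain ⟨x, rfl⟩ := AdjoinRoot.mk_surjective y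
  rw [fac_mk, AdjoinRoot.mk_eq_zero] at h1 h2
  rw [AdjoinRoot.mk_eq_zero, ha]
  exact ((hP.coprime_iff_not_dvd.mpr hb).pow_left).mul_dvd h1 h2

/-- what is needed at a large prime `P`, where `a = P ^ (e + 1) * b` -/
def LargeAt {a : k[X]} (H : Subgroup (GL n (AdjoinRoot a))) (P b : k[X]) [Fact (Irreducible P)]
    (e : ℕ) (ha : a = P ^ (e + 1) * b) : Prop :=
  HasSL (H.map (red (fac ((dvd_pow_self P e.succ_ne_zero).trans (Dvd.intro _ ha.symm))))) ∧
  (∃ Y ∈ layer (locP P e) (H.map (red (fac (Dvd.intro _ ha.symm)))) 0, ¬Scal Y) ∧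
  ∃ h ∈ H, red (fac (Dvd.intro_left _ ha.symm)) h = 1 ∧
    ¬Scal (h.val.map (fac ((dvd_pow_self P e.succ_ne_zero).trans (Dvd.intro _ ha.symm))))

/-- what is needed at a small prime `P`, where `a = P ^ (e + 1) * b` -/
def SmallAt {a : k[X]} (H : Subgroup (GL n (AdjoinRoot a))) (P b : k[X]) (e : ℕ)
    (ha : a = P ^ (e + 1) * b) (c m : ℕ) : Prop :=
  Roots (H.map (red (fac (Dvd.intro _ ha.symm)))) {x | AdjoinRoot.mk _ P ^ c ∣ x} ∧
  ∃ h ∈ H, red (fac (Dvd.intro_left _ ha.symm)) h = 1 ∧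
    AdjoinRoot.mk _ P ^ m ∈ lev (h.val.map (fac (Dvd.intro _ ha.symm)))

theorem large_roots (n : Type) [Fintype n] [DecidableEq n] [Nontrivial n] :
    ∃ B : ℕ, ∀ (k : Type) [Field k] [Finite k] (a : k[X]), a ≠ 0 →
      ∀ (H : Subgroup (GL n (AdjoinRoot a))) (P b : k[X]) [Fact (Irreducible P)] (e : ℕ)
      (ha : a = P ^ (e + 1) * b), ¬P ∣ b → B < Nat.card k ^ P.natDegree →
      (H.map GeneralLinearGroup.det).index < Nat.card k ^ P.natDegree → LargeAt H P b e ha →
      Roots H {x | AdjoinRoot.mk a b ∣ x} := by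
  obtain ⟨B, hB⟩ := normal_loc n
  refine ⟨B + 3, fun k _ _ a ha0 H P b hP e ha hb hk hd ⟨h0, h1, h, hh, h2, h3⟩ => ?_⟩
  have := finite_adjoinRoot ha0
  have := finite_adjoinRoot hP.out.ne_zero
  have := finite_adjoinRoot (pow_ne_zero (e + 1) hP.out.ne_zero)
  rw [← card_adjoinRoot hP.out.ne_zero] at hk hd
  have hπ : (locP P e).π.comp (fac (Dvd.intro _ ha.symm)) =
      fac ((dvd_pow_self P e.succ_ne_zero).trans (Dvd.intro _ ha.symm)) :=
    fac_comp _ (dvd_pow_self P e.succ_ne_zero)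
  have h4 : HasSL (H.map (red (fac (Dvd.intro _ ha.symm)))) := by
    refine layers (by omega) (locP P e) _ ?_ h1
      ((index_det_map_le (fac_units_surjective ha0 _) H).trans_lt hd)
    rw [← hπ] at h0
    rwa [Subgroup.map_map, show (red (locP P e).π).comp (red (fac (Dvd.intro _ ha.symm))) =
      red (n := n) ((locP P e).π.comp (fac (Dvd.intro _ ha.symm))) from
      MonoidHom.ext fun g => red_comp _ _ g]
  have h5 := hB _ _ (locP P e) (by omega)
    ((H ⊓ (red (fac (Dvd.intro_left _ ha.symm))).ker).map (red (fac (Dvd.intro _ ha.symm))))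
    (fun s hs x hx => conj_ker _ _ (h4 s hs) hx)
    ⟨_, Subgroup.mem_map_of_mem _ (Subgroup.mem_inf.mpr ⟨hh, h2⟩), by
      rw [red_val, Matrix.map_map, ← RingHom.coe_comp]
      rwa [hπ]⟩
  refine (roots_of_ker (fac_inj hP.out hb _ ha) h5.roots).mono ?_
  rintro _ ⟨y, rfl⟩
  simp

theorem small_roots (n : Type) [Fintype n] [DecidableEq n] (c m : ℕ) :
    ∃ c' : ℕ, ∀ (k : Type) [Field k] (a : k[X]) (H : Subgroup (GL n (AdjoinRoot a)))
      (P b : k[X]) (e : ℕ) (ha : a = P ^ (e + 1) * b), Irreducible P → ¬P ∣ b →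
      SmallAt H P b e ha c m → Roots H {x | AdjoinRoot.mk a (b * P ^ c') ∣ x} := by
  obtain ⟨c', hc⟩ := thick n c m
  refine ⟨c', fun k _ a H P b e ha hP hb ⟨h0, h, hh, h2, h3⟩ => ?_⟩
  have h5 := hc _ (AdjoinRoot.mk (P ^ (e + 1)) P) ⟨e + 1, by rw [← map_pow, AdjoinRoot.mk_self]⟩
    ((H ⊓ (red (fac (Dvd.intro_left _ ha.symm))).ker).map (red (fac (Dvd.intro _ ha.symm))))
    (fun i j hij y hy g hg => conj_ker _ _ (h0 hij y hy) hg)
    ⟨_, Subgroup.mem_map_of_mem _ (Subgroup.mem_inf.mpr ⟨hh, h2⟩), h3⟩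
  refine (roots_of_ker (fac_inj hP hb _ ha) h5).mono ?_
  rintro _ ⟨y, rfl⟩
  refine ⟨by simp, ?_⟩
  simp only [map_mul, map_pow, fac_mk, Set.mem_ofPred_eq]
  exact (dvd_mul_left _ _).mul_right _

theorem index_of_roots (k n : Type) [Field k] [Finite k] [Fintype n] [DecidableEq n]
    (C d c : ℕ) : ∃ N : ℕ, ∀ (a : k[X]), a ≠ 0 → ∀ H : Subgroup (GL n (AdjoinRoot a)),
      (H.map GeneralLinearGroup.det).index ≤ C →
      (∀ (P b : k[X]) (e : ℕ), P.Monic → Irreducible P → a = P ^ (e + 1) * b → ¬P ∣ b →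
        Roots H {x | AdjoinRoot.mk a (b * P ^ (if P.natDegree ≤ d then c else 0)) ∣ x}) →
      H.index ≤ N := by
  classical
  have hfin : {P : k[X] | P.Monic ∧ P.natDegree ≤ d}.Finite := by
    have : Finite (degreeLT k (d + 1)) := Finite.of_equiv _ (degreeLTEquiv k (d + 1)).symm.toEquiv
    refine (Set.toFinite (degreeLT k (d + 1) : Set k[X])).subset fun P hP => ?_
    exact mem_degreeLT.mpr (degree_lt_iff_coeff_zero _ _ |>.mpr fun m hm =>
      coeff_eq_zero_of_natDegree_lt (by have := hP.2; omega))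
  set s : k[X] := (∏ P ∈ hfin.toFinset, P) ^ c with hs
  have hs0 : s ≠ 0 := pow_ne_zero _ (Finset.prod_ne_zero_iff.mpr fun P hP =>
    (hfin.mem_toFinset.mp hP).1.ne_zero)
  refine ⟨C * Nat.card (AdjoinRoot (s ^ 2)) ^ (Fintype.card n ^ 2), fun a ha H hC hH => ?_⟩
  have := finite_adjoinRoot ha
  let J : Ideal k[X] :=
    { carrier := {u | Roots H {x | AdjoinRoot.mk a u ∣ x}}
      zero_mem' := fun i j hij x hx => by
        rw [Set.mem_ofPred_eq, map_zero, zero_dvd_iff] at hx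
        rw [hx, rt_zero]; exact H.one_mem
      add_mem' := by
        rintro u v hu hv i j hij _ ⟨y, rfl⟩
        rw [map_add, add_mul, rt_add]
        exact H.mul_mem (hu hij _ (dvd_mul_right _ _)) (hv hij _ (dvd_mul_right _ _))
      smul_mem' := fun w u hu => hu.mono fun x hx => (_root_.map_dvd _ (dvd_mul_left u w)).trans hx }
  obtain ⟨g, hg⟩ := (IsPrincipalIdealRing.principal J).principal
  have hJ : ∀ u, u ∈ J → g ∣ u := fun u hu => by
    rw [hg] at hu; exact Ideal.mem_span_singleton.mp hu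
  have hga : g ∣ a := hJ a fun i j hij x hx => by
    rw [Set.mem_ofPred_eq, AdjoinRoot.mk_self, zero_dvd_iff] at hx
    rw [hx, rt_zero]; exact H.one_mem
  have key : ∀ u : k[X], u ∣ g → u ∣ s := fun u => by
    refine UniqueFactorizationMonoid.induction_on_coprime (P := fun u => u ∣ g → u ∣ s) u
      (fun h => absurd (zero_dvd_iff.mp (h.trans hga)) ha) (fun h _ => h.dvd)
      (fun {p} j hp h => ?_) fun {x y} hxy hx hy h => hxy.mul_dvd (hx (dvd_of_mul_right_dvd h))
        (hy (dvd_of_mul_left_dvd h))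
    rcases j with _ | j
    · simp
    have hpa := normalize_associated p
    have hP : Irreducible (normalize p) := hpa.symm.irreducible hp.irreducible
    have hm : (normalize p).Monic := monic_normalize hp.ne_zero
    replace h : normalize p ^ (j + 1) ∣ g := (hpa.pow_pow).dvd.trans h
    refine (hpa.symm.pow_pow).dvd.trans ?_
    set P := normalize p
    obtain ⟨e, b, hb, hab⟩ := WfDvdMonoid.max_power_factor ha hP
    rcases e with _ | e
    · refine absurd ?_ hb
      rw [pow_zero, one_mul] at hab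
      exact hab ▸ ((dvd_pow_self P j.succ_ne_zero).trans h).trans hga
    have h1 := h.trans (hJ _ (hH P b e hm hP hab hb))
    have h2 := (hP.coprime_iff_not_dvd.mpr hb).pow_left.dvd_of_dvd_mul_left h1
    split_ifs at h2 with hd
    · exact h2.trans (pow_dvd_pow_of_dvd
        (Finset.dvd_prod_of_mem _ (hfin.mem_toFinset.mpr ⟨hm, hd⟩)) c)
    · exact h2.trans (by simp)
  have hsJ : s ∈ J := by rw [hg]; exact Ideal.mem_span_singleton.mpr (key g dvd_rfl)
  refine (index_le (s := AdjoinRoot.mk a s) hsJ).trans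
    (Nat.mul_le_mul hC (Nat.pow_le_pow_left ?_ _))
  have := finite_adjoinRoot (pow_ne_zero 2 hs0)
  refine Nat.card_le_card_of_surjective (Ideal.Quotient.lift (Ideal.span {s ^ 2})
    ((Ideal.Quotient.mk _).comp (AdjoinRoot.mk a)) fun x hx => ?_) fun y => ?_
  · obtain ⟨z, rfl⟩ := Ideal.mem_span_singleton.mp hx
    rw [RingHom.comp_apply, Ideal.Quotient.eq_zero_iff_mem, map_mul, map_pow]
    exact Ideal.mul_mem_right _ _ (Ideal.mem_span_singleton_self _)
  · obtain ⟨y, rfl⟩ := Ideal.Quotient.mk_surjective y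
    obtain ⟨x, rfl⟩ := AdjoinRoot.mk_surjective y
    exact ⟨Ideal.Quotient.mk _ x, rfl⟩

/-- the index bound from the conditions at the single primes -/
theorem assemble (k n : Type) [Field k] [Finite k] [Fintype n] [DecidableEq n] [Nontrivial n]
    (C : ℕ) : ∃ d1 : ℕ, ∀ d c m : ℕ, d1 ≤ d → ∃ N : ℕ, ∀ (a : k[X]), a ≠ 0 →
      ∀ H : Subgroup (GL n (AdjoinRoot a)), (H.map GeneralLinearGroup.det).index ≤ C →
      (∀ (P b : k[X]) [Fact (Irreducible P)] (e : ℕ) (ha : a = P ^ (e + 1) * b), P.Monic →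
        ¬P ∣ b → d < P.natDegree → LargeAt H P b e ha) →
      (∀ (P b : k[X]) (e : ℕ) (ha : a = P ^ (e + 1) * b), P.Monic → Irreducible P →
        ¬P ∣ b → P.natDegree ≤ d → SmallAt H P b e ha c m) → H.index ≤ N := by
  obtain ⟨B, hB⟩ := large_roots n
  refine ⟨B + C, fun d c m hd => ?_⟩
  obtain ⟨c', hc⟩ := small_roots n c m
  obtain ⟨N, hN⟩ := index_of_roots k n C d c'
  refine ⟨N, fun a ha H hC h1 h2 => hN a ha H hC fun P b e hm hP hab hb => ?_⟩
  split_ifs with h
  · exact hc k a H P b e hab hP hb (h2 P b e hab hm hP hb h)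
  · have := Fact.mk hP
    have h3 : P.natDegree < Nat.card k ^ P.natDegree := Nat.lt_pow_self Finite.one_lt_card
    rw [pow_zero, mul_one]
    exact hB k a ha H P b e hab hb (by omega) (by omega) (h1 P b e hab hm hb (by omega))

end Pool.Agent.Lib.MP_6adaea_nt.G
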