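import Pool.Agent.Lib.MP_6adaea_nt.G.Lift

/-!
A polynomial that vanishes on a group with scalar first layer.
-/

set_option linter.unusedSectionVars false

namespace Pool.Agent.Lib.MP_6adaea_nt.G
open Matrix Polynomial

variable {n : Type} [Fintype n] [DecidableEq n] {R S : Type} [CommRing R] [CommRing S]

open TrivSqZeroExt

variable {F : Type} [Field F]

/-- the Hankel determinant of the traces of the powers -/
def hank (g : Matrix n n R) : R :=
  (Matrix.of fun i j : Fin (Fintype.card n) => (g ^ ((i : ℕ) + (j : ℕ))).trace).det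

/-- the Hankel determinant times the derivative of `tr g * tr (adj g) / det g` -/
def g2fun (g : Matrix n n (DualNumber F)) : F :=
  hank (g.map fst) * ((g.trace * g.adjugate.trace).snd * g.det.fst -
    (g.trace * g.adjugate.trace).fst * g.det.snd)

/-- A polynomial `N` in `g` is a combination of `g ^ i`, `i < card n` (Cayley-Hamilton,
`aeval_modByMonic`); if it is nilpotent then `trace (N * g ^ j) = 0` for all `j`, so its
coefficient vector is in the kernel of the Hankel matrix. -/
theorem eq_zero_of_hank {g : Matrix n n F} (hg : hank g ≠ 0) (f : F[X])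
    (hf : IsNilpotent (aeval g f)) : aeval g f = 0 := by
  cases isEmpty_or_nonempty n with
  | inl _ => exact Subsingleton.elim _ _
  | inr _ =>
    have hd : (f %ₘ g.charpoly).natDegree < Fintype.card n := by
      rw [← Matrix.charpoly_natDegree_eq_dim g]
      refine natDegree_modByMonic_lt f g.charpoly_monic fun h => ?_
      have h1 := Matrix.charpoly_natDegree_eq_dim g
      rw [h, natDegree_one] at h1
      exact Fintype.card_ne_zero h1.symm
    have e : aeval g f = ∑ i : Fin (Fintype.card n), (f %ₘ g.charpoly).coeff i • g ^ (i : ℕ) := by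
      rw [Matrix.aeval_eq_aeval_mod_charpoly, aeval_eq_sum_range' hd,
        Finset.sum_range fun i => (f %ₘ g.charpoly).coeff i • g ^ i]
    have hv : (fun i : Fin (Fintype.card n) => (f %ₘ g.charpoly).coeff i) = 0 := by
      refine Matrix.eq_zero_of_vecMul_eq_zero hg ?_
      funext j
      have hc : Commute (aeval g f) (g ^ (j : ℕ)) := by
        have h1 : Commute (aeval g f) (aeval g (X ^ (j : ℕ) : F[X])) := (Commute.all _ _).map _
        simpa using h1
      have h2 := (Matrix.isNilpotent_trace_of_isNilpotent (hc.isNilpotent_mul_right hf)).eq_zero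
      rw [e, Finset.sum_mul, Matrix.trace_sum] at h2
      simp only [Matrix.vecMul, dotProduct, Matrix.of_apply, Pi.zero_apply]
      rw [← h2]
      refine Finset.sum_congr rfl fun i _ => ?_
      rw [smul_mul_assoc, Matrix.trace_smul, ← pow_add, smul_eq_mul]
    rw [e]
    exact Finset.sum_eq_zero fun i _ => by rw [congrFun hv i, Pi.zero_apply, zero_smul]

/-- if `g ^ (p ^ a * m) = 1` with `p ∤ m` then `(g ^ m - 1) ^ p ^ a = 0` -/
theorem exists_pow_eq_one (p : ℕ) [Fact p.Prime] [CharP F p] {g : Matrix n n F} (hg : hank g ≠ 0)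
    {N : ℕ} (hN : N ≠ 0) (h : g ^ N = 1) : ∃ m : ℕ, (m : F) ≠ 0 ∧ g ^ m = 1 := by
  obtain ⟨a, m, hm, rfl⟩ := Nat.exists_eq_pow_mul_and_not_dvd hN p (Fact.out : p.Prime).ne_one
  refine ⟨m, fun h0 => hm ((CharP.cast_eq_zero_iff F p m).1 h0), ?_⟩
  have h1 := eq_zero_of_hank hg (X ^ m - 1) ⟨p ^ a, by
    rw [← map_pow, sub_pow_char_pow, one_pow, ← pow_mul, mul_comm m, map_sub, map_pow, aeval_X, h,
      map_one, sub_self]⟩
  rw [map_sub, map_pow, aeval_X, map_one] at h1
  exact sub_eq_zero.1 h1

private theorem hank_fst_mul (A B : Matrix n n (DualNumber F)) :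
    (A * B).map fst = A.map fst * B.map fst := by
  ext i j
  simp [Matrix.mul_apply, fst_sum]

private theorem hank_snd_mul (A B : Matrix n n (DualNumber F)) :
    (A * B).map snd = A.map fst * B.map snd + A.map snd * B.map fst := by
  ext i j
  simp [Matrix.mul_apply, snd_sum, Finset.sum_add_distrib, mul_comm]

private theorem hank_fst_one : (1 : Matrix n n (DualNumber F)).map fst = 1 :=
  Matrix.map_one _ rfl rfl

private theorem hank_snd_one : (1 : Matrix n n (DualNumber F)).map snd = 0 := by
  ext i j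
  by_cases h : i = j <;> simp [h]

private theorem hank_fst_pow (A : Matrix n n (DualNumber F)) (k : ℕ) :
    (A ^ k).map fst = A.map fst ^ k := by
  induction k with
  | zero => simpa using hank_fst_one
  | succ k ih => rw [pow_succ, hank_fst_mul, ih, pow_succ]

private theorem hank_snd_pow (A : Matrix n n (DualNumber F)) (k : ℕ) : ∀ j : ℕ,
    (A.map fst ^ (j + 1) * (A ^ k).map snd).trace = k * (A.map fst ^ (j + k) * A.map snd).trace := by
  induction k with
  | zero => intro j; simp [hank_snd_one]
  | succ k ih =>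
    intro j
    rw [pow_succ A, hank_snd_mul, hank_fst_pow, mul_add, Matrix.trace_add, ← mul_assoc, ← pow_add,
      ← mul_assoc, Matrix.trace_mul_comm _ (A.map fst), ← mul_assoc, ← pow_succ', ih,
      show j + 1 + k = j + (k + 1) by ring]
    push_cast
    ring

private theorem hank_snd_trace {A : Matrix n n (DualNumber F)} {m : ℕ} (hm : ((m + 1 : ℕ) : F) ≠ 0)
    (h : A ^ (m + 1) = 1) (k : ℕ) : (A ^ k).trace.snd = 0 := by
  have h0 : A.map fst ^ (m + 1) = 1 := by rw [← hank_fst_pow, h, hank_fst_one]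
  have h1 : ∀ j, (A.map fst ^ j * A.map snd).trace = 0 := fun j => by
    have h2 := hank_snd_pow A (m + 1) j
    rw [h, hank_snd_one, mul_zero, Matrix.trace_zero, pow_add, h0, mul_one] at h2
    exact (mul_eq_zero.1 h2.symm).resolve_left hm
  have h2 := hank_snd_pow A k m
  rw [h0, one_mul, h1, mul_zero] at h2
  rw [← h2]
  simp [Matrix.trace, snd_sum]

/-- Put `g' = (1 - ε c / m) • g`, so `g' ^ m = 1`, `g' = g0 + ε Y` with
`∑ i < m, g0 ^ i * Y * g0 ^ (m - 1 - i) = 0`. Multiplying by powers of `g0` and taking traces gives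
`trace (g0 ^ j * Y) = 0` for all `j`; so `trace g'` and `trace g'⁻¹` (`g'⁻¹ = g' ^ (m - 1)`) have
zero `ε`-part. Finally `tr g * tr (adj g) = det g * (tr g' * tr g'⁻¹)`. -/
theorem g2fun_eq_zero {g : Matrix n n (DualNumber F)} {m : ℕ} (hm : (m : F) ≠ 0) {c : F}
    (h : g ^ m = (1 + inr c : DualNumber F) • (1 : Matrix n n (DualNumber F))) : g2fun g = 0 := by
  set u : DualNumber F := 1 + inr (-(c / m)) with hu
  have hum : u ^ m * (1 + inr c) = 1 := by
    ext
    · simp [hu]
    · simp [hu]
      field_simp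
      ring
  have h1 : (u • g) ^ m = 1 := by rw [_root_.smul_pow, h, smul_smul, hum, one_smul]
  obtain ⟨k, rfl⟩ : ∃ k, m = k + 1 := Nat.exists_eq_succ_of_ne_zero fun h0 => hm (by simp [h0])
  have h2 : g.adjugate = (u * g.det) • (u • g) ^ k := by
    calc g.adjugate = g.adjugate * (u • g) ^ (k + 1) := by rw [h1, mul_one]
      _ = u • (g.adjugate * g) * (u • g) ^ k := by
          rw [pow_succ', ← mul_assoc, Matrix.mul_smul]
      _ = _ := by rw [Matrix.adjugate_mul, smul_smul, smul_mul_assoc, one_mul]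
  have h3 : g.trace * g.adjugate.trace = g.det * (((u • g) ^ 1).trace * ((u • g) ^ k).trace) := by
    rw [h2, pow_one, Matrix.trace_smul, Matrix.trace_smul, smul_eq_mul, smul_eq_mul]
    ring
  have h4 := hank_snd_trace hm h1
  rw [g2fun, h3]
  simp only [fst_mul, DualNumber.snd_mul, h4]
  ring

private theorem hank_diagonal {a : n → F} (ha : Function.Injective a) : hank (diagonal a) ≠ 0 := by
  have e : (Matrix.of fun i j : Fin (Fintype.card n) => (diagonal a ^ ((i : ℕ) + (j : ℕ))).trace) =
      (vandermonde (a ∘ (Fintype.equivFin n).symm))ᵀ * vandermonde (a ∘ (Fintype.equivFin n).symm) := by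
    ext i j
    rw [Matrix.vandermonde_transpose_mul_vandermonde, Matrix.of_apply, Matrix.diagonal_pow,
      Matrix.trace_diagonal]
    exact (Equiv.sum_comp (Fintype.equivFin n).symm fun k => a k ^ ((i : ℕ) + (j : ℕ))).symm
  have h := Matrix.det_vandermonde_ne_zero_iff.2 (ha.comp (Fintype.equivFin n).symm.injective)
  rw [hank, e, Matrix.det_mul, Matrix.det_transpose]
  exact mul_ne_zero h h

private theorem hank_prod (y : n → F) (T : Finset n) :
    ∏ i ∈ T, (1 + inr (y i) : DualNumber F) = 1 + inr (∑ i ∈ T, y i) := by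
  induction T using Finset.induction_on with
  | empty => simp
  | insert i T hi ih =>
    rw [Finset.prod_insert hi, Finset.sum_insert hi, ih]
    ext <;> simp [add_comm]

private theorem hank_example {a : n → F} (ha : Function.Injective a) (h0 : ∀ i, a i ≠ 0)
    (h1 : ∏ i, a i = 1) {u v : n} (huv : u ≠ v)
    (hne : ∑ i, a i + (∑ i, (a i)⁻¹) * (a u * a v) ≠ 0) :
    ∃ s : Matrix n n (DualNumber F), s.det = 1 ∧ g2fun s ≠ 0 := by
  set y : n → F := Pi.single u 1 - Pi.single v 1 with hy
  have hs : ∀ b : n → F, ∑ i, b i * y i = b u - b v := fun b => by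
    simp [hy, mul_sub, Finset.sum_sub_distrib, Pi.single_apply]
  set s : n → DualNumber F := fun i => inl (a i) * (1 + inr (y i)) with hsd
  set t : n → DualNumber F := fun i => inl (a i)⁻¹ * (1 + inr (-y i)) with htd
  have hdet : (diagonal s).det = 1 := by
    have h2 : ∏ i, (inl (a i) : DualNumber F) = inl (∏ i, a i) := (map_prod (inlHom F F) a _).symm
    have h3 : ∑ i, y i = 0 := by simpa using hs fun _ => 1
    rw [Matrix.det_diagonal, hsd, Finset.prod_mul_distrib, h2, h1, hank_prod, h3]
    simp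
  have hts : diagonal t * diagonal s = 1 := by
    rw [Matrix.diagonal_mul_diagonal, ← Matrix.diagonal_one]
    congr 1
    funext i
    have hi := h0 i
    ext
    · simp [hsd, htd, hi]
    · simp [hsd, htd, hi]
      field_simp
      ring
  have hadj : (diagonal s).adjugate = diagonal t := by
    calc (diagonal s).adjugate = diagonal t * (diagonal s * (diagonal s).adjugate) := by
          rw [← mul_assoc, hts, one_mul]
      _ = _ := by rw [Matrix.mul_adjugate, hdet, one_smul, mul_one]
  have hfst : (diagonal s).map fst = diagonal a := by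
    rw [Matrix.diagonal_map rfl]
    congr 1
    funext i
    simp [hsd]
  refine ⟨diagonal s, hdet, ?_⟩
  rw [g2fun, hdet, hadj, hfst, Matrix.trace_diagonal, Matrix.trace_diagonal]
  refine mul_ne_zero (hank_diagonal ha) ?_
  have e1 : (∑ i, s i).fst = ∑ i, a i := by simp [hsd, fst_sum]
  have e2 : (∑ i, s i).snd = a u - a v := by
    rw [← hs]; simp [hsd, snd_sum]
  have e3 : (∑ i, t i).fst = ∑ i, (a i)⁻¹ := by simp [htd, fst_sum]
  have e4 : (∑ i, t i).snd = -((a u)⁻¹ - (a v)⁻¹) := by
    rw [← hs fun i => (a i)⁻¹]; simp [htd, snd_sum]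
  rw [DualNumber.snd_mul, e1, e2, e3, e4, fst_one, snd_one, mul_one, mul_zero, sub_zero]
  intro h
  have hu := h0 u
  have hv := h0 v
  refine mul_ne_zero (sub_ne_zero.2 fun e => huv (ha e)) hne ?_
  rw [← mul_zero (a u * a v), ← h]
  field_simp
  ring

private theorem hank_exists [Nontrivial n] [Infinite F] : ∃ a : n → F, Function.Injective a ∧
    (∀ i, a i ≠ 0) ∧ ∏ i, a i = 1 ∧ ∑ i, a i ≠ 0 := by
  classical
  obtain ⟨k, hk⟩ : ∃ k, Fintype.card n = k + 2 :=
    ⟨Fintype.card n - 2, by have := Fintype.one_lt_card (α := n); omega⟩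
  have : Infinite {x : F // x ≠ 0} := (Set.finite_singleton (0 : F)).infinite_compl.to_subtype
  let b : Fin k → F := fun i => (Infinite.natEmbedding {x : F // x ≠ 0} i).1
  have hb : Function.Injective b := fun i j h =>
    Fin.ext ((Infinite.natEmbedding {x : F // x ≠ 0}).injective (Subtype.ext h))
  have hb0 : ∀ i, b i ≠ 0 := fun i => (Infinite.natEmbedding {x : F // x ≠ 0} i).2
  set q := ∏ i, b i with hq
  have hq0 : q ≠ 0 := Finset.prod_ne_zero_iff.2 fun i _ => hb0 i
  set σ := ∑ i, b i with hσ
  have p1 : (C q * X ^ 2 - 1 : F[X]) ≠ 0 := fun h => by simpa using congrArg (eval 0) h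
  have p2 : (C q * X ^ 2 + C (σ * q) * X + 1 : F[X]) ≠ 0 := fun h => by
    simpa using congrArg (eval 0) h
  obtain ⟨x, hx⟩ := Infinite.exists_notMem_finset (insert 0 (Finset.univ.image b ∪
    Finset.univ.image (fun i => (b i * q)⁻¹) ∪ (C q * X ^ 2 - 1 : F[X]).roots.toFinset ∪
    (C q * X ^ 2 + C (σ * q) * X + 1 : F[X]).roots.toFinset))
  simp only [Finset.mem_insert, Finset.mem_union, Finset.mem_image, Finset.mem_univ, true_and,
    Multiset.mem_toFinset, mem_roots p1, mem_roots p2, IsRoot.def, eval_sub, eval_add, eval_mul,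
    eval_C, eval_pow, eval_X, eval_one, not_or, not_exists] at hx
  obtain ⟨x0, ⟨⟨x1, x2⟩, x3⟩, x4⟩ := hx
  let a : Fin (k + 2) → F := Fin.cons x (Fin.cons (x * q)⁻¹ b)
  have ha : Function.Injective a := by
    refine Fin.cons_injective_iff.2 ⟨?_, Fin.cons_injective_iff.2 ⟨?_, hb⟩⟩
    · rintro ⟨i, hi⟩
      refine Fin.cases (motive := fun i => (Fin.cons (x * q)⁻¹ b : Fin (k + 1) → F) i = x → False)
        (fun h => x3 ?_) (fun j h => x1 j h) i hi
      rw [Fin.cons_zero] at h
      field_simp at h
      linear_combination -h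
    · rintro ⟨i, hi⟩
      refine x2 i ?_
      rw [hi]
      field_simp
  have ha0 : ∀ i, a i ≠ 0 := fun i =>
    Fin.cases (motive := fun i => a i ≠ 0) x0 (fun j => Fin.cases
      (motive := fun j => a (Fin.succ j) ≠ 0) (inv_ne_zero (mul_ne_zero x0 hq0)) (fun l => hb0 l) j) i
  let e : n ≃ Fin (k + 2) := Fintype.equivFinOfCardEq hk
  refine ⟨a ∘ e, ha.comp e.injective, fun i => ha0 _, ?_, ?_⟩
  · rw [show ∏ i, (a ∘ e) i = ∏ i, a i from Equiv.prod_comp e a]
    simp only [a, Fin.prod_cons, ← hq]
    field_simp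
  · rw [show ∑ i, (a ∘ e) i = ∑ i, a i from Equiv.sum_comp e a]
    simp only [a, Fin.sum_cons, ← hσ]
    intro h
    apply x4
    field_simp at h
    linear_combination h

/-- Diagonal example `s = diag (a i * (1 + ε y i))`, `y = e_u - e_v`, `∏ a i = 1`, `a` injective;
the Hankel determinant is the square of the Vandermonde determinant, the second factor is
`(a u - a v) * (∑ (a i)⁻¹ + (∑ a i) / (a u * a v))`. For `r = 2` take `a = (x, x⁻¹)`, the sum is
`2 * (x + x⁻¹)`. For `r ≥ 3` take `a = (1, x, …, x ^ (r - 2), x ^ (-N))`, `N = (r - 1)(r - 2) / 2`,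
`(a u, a v) = (1, x)`; the term `x ^ (-N - 1)` has coefficient one. Choose `x` outside the roots
of a nonzero polynomial. -/
theorem exists_g2fun_ne_zero [Nontrivial n] [Infinite F]
    (h : Fintype.card n ≠ 2 ∨ (2 : F) ≠ 0) :
    ∃ s : Matrix n n (DualNumber F), s.det = 1 ∧ g2fun s ≠ 0 := by
  obtain ⟨a, ha, h0, h1, h2⟩ := hank_exists (n := n) (F := F)
  by_contra hc
  have key : ∀ u v, u ≠ v → ∑ i, a i + (∑ i, (a i)⁻¹) * (a u * a v) = 0 := by
    intro u v huv
    by_contra hne
    exact hc (hank_example ha h0 h1 huv hne)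
  rcases (Nat.succ_le_of_lt (Fintype.one_lt_card (α := n))).eq_or_lt with h3 | h3
  · have h4 : (2 : F) ≠ 0 := h.resolve_left fun h5 => h5 h3.symm
    obtain ⟨u, v, huv, e⟩ := Finset.card_eq_two.1 (show (Finset.univ : Finset n).card = 2 from h3.symm)
    have h5 := key u v huv
    rw [e, Finset.prod_pair huv] at h1
    rw [e, Finset.sum_pair huv] at h2
    rw [e, Finset.sum_pair huv, Finset.sum_pair huv] at h5
    have h6 : ((a u)⁻¹ + (a v)⁻¹) * (a u * a v) = a u + a v := by
      have := h0 u
      have := h0 v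
      field_simp
      ring
    rw [h6, ← two_mul] at h5
    exact mul_ne_zero h4 h2 h5
  · obtain ⟨u, v, w, huv, huw, hvw⟩ := Fintype.two_lt_card_iff.1 h3
    have h4 := key u v huv
    have h5 := key u w huw
    have h6 : (∑ i, (a i)⁻¹) * (a u * (a v - a w)) = 0 := by linear_combination h4 - h5
    have h7 := (mul_eq_zero.1 h6).resolve_right
      (mul_ne_zero (h0 u) (sub_ne_zero.2 fun e => hvw (ha e)))
    rw [h7, zero_mul, add_zero] at h4
    exact h2 h4

end Pool.Agent.Lib.MP_6adaea_nt.G
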