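import Pool.Agent.Lib.MP_6adaea_nt.G.Basic

/-!
Subgroups and submodules of matrices that are stable under conjugation by root elements.
-/

set_option linter.unusedSectionVars false

namespace Pool.Agent.Lib.MP_6adaea_nt.G
open Matrix

variable {n : Type} [Fintype n] [DecidableEq n] {R S : Type} [CommRing R] [CommRing S]

theorem inv_br_apply (i j : n) (X : Matrix n n R) (p q : n) :
    (single i j 1 * X - X * single i j 1 : Matrix n n R) p q =
      (if p = i then X j q else 0) - if q = j then X p i else 0 := by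
  rw [Matrix.sub_apply]
  congr 1
  · split_ifs with h
    · rw [h, single_mul_apply_same, one_mul]
    · rw [single_mul_apply_of_ne _ _ _ _ _ h]
  · split_ifs with h
    · rw [h, mul_single_apply_same, mul_one]
    · rw [mul_single_apply_of_ne _ _ _ _ _ h]

theorem inv_ad_apply {i j : n} (h : i ≠ j) (y : R) (X : Matrix n n R) (p q : n) :
    (ad (rt h y) X - X) p q =
      y * ((if p = i then X j q else 0) - if q = j then X p i else 0) -
        if i = p ∧ j = q then y ^ 2 * X j i else 0 := by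
  rw [ad_rt, Matrix.sub_apply, Matrix.sub_apply, Matrix.add_apply, Matrix.smul_apply,
    Matrix.smul_apply, inv_br_apply, single_apply]
  split_ifs <;> simp only [smul_eq_mul] <;> ring

/-- the two closure operations -/
def InvCl (U : Submodule R (Matrix n n R)) (w : R) : Prop :=
  ∀ ⦃i j : n⦄, i ≠ j → ∀ X ∈ U, w • (single i j 1 * X - X * single i j 1) ∈ U ∧
    (w * X j i) • single i j (1 : R) ∈ U

theorem inv_cl (U : Submodule R (Matrix n n R)) (y z : R)
    (hU : ∀ ⦃i j : n⦄ (h : i ≠ j), ∀ X ∈ U, ad (rt h y) X ∈ U ∧ ad (rt h z) X ∈ U) :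
    InvCl U (y * z * (y - z)) := by
  intro i j h X hX
  have h1 := U.sub_mem (hU h X hX).1 hX
  have h2 := U.sub_mem (hU h X hX).2 hX
  rw [ad_rt] at h1 h2
  constructor
  · convert U.sub_mem (U.smul_mem (y ^ 2) h2) (U.smul_mem (z ^ 2) h1) using 1
    module
  · convert U.sub_mem (U.smul_mem y h2) (U.smul_mem z h1) using 1
    module

theorem inv_mv2 {U : Submodule R (Matrix n n R)} {w c : R} (hU : InvCl U w) {i j l : n}
    (hl : l ≠ i) (h : c • single i j (1 : R) ∈ U) : (w * c) • single i l (1 : R) ∈ U := by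
  by_cases hj : j = l
  · subst hj
    rw [mul_smul]
    exact U.smul_mem _ h
  · convert U.neg_mem (hU hj _ h).1 using 1
    rw [Matrix.mul_smul, Matrix.smul_mul, single_mul_single_of_ne _ _ _ _ hl,
      single_mul_single_same, mul_one]
    module

theorem inv_mv1 {U : Submodule R (Matrix n n R)} {w c : R} (hU : InvCl U w) {i j l : n}
    (hl : j ≠ l) (h : c • single i j (1 : R) ∈ U) : (w * c) • single l j (1 : R) ∈ U := by
  by_cases hj : l = i
  · subst hj
    rw [mul_smul]
    exact U.smul_mem _ h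
  · convert (hU hj _ h).1 using 1
    rw [Matrix.mul_smul, Matrix.smul_mul, single_mul_single_of_ne _ _ _ _ hl,
      single_mul_single_same, mul_one]
    module

theorem inv_all {U : Submodule R (Matrix n n R)} {w c : R} (hU : InvCl U w) {i j u v : n}
    (hij : i ≠ j) (huv : u ≠ v) (h : c • single i j (1 : R) ∈ U) :
    (w * (w * c)) • single u v (1 : R) ∈ U := by
  by_cases hv : v = i
  · subst hv
    refine inv_mv1 hU (i := j) huv.symm ?_
    have h1 := (hU hij.symm _ h).2
    rwa [Matrix.smul_apply, single_apply_same, smul_eq_mul, mul_one] at h1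
  · exact inv_mv1 hU huv.symm (inv_mv2 hU hv h)

theorem inv_tr {U : Submodule R (Matrix n n R)} {w c : R} (hU : InvCl U w) (i0 : n)
    (h : ∀ u v : n, u ≠ v → c • single u v (1 : R) ∈ U) {Y : Matrix n n R} (hY : Y.trace = 0) :
    (w * c) • Y ∈ U := by
  have h1 : ∀ u v : n, (w * c) • (single u v (1 : R) - if u = v then single i0 i0 1 else 0) ∈ U := by
    intro u v
    split_ifs with huv
    · subst huv
      by_cases hu : u = i0
      · simp [hu]
      · convert (hU hu _ (h i0 u (Ne.symm hu))).1 using 1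
        rw [Matrix.mul_smul, Matrix.smul_mul, single_mul_single_same, single_mul_single_same,
          mul_one]
        module
    · rw [sub_zero, mul_smul]
      exact U.smul_mem _ (h u v huv)
  have h2 : Y = ∑ u, ∑ v, Y u v • (single u v (1 : R) - if u = v then single i0 i0 1 else 0) := by
    simp only [smul_sub, Finset.sum_sub_distrib, smul_single, smul_eq_mul, mul_one, smul_ite,
      smul_zero, Finset.sum_ite_eq, Finset.mem_univ, if_true]
    rw [← matrix_eq_sum_single]
    have h3 : ∑ u, single i0 i0 (Y u u) = single i0 i0 Y.trace := by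
      ext p q
      simp only [Matrix.sum_apply, single_apply, Matrix.trace, diag_apply]
      split_ifs <;> simp
    rw [h3, hY, single_zero, sub_zero]
  rw [h2, Finset.smul_sum]
  refine U.sum_mem fun u _ => ?_
  rw [Finset.smul_sum]
  refine U.sum_mem fun v _ => ?_
  rw [smul_comm]
  exact U.smul_mem _ (h1 u v)

theorem inv_from {U : Submodule R (Matrix n n R)} {w c : R} (hU : InvCl U w) {i j : n}
    (hij : i ≠ j) (h : c • single i j (1 : R) ∈ U) {Y : Matrix n n R} (hY : Y.trace = 0) :
    (w ^ 3 * c) • Y ∈ U := by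
  have h1 := inv_tr hU i (fun u v huv => inv_all hU hij huv h) hY
  convert h1 using 2
  ring

theorem inv_sq {k : Type} [Field k] [Finite k] (t : k) : ∃ a b : k, t = a ^ 2 - b ^ 2 := by
  by_cases h : ringChar k = 2
  · obtain ⟨a, ha⟩ := FiniteField.isSquare_of_char_two h t
    exact ⟨a, 0, by rw [ha]; ring⟩
  · have h2 : (2 : k) ≠ 0 := Ring.two_ne_zero h
    exact ⟨(t + 1) / 2, (t - 1) / 2, by field_simp; ring⟩

theorem inv_avoid {k : Type} [Field k] [Finite k] (hk : 3 < Nat.card k) (a b c : k) :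
    ∃ u : k, u ≠ a ∧ u ≠ b ∧ u ≠ c := by
  classical
  have := Fintype.ofFinite k
  obtain ⟨u, -, hu⟩ := Finset.exists_mem_notMem_of_card_lt_card (s := ({a, b, c} : Finset k))
    (t := Finset.univ) (by
      rw [Finset.card_univ, ← Nat.card_eq_fintype_card]
      exact Finset.card_le_three.trans_lt hk)
  exact ⟨u, by simpa [not_or] using hu⟩

theorem inv_hook {k : Type} [Field k] (U : AddSubgroup (Matrix n n k))
    (hU : ∀ g : GL n k, g.val.det = 1 → ∀ X ∈ U, ad g X ∈ U) {i j : n} (hij : i ≠ j)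
    {Z : Matrix n n k} (hZ : Z ∈ U) (hd : ∀ p, Z p p = 0) (hs : ∀ p q, p ≠ i → q ≠ j → Z p q = 0)
    (h0 : Z i j ≠ 0) : ∃ c : k, c ≠ 0 ∧ single i j c ∈ U := by
  have hr : ∀ q, Z j q = 0 := fun q => by
    by_cases hq : q = j
    · rw [hq, hd]
    · exact hs j q hij.symm hq
  have hc : ∀ p, Z p i = 0 := fun p => by
    by_cases hp : p = i
    · rw [hp, hd]
    · exact hs p i hp hij
  by_cases h1 : ∃ l, l ≠ j ∧ Z i l ≠ 0
  · obtain ⟨l, hl, h2⟩ := h1
    refine ⟨-Z i l, neg_ne_zero.mpr h2, ?_⟩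
    convert U.sub_mem (hU _ (rt_det hl 1) Z hZ) hZ using 1
    ext p q
    rw [inv_ad_apply, single_apply, hr, hr]
    by_cases hq : j = q
    · subst hq
      by_cases hp : i = p
      · subst hp
        simp
      · simp [hp, hs p l (Ne.symm hp) hl]
    · simp [hq, Ne.symm hq]
  by_cases h2 : ∃ l, l ≠ i ∧ Z l j ≠ 0
  · obtain ⟨l, hl, h2⟩ := h2
    refine ⟨Z l j, h2, ?_⟩
    convert U.sub_mem (hU _ (rt_det hl.symm 1) Z hZ) hZ using 1
    ext p q
    rw [inv_ad_apply, single_apply, hc, hc]
    by_cases hp : i = p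
    · subst hp
      by_cases hq : j = q
      · subst hq
        simp
      · simp [hq, hs l q hl (Ne.symm hq)]
    · simp [hp, Ne.symm hp]
  push Not at h1 h2
  refine ⟨Z i j, h0, ?_⟩
  convert hZ using 1
  ext p q
  rw [single_apply]
  split_ifs with h
  · rw [h.1, h.2]
  · by_cases hp : p = i
    · subst hp
      exact (h1 q fun hq => h ⟨rfl, hq.symm⟩).symm
    · by_cases hq : q = j
      · subst hq
        exact (h2 p hp).symm
      · exact (hs p q hp hq).symm

theorem inv_first {k : Type} [Field k] [Finite k] (hk : 3 < Nat.card k)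
    (U : AddSubgroup (Matrix n n k))
    (hU : ∀ g : GL n k, g.val.det = 1 → ∀ X ∈ U, ad g X ∈ U)
    {X : Matrix n n k} (hX : X ∈ U) (hs : ¬Scal X) :
    ∃ (i j : n) (c : k), i ≠ j ∧ c ≠ 0 ∧ single i j c ∈ U := by
  rcases isEmpty_or_nonempty n with hn | hn
  · exact absurd ⟨0, Subsingleton.elim _ _⟩ hs
  have h1 : ∃ (i j : n) (a : k), i ≠ j ∧ a * (X j j - X i i) - a ^ 2 * X j i ≠ 0 := by
    by_cases h2 : ∃ i j, i ≠ j ∧ X i j ≠ 0
    · obtain ⟨j, i, hij, h3⟩ := h2
      obtain ⟨a, ha, hb, -⟩ := inv_avoid hk 0 ((X j j - X i i) / X j i) 0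
      refine ⟨i, j, a, hij.symm, fun h => hb ?_⟩
      rw [eq_div_iff h3]
      refine mul_left_cancel₀ ha ?_
      linear_combination -h
    · push Not at h2
      rw [scal_iff] at hs
      have h3 : ∃ i j, X i i ≠ X j j := by
        by_contra h
        push Not at h
        exact hs ⟨h2, h⟩
      obtain ⟨j, i, h3⟩ := h3
      have hij : j ≠ i := fun h => h3 (by rw [h])
      refine ⟨i, j, 1, hij.symm, ?_⟩
      rw [h2 j i hij]
      simpa [sub_eq_zero] using h3
  obtain ⟨i, j, a, hij, ha⟩ := h1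
  obtain ⟨u, hu0, hu1, hu2⟩ := inv_avoid hk 0 1 (-1)
  have hY := U.sub_mem (hU _ (rt_det hij a) X hX) hX
  have hYs : ∀ p q, p ≠ i → q ≠ j → (ad (rt hij a) X - X) p q = 0 := fun p q hp hq => by
    rw [inv_ad_apply]
    simp [hp, hq, hp.symm]
  have hY0 : (ad (rt hij a) X - X) i j ≠ 0 := by
    rw [inv_ad_apply]
    simpa using ha
  generalize ad (rt hij a) X - X = Y at hY hYs hY0
  have hZ := U.sub_mem (hU _ (tor_det hij (Units.mk0 u hu0)) Y hY) hY
  obtain ⟨c, hc, h⟩ := inv_hook U hU hij hZ (fun p => by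
      rw [Matrix.sub_apply, tor, ad_dg_apply, mul_right_comm, Units.mul_inv, one_mul, sub_self])
    (fun p q hp hq => by
      rw [Matrix.sub_apply, tor, ad_dg_apply, hYs p q hp hq]
      simp) (by
      rw [Matrix.sub_apply, tor, ad_dg_apply]
      simp only [if_true, if_neg hij.symm, inv_inv, Units.val_mk0]
      intro h
      have h2 : (u - 1) * (u - -1) * Y i j = 0 := by linear_combination h
      exact mul_ne_zero (mul_ne_zero (sub_ne_zero.mpr hu1) (sub_ne_zero.mpr hu2)) hY0 h2)
  exact ⟨i, j, c, hij, hc, h⟩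

theorem inv_tor_single {i j : n} (h : i ≠ j) (a : Rˣ) (x : R) :
    ad (tor i j a) (single i j x) = single i j ((a : R) ^ 2 * x) := by
  have h1 := congrArg Units.val (tor_conj_rt h a x)
  rw [ad_val, rt_val, ad_add, ad_id, rt_val] at h1
  exact add_left_cancel h1

/-- Put `w = y * z * (y - z)`, `E = single i j 1`, `f t = t • (E * X - X * E) - (t ^ 2 * X j i) • E`
(`ad_rt`); `f y, f z ∈ U`. Then `z • f y - y • f z = -(w * X j i) • E` and
`z ^ 2 • f y - y ^ 2 • f z = -w • (E * X - X * E)`. So `U` is closed under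
`X ↦ w • (E * X - X * E)` and `X ↦ (w * X j i) • E`. For `a = X j i` get `(w * a) • E_ij`; for
`a = X i i - X j j` use the `(i, j)` entry of the bracket and get `(w ^ 2 * a) • E_ji` up to sign.
From `c • E_ij`: brackets with `E_jl`, `E_li` move one index (`l ≠ i`, resp. `l ≠ j`), the
second operation gives `(w * c) • E_ji`, the bracket with `E_ji` gives `E_jj - E_ii`. A matrix
of trace zero is a combination of the `E_ij` and `E_ii - E_i0i0`. The set of `a` with the
property is an ideal (`Submodule.span_induction`). -/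
theorem inv_mod (U : Submodule R (Matrix n n R)) (y z : R)
    (hU : ∀ ⦃i j : n⦄ (h : i ≠ j), ∀ X ∈ U, ad (rt h y) X ∈ U ∧ ad (rt h z) X ∈ U)
    {X : Matrix n n R} (hX : X ∈ U) {a : R} (ha : a ∈ lev X) {Y : Matrix n n R}
    (hY : Y.trace = 0) : ((y * z * (y - z)) ^ 8 * a) • Y ∈ U := by
  have hc := inv_cl U y z hU
  generalize y * z * (y - z) = w at hc
  induction ha using Submodule.span_induction with
  | mem a ha =>
    rcases ha with ⟨j, i, hij, rfl⟩ | ⟨j, i, rfl⟩
    · convert U.smul_mem (w ^ 4) (inv_from hc hij.symm (hc hij.symm X hX).2 hY) using 1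
      rw [smul_smul]
      congr 1
      ring
    · by_cases hij : i = j
      · simp [hij]
      · have h1 := (hc (Ne.symm hij) _ (hc hij X hX).1).2
        rw [Matrix.smul_apply, inv_br_apply, if_pos rfl, if_pos rfl] at h1
        convert U.smul_mem (w ^ 3) (inv_from hc (Ne.symm hij) h1 hY) using 1
        rw [smul_smul, smul_eq_mul]
        congr 1
        ring
  | zero => simp
  | add a b _ _ h1 h2 =>
    rw [mul_add, add_smul]
    exact U.add_mem h1 h2
  | smul c a _ h1 =>
    rw [smul_eq_mul, mul_left_comm, mul_smul]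
    exact U.smul_mem _ h1

/-- `inv_mod` over a field with `y ≠ z` nonzero, `1 ∈ lev X` -/
theorem inv_field {F : Type} [Field F] (U : Submodule F (Matrix n n F)) {y z : F} (hy : y ≠ 0)
    (hz : z ≠ 0) (hyz : y ≠ z)
    (hU : ∀ ⦃i j : n⦄ (h : i ≠ j), ∀ X ∈ U, ad (rt h y) X ∈ U ∧ ad (rt h z) X ∈ U)
    {X : Matrix n n F} (hX : X ∈ U) (hs : ¬Scal X) {Y : Matrix n n F} (hY : Y.trace = 0) :
    Y ∈ U := by
  rcases isEmpty_or_nonempty n with hn | hn
  · exact absurd ⟨0, Subsingleton.elim _ _⟩ hs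
  rw [scal_iff_lev] at hs
  have h1 : (1 : F) ∈ lev X := by
    rw [(Ideal.eq_bot_or_top (lev X)).resolve_left hs]
    trivial
  have h2 := inv_mod U y z hU hX h1 hY
  have h3 : (y * z * (y - z)) ^ 8 * 1 ≠ 0 :=
    mul_ne_zero (pow_ne_zero _ (mul_ne_zero (mul_ne_zero hy hz) (sub_ne_zero.mpr hyz))) one_ne_zero
  exact (U.smul_mem_iff h3).mp h2

/-- Additive subgroups. First find `i ≠ j`, `c ≠ 0` with `single i j c ∈ U`. If `X` is diagonal,
`X i i ≠ X j j`, use `ad (rt h 1) X - X`. Else `X j i ≠ 0`; `Y = ad (rt h a) X - X` is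
supported on row `i` and column `j`; `Z = ad (tor i j u) Y - Y` (`u ^ 2 ≠ 1`) has zero diagonal,
is supported on `(i, l)`, `(l, j)`; if `Z i l ≠ 0` with `l ≠ j` use `ad (rt _ 1 : l, j) Z - Z`,
if `Z l j ≠ 0` with `l ≠ i` use `ad (rt _ 1 : i, l) Z - Z`; otherwise `Z = single i j c` with
`c = (u ^ 2 - 1) * (a * (X j j - X i i) - a ^ 2 * X j i)`, nonzero for suitable `a`.
Conjugating by `tor i j u` gives `single i j (u ^ 2 * c)`; the squares span `k` additively, so
`single i j t ∈ U` for all `t`. The set of `Y` with `t • Y ∈ U` for all `t` is a stable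
submodule containing `single i j 1`; apply `inv_field`. -/
theorem inv_add {k : Type} [Field k] [Finite k] (hk : 3 < Nat.card k)
    (U : AddSubgroup (Matrix n n k))
    (hU : ∀ g : GL n k, g.val.det = 1 → ∀ X ∈ U, ad g X ∈ U)
    {X : Matrix n n k} (hX : X ∈ U) (hs : ¬Scal X) {Y : Matrix n n k} (hY : Y.trace = 0) :
    Y ∈ U := by
  obtain ⟨i, j, c, hij, hc, h⟩ := inv_first hk U hU hX hs
  have h1 : ∀ a : k, single i j (a ^ 2 * c) ∈ U := fun a => by
    by_cases ha : a = 0
    · simp [ha]
    · have h2 := hU _ (tor_det hij (Units.mk0 a ha)) _ h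
      rwa [inv_tor_single hij] at h2
  have h2 : ∀ t : k, t • single i j (1 : k) ∈ U := fun t => by
    obtain ⟨a, b, hab⟩ := inv_sq (t / c)
    convert U.sub_mem (h1 a) (h1 b) using 1
    rw [div_eq_iff hc] at hab
    rw [smul_single, smul_eq_mul, mul_one, eq_sub_iff_add_eq, ← single_add, hab]
    congr 1
    ring
  let V : Submodule k (Matrix n n k) :=
    { carrier := {Z | ∀ t : k, t • Z ∈ U}
      add_mem' := fun {A B} hA hB t => by
        rw [smul_add]
        exact U.add_mem (hA t) (hB t)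
      zero_mem' := fun t => by
        rw [smul_zero]
        exact U.zero_mem
      smul_mem' := fun s A hA t => by
        rw [smul_smul]
        exact hA _ }
  have hV : ∀ g : GL n k, g.val.det = 1 → ∀ Z ∈ V, ad g Z ∈ V := fun g hg Z hZ t => by
    rw [← ad_smul]
    exact hU g hg _ (hZ t)
  obtain ⟨u, hu0, hu1, -⟩ := inv_avoid hk 0 1 0
  have h3 : Y ∈ V := inv_field V hu0 one_ne_zero hu1
    (fun _ _ hh Z hZ => ⟨hV _ (rt_det hh u) Z hZ, hV _ (rt_det hh 1) Z hZ⟩)
    (X := single i j 1) h2 (by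
      rintro ⟨d, hd⟩
      have h4 := congrFun (congrFun hd i) j
      simp [hij] at h4) hY
  simpa using h3 1

end Pool.Agent.Lib.MP_6adaea_nt.G
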