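import Pool.Agent.Lib.MP_6adaea_nt.G.Gen
import Pool.Agent.Lib.MP_6adaea_nt.G.Inv

/-!
Lifting of `SL` through the layers of a local ring with principal nilpotent maximal ideal.
-/

set_option linter.unusedSectionVars false

namespace Pool.Agent.Lib.MP_6adaea_nt.G
open Matrix

variable {n : Type} [Fintype n] [DecidableEq n] {R S : Type} [CommRing R] [CommRing S]

/-- a local ring with principal nilpotent maximal ideal and residue field `k` -/
structure Loc (R k : Type) [CommRing R] [Field k] where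
  ϖ : R
  π : R →+* k
  surj : Function.Surjective π
  ker : ∀ x, π x = 0 ↔ ϖ ∣ x
  nil : IsNilpotent ϖ

variable {k : Type} [Field k]

/-- if `π x ≠ 0` choose `y` with `π (x * y) = 1`, so `x * y = 1 + ϖ * z` is a unit -/
theorem Loc.isUnit (C : Loc R k) {x : R} (hx : C.π x ≠ 0) : IsUnit x := by
  obtain ⟨y, hy⟩ := C.surj (C.π x)⁻¹
  have h1 : C.π (x * y - 1) = 0 := by
    rw [map_sub, map_mul, hy, map_one, mul_inv_cancel₀ hx, sub_self]
  obtain ⟨z, hz⟩ := (C.ker _).mp h1
  have h2 : IsNilpotent (C.ϖ * z) := (Commute.all _ _).isNilpotent_mul_right C.nil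
  have h3 : x * y = 1 + C.ϖ * z := by rw [← hz]; ring
  have h4 : IsUnit (x * y) := h3 ▸ h2.isUnit_one_add
  exact isUnit_of_mul_isUnit_left h4

/-- `det (1 + t • X) = 1 + t * (trace X + t * z)` (`Matrix.det_one_add_smul`) -/
theorem det_one_add (t : R) (X : Matrix n n R) :
    ∃ z, (1 + t • X).det = 1 + t * (X.trace + t * z) := by
  refine ⟨(det (1 + (Polynomial.X : Polynomial R) • X.map Polynomial.C)).divX.divX.eval t,
    (Matrix.det_one_add_smul t X).trans ?_⟩
  ring

private lemma Loc.pi_pow (C : Loc R k) (i : ℕ) : C.π (C.ϖ ^ (i + 1)) = 0 :=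
  (C.ker _).mpr (dvd_pow_self _ (Nat.succ_ne_zero i))

private lemma map_smul_pi (f : R →+* S) (t : R) (X : Matrix n n R) :
    (t • X).map f = f t • X.map f := by
  ext a b; simp

private lemma map_add_pi (f : R →+* S) (X Y : Matrix n n R) :
    (X + Y).map f = X.map f + Y.map f := by
  ext a b; simp

private lemma map_one_pi (f : R →+* S) : (1 : Matrix n n R).map f = 1 :=
  Matrix.map_one _ (map_zero f) (map_one f)

private lemma Loc.red_eq_one (C : Loc R k) {s : GL n R} {i : ℕ} {X : Matrix n n R}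
    (h : s.val = 1 + C.ϖ ^ (i + 1) • X) : red C.π s = 1 := by
  ext1
  rw [red_val, h, map_add_pi, map_smul_pi, C.pi_pow, zero_smul, add_zero, map_one_pi,
    Units.val_one]

private lemma Loc.exists_smul (C : Loc R k) {X : Matrix n n R} (h : X.map C.π = 0) :
    ∃ Z : Matrix n n R, X = C.ϖ • Z := by
  have h1 : ∀ a b, ∃ z, X a b = C.ϖ * z := fun a b =>
    (C.ker _).mp (by simpa using congrFun (congrFun h a) b)
  choose Z hZ using h1
  exact ⟨Matrix.of Z, by ext a b; simp [hZ]⟩

/-- the `i`-th layer of a subgroup (`1 ≤ i`): closed under sums since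
`(1 + t • X) * (1 + t • Y) = 1 + t • (X + Y + t • X * Y)`, under negation since the inverse of
`s = 1 + t • X` is `1 + t • (-(X * s⁻¹))` and `s⁻¹` reduces to `1`. -/
def layer (C : Loc R k) (T : Subgroup (GL n R)) (i : ℕ) : AddSubgroup (Matrix n n k) where
  carrier := {Y | ∃ s ∈ T, ∃ X : Matrix n n R, s.val = 1 + C.ϖ ^ (i + 1) • X ∧ X.map C.π = Y}
  zero_mem' := ⟨1, T.one_mem, 0, by simp, by simp⟩
  add_mem' := by
    rintro _ _ ⟨s, hs, X, hX, rfl⟩ ⟨s', hs', Y, hY, rfl⟩
    refine ⟨s * s', T.mul_mem hs hs', X + Y + C.ϖ ^ (i + 1) • (X * Y), ?_, ?_⟩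
    · rw [Units.val_mul, hX, hY]
      simp only [Matrix.add_mul, Matrix.mul_add, Matrix.one_mul, Matrix.mul_one,
        Matrix.smul_mul, Matrix.mul_smul]
      module
    · rw [map_add_pi, map_add_pi, map_smul_pi, C.pi_pow, zero_smul, add_zero]
  neg_mem' := by
    rintro _ ⟨s, hs, X, hX, rfl⟩
    refine ⟨s⁻¹, T.inv_mem hs, -(X * (s⁻¹).val), ?_, ?_⟩
    · have h1 : s.val * (s⁻¹).val = 1 := by
        rw [← Units.val_mul, mul_inv_cancel, Units.val_one]
      rw [hX, Matrix.add_mul, Matrix.one_mul, Matrix.smul_mul] at h1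
      rw [smul_neg, ← h1]
      abel
    · have h1 : ((s⁻¹).val).map C.π = 1 := by
        rw [← red_val, map_inv, C.red_eq_one hX, inv_one, Units.val_one]
      have h2 : (-(X * (s⁻¹).val)).map C.π = -((X * (s⁻¹).val).map C.π) := by
        ext a b; simp only [Matrix.map_apply, Matrix.neg_apply, map_neg]
      rw [h2, Matrix.map_mul, h1, Matrix.mul_one]

/-- layers are stable under conjugation by the reductions of elements normalising `T` -/
theorem layer_ad (C : Loc R k) {T : Subgroup (GL n R)} {g : GL n R}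
    (hg : ∀ s ∈ T, g * s * g⁻¹ ∈ T) {i : ℕ} {Y : Matrix n n k} (hY : Y ∈ layer C T i) :
    ad (red C.π g) Y ∈ layer C T i := by
  obtain ⟨s, hs, X, hX, rfl⟩ := hY
  refine ⟨g * s * g⁻¹, hg s hs, ad g X, ?_, ad_map _ _ _⟩
  rw [ad_val, hX, ad_add, ad_id, ad_smul]

private lemma det_inv_eq_one {s : GL n R} (h : s.val.det = 1) : (s⁻¹).val.det = 1 := by
  have h1 : s.val * (s⁻¹).val = 1 := by
    rw [← Units.val_mul, mul_inv_cancel, Units.val_one]
  have h2 := congrArg Matrix.det h1
  rwa [det_mul, h, one_mul, det_one] at h2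

/-- Successive approximation. Each layer contains the trace zero matrices by `inv_add`
(and `layer_ad`). Show by induction on `i` that every `γ` of determinant one can be written
`γ = (1 + ϖ ^ i • X) * s` with `s ∈ T`. In the step, `det = 1` and `det_one_add` give
`ϖ ^ i * (trace X + ϖ ^ i * z) = 0`; if `π (trace X) ≠ 0` then `ϖ ^ i = 0` by `Loc.isUnit`. -/
theorem approx [Finite k] (hk : 3 < Nat.card k) (C : Loc R k) (T : Subgroup (GL n R))
    (hT : ∀ s ∈ T, s.val.det = 1) (h0 : HasSL (T.map (red C.π)))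
    (h1 : ∀ i, ∃ Y ∈ layer C T i, ¬Scal Y) : HasSL T := by
  have hL : ∀ i, ∀ Y : Matrix n n k, Y.trace = 0 → Y ∈ layer C T i := by
    intro i Y hY
    obtain ⟨X, hX, hs⟩ := h1 i
    refine inv_add hk (layer C T i) ?_ hX hs hY
    intro g hg Z hZ
    obtain ⟨s, hsT, rfl⟩ := h0 g hg
    exact layer_ad C (fun u hu => T.mul_mem (T.mul_mem hsT hu) (T.inv_mem hsT)) hZ
  intro γ hγ
  have key : ∀ i : ℕ, ∃ s ∈ T, ∃ X : Matrix n n R,
      (γ * s⁻¹).val = 1 + C.ϖ ^ (i + 1) • X := by
    intro i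
    induction i with
    | zero =>
      obtain ⟨s, hs, e⟩ := h0 (red C.π γ) (by rw [red_det, hγ, map_one])
      have e1 : red C.π (γ * s⁻¹) = 1 := by rw [map_mul, map_inv, e, mul_inv_cancel]
      have e2 : ((γ * s⁻¹).val - 1).map C.π = 0 := by
        have e3 : ((γ * s⁻¹).val).map C.π = 1 := by rw [← red_val, e1, Units.val_one]
        have e4 : ((γ * s⁻¹).val - 1).map C.π =
            ((γ * s⁻¹).val).map C.π - (1 : Matrix n n R).map C.π := by
          ext a b; simp only [Matrix.map_apply, Matrix.sub_apply, map_sub]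
        rw [e4, e3, map_one_pi, sub_self]
      obtain ⟨Z, hZ⟩ := C.exists_smul e2
      exact ⟨s, hs, Z, by rw [zero_add, pow_one, ← hZ]; abel⟩
    | succ i ih =>
      obtain ⟨s, hs, X, hX⟩ := ih
      have hd : ((γ * s⁻¹).val).det = 1 := by
        rw [Units.val_mul, det_mul, hγ, det_inv_eq_one (hT s hs), one_mul]
      obtain ⟨z, hz⟩ := det_one_add (C.ϖ ^ (i + 1)) X
      rw [← hX, hd] at hz
      have hz0 : C.ϖ ^ (i + 1) * (X.trace + C.ϖ ^ (i + 1) * z) = 0 := by
        linear_combination -hz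
      by_cases ht : C.π X.trace = 0
      · have htr : (X.map C.π).trace = 0 := by
          rw [← ht]; simp [Matrix.trace, map_sum]
        obtain ⟨s', hs', X', hX', e⟩ := hL i _ htr
        have e2 : (X - X').map C.π = 0 := by
          have e4 : (X - X').map C.π = X.map C.π - X'.map C.π := by
            ext a b; simp only [Matrix.map_apply, Matrix.sub_apply, map_sub]
          rw [e4, e, sub_self]
        obtain ⟨Z, hZ⟩ := C.exists_smul e2
        refine ⟨s' * s, T.mul_mem hs' hs, Z * (s'⁻¹).val, ?_⟩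
        have e5 : s'.val * (s'⁻¹).val = 1 := by
          rw [← Units.val_mul, mul_inv_cancel, Units.val_one]
        have e6 : (1 : Matrix n n R) + C.ϖ ^ (i + 1) • X =
            s'.val + C.ϖ ^ (i + 1 + 1) • Z := by
          rw [hX', pow_succ _ (i + 1), mul_smul, ← hZ, smul_sub]; abel
        rw [_root_.mul_inv_rev, ← mul_assoc, Units.val_mul, hX, e6, Matrix.add_mul, e5,
          Matrix.smul_mul]
      · have hu : IsUnit (X.trace + C.ϖ ^ (i + 1) * z) := by
          apply C.isUnit
          rwa [map_add, map_mul, C.pi_pow, zero_mul, add_zero]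
        have h0' : C.ϖ ^ (i + 1) = 0 := hu.mul_left_eq_zero.mp hz0
        exact ⟨s, hs, 0, by rw [hX, h0', zero_smul, smul_zero]⟩
  obtain ⟨N, hN⟩ := C.nil
  obtain ⟨s, hs, X, hX⟩ := key N
  rw [pow_succ, hN, zero_mul, zero_smul, add_zero] at hX
  have e : γ * s⁻¹ = 1 := Units.ext hX
  rw [mul_inv_eq_one] at e
  exact e ▸ hs

private lemma exists_sq_ne_one [Finite k] (hk : 3 < Nat.card k) :
    ∃ a : kˣ, (a : k) ^ 2 - 1 ≠ 0 := by
  classical
  by_contra hcon
  push Not at hcon
  have hall : (Set.univ : Set k) ⊆ ({0, 1, -1} : Finset k) := by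
    intro a _
    by_cases ha : a = 0
    · simp [ha]
    · have h1 := hcon (Units.mk0 a ha)
      have h2 : (a - 1) * (a + 1) = 0 := by
        rw [Units.val_mk0] at h1; linear_combination h1
      rcases mul_eq_zero.mp h2 with h | h
      · have : a = 1 := by linear_combination h
        simp [this]
      · have : a = -1 := by linear_combination h
        simp [this]
  have h3 := Set.ncard_le_ncard hall (Finset.finite_toSet _)
  rw [Set.ncard_univ, Set.ncard_coe_finset] at h3
  have h4 : ({0, 1, -1} : Finset k).card ≤ 3 := Finset.card_le_three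
  omega

/-- If `H` surjects onto `SL(k)` so does `H ⊓ ker det`: `rt h ((a ^ 2 - 1) * y)` is the
commutator of `tor i j a` and `rt h y` (`tor_conj_rt`), lift both to `H`; `hasSL_of_roots`. -/
theorem hasSL_inf [Finite k] (hk : 3 < Nat.card k) (f : R →+* k) (H : Subgroup (GL n R))
    (h0 : HasSL (H.map (red f))) :
    HasSL ((H ⊓ (GeneralLinearGroup.det (n := n) (R := R)).ker).map (red f)) := by
  apply hasSL_of_roots
  intro i j h x _
  obtain ⟨a, ha⟩ := exists_sq_ne_one hk
  obtain ⟨u, hu, eu⟩ := h0 _ (tor_det h a)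
  obtain ⟨v, hv, ev⟩ := h0 _ (rt_det h (x / ((a : k) ^ 2 - 1)))
  refine ⟨u * v * u⁻¹ * v⁻¹, ⟨H.mul_mem (H.mul_mem (H.mul_mem hu hv) (H.inv_mem hu))
    (H.inv_mem hv), ?_⟩, ?_⟩
  · change _ ∈ (GeneralLinearGroup.det (n := n) (R := R)).ker
    rw [MonoidHom.mem_ker]
    simp only [map_mul, map_inv]
    rw [mul_comm (GeneralLinearGroup.det u), mul_inv_cancel_right, mul_inv_cancel]
  · rw [map_mul, map_mul, map_mul, map_inv, map_inv, eu, ev, tor_conj_rt, ← rt_neg, ← rt_add]
    congr 1
    field_simp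
    ring

end Pool.Agent.Lib.MP_6adaea_nt.G
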