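import Pool.Agent.Lib.MP_6adaea_nt.G.TorsDefs

/-!
Existence of the Galois representation and its reduction modulo divisors of the level.
-/

set_option linter.unusedSectionVars false

namespace Pool.Agent.Lib.MP_6adaea_nt.G
open Matrix Polynomial

variable {k : Type} [Field k] {Ω : Type} [Field Ω] [Algebra k Ω] {L : Type} [Field L]
  [Algebra L Ω] {φ : Ω →ₗ[k] Ω} {n : Type} [Fintype n] [DecidableEq n]

/-- automorphisms over a field of definition commute with `φ_c` -/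
theorem aut_comm [Algebra k L] [IsScalarTower k L Ω] {θ : L} {r : ℕ} {g : ℕ → L}
    (hφ : IsDr (algebraMap L Ω θ) r (fun i => algebraMap L Ω (g i)) φ) (σ : Ω ≃ₐ[L] Ω)
    (c : k[X]) (y : Ω) : σ (aeval φ c y) = aeval φ c (σ y) := by
  have h1 : ∀ x, σ (φ x) = φ (σ x) := fun x => by
    rw [hφ x, hφ (σ x)]
    simp [map_sum, map_pow]
  have h2 : ∀ (t : k) (x : Ω), σ (t • x) = t • σ x := fun t x => by
    rw [Algebra.smul_def, Algebra.smul_def, map_mul, IsScalarTower.algebraMap_apply k L Ω,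
      AlgEquiv.commutes]
  induction c using Polynomial.induction_on generalizing y with
  | C t => simpa using h2 t y
  | add p q hp hq => simp [hp, hq]
  | monomial m t ih =>
    rw [pow_succ, ← mul_assoc, map_mul, aeval_X, Module.End.mul_apply, Module.End.mul_apply, ih,
      h1]

theorem Rep_uniq {a : k[X]} (E : Coord φ a n) {M N : Matrix n n (AdjoinRoot a)}
    (h : ∀ v, E.e (M *ᵥ v) = E.e (N *ᵥ v)) : M = N :=
  Matrix.toLin'.injective (LinearMap.ext fun v => E.inj (h v))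

theorem Rep_mat {a : k[X]} (E E' : Coord φ a n) (τ : Ω →+ Ω)
    (hτ : ∀ (c : k[X]) y, τ (aeval φ c y) = aeval φ c (τ y)) :
    ∃ M : Matrix n n (AdjoinRoot a), ∀ v, τ (E'.e v) = E.e (M *ᵥ v) := by
  have h : ∀ v, ∃ w, E.e w = τ (E'.e v) := fun v =>
    (E.range _).1 (by rw [← hτ, (E'.range _).2 ⟨v, rfl⟩, map_zero])
  choose f hf using h
  let F : (n → AdjoinRoot a) →ₗ[AdjoinRoot a] (n → AdjoinRoot a) :=
    { toFun := f
      map_add' := fun v w => E.inj (by simp only [hf, map_add])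
      map_smul' := fun c v => E.inj (by
        obtain ⟨c, rfl⟩ := AdjoinRoot.mk_surjective c
        rw [RingHom.id_apply, hf, E.smul, E'.smul, hf, hτ]) }
  refine ⟨LinearMap.toMatrix' F, fun v => ?_⟩
  rw [LinearMap.toMatrix'_mulVec]
  exact (hf v).symm

/-- `v ↦ e⁻¹ (σ (e v))` is `AdjoinRoot a`-linear; take its matrix -/
theorem exists_rep (hσ : ∀ (σ : Ω ≃ₐ[L] Ω) (c : k[X]) y, σ (aeval φ c y) = aeval φ c (σ y))
    {a : k[X]} (E : Coord φ a n) : ∃ ρ : (Ω ≃ₐ[L] Ω) →* GL n (AdjoinRoot a), IsRep E ρ := by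
  choose M hM using fun σ : Ω ≃ₐ[L] Ω => Rep_mat E E (σ : Ω →+ Ω) (hσ σ)
  let F : (Ω ≃ₐ[L] Ω) →* Matrix n n (AdjoinRoot a) :=
    { toFun := M
      map_one' := Rep_uniq E fun v => by
        rw [← hM, one_mulVec]
        rfl
      map_mul' := fun σ τ => Rep_uniq E fun v => by
        rw [← hM, ← mulVec_mulVec, ← hM, ← hM]
        rfl }
  exact ⟨F.toHomUnits, fun σ v => hM σ v⟩

theorem IsRep.eq_one_iff {a : k[X]} {E : Coord φ a n} {ρ : (Ω ≃ₐ[L] Ω) →* GL n (AdjoinRoot a)}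
    (h : IsRep E ρ) (σ : Ω ≃ₐ[L] Ω) : ρ σ = 1 ↔ ∀ y, aeval φ a y = 0 → σ y = y := by
  constructor
  · intro e y hy
    obtain ⟨v, rfl⟩ := (E.range y).1 hy
    rw [h, e, Units.val_one, one_mulVec]
  · intro e
    refine Units.ext (Rep_uniq E fun v => ?_)
    rw [← h, Units.val_one, one_mulVec]
    exact e _ ((E.range _).2 ⟨v, rfl⟩)

/-- coordinates on the `b`-torsion for `a = b * b'`: `v mod b ↦ φ_b' (e v)`. Well defined and
injective: `φ_b' (e v) = e (b' • v)` vanishes iff `a ∣ b' * c i` iff `b ∣ c i` for lifts `c i`.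
Onto: a `b`-torsion point is `e v` with `b • v = 0`, so `v = b' • w`. -/
theorem exists_coord_dvd {a b b' : k[X]} (ha : a ≠ 0) (hab : a = b * b') (E : Coord φ a n) :
    ∃ E' : Coord φ b n, ∀ v, E'.e (fun i => fac (Dvd.intro _ hab.symm) (v i)) =
      aeval φ b' (E.e v) := by
  have hb : b ≠ 0 := fun e => ha (by rw [hab, e, zero_mul])
  have hb' : b' ≠ 0 := fun e => ha (by rw [hab, e, mul_zero])
  have hd : b ∣ a := Dvd.intro _ hab.symm
  let π : (n → AdjoinRoot a) →+ (n → AdjoinRoot b) :=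
    { toFun := fun v i => fac hd (v i)
      map_zero' := by ext i; simp
      map_add' := fun v w => by ext i; simp }
  have hπ : ∀ v i, π v i = fac hd (v i) := fun _ _ => rfl
  have hs : Function.Surjective π := fun w => by
    choose v hv using fun i => fac_surjective hd (w i)
    exact ⟨v, funext hv⟩
  let g : (n → AdjoinRoot a) →+ Ω := (aeval φ b').toAddMonoidHom.comp E.e
  have hg : ∀ v, g v = aeval φ b' (E.e v) := fun _ => rfl
  have key : ∀ y : AdjoinRoot a, AdjoinRoot.mk a b' * y = 0 ↔ fac hd y = 0 := fun y => by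
    obtain ⟨x, rfl⟩ := AdjoinRoot.mk_surjective y
    rw [← map_mul, fac_mk, AdjoinRoot.mk_eq_zero, AdjoinRoot.mk_eq_zero, hab, mul_comm b b',
      mul_dvd_mul_iff_left hb']
  have ker : ∀ v, π v = 0 ↔ g v = 0 := fun v => by
    rw [hg, ← E.smul, map_eq_zero_iff _ E.inj, funext_iff, funext_iff]
    exact forall_congr' fun i => (key (v i)).symm
  let e' : (n → AdjoinRoot b) →+ Ω :=
    π.liftOfRightInverse (Function.surjInv hs) (Function.rightInverse_surjInv hs)
      ⟨g, fun v hv => (ker v).1 hv⟩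
  have he : ∀ v, e' (π v) = aeval φ b' (E.e v) := fun v =>
    AddMonoidHom.liftOfRightInverse_comp_apply _ _ _ _ v
  have hc : ∀ (c d : k[X]) (y : Ω), aeval φ c (aeval φ d y) = aeval φ (c * d) y := fun c d y => by
    rw [map_mul, Module.End.mul_apply]
  refine ⟨⟨e', ?_, fun y => ⟨fun hy => ?_, ?_⟩, fun c w => ?_⟩, he⟩
  · rw [injective_iff_map_eq_zero]
    intro w hw
    obtain ⟨v, rfl⟩ := hs w
    rw [he] at hw
    exact (ker v).2 hw
  · obtain ⟨v, rfl⟩ := (E.range y).1 (by rw [hab, mul_comm, ← hc, hy, map_zero])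
    rw [← E.smul, map_eq_zero_iff _ E.inj] at hy
    have : ∀ i, ∃ w, v i = AdjoinRoot.mk a b' * w := fun i => by
      obtain ⟨x, hx⟩ := AdjoinRoot.mk_surjective (v i)
      have h1 : AdjoinRoot.mk a b * v i = 0 := congrFun hy i
      rw [← hx, ← map_mul, AdjoinRoot.mk_eq_zero, hab, mul_dvd_mul_iff_left hb] at h1
      obtain ⟨z, rfl⟩ := h1
      exact ⟨AdjoinRoot.mk a z, by rw [← hx, map_mul]⟩
    choose w hw using this
    refine ⟨π w, ?_⟩
    rw [he, ← E.smul]
    exact congrArg E.e (funext fun i => (hw i).symm)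
  · rintro ⟨w, rfl⟩
    obtain ⟨v, rfl⟩ := hs w
    rw [he, hc, ← hab]
    exact (E.range _).2 ⟨v, rfl⟩
  · obtain ⟨v, rfl⟩ := hs w
    have : AdjoinRoot.mk b c • π v = π (AdjoinRoot.mk a c • v) := by
      ext i
      simp [hπ]
    rw [this, he, he, E.smul, hc, hc, mul_comm]

theorem IsRep.red (hσ : ∀ (σ : Ω ≃ₐ[L] Ω) (c : k[X]) y, σ (aeval φ c y) = aeval φ c (σ y))
    {a b b' : k[X]} {hb : b ∣ a} {E : Coord φ a n} {E' : Coord φ b n}
    (hE : ∀ v, E'.e (fun i => fac hb (v i)) = aeval φ b' (E.e v))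
    {ρ : (Ω ≃ₐ[L] Ω) →* GL n (AdjoinRoot a)} (h : IsRep E ρ) :
    IsRep E' ((red (fac hb)).comp ρ) := by
  intro σ w
  choose v hv using fun i => fac_surjective hb (w i)
  obtain rfl : (fun i => fac hb (v i)) = w := funext hv
  rw [hE, hσ, h, ← hE]
  refine congrArg E'.e (funext fun i => ?_)
  exact RingHom.map_mulVec (fac hb) (ρ σ).val v i

/-- two coordinate systems differ by an invertible matrix -/
theorem Coord.exists_conj {a : k[X]} (E E' : Coord φ a n) :
    ∃ u : GL n (AdjoinRoot a), ∀ v, E'.e v = E.e (u.val *ᵥ v) := by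
  obtain ⟨M, hM⟩ := Rep_mat E E' (AddMonoidHom.id Ω) fun _ _ => rfl
  obtain ⟨N, hN⟩ := Rep_mat E' E (AddMonoidHom.id Ω) fun _ _ => rfl
  simp only [AddMonoidHom.id_apply] at hM hN
  refine ⟨⟨M, N, Rep_uniq E fun v => ?_, Rep_uniq E' fun v => ?_⟩, hM⟩
  · rw [← mulVec_mulVec, ← hM, ← hN, one_mulVec]
  · rw [← mulVec_mulVec, ← hN, ← hM, one_mulVec]

/-- the index does not depend on the coordinates -/
theorem IsRep.index_eq {a : k[X]} {E E' : Coord φ a n}
    {ρ ρ' : (Ω ≃ₐ[L] Ω) →* GL n (AdjoinRoot a)} (h : IsRep E ρ) (h' : IsRep E' ρ') :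
    ρ.range.index = ρ'.range.index := by
  obtain ⟨u, hu⟩ := E.exists_conj E'
  have e : ∀ σ, ρ σ = u * ρ' σ * u⁻¹ := fun σ => by
    rw [eq_mul_inv_iff_mul_eq]
    refine Units.ext (Rep_uniq E fun v => ?_)
    rw [Units.val_mul, Units.val_mul, ← mulVec_mulVec, ← mulVec_mulVec, ← h, ← hu, ← hu, h']
  have : ρ.range = ρ'.range.map (MulAut.conj u).toMonoidHom := by
    ext x
    constructor
    · rintro ⟨σ, rfl⟩
      exact ⟨ρ' σ, ⟨σ, rfl⟩, (e σ).symm⟩
    · rintro ⟨_, ⟨σ, rfl⟩, rfl⟩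
      exact ⟨σ, e σ⟩
  rw [this]
  exact Subgroup.index_map_of_bijective (MulAut.conj u).bijective _

end Pool.Agent.Lib.MP_6adaea_nt.G
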