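import Pool.Agent.Lib.MP_6adaea_nt.G.Count

/-!
Spectral decomposition and density of twisted points.
-/

set_option linter.unusedSectionVars false

namespace Pool.Agent.Lib.MP_6adaea_nt.G
open Matrix Polynomial

variable {n : Type} [Fintype n] [DecidableEq n] {F : Type} [Field F]

open Classical in
/-- Spectral decomposition of `s = g ^ p ^ j`. By Cayley-Hamilton
`∏ μ ∈ S, (g - μ) ^ p ^ j = 0`, i.e. `∏ μ ∈ S, (s - μ ^ p ^ j) = 0` (`sub_pow_char_pow_of_commute`;
the matrix ring has characteristic `p` if `n` is nonempty). Put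
`ε μ = aeval s (Lagrange.basis S (· ^ p ^ j) μ)`; `f - interpolate f` is divisible by the nodal
polynomial. For the second part let `f` interpolate `c` and apply `aeval s f` to an eigenvector
of `g` for `μ`. -/
theorem exists_spectral [IsAlgClosed F] (p : ℕ) [Fact p.Prime] [CharP F p] (g : Matrix n n F)
    (j : ℕ) (hj : Fintype.card n ≤ p ^ j) :
    ∃ ε : F → Matrix n n F,
      (∀ f : F[X], aeval (g ^ p ^ j) f =
        ∑ μ ∈ g.charpoly.roots.toFinset, f.eval (μ ^ p ^ j) • ε μ) ∧
      ∀ c : F → F, Scal (∑ μ ∈ g.charpoly.roots.toFinset, c μ • ε μ) →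
        ∀ μ ∈ g.charpoly.roots, ∀ μ' ∈ g.charpoly.roots, c μ = c μ' := by
  set q := p ^ j with hq
  set S := g.charpoly.roots.toFinset with hS
  have hq0 : 0 < q := pow_pos (Fact.out : p.Prime).pos j
  have hv : Set.InjOn (fun μ : F => μ ^ q) S := fun a _ b _ e => by
    have h1 : (a - b) ^ q = 0 := by
      rw [hq, sub_pow_char_pow, sub_eq_zero]
      exact e
    exact sub_eq_zero.1 (pow_eq_zero_iff hq0.ne' |>.1 h1)
  have hsp : g.charpoly.Splits := IsAlgClosed.splits _
  have hN : aeval (g ^ q) (Lagrange.nodal S fun μ : F => μ ^ q) = 0 := by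
    rw [← expand_aeval]
    have h1 : expand F q (Lagrange.nodal S fun μ : F => μ ^ q) = ∏ μ ∈ S, (X - C μ) ^ q := by
      rw [Lagrange.nodal_eq, map_prod]
      refine Finset.prod_congr rfl fun μ _ => ?_
      rw [map_sub, expand_X, expand_C, hq, sub_pow_char_pow, C_pow]
    have h2 : g.charpoly ∣ ∏ μ ∈ S, (X - C μ) ^ q := by
      conv_lhs => rw [hsp.eq_prod_roots_of_monic g.charpoly_monic, Finset.prod_multiset_map_count]
      refine Finset.prod_dvd_prod_of_dvd _ _ fun μ _ => pow_dvd_pow _ ?_
      refine (Multiset.count_le_card _ _).trans ((card_roots' _).trans ?_)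
      rw [charpoly_natDegree_eq_dim]
      exact hj
    obtain ⟨r, hr⟩ := h2
    rw [h1, hr, map_mul, aeval_self_charpoly, zero_mul]
  have key : ∀ f : F[X], aeval (g ^ q) f =
      ∑ μ ∈ S, f.eval (μ ^ q) • aeval (g ^ q) (Lagrange.basis S (fun μ : F => μ ^ q) μ) := by
    intro f
    have h1 : f %ₘ (Lagrange.nodal S fun μ : F => μ ^ q) =
        Lagrange.interpolate S (fun μ : F => μ ^ q) fun μ => f.eval (μ ^ q) := by
      refine Lagrange.eq_interpolate_of_eval_eq _ hv ?_ fun μ hμ => ?_
      · rw [← Lagrange.degree_nodal (v := fun μ : F => μ ^ q)]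
        exact degree_modByMonic_lt _ Lagrange.nodal_monic
      · have h2 := aeval_modByMonic_eq_self_of_root (p := f)
          (q := Lagrange.nodal S fun μ : F => μ ^ q) (x := μ ^ q)
          (by rw [coe_aeval_eq_eval]; exact Lagrange.eval_nodal_at_node hμ)
        rwa [coe_aeval_eq_eval] at h2
    rw [← aeval_modByMonic_eq_self_of_root (p := f) hN, h1, Lagrange.interpolate_apply, map_sum]
    refine Finset.sum_congr rfl fun μ _ => ?_
    rw [map_mul, aeval_C, Algebra.smul_def]
  refine ⟨_, key, fun c hc => ?_⟩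
  obtain ⟨a, ha⟩ := hc
  have h1 : aeval g (expand F q (Lagrange.interpolate S (fun μ : F => μ ^ q) c)) =
      algebraMap F _ a := by
    rw [expand_aeval, key, Algebra.algebraMap_eq_smul_one, ← ha]
    refine Finset.sum_congr rfl fun μ hμ => ?_
    rw [Lagrange.eval_interpolate_at_node c hv hμ]
  have h2 : ∀ μ ∈ g.charpoly.roots, c μ = a := by
    intro μ hμ
    have h3 : μ ∈ spectrum F g := mem_spectrum_iff_isRoot_charpoly.2 (isRoot_of_mem_roots hμ)
    have : Nontrivial (Matrix n n F) := by
      by_contra h4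
      rw [not_nontrivial_iff_subsingleton] at h4
      rw [spectrum.of_subsingleton] at h3
      exact h3
    have h4 := spectrum.subset_polynomial_aeval g
      (expand F q (Lagrange.interpolate S (fun μ : F => μ ^ q) c)) ⟨μ, h3, rfl⟩
    rw [h1, spectrum.scalar_eq, Set.mem_singleton_iff] at h4
    simp only [expand_eval] at h4
    rw [← h4, Lagrange.eval_interpolate_at_node c hv (Multiset.mem_toFinset.2 hμ)]
  intro μ hμ μ' hμ'
  rw [h2 μ hμ, h2 μ' hμ']

/-- Density of the twisted points. Substitute `X i ↦ X ^ Q ^ i`; distinct monomials of total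
degree `≤ M < Q` get distinct exponents (base `Q` digits, e.g. `finFunctionFinEquiv`), all at
most `M * Q ^ (u - 1)`; the resulting polynomial has `orderOf ζ` distinct roots. -/
theorem twisted_dense {Q u M : ℕ} (hM : M < Q) {ζ : F} (hM' : M * Q ^ (u - 1) < orderOf ζ)
    (f : MvPolynomial (Fin u) F) (hf : f.totalDegree ≤ M)
    (h : ∀ i : ℕ, MvPolynomial.eval (fun j : Fin u => (ζ ^ i) ^ Q ^ (j : ℕ)) f = 0) : f = 0 := by
  classical
  have hsum : ∀ d ∈ f.support, ∑ j, d j ≤ M := fun d hd => by
    have h1 := (MvPolynomial.le_totalDegree hd).trans hf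
    rwa [Finsupp.sum_fintype _ _ fun _ => rfl] at h1
  have hlt : ∀ d ∈ f.support, ∀ j, d j < Q := fun d hd j =>
    ((Finset.single_le_sum (f := fun j => d j) (fun _ _ => Nat.zero_le _)
      (Finset.mem_univ j)).trans (hsum d hd)).trans_lt hM
  set e : (Fin u →₀ ℕ) → ℕ := fun d => ∑ j, d j * Q ^ (j : ℕ) with he
  have hinj : ∀ d ∈ f.support, ∀ d' ∈ f.support, e d = e d' → d = d' := by
    intro d hd d' hd' h1
    have h2 : finFunctionFinEquiv (fun j => (⟨d j, hlt d hd j⟩ : Fin Q)) =
        finFunctionFinEquiv (fun j => (⟨d' j, hlt d' hd' j⟩ : Fin Q)) := by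
      refine Fin.ext ?_
      rw [finFunctionFinEquiv_apply, finFunctionFinEquiv_apply]
      exact h1
    have h3 := finFunctionFinEquiv.injective h2
    ext j
    exact congrArg Fin.val (congrFun h3 j)
  have hle : ∀ d ∈ f.support, e d ≤ M * Q ^ (u - 1) := fun d hd => by
    refine le_trans ?_ (Nat.mul_le_mul_right _ (hsum d hd))
    rw [Finset.sum_mul]
    refine Finset.sum_le_sum fun j _ => Nat.mul_le_mul_left _ ?_
    exact Nat.pow_le_pow_right (by omega) (by have := j.2; omega)
  set P : F[X] := ∑ d ∈ f.support, monomial (e d) (f.coeff d) with hP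
  have hdeg : P.natDegree ≤ M * Q ^ (u - 1) :=
    natDegree_sum_le_of_forall_le _ _ fun d hd => (natDegree_monomial_le _).trans (hle d hd)
  have hev : ∀ x : F, P.eval x = MvPolynomial.eval (fun j : Fin u => x ^ Q ^ (j : ℕ)) f := by
    intro x
    rw [hP, eval_finsetSum, MvPolynomial.eval_eq']
    refine Finset.sum_congr rfl fun d _ => ?_
    rw [eval_monomial, he, ← Finset.prod_pow_eq_pow_sum]
    congr 1
    refine Finset.prod_congr rfl fun j _ => ?_
    rw [← pow_mul, mul_comm]
  have hP0 : P = 0 := by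
    refine eq_zero_of_natDegree_lt_card_of_eval_eq_zero P
      (f := fun i : Fin (orderOf ζ) => ζ ^ (i : ℕ)) (fun a b hab => ?_) (fun i => ?_) ?_
    · exact Fin.ext (pow_injOn_Iio_orderOf a.2 b.2 hab)
    · rw [hev, h]
    · rw [Fintype.card_fin]
      exact hdeg.trans_lt hM'
  by_contra hne
  obtain ⟨d, hd⟩ := MvPolynomial.support_nonempty.2 hne
  have h1 : P.coeff (e d) = f.coeff d := by
    rw [hP, finsetSum_coeff, Finset.sum_eq_single d]
    · rw [coeff_monomial_same]
    · intro d' hd' hne'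
      exact coeff_monomial_of_ne _ fun h2 => hne' (hinj _ hd _ hd' h2).symm
    · intro h2
      exact absurd hd h2
  rw [hP0, coeff_zero] at h1
  exact MvPolynomial.mem_support_iff.1 hd h1.symm

end Pool.Agent.Lib.MP_6adaea_nt.G
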