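import Pool.Agent.Lib.MP_6adaea_nt.G.TorsDefs

/-!
The torsion modules of a Drinfeld module over a separably closed field are free.
-/

set_option linter.unusedSectionVars false

namespace Pool.Agent.Lib.MP_6adaea_nt.G
open Matrix Polynomial

variable {k : Type} [Field k] [Finite k] {Ω : Type} [Field Ω] [Algebra k Ω]
  {θ : Ω} {r : ℕ} {g : ℕ → Ω} {φ : Ω →ₗ[k] Ω}

theorem tors_base (hφ : IsDr θ r g φ) (hr : 0 < r) (hg : g r ≠ 0) :
    ∃ F : Polynomial Ω, (∀ y, F.eval y = φ y) ∧ F.natDegree = Nat.card k ^ r ∧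
      derivative F = C θ := by
  have hq : 1 < Nat.card k := Finite.one_lt_card
  have h0 : (Nat.card k : Ω) = 0 := by
    have := Fintype.ofFinite k
    rw [← map_natCast (algebraMap k Ω), Nat.card_eq_fintype_card, FiniteField.cast_card_eq_zero,
      map_zero]
  obtain ⟨r, rfl⟩ : ∃ s, r = s + 1 := ⟨r - 1, by omega⟩
  refine ⟨C θ * X + ∑ i ∈ Finset.Icc 1 (r + 1), C (g i) * X ^ (Nat.card k ^ i), fun y => ?_, ?_, ?_⟩
  · rw [hφ y]
    simp [eval_finsetSum]
  · rw [Finset.sum_Icc_succ_top (by omega), ← add_assoc, natDegree_add_eq_right_of_natDegree_lt,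
      natDegree_C_mul_X_pow _ _ hg]
    rw [natDegree_C_mul_X_pow _ _ hg]
    refine lt_of_le_of_lt (natDegree_add_le_of_degree_le ?_ ?_) (Nat.pow_lt_pow_right hq r.lt_succ_self)
    · exact ((natDegree_C_mul_le _ _).trans natDegree_X_le).trans (Nat.one_le_pow _ _ (by omega))
    · exact natDegree_sum_le_of_forall_le _ _ fun i hi => (natDegree_C_mul_X_pow_le _ _).trans
        (Nat.pow_le_pow_right hq.le (Finset.mem_Icc.1 hi).2)
  · rw [derivative_add, derivative_C_mul_X, derivative_sum, Finset.sum_eq_zero, add_zero]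
    intro i hi
    rw [derivative_C_mul_X_pow, Nat.cast_pow, h0, zero_pow (by have := (Finset.mem_Icc.1 hi).1; omega),
      mul_zero, C_0, zero_mul]

/-- the polynomial of `φ_a`: iterate the composition of the polynomial of `φ` (degree `q ^ r`,
derivative `C θ`) for `a = X ^ i`, then sum up -/
theorem exists_poly (hφ : IsDr θ r g φ) (hr : 0 < r) (hg : g r ≠ 0) {a : k[X]} (ha : a ≠ 0) :
    ∃ Φ : Polynomial Ω, (∀ y, Φ.eval y = aeval φ a y) ∧ Φ.natDegree = Nat.card k ^ (r * a.natDegree) ∧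
      derivative Φ = C (aeval θ a) := by
  obtain ⟨F, hF1, hF2, hF3⟩ := tors_base hφ hr hg
  have hq : 1 < Nat.card k := Finite.one_lt_card
  induction hn : a.natDegree generalizing a with
  | zero =>
    obtain ⟨c, rfl⟩ := natDegree_eq_zero.1 hn
    have hc : algebraMap k Ω c ≠ 0 := (_root_.map_ne_zero _).2 (C_ne_zero.1 ha)
    refine ⟨C (algebraMap k Ω c) * X, fun y => ?_, ?_, ?_⟩
    · simp [Algebra.smul_def]
    · rw [natDegree_C_mul_X _ hc, mul_zero, pow_zero]
    · simp
  | succ n ih =>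
    have hb : a.divX ≠ 0 := fun h => by
      rw [divX_eq_zero_iff.1 h, natDegree_C] at hn
      omega
    obtain ⟨Φ, h1, h2, h3⟩ := ih hb (by rw [natDegree_divX_eq_natDegree_tsub_one, hn]; rfl)
    have he := a.divX_mul_X_add
    generalize a.divX = b at *
    generalize a.coeff 0 = c at he
    subst he
    have hd : (Φ.comp F).natDegree = Nat.card k ^ (r * (n + 1)) := by
      rw [natDegree_comp, h2, hF2, mul_add, mul_one, pow_add]
    refine ⟨Φ.comp F + C (algebraMap k Ω c) * X, fun y => ?_, ?_, ?_⟩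
    · simp [h1, hF1, Algebra.smul_def]
    · rw [natDegree_add_eq_left_of_natDegree_lt, hd]
      rw [hd]
      exact ((natDegree_C_mul_le _ _).trans natDegree_X_le).trans_lt
        (Nat.one_lt_pow (by positivity) hq)
    · rw [derivative_add, derivative_comp, h3, hF3]
      rw [C_comp, derivative_C_mul_X, map_add, map_mul, aeval_X, aeval_C, C_add, C_mul, mul_comm]

theorem tors_sep {Φ : Polynomial Ω} {u : Ω} (hu : u ≠ 0) (h : derivative Φ = C u) : Φ.Separable := by
  rw [separable_def, h]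
  exact ⟨0, C u⁻¹, by rw [zero_mul, zero_add, ← C_mul, inv_mul_cancel₀ hu, C_1]⟩

/-- `Φ - C y` is separable of positive degree -/
theorem exists_div [IsSepClosed Ω] (hφ : IsDr θ r g φ) (hr : 0 < r) (hg : g r ≠ 0)
    (hθ : Transcendental k θ) {a : k[X]} (ha : a ≠ 0) (y : Ω) : ∃ x, aeval φ a x = y := by
  obtain ⟨Φ, h1, h2, h3⟩ := exists_poly hφ hr hg ha
  have hu : aeval θ a ≠ 0 := fun h => ha (transcendental_iff.1 hθ a h)
  have hd : 0 < (Φ - C y).natDegree := by
    rw [natDegree_sub_C, h2]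
    exact pow_pos Nat.card_pos _
  obtain ⟨x, hx⟩ := IsSepClosed.exists_root (Φ - C y) (natDegree_pos_iff_degree_pos.1 hd).ne'
    (tors_sep hu (by rw [derivative_sub, derivative_C, sub_zero, h3]))
  rw [IsRoot, eval_sub, eval_C, h1, sub_eq_zero] at hx
  exact ⟨x, hx⟩

theorem card_tors [IsSepClosed Ω] (hφ : IsDr θ r g φ) (hr : 0 < r) (hg : g r ≠ 0)
    (hθ : Transcendental k θ) {a : k[X]} (ha : a ≠ 0) :
    Nat.card {y : Ω // aeval φ a y = 0} = Nat.card k ^ (r * a.natDegree) := by
  obtain ⟨Φ, h1, h2, h3⟩ := exists_poly hφ hr hg ha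
  have hu : aeval θ a ≠ 0 := fun h => ha (transcendental_iff.1 hθ a h)
  have hs := tors_sep hu h3
  rw [← h2, ← card_rootSet_eq_natDegree (K := Ω) hs
    (by simpa using IsSepClosed.splits_of_separable Φ hs), ← Nat.card_eq_fintype_card]
  refine Nat.card_congr (Equiv.subtypeEquivRight fun y => ?_)
  rw [mem_rootSet_of_ne hs.ne_zero, coe_aeval_eq_eval, h1]

theorem tors_prime {M : Type} [AddCommGroup M] [Module k[X] M] {P : k[X]} (hP : Prime P)
    (h : Nat.card {y : M // P • y = 0} = Nat.card k ^ (r * P.natDegree)) :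
    ∃ x : Fin r → M, (∀ j, P • x j = 0) ∧ ∀ c : Fin r → k[X], ∑ j, c j • x j = 0 → ∀ j, P ∣ c j := by
  have hm : (Ideal.span {P}).IsMaximal := PrincipalIdealRing.isMaximal_of_irreducible hP.irreducible
  let _ := Ideal.Quotient.field (Ideal.span {P})
  have hc : Nat.card (Submodule.torsionBy k[X] M P) = Nat.card k ^ (r * P.natDegree) := h
  have hK : Nat.card (k[X] ⧸ Ideal.span {P}) = Nat.card k ^ P.natDegree :=
    card_adjoinRoot hP.ne_zero
  have hf : Finite (Submodule.torsionBy k[X] M P) :=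
    Nat.finite_of_card_ne_zero (by rw [hc]; exact (pow_pos Nat.card_pos _).ne')
  have h1 : Module.finrank (k[X] ⧸ Ideal.span {P}) (Submodule.torsionBy k[X] M P) = r := by
    rw [Module.natCard_eq_pow_finrank (K := k[X] ⧸ Ideal.span {P}), hK, ← pow_mul, mul_comm r] at hc
    exact Nat.eq_of_mul_eq_mul_left hP.irreducible.natDegree_pos
      (Nat.pow_right_injective (Finite.one_lt_card (α := k)) hc)
  let b := Module.finBasisOfFinrankEq _ _ h1
  refine ⟨fun j => b j, fun j => (b j).2, fun c hc j => ?_⟩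
  rw [← Ideal.mem_span_singleton, ← Ideal.Quotient.eq_zero_iff_mem]
  refine Fintype.linearIndependent_iff.1 b.linearIndependent
    (fun j => Ideal.Quotient.mk (Ideal.span {P}) (c j)) (Subtype.ext ?_) j
  simpa using hc

theorem tors_indep {M : Type} [AddCommGroup M] [Module k[X] M]
    (hdiv : ∀ a : k[X], a ≠ 0 → ∀ y : M, ∃ x, a • x = y)
    (h : ∀ a : k[X], a ≠ 0 → Nat.card {y : M // a • y = 0} = Nat.card k ^ (r * a.natDegree))
    {a : k[X]} (ha : a ≠ 0) :
    ∃ x : Fin r → M, (∀ j, a • x j = 0) ∧ ∀ c : Fin r → k[X], ∑ j, c j • x j = 0 → ∀ j, a ∣ c j := by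
  induction a using UniqueFactorizationMonoid.induction_on_prime with
  | h₁ => exact absurd rfl ha
  | h₂ a hu => exact ⟨0, fun _ => smul_zero _, fun _ _ _ => hu.dvd⟩
  | h₃ a P ha' hP ih =>
    obtain ⟨x, hx1, hx2⟩ := ih ha'
    have key : ∀ (u : k[X]) (c : Fin r → k[X]) (z : Fin r → M), ∑ j, c j • z j = 0 →
        ∑ j, c j • u • z j = 0 := fun u c z hz => by
      simp only [smul_comm _ u, ← Finset.smul_sum, hz, smul_zero]
    by_cases hd : P ∣ a
    · choose x' hx' using fun j => hdiv P hP.ne_zero (x j)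
      obtain ⟨b, rfl⟩ := hd
      refine ⟨x', fun j => by rw [mul_comm, mul_smul, hx', hx1], fun c hc j => ?_⟩
      have h1 := key P c x' hc
      simp only [hx'] at h1
      choose d hd using hx2 c h1
      have h2 := hx2 (fun j => b * d j) (by
        rw [← hc]
        refine Finset.sum_congr rfl fun j _ => ?_
        rw [← hx', smul_smul, hd]
        congr 1
        ring) j
      rw [hd, mul_comm P (P * b)]
      refine mul_dvd_mul_left _ ?_
      rw [mul_comm P b] at h2
      exact (mul_dvd_mul_iff_left (right_ne_zero_of_mul ha')).1 h2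
    · obtain ⟨y, hy1, hy2⟩ := tors_prime hP (h P hP.ne_zero)
      have hc : IsCoprime P a := (hP.irreducible.coprime_iff_not_dvd).2 hd
      refine ⟨fun j => x j + y j, fun j => ?_, fun c hs j => hc.mul_dvd ?_ ?_⟩
      · rw [smul_add, mul_smul, hx1, mul_comm, mul_smul, hy1, smul_zero, smul_zero, add_zero]
      · have h1 := key a c _ hs
        simp only [smul_add, hx1, zero_add, smul_smul] at h1
        exact hc.dvd_of_dvd_mul_right (hy2 _ (by simpa using h1) j)
      · have h1 := key P c _ hs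
        simp only [smul_add, hy1, add_zero, smul_smul] at h1
        exact hc.symm.dvd_of_dvd_mul_right (hx2 _ (by simpa using h1) j)

/-- Induction on the prime factors of `a`. For a prime `P` choose `x j` greedily (the span of
`i < r` points has at most `q ^ (i * deg P)` elements, `card_tors`). From `a` to `a * P`: if
`P ∣ a` take `x' j` with `φ_P (x' j) = x j` (`exists_div`); otherwise add a basis for `P`. -/
theorem exists_indep [IsSepClosed Ω] (hφ : IsDr θ r g φ) (hr : 0 < r) (hg : g r ≠ 0)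
    (hθ : Transcendental k θ) {a : k[X]} (ha : a ≠ 0) :
    ∃ x : Fin r → Ω, (∀ j, aeval φ a (x j) = 0) ∧
      ∀ c : Fin r → k[X], ∑ j, aeval φ (c j) (x j) = 0 → ∀ j, a ∣ c j := by
  let _ : Module k[X] Ω := Module.compHom Ω (aeval φ).toRingHom
  exact tors_indep (M := Ω) (fun _ h => exists_div hφ hr hg hθ h)
    (fun _ h => card_tors hφ hr hg hθ h) ha

/-- `e v = ∑ j, φ_(c j) (x j)` for lifts `c j` of `v j`; injective by `exists_indep`, onto the
torsion by counting (`card_tors`, `card_adjoinRoot`) -/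
theorem exists_coord [IsSepClosed Ω] (hφ : IsDr θ r g φ) (hr : 0 < r) (hg : g r ≠ 0)
    (hθ : Transcendental k θ) {a : k[X]} (ha : a ≠ 0) : Nonempty (Coord φ a (Fin r)) := by
  obtain ⟨x, hx1, hx2⟩ := exists_indep hφ hr hg hθ ha
  let F : (Fin r → k[X]) →+ (Fin r → AdjoinRoot a) :=
    (AdjoinRoot.mk a).toAddMonoidHom.compLeft (Fin r)
  have hF : Function.Surjective F := AdjoinRoot.mk_surjective.comp_left
  let G : (Fin r → k[X]) →+ Ω :=
    { toFun := fun c => ∑ j, aeval φ (c j) (x j)
      map_zero' := by simp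
      map_add' := fun c d => by simp [Finset.sum_add_distrib] }
  have hk : F.ker ≤ G.ker := fun c hc => by
    show ∑ j, aeval φ (c j) (x j) = 0
    refine Finset.sum_eq_zero fun j _ => ?_
    obtain ⟨d, hd⟩ := AdjoinRoot.mk_eq_zero.1 (congrFun hc j)
    rw [hd, mul_comm, map_mul, Module.End.mul_apply, hx1, map_zero]
  let e := F.liftOfSurjective hF ⟨G, hk⟩
  have he : ∀ c, e (F c) = ∑ j, aeval φ (c j) (x j) := fun c =>
    F.liftOfRightInverse_comp_apply _ _ ⟨G, hk⟩ c
  have hs : ∀ (c : k[X]) v, e (AdjoinRoot.mk a c • v) = aeval φ c (e v) := fun c v => by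
    obtain ⟨d, rfl⟩ := hF v
    have h1 : AdjoinRoot.mk a c • F d = F fun j => c * d j :=
      funext fun j => (map_mul (AdjoinRoot.mk a) c (d j)).symm
    rw [h1, he, he, map_sum]
    simp only [map_mul, Module.End.mul_apply]
  have hi : Function.Injective e := (injective_iff_map_eq_zero e).2 fun v hv => by
    obtain ⟨d, rfl⟩ := hF v
    rw [he] at hv
    exact funext fun j => AdjoinRoot.mk_eq_zero.2 (hx2 d hv j)
  have ht : ∀ v, aeval φ a (e v) = 0 := fun v => by
    rw [← hs, AdjoinRoot.mk_self, zero_smul, map_zero]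
  have hc := card_tors hφ hr hg hθ ha
  have hf : Finite {y : Ω // aeval φ a y = 0} :=
    Nat.finite_of_card_ne_zero (by rw [hc]; exact (pow_pos Nat.card_pos _).ne')
  have hb := (show Function.Injective fun v => (⟨e v, ht v⟩ : {y : Ω // aeval φ a y = 0}) from
    fun v w h => hi (congrArg Subtype.val h)).bijective_of_nat_card_le (by
      rw [hc, Nat.card_fun, card_adjoinRoot ha, ← pow_mul, Nat.card_fin, mul_comm])
  refine ⟨⟨e, hi, fun y => ⟨fun hy => ?_, ?_⟩, hs⟩⟩
  · obtain ⟨v, hv⟩ := hb.2 ⟨y, hy⟩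
    exact ⟨v, congrArg Subtype.val hv⟩
  · rintro ⟨v, rfl⟩
    exact ht v

end Pool.Agent.Lib.MP_6adaea_nt.G
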