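import Pool.Agent.Lib.MP_6adaea_nt.G.Goursat

/-!
Drinfeld modules on a field, coordinates on torsion modules and Galois representations.
-/

set_option linter.unusedSectionVars false

namespace Pool.Agent.Lib.MP_6adaea_nt.G
open Matrix Polynomial

variable {k : Type} [Field k] {Ω : Type} [Field Ω] [Algebra k Ω]

/-- `φ x = θ x + g 1 x ^ q + ⋯ + g r x ^ q ^ r` -/
def IsDr (θ : Ω) (r : ℕ) (g : ℕ → Ω) (φ : Ω →ₗ[k] Ω) : Prop :=
  ∀ x, φ x = θ * x + ∑ i ∈ Finset.Icc 1 r, g i * x ^ (Nat.card k ^ i)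

/-- an isomorphism of `k[X]`-modules from `(k[X] / a) ^ n` to the `a`-torsion of `φ` -/
structure Coord (φ : Ω →ₗ[k] Ω) (a : k[X]) (n : Type) where
  e : (n → AdjoinRoot a) →+ Ω
  inj : Function.Injective e
  range : ∀ y, aeval φ a y = 0 ↔ ∃ v, e v = y
  smul : ∀ (c : k[X]) v, e (AdjoinRoot.mk a c • v) = aeval φ c (e v)

/-- `ρ` is the matrix representation on the `a`-torsion in the coordinates `E` -/
def IsRep {L : Type} [Field L] [Algebra L Ω] {φ : Ω →ₗ[k] Ω} {a : k[X]} {n : Type} [Fintype n]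
    [DecidableEq n] (E : Coord φ a n) (ρ : (Ω ≃ₐ[L] Ω) →* GL n (AdjoinRoot a)) : Prop :=
  ∀ σ v, σ (E.e v) = E.e ((ρ σ).val *ᵥ v)

end Pool.Agent.Lib.MP_6adaea_nt.G
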