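import Pool.Agent.Lib.MP_6adaea_nt.G.TorusFam

/-!
An element whose eigenvalues are powers of a root of unity of large order with exponents of small
digits gives a dense family in a torus.
-/

set_option linter.unusedSectionVars false

namespace Pool.Agent.Lib.MP_6adaea_nt.G
open Matrix Polynomial

variable {n : Type} [Fintype n] [DecidableEq n] {F : Type} [Field F]

/-- Let `Q = card k = p ^ a`, `s = g ^ Q ^ (u * j)` with `j = card n`; then
`s ^ m = ∑ μ, (l ^ Q ^ (u * j)) ^ m • (ζ ^ m) ^ (exponent of μ) • ε μ` since `ζ ^ Q ^ u = ζ`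
(`l ≠ 0` since `g` is invertible; `u ≠ 0` and `0 < c` follow from the hypotheses).
Apply `torus_fam` with `M = Q / (2 * c)` and then `count n (u * D) (4 * c)`. -/
theorem torus (n : Type) [Fintype n] [DecidableEq n] [Nontrivial n] (D c u : ℕ) :
    ∃ B : ℕ, ∀ (k F : Type) [Field k] [Finite k] [Field F] [IsAlgClosed F] (ι : k →+* F),
      B < Nat.card k → ∀ H N : Subgroup (GL n k), (∀ h ∈ H, ∀ ν ∈ N, h * ν * h⁻¹ ∈ N) →
      Big (H.map (red ι)) → ∀ g ∈ N, ∀ ζ l : F, ζ ^ (Nat.card k ^ u - 1) = 1 →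
      Nat.card k ^ u ≤ c * orderOf ζ →
      (∀ μ, (g.val.map ι).charpoly.IsRoot μ → ∃ e : Fin u → ℕ, (∀ j, e j ≤ D) ∧
        μ = l * ζ ^ (∑ j, e j * Nat.card k ^ (j : ℕ))) →
      ∀ μ μ', μ ≠ μ' → (g.val.map ι).charpoly.IsRoot μ → (g.val.map ι).charpoly.IsRoot μ' →
      HasSL N := by
  classical
  obtain ⟨B, hB⟩ := count n (u * D) (4 * c)
  refine ⟨B + 2 * c, fun k F _ _ _ _ ι hk H N hN hH g hg ζ l hζ hc hr μ μ' hne hμ hμ' => ?_⟩
  have := Fintype.ofFinite k
  obtain ⟨p, hp⟩ := CharP.exists k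
  obtain ⟨a, hpp, ha⟩ := FiniteField.card k p
  rw [← Nat.card_eq_fintype_card] at ha
  have : Fact p.Prime := ⟨hpp⟩
  have : CharP F p := charP_of_injective_ringHom ι.injective p
  have hQ : 1 < Nat.card k := Finite.one_lt_card
  choose! e he he' using hr
  have hu : 0 < u := Nat.pos_of_ne_zero fun h => hne (by
    subst h
    rw [he' μ hμ, he' μ' hμ']
    simp)
  have hl : l ≠ 0 := fun h => hne (by rw [he' μ hμ, he' μ' hμ', h, zero_mul, zero_mul])
  have hQu : 0 < Nat.card k ^ u := by positivity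
  have hc0 : 0 < c := Nat.pos_of_mul_pos_right (hQu.trans_le hc)
  have ho : 0 < orderOf ζ := Nat.pos_of_mul_pos_left (hQu.trans_le hc)
  have h1 : ζ ^ Nat.card k ^ u = ζ := by
    rw [← Nat.sub_add_cancel hQu, pow_succ, hζ, one_mul]
  have h2 : ∀ j : ℕ, ζ ^ (Nat.card k ^ u) ^ j = ζ := fun j => by
    induction j with
    | zero => simp
    | succ j ih => rw [pow_succ, pow_mul, ih, h1]
  have h3 : p ^ (a * u * Fintype.card n) = (Nat.card k ^ u) ^ Fintype.card n := by
    rw [ha, pow_mul, pow_mul]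
  obtain ⟨ε, hε, hind⟩ := exists_spectral p (g.val.map ι) (a * u * Fintype.card n) (by
    rw [h3]
    exact (Nat.lt_pow_self (Nat.one_lt_pow hu.ne' hQ)).le)
  rw [h3] at hε
  set S := (g.val.map ι).charpoly.roots.toFinset with hS
  have hmem : ∀ x, x ∈ S ↔ (g.val.map ι).charpoly.IsRoot x := fun x => by
    rw [hS, Multiset.mem_toFinset, mem_roots (Matrix.charpoly_monic _).ne_zero]
  have h4 : 2 * c * (Nat.card k / (2 * c)) ≤ Nat.card k := Nat.mul_div_le _ _
  have h5 : Nat.card k < 2 * c * (Nat.card k / (2 * c) + 1) := Nat.lt_mul_div_succ _ (by omega)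
  have h6 : 1 ≤ Nat.card k / (2 * c) := (Nat.le_div_iff_mul_le (by omega)).2 (by omega)
  generalize Nat.card k / (2 * c) = M at h4 h5 h6
  have h7 : M * Nat.card k ^ (u - 1) < orderOf ζ := by
    have h8 : Nat.card k ^ u = Nat.card k * Nat.card k ^ (u - 1) := by
      rw [← pow_succ', Nat.sub_add_cancel hu]
    have h9 := Nat.mul_le_mul_right (Nat.card k ^ (u - 1)) h4
    have h10 : c * (2 * (M * Nat.card k ^ (u - 1))) ≤ c * orderOf ζ := by
      calc c * (2 * (M * Nat.card k ^ (u - 1))) = 2 * c * M * Nat.card k ^ (u - 1) := by ring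
        _ ≤ _ := by rw [h8] at hc; exact h9.trans hc
    have h11 := Nat.le_of_mul_le_mul_left h10 hc0
    omega
  obtain ⟨X0, hX, ⟨Φ⟩⟩ := torus_fam p (a := a) (u := u) (D := D) (M := M) a.pos
    (fun b : S => ε b) (ζ := ζ) (by
      have h8 := hε 1
      simp only [map_one, eval_one, one_smul] at h8
      rw [h8, Finset.sum_coe_sort])
    (fun d hd b b' => by
      have h8 := hind (fun x => if h : x ∈ S then d ⟨x, h⟩ else 0) (by
        rw [← Finset.sum_coe_sort]
        simpa using hd) b (Multiset.mem_toFinset.1 b.2) b' (Multiset.mem_toFinset.1 b'.2)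
      simpa using h8)
    (by rw [← ha]; exact hζ) (by rw [← ha]; nlinarith) (by rw [← ha]; exact h7)
    (fun b : S => e b) (fun b => he b ((hmem b).1 b.2))
    ⟨⟨μ, (hmem μ).2 hμ⟩, ⟨μ', (hmem μ').2 hμ'⟩, fun h => hne (by
      have h8 : e μ = e μ' := h
      rw [he' μ hμ, h8, ← he' μ' hμ'])⟩
    ((fun ν : GL n k => ν.val.map ι) '' N) (fun m => by
      refine ⟨((l ^ (Nat.card k ^ u) ^ Fintype.card n) ^ m)⁻¹, _,
        ⟨(g ^ (Nat.card k ^ u) ^ Fintype.card n) ^ m, N.pow_mem (N.pow_mem hg _) m, rfl⟩, ?_⟩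
      have h8 := hε (X ^ m)
      rw [map_pow, aeval_X, ← Finset.sum_coe_sort] at h8
      rw [eq_inv_smul_iff₀ (pow_ne_zero _ (pow_ne_zero _ hl)), Finset.smul_sum]
      beta_reduce
      rw [Units.val_pow_eq_pow_val, Units.val_pow_eq_pow_val, Matrix.map_pow, Matrix.map_pow, h8,
        ← ha]
      refine Finset.sum_congr rfl fun b _ => ?_
      have h9 : (b : F) ^ (Nat.card k ^ u) ^ Fintype.card n = l ^ (Nat.card k ^ u) ^ Fintype.card n *
          ζ ^ ∑ j, e b j * Nat.card k ^ (j : ℕ) := by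
        conv_lhs => rw [he' b ((hmem b).1 b.2), mul_pow, pow_right_comm ζ, h2]
      rw [smul_smul, eval_pow, eval_X, h9, mul_pow, pow_right_comm ζ])
  exact hB k F ι (by omega) H N hN hH M X0 hX (by nlinarith) Φ

end Pool.Agent.Lib.MP_6adaea_nt.G
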