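import Pool.Agent.Lib.MP_6adaea_nt.G.Spec

/-!
Dense families in a torus.
-/

set_option linter.unusedSectionVars false

namespace Pool.Agent.Lib.MP_6adaea_nt.G
open Matrix Polynomial

variable {n : Type} [Fintype n] [DecidableEq n] {F : Type} [Field F]

/-- polynomial functions of bounded total degree -/
noncomputable def mvFn (F : Type) [Field F] (u d : ℕ) : Submodule F ((Fin u → F) → F) :=
  (MvPolynomial.restrictTotalDegree (Fin u) F d).map
    (MvPolynomial.aeval (fun (j : Fin u) (t : Fin u → F) => t j)).toLinearMap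

lemma mvFn_aeval {u : ℕ} (P : MvPolynomial (Fin u) F) (t : Fin u → F) :
    MvPolynomial.aeval (fun (j : Fin u) (t : Fin u → F) => t j) P t = MvPolynomial.eval t P := by
  induction P using MvPolynomial.induction_on with
  | C a => simp
  | add P P' h h' => simp [h, h']
  | mul_X P j h => simp [h]

lemma mem_mvFn {u d : ℕ} {f : (Fin u → F) → F} :
    f ∈ mvFn F u d ↔
      ∃ P : MvPolynomial (Fin u) F, P.totalDegree ≤ d ∧ ∀ t, f t = MvPolynomial.eval t P := by
  simp only [mvFn, Submodule.mem_map, MvPolynomial.mem_restrictTotalDegree,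
    AlgHom.toLinearMap_apply]
  refine exists_congr fun P => and_congr_right fun _ => ?_
  rw [eq_comm, funext_iff]
  simp only [mvFn_aeval]

lemma divX_one_add_pow (k : ℕ) (s : F) :
    (1 + s) ^ k = 1 + s * eval s (divX ((1 + X : F[X]) ^ k)) := by
  have h := congrArg (eval s) (X_mul_divX_add ((1 + X : F[X]) ^ k))
  rw [coeff_one_add_X_pow] at h
  simp only [eval_add, eval_mul, eval_X, eval_C, eval_pow, eval_one, Nat.choose_zero_right,
    Nat.cast_one] at h
  rw [← h]; ring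

lemma divX_one_add_pow_zero (k : ℕ) :
    eval (0 : F) (divX ((1 + X : F[X]) ^ k)) = k := by
  rw [← coeff_zero_eq_eval_zero, coeff_divX, coeff_one_add_X_pow]
  simp

/-- The family when some exponent `e b i` is prime to `p` and `e b' i = 0`. Parameter space
`Fin u → F` with the polynomial functions of bounded total degree (image of
`MvPolynomial.restrictTotalDegree` under evaluation), `Ψ t = ∑ b, (∏ j, t j ^ e b j) • ε b`,
`γ s = update 1 i (1 + s)`, `V = ∑ b, divX ((1 + X) ^ e b i) • ε b`, tangent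
`∑ b, (e b i : F) • ε b`. -/
theorem torus_fam_aux (p : ℕ) [Fact p.Prime] [CharP F p] {Q u D M : ℕ} {B : Type} [Fintype B]
    (ε : B → Matrix n n F) (hsum : ∑ b, ε b = 1)
    (hind : ∀ c : B → F, Scal (∑ b, c b • ε b) → ∀ b b', c b = c b') {ζ : F} (hM : M < Q)
    (hM' : M * Q ^ (u - 1) < orderOf ζ) (e : B → Fin u → ℕ) (he : ∀ b j, e b j ≤ D)
    {b b' : B} {i : Fin u} (hb : ¬p ∣ e b i) (hb' : e b' i = 0) (N : Set (Matrix n n F))
    (hN : ∀ m : ℕ, ∃ c : F, ∃ ν ∈ N,
      ∑ b, (ζ ^ m) ^ (∑ j, e b j * Q ^ (j : ℕ)) • ε b = c • ν) :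
    ∃ X0, ¬Scal X0 ∧ Nonempty (Fam (u * D) M N X0) := by
  classical
  refine ⟨∑ b, ((e b i : ℕ) : F) • ε b, fun hs => hb ?_, ⟨{
    T := Fin u → F
    A := mvFn F u
    one_mem := mem_mvFn.mpr ⟨1, by simp, by simp⟩
    mul_mem := fun hf hg => ?_
    mono := fun d d' hd f hf => ?_
    Λ := Set.range fun (m : ℕ) (j : Fin u) => (ζ ^ m) ^ Q ^ (j : ℕ)
    dense := fun f hf h => ?_
    Ψ := fun t => ∑ b, (∏ j, t j ^ e b j) • ε b
    deg := fun x y => ?_
    val := ?_
    γ := fun s => Function.update 1 i (1 + s)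
    V := Matrix.of fun x y => ∑ b, divX ((1 + X : F[X]) ^ e b i) * C (ε b x y)
    curve := fun s => ?_
    tangent := ?_ }⟩⟩
  · have h := hind (fun b => ((e b i : ℕ) : F)) hs b b'
    simp only [hb', Nat.cast_zero] at h
    exact (CharP.cast_eq_zero_iff F p _).mp h
  · obtain ⟨P, hP, hf⟩ := mem_mvFn.mp hf
    obtain ⟨P', hP', hg⟩ := mem_mvFn.mp hg
    exact mem_mvFn.mpr ⟨P * P', (MvPolynomial.totalDegree_mul _ _).trans (add_le_add hP hP'),
      by simp [hf, hg]⟩
  · obtain ⟨P, hP, hf⟩ := mem_mvFn.mp hf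
    exact mem_mvFn.mpr ⟨P, hP.trans hd, hf⟩
  · obtain ⟨P, hP, hf⟩ := mem_mvFn.mp hf
    have h0 : P = 0 := twisted_dense hM hM' P hP fun m => by
      rw [← hf]
      exact h _ ⟨m, rfl⟩
    funext t
    simp [hf, h0]
  · refine mem_mvFn.mpr ⟨∑ b, MvPolynomial.C (ε b x y) * ∏ j, MvPolynomial.X j ^ e b j, ?_,
      fun t => ?_⟩
    · refine MvPolynomial.totalDegree_finsetSum_le fun b _ => ?_
      refine (MvPolynomial.totalDegree_mul _ _).trans ?_
      rw [MvPolynomial.totalDegree_C, zero_add]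
      refine (MvPolynomial.totalDegree_finsetProd _ _).trans ?_
      calc ∑ j, (MvPolynomial.X j ^ e b j : MvPolynomial (Fin u) F).totalDegree
          ≤ ∑ _j : Fin u, D := Finset.sum_le_sum fun j _ => by
            rw [MvPolynomial.totalDegree_X_pow]
            exact he b j
        _ = u * D := by simp
    · simp [Matrix.sum_apply, mul_comm]
  · rintro _ ⟨m, rfl⟩
    obtain ⟨c, ν, hν, h⟩ := hN m
    refine ⟨c, ν, hν, ?_⟩
    rw [← h]
    refine Finset.sum_congr rfl fun b _ => ?_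
    rw [← Finset.prod_pow_eq_pow_sum]
    congr 1
    refine Finset.prod_congr rfl fun j _ => ?_
    rw [← pow_mul, mul_comm]
  · have h1 : ∀ b, ∏ j, (Function.update (1 : Fin u → F) i (1 + s) j) ^ e b j =
        1 + s * eval s (divX ((1 + X : F[X]) ^ e b i)) := fun b => by
      rw [← divX_one_add_pow, Finset.prod_eq_single i]
      · simp
      · intro j _ hj
        simp [Function.update_of_ne hj]
      · simp
    simp only [h1, add_smul, one_smul, Finset.sum_add_distrib, hsum]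
    congr 1
    ext x y
    simp [Matrix.sum_apply, eval_finsetSum, Finset.mul_sum, mul_assoc]
  · ext x y
    simp [Matrix.sum_apply, eval_finsetSum, divX_one_add_pow_zero]

/-- Strong induction on `∑ b, ∑ j, e b j`. Subtract `min_b (e b j)` (a scalar twist, `ζ ≠ 0`).
If all exponents are divisible by `p`, divide by `p` (`ζ ^ m = (ζ ^ m') ^ p` with
`m' = m * p ^ (a * u - 1)` since `ζ ^ Q ^ u = ζ`). Otherwise use `torus_fam_aux`. -/
theorem torus_fam (p : ℕ) [Fact p.Prime] [CharP F p] {a u D M : ℕ} (ha : 0 < a) {B : Type}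
    [Fintype B] (ε : B → Matrix n n F) (hsum : ∑ b, ε b = 1)
    (hind : ∀ c : B → F, Scal (∑ b, c b • ε b) → ∀ b b', c b = c b') {ζ : F}
    (hζ : ζ ^ ((p ^ a) ^ u - 1) = 1) (hM : M < p ^ a) (hM' : M * (p ^ a) ^ (u - 1) < orderOf ζ)
    (e : B → Fin u → ℕ) (he : ∀ b j, e b j ≤ D) (hne : ∃ b b', e b ≠ e b')
    (N : Set (Matrix n n F)) (hN : ∀ m : ℕ, ∃ c : F, ∃ ν ∈ N,
      ∑ b, (ζ ^ m) ^ (∑ j, e b j * (p ^ a) ^ (j : ℕ)) • ε b = c • ν) :
    ∃ X0, ¬Scal X0 ∧ Nonempty (Fam (u * D) M N X0) := by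
  classical
  have hp : p.Prime := Fact.out
  have hζ0 : ζ ≠ 0 := (orderOf_pos_iff.mp (lt_of_le_of_lt (Nat.zero_le _) hM')).isUnit.ne_zero
  have hu : 0 < u := by
    obtain ⟨b, b', h⟩ := hne
    obtain ⟨j, _⟩ := Function.ne_iff.mp h
    exact lt_of_le_of_lt (Nat.zero_le _) j.2
  have hζ1 : ζ ^ (p ^ (a * u - 1) * p) = ζ := by
    have h1 : 0 < a * u := Nat.mul_pos ha hu
    have h2 : 0 < (p ^ a) ^ u := pow_pos (pow_pos hp.pos _) _
    rw [← pow_succ, Nat.sub_add_cancel h1, pow_mul p, ← Nat.sub_add_cancel h2, pow_succ, hζ,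
      one_mul]
  obtain ⟨s, hs⟩ : ∃ s, ∑ b, ∑ j, e b j = s := ⟨_, rfl⟩
  induction s using Nat.strong_induction_on generalizing e with
  | _ s ih =>
  obtain ⟨b0, b1, h01⟩ := hne
  by_cases h1 : ∃ i, ∀ b, 1 ≤ e b i
  · obtain ⟨i, hi⟩ := h1
    have h2 : ∀ b j, e b j = (e b j - if j = i then 1 else 0) + if j = i then 1 else 0 := by
      intro b j
      by_cases hj : j = i
      · subst hj
        have := hi b
        simp only [if_true]
        omega
      · simp [hj]
    refine ih _ ?_ (fun b j => e b j - if j = i then 1 else 0)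
      (fun b j => (Nat.sub_le _ _).trans (he b j)) ⟨b0, b1, fun h => h01 ?_⟩ (fun m => ?_) rfl
    · rw [← hs]
      refine Finset.sum_lt_sum (fun b _ => Finset.sum_le_sum fun j _ => Nat.sub_le _ _)
        ⟨b0, Finset.mem_univ _, Finset.sum_lt_sum (fun j _ => Nat.sub_le _ _)
          ⟨i, Finset.mem_univ _, ?_⟩⟩
      have := hi b0
      simp only [if_true]
      omega
    · funext j
      rw [h2 b0 j, h2 b1 j, congrFun h j]
    · obtain ⟨c, ν, hν, h⟩ := hN m
      have h3 : (ζ ^ m) ^ (p ^ a) ^ (i : ℕ) ≠ 0 := pow_ne_zero _ (pow_ne_zero _ hζ0)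
      refine ⟨((ζ ^ m) ^ (p ^ a) ^ (i : ℕ))⁻¹ * c, ν, hν, ?_⟩
      rw [mul_smul, ← h, Finset.smul_sum]
      refine Finset.sum_congr rfl fun b _ => ?_
      have h4 : ∑ j, e b j * (p ^ a) ^ (j : ℕ) = (p ^ a) ^ (i : ℕ) +
          ∑ j, (e b j - if j = i then 1 else 0) * (p ^ a) ^ (j : ℕ) := by
        conv_lhs => enter [2, j]; rw [h2 b j, add_mul]
        rw [Finset.sum_add_distrib, add_comm]
        simp
      rw [h4, pow_add, smul_smul, ← mul_assoc, inv_mul_cancel₀ h3, one_mul]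
  push Not at h1
  by_cases h2 : ∀ b j, p ∣ e b j
  · have h3 : ∀ b j, e b j = p * (e b j / p) := fun b j => (Nat.mul_div_cancel' (h2 b j)).symm
    refine ih _ ?_ (fun b j => e b j / p)
      (fun b j => (Nat.div_le_self _ _).trans (he b j)) ⟨b0, b1, fun h => h01 ?_⟩
      (fun m => ?_) rfl
    · rw [← hs]
      obtain ⟨j, hj⟩ := Function.ne_iff.mp h01
      obtain ⟨b, hb⟩ : ∃ b, 0 < e b j := by
        by_contra hc
        push Not at hc
        have := hc b0
        have := hc b1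
        omega
      exact Finset.sum_lt_sum (fun b _ => Finset.sum_le_sum fun j _ => Nat.div_le_self _ _)
        ⟨b, Finset.mem_univ _, Finset.sum_lt_sum (fun j _ => Nat.div_le_self _ _)
          ⟨j, Finset.mem_univ _, Nat.div_lt_self hb hp.one_lt⟩⟩
    · funext j
      rw [h3 b0 j, h3 b1 j, congrFun h j]
    · obtain ⟨c, ν, hν, h⟩ := hN (m * p ^ (a * u - 1))
      refine ⟨c, ν, hν, ?_⟩
      rw [← h]
      refine Finset.sum_congr rfl fun b _ => ?_
      have h4 : ∑ j, e b j * (p ^ a) ^ (j : ℕ) = p * ∑ j, e b j / p * (p ^ a) ^ (j : ℕ) := by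
        rw [Finset.mul_sum]
        refine Finset.sum_congr rfl fun j _ => ?_
        rw [← mul_assoc, ← h3]
      have h5 : (ζ ^ (m * p ^ (a * u - 1))) ^ p = ζ ^ m := by
        rw [← pow_mul, mul_assoc, mul_comm m, pow_mul, hζ1]
      rw [h4, pow_mul _ p, h5]
  · push Not at h2
    obtain ⟨b, i, hb⟩ := h2
    obtain ⟨b', hb'⟩ := h1 i
    exact torus_fam_aux p ε hsum hind hM hM' e he hb (b' := b') (by omega) N hN

end Pool.Agent.Lib.MP_6adaea_nt.G
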